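import Pool.Agent.Lib.MP_0a3467_an.Cv.LowL

open Finset

namespace Pool.Agent.Lib.MP_0a3467_an.Cv

variable {s : ℕ} {H : Type}

theorem app_shift (φ : ℕ → ℝ) (a b t : ℕ) :
    ∑ x ∈ Ioc a b, φ (x + t) = ∑ x ∈ Ioc (a + t) (b + t), φ x := by
  rw [← Finset.map_add_right_Ioc, Finset.sum_map]
  rfl

theorem app_shift_le (φ : ℕ → ℝ) (D a n t : ℕ) (c : ℝ) (ht : t ≤ D)
    (hs : ∀ u, ∑ x ∈ Ioc u (u + D), |φ x| ≤ c) :
    |∑ x ∈ Ioc a (a + n), φ (x + t) - ∑ x ∈ Ioc a (a + n), φ x| ≤ 2 * c := by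
  have h1 := Finset.sum_Ioc_consecutive φ (show a ≤ a + t by omega)
    (show a + t ≤ a + n + t by omega)
  have h2 := Finset.sum_Ioc_consecutive φ (show a ≤ a + n by omega)
    (show a + n ≤ a + n + t by omega)
  have h3 : ∀ u, |∑ x ∈ Ioc u (u + t), φ x| ≤ c := fun u =>
    (Finset.abs_sum_le_sum_abs _ _).trans ((Finset.sum_le_sum_of_subset_of_nonneg
      (Finset.Ioc_subset_Ioc_right (by omega)) fun _ _ _ => abs_nonneg _).trans (hs u))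
  rw [app_shift]
  have h4 := abs_le.mp (h3 a)
  have h5 := abs_le.mp (h3 (a + n))
  rw [abs_le]
  constructor <;> linarith

theorem app_core {X : Type} [Add X] (J : Finset X) (S : Finset H) (B : Set H) (hS : S.Nonempty)
    (hSB : (S : Set H) ⊆ B) (e : (Fin s → H) → X) (K W ρ : X → ℝ) (b d : ℝ)
    (hK : ∀ x, Low B (ρ x) fun h => K (x + e h)) (hW : ∀ x, Cut S (fun h => W (x + e h)) b)
    (hd : ∀ h, (∀ r, h r ∈ S) →
      |∑ x ∈ J, K (x + e h) * W (x + e h) - ∑ x ∈ J, K x * W x| ≤ d) :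
    |∑ x ∈ J, K x * W x| ≤ (∑ x ∈ J, ρ x) * b + d := by
  set P := Fintype.piFinset fun _ : Fin s => S with hP
  set A := ∑ x ∈ J, K x * W x with hA
  have hc : (P.card : ℝ) = (S.card : ℝ) ^ s := by
    rw [hP, Fintype.card_piFinset_const]
    push_cast
    rfl
  have hpos : (0 : ℝ) < (S.card : ℝ) ^ s := pow_pos (by exact_mod_cast hS.card_pos) s
  have h1 : |∑ h ∈ P, ∑ x ∈ J, K (x + e h) * W (x + e h)| ≤
      (∑ x ∈ J, ρ x) * (b * (S.card : ℝ) ^ s) := by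
    rw [Finset.sum_comm, Finset.sum_mul]
    refine (Finset.abs_sum_le_sum_abs _ _).trans (Finset.sum_le_sum fun x _ => ?_)
    have h2 := (hK x).cut (hW x) hSB
    simp only [mul_comm (K _)]
    exact h2
  have h3 : |∑ h ∈ P, (∑ x ∈ J, K (x + e h) * W (x + e h) - A)| ≤ (S.card : ℝ) ^ s * d := by
    refine (Finset.abs_sum_le_sum_abs _ _).trans ?_
    have h4 := Finset.sum_le_card_nsmul P
      (fun h => |∑ x ∈ J, K (x + e h) * W (x + e h) - A|) d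
      fun h hh => hd h (Fintype.mem_piFinset.mp hh)
    rwa [nsmul_eq_mul, hc] at h4
  rw [Finset.sum_sub_distrib, Finset.sum_const, nsmul_eq_mul, hc] at h3
  have h5 : (S.card : ℝ) ^ s * |A| ≤ (S.card : ℝ) ^ s * ((∑ x ∈ J, ρ x) * b + d) := by
    have h6 : (S.card : ℝ) ^ s * |A| = |(S.card : ℝ) ^ s * A| := by
      rw [abs_mul, abs_of_pos hpos]
    have h7 := abs_le.mp h1
    have h8 := abs_le.mp h3
    rw [h6, abs_le]
    constructor <;> linarith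
  exact le_of_mul_le_mul_left h5 hpos

/-- APP in one dimension. -/
theorem app1 (S : Finset H) (B : Set H) (hS : S.Nonempty) (hSB : (S : Set H) ⊆ B)
    (e : (Fin s → H) → ℕ) (D a n : ℕ) (he : ∀ h, (∀ r, h r ∈ S) → e h ≤ D) (K W ρ : ℕ → ℝ)
    (b c : ℝ) (hK : ∀ x, Low B (ρ x) fun h => K (x + e h))
    (hW : ∀ x, Cut S (fun h => W (x + e h)) b)
    (hs : ∀ u, ∑ x ∈ Ioc u (u + D), |K x * W x| ≤ c) :
    |∑ x ∈ Ioc a (a + n), K x * W x| ≤ (∑ x ∈ Ioc a (a + n), ρ x) * b + 2 * c :=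
  app_core _ S B hS hSB e K W ρ b _ hK hW fun h hh =>
    app_shift_le (fun x => K x * W x) D a n (e h) c (he h hh) hs

theorem app_shift2 (φ : ℕ × ℕ → ℝ) (D n : ℕ) (t : ℕ × ℕ) (c : ℝ) (h1 : t.1 ≤ D) (h2 : t.2 ≤ D)
    (hs : ∀ u v, ∑ x ∈ Ioc u (u + D) ×ˢ Ioc v (v + n), |φ x| ≤ c ∧
      ∑ x ∈ Ioc u (u + n) ×ˢ Ioc v (v + D), |φ x| ≤ c) :
    |∑ x ∈ box n, φ (x + t) - ∑ x ∈ box n, φ x| ≤ 4 * c := by
  have a1 := app_shift_le (fun x => ∑ y ∈ Ioc 0 n, φ (x, y + t.2)) D 0 n t.1 c h1 fun u => by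
    refine le_trans ?_ (hs u t.2).1
    rw [Finset.sum_product]
    refine Finset.sum_le_sum fun x _ => (Finset.abs_sum_le_sum_abs _ _).trans (le_of_eq ?_)
    rw [app_shift (fun y => |φ (x, y)|), zero_add, add_comm n]
  have a2 := app_shift_le (fun y => ∑ x ∈ Ioc 0 n, φ (x, y)) D 0 n t.2 c h2 fun v => by
    refine le_trans ?_ (hs 0 v).2
    rw [Finset.sum_product_right, zero_add]
    exact Finset.sum_le_sum fun y _ => Finset.abs_sum_le_sum_abs _ _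
  rw [zero_add] at a1 a2
  have e1 : ∑ x ∈ box n, φ (x + t) = ∑ x ∈ Ioc 0 n, ∑ y ∈ Ioc 0 n, φ (x + t.1, y + t.2) := by
    rw [box, Finset.sum_product]
    rfl
  have e2 : ∑ x ∈ box n, φ x = ∑ y ∈ Ioc 0 n, ∑ x ∈ Ioc 0 n, φ (x, y) := by
    rw [box, Finset.sum_product_right]
  rw [Finset.sum_comm (f := fun y x => φ (x, y + t.2))] at a2
  rw [e1, e2]
  have b1 := abs_le.mp a1
  have b2 := abs_le.mp a2
  rw [abs_le]
  constructor <;> linarith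

/-- APP in two dimensions. -/
theorem app2 (S : Finset H) (B : Set H) (hS : S.Nonempty) (hSB : (S : Set H) ⊆ B)
    (e : (Fin s → H) → ℕ × ℕ) (D n : ℕ) (he : ∀ h, (∀ r, h r ∈ S) → (e h).1 ≤ D ∧ (e h).2 ≤ D)
    (K W ρ : ℕ × ℕ → ℝ) (b c : ℝ) (hK : ∀ x, Low B (ρ x) fun h => K (x + e h))
    (hW : ∀ x, Cut S (fun h => W (x + e h)) b)
    (hs : ∀ u v, ∑ x ∈ Ioc u (u + D) ×ˢ Ioc v (v + n), |K x * W x| ≤ c ∧
      ∑ x ∈ Ioc u (u + n) ×ˢ Ioc v (v + D), |K x * W x| ≤ c) :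
    |∑ x ∈ box n, K x * W x| ≤ (∑ x ∈ box n, ρ x) * b + 4 * c :=
  app_core _ S B hS hSB e K W ρ b _ hK hW fun h hh =>
    app_shift2 (fun x => K x * W x) D n (e h) c (he h hh).1 (he h hh).2 hs

end Pool.Agent.Lib.MP_0a3467_an.Cv
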