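import Pool.Agent.Lib.MP_0a3467_an.Cv.Defs

open Finset

namespace Pool.Agent.Lib.MP_0a3467_an.Cv

variable {s : ℕ} {H : Type} {B : Set H} {M M' : ℝ} {G G' : (Fin s → H) → ℝ}

theorem lowL_adm_one : Adm (s := s) (H := H) fun _ _ => 1 :=
  ⟨fun _ _ => by simp, fun _ _ _ => rfl⟩

theorem lowL_abs_prod {F : Fin s → (Fin s → H) → ℝ} (hF : Adm F) (x : Fin s → H) :
    |∏ r, F r x| ≤ 1 := by
  rw [abs_prod]
  exact prod_le_one (fun _ _ => abs_nonneg _) fun r _ => hF.1 r x

theorem lowL_adm_mul {F F' : Fin s → (Fin s → H) → ℝ} (hF : Adm F) (hF' : Adm F') :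
    Adm fun r x => F r x * F' r x := by
  refine ⟨fun r x => ?_, fun r x a => ?_⟩
  · rw [abs_mul]
    exact mul_le_one₀ (hF.1 r x) (abs_nonneg _) (hF'.1 r x)
  · show F r _ * F' r _ = F r x * F' r x
    rw [hF.2, hF'.2]

theorem Low.nonneg (h : Low B M G) : 0 ≤ M := by
  have := h Empty ∅ (fun _ => 0) (fun i => i.elim) 1 (by simp) (fun F _ => by simp)
  simpa using this

theorem Low.bound (h : Low B M G) {x : Fin s → H} (hx : ∀ r, x r ∈ B) : |G x| ≤ M := by
  have := h Unit {()} (fun _ => 1) (fun _ => x) 1 (fun _ _ => hx)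
    (fun F hF => by simpa using lowL_abs_prod hF x)
  simpa using this

theorem Low.mono (h : Low B M G) (hM : M ≤ M') : Low B M' G := by
  intro I S c pt b hpt hb
  have hb0 : 0 ≤ b := (abs_nonneg _).trans (hb _ lowL_adm_one)
  exact (h I S c pt b hpt hb).trans (mul_le_mul_of_nonneg_right hM hb0)

theorem Low.mono_set {B' : Set H} (h : Low B M G) (hB : B' ⊆ B) : Low B' M G :=
  fun I S c pt b hpt hb => h I S c pt b (fun i hi r => hB (hpt i hi r)) hb

theorem Low.congr (h : Low B M G) (hG : ∀ x, (∀ r, x r ∈ B) → G x = G' x) : Low B M G' := by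
  intro I S c pt b hpt hb
  rw [← sum_congr rfl fun i hi => congrArg (c i * ·) (hG _ (hpt i hi))]
  exact h I S c pt b hpt hb

theorem Low.of_adm {F : Fin s → (Fin s → H) → ℝ} (hF : Adm F) :
    Low B 1 fun x => ∏ r, F r x := by
  intro I S c pt b _ hb
  rw [one_mul]
  exact hb F hF

theorem Low.const {c : ℝ} (hc : |c| ≤ M) : Low (s := s) B M fun _ => c := by
  intro I S c' pt b _ hb
  have h1 : |∑ i ∈ S, c' i| ≤ b := by simpa using hb _ lowL_adm_one
  rw [← sum_mul, abs_mul, mul_comm]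
  exact mul_le_mul hc h1 (abs_nonneg _) ((abs_nonneg _).trans hc)

theorem Low.add (h : Low B M G) (h' : Low B M' G') : Low B (M + M') fun x => G x + G' x := by
  intro I S c pt b hpt hb
  simp only [mul_add, sum_add_distrib, add_mul]
  exact (abs_add_le _ _).trans (add_le_add (h I S c pt b hpt hb) (h' I S c pt b hpt hb))

theorem Low.smul (h : Low B M G) (t : ℝ) : Low B (|t| * M) fun x => t * G x := by
  intro I S c pt b hpt hb
  have e : ∑ i ∈ S, c i * (t * G (pt i)) = t * ∑ i ∈ S, c i * G (pt i) := by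
    rw [mul_sum]
    exact sum_congr rfl fun i _ => by ring
  rw [e, abs_mul, mul_assoc]
  exact mul_le_mul_of_nonneg_left (h I S c pt b hpt hb) (abs_nonneg _)

theorem Low.sum {ι : Type} (T : Finset ι) {Ms : ι → ℝ} {Gs : ι → (Fin s → H) → ℝ}
    (h : ∀ i ∈ T, Low B (Ms i) (Gs i)) : Low B (∑ i ∈ T, Ms i) fun x => ∑ i ∈ T, Gs i x := by
  classical
  induction T using Finset.induction_on with
  | empty => simpa using Low.const (s := s) (B := B) (M := 0) (c := 0) (by simp)
  | insert a T ha ih =>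
    simp only [sum_insert ha]
    exact (h a (mem_insert_self _ _)).add (ih fun i hi => h i (mem_insert_of_mem hi))

theorem Low.mul (h : Low B M G) (h' : Low B M' G') : Low B (M * M') fun x => G x * G' x := by
  intro I S c pt b hpt hb
  have e : ∑ i ∈ S, c i * (G (pt i) * G' (pt i)) = ∑ i ∈ S, c i * G' (pt i) * G (pt i) :=
    sum_congr rfl fun i _ => by ring
  rw [e, mul_assoc]
  refine h I S (fun i => c i * G' (pt i)) pt (M' * b) hpt fun F hF => ?_
  have e2 : ∑ i ∈ S, c i * G' (pt i) * ∏ r, F r (pt i) =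
      ∑ i ∈ S, c i * (∏ r, F r (pt i)) * G' (pt i) :=
    sum_congr rfl fun i _ => by ring
  rw [e2]
  refine h' I S (fun i => c i * ∏ r, F r (pt i)) pt b hpt fun F' hF' => ?_
  have e3 : ∑ i ∈ S, c i * (∏ r, F r (pt i)) * ∏ r, F' r (pt i) =
      ∑ i ∈ S, c i * ∏ r, F r (pt i) * F' r (pt i) :=
    sum_congr rfl fun i _ => by rw [prod_mul_distrib, mul_assoc]
  rw [e3]
  exact hb _ (lowL_adm_mul hF hF')

theorem Low.prod {ι : Type} (T : Finset ι) {Ms : ι → ℝ} {Gs : ι → (Fin s → H) → ℝ}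
    (h : ∀ i ∈ T, Low B (Ms i) (Gs i)) : Low B (∏ i ∈ T, Ms i) fun x => ∏ i ∈ T, Gs i x := by
  classical
  induction T using Finset.induction_on with
  | empty => simpa using Low.const (s := s) (B := B) (M := 1) (c := 1) (by simp)
  | insert a T ha ih =>
    simp only [prod_insert ha]
    exact (h a (mem_insert_self _ _)).mul (ih fun i hi => h i (mem_insert_of_mem hi))

theorem Low.comp {H' : Type} {B' : Set H'} (h : Low B M G) (φ : H' → H)
    (hφ : ∀ a ∈ B', φ a ∈ B) : Low B' M fun x : Fin s → H' => G fun r => φ (x r) := by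
  intro I S c pt b hpt hb
  refine h I S c (fun i r => φ (pt i r)) b (fun i hi r => hφ _ (hpt i hi r)) fun F hF => ?_
  refine hb (fun r x => F r fun t => φ (x t)) ⟨fun r x => hF.1 r _, fun r x a => ?_⟩
  have e : (fun t => φ (Function.update x r a t)) =
      Function.update (fun t => φ (x t)) r (φ a) := Function.comp_update φ x r a
  show F r _ = F r _
  rw [e, hF.2]

theorem Low.cut {S : Finset H} {V : (Fin s → H) → ℝ} {b : ℝ} (h : Low B M G) (hV : Cut S V b)
    (hS : (S : Set H) ⊆ B) :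
    |∑ x ∈ Fintype.piFinset fun _ : Fin s => S, V x * G x| ≤ M * (b * (S.card : ℝ) ^ s) :=
  h (Fin s → H) _ V (fun x => x) _ (fun _ hx r => hS (Fintype.mem_piFinset.1 hx r)) hV

variable {l N : ℕ} {g g' : ℕ → ℝ}

theorem Str.nonneg (h : Str l M N g) : 0 ≤ M := (h 0).nonneg

theorem Str.bound (h : Str l M N g) (x : ℕ) : |g x| ≤ M := by
  have := (h x).bound (x := fun _ => 0) fun _ => Set.mem_Iic.2 (Nat.zero_le N)
  simpa using this

theorem Str.mono (h : Str l M N g) (hM : M ≤ M') : Str l M' N g :=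
  fun x => (h x).mono hM

theorem Str.scale {N' : ℕ} (h : Str l M N g) (hN : N' ≤ N) : Str l M N' g :=
  fun x => (h x).mono_set (Set.Iic_subset_Iic.2 hN)

theorem Str.zero (hM : 0 ≤ M) : Str l M N fun _ => 0 :=
  fun _ => Low.const (by simpa using hM)

theorem Str.add (h : Str l M N g) (h' : Str l M' N g') :
    Str l (M + M') N fun x => g x + g' x :=
  fun x => (h x).add (h' x)

theorem Str.smul (h : Str l M N g) (t : ℝ) : Str l (|t| * M) N fun x => t * g x :=
  fun x => (h x).smul t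

theorem Str.div (h : Str l M N g) (hM : 0 < M) : Str l 1 N fun x => g x / M := by
  have h1 := h.smul M⁻¹
  rw [abs_of_pos (inv_pos.2 hM), inv_mul_cancel₀ hM.ne'] at h1
  simpa only [div_eq_inv_mul] using h1

theorem Str.dil {R k : ℕ} (h : Str l M N g) (hk : R * k ≤ N) : Str l M k (dil R g) := by
  intro x
  refine ((h (R * x)).comp (B' := Set.Iic k) (fun t => R * t) fun a ha => ?_).congr fun y _ => ?_
  · exact (Nat.mul_le_mul_left R ha).trans hk
  · show g _ = g _
    congr 1
    rw [← mul_sum]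
    ring

theorem dil_dil (a b : ℕ) (f : ℕ → ℝ) : dil a (dil b f) = dil (b * a) f := by
  funext x
  simp only [dil, mul_assoc]

theorem dl_dl (a b : ℕ) (f : Om l) : dl a (dl b f) = dl (b * a) f := by
  funext j
  exact dil_dil a b (f j)

theorem Bj_pos (j : Fin (l + 1)) : 1 ≤ Bj l j := by
  unfold Bj
  split_ifs <;> omega

theorem Bj_le (j : Fin (l + 1)) : Bj l j ≤ l + 1 := by
  unfold Bj
  split_ifs <;> omega

theorem C0_ge (l : ℕ) : 1 ≤ C0 l := by
  unfold C0
  have : (0 : ℝ) ≤ 2 * (l + 1) * l.factorial := by positivity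
  linarith

theorem cj_pos {M : Fin (l + 1) → ℝ} (hM : ∀ j, 1 ≤ M j) (j : Fin (l + 1)) : 0 < cj l M j := by
  unfold cj
  have h1 : 0 < C0 l := lt_of_lt_of_le one_pos (C0_ge l)
  have h2 : 0 < ∏ i ∈ Iio j, M i := prod_pos fun i _ => lt_of_lt_of_le one_pos (hM i)
  positivity

end Pool.Agent.Lib.MP_0a3467_an.Cv
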