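import Pool.Agent.Lib.MP_0a3467_an.Cv.TK

open Finset

namespace Pool.Agent.Lib.MP_0a3467_an.Cv

theorem tkm_nonempty {P : Finset ℕ} (h : 0 < rs P) : P.Nonempty := by
  rw [Finset.nonempty_iff_ne_empty]
  rintro rfl
  simp [rs] at h

theorem tk1 {e : ℝ} (he : 0 < e) :
    ∃ K0 : ℝ, 1 ≤ K0 ∧ ∀ (P : Finset ℕ) (Z n : ℕ), (∀ p ∈ P, p.Prime ∧ p ≤ Z) → K0 ≤ rs P →
      K0 * (Z : ℝ) ^ 2 ≤ n → av n (fun x => |om P x - 1|) ≤ e := by
  obtain ⟨K0, hK0, h⟩ := tk2 0 he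
  refine ⟨K0, hK0, fun P Z n hP hr hn => ?_⟩
  have h1 := h (fun _ => P) Z n (fun _ => hP)
    (fun i j hij => absurd (Fin.ext (by omega)) hij) (fun _ => hr) (by simpa using hn)
  have h2 : ∑ z ∈ box n, |Pr 0 (fun _ => om P) z - 1| = (n : ℝ) * ∑ x ∈ Ioc 0 n, |om P x - 1| := by
    unfold box
    rw [Finset.sum_product, Finset.mul_sum]
    refine Finset.sum_congr rfl fun x _ => ?_
    simp [Pr]
  rw [h2] at h1
  unfold av
  rcases Nat.eq_zero_or_pos n with rfl | hpos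
  · simp [he.le]
  · have hn0 : (0 : ℝ) < n := by exact_mod_cast hpos
    rw [div_le_iff₀ hn0]
    have h3 : (n : ℝ) * ∑ x ∈ Ioc 0 n, |om P x - 1| ≤ (n : ℝ) * (e * n) := by nlinarith
    exact le_of_mul_le_mul_left h3 hn0

theorem tkm_sub {p k n : ℕ} (hp : 0 < p) (hk : p * k ≤ n) {φ : ℕ → ℝ} (h0 : ∀ x, 0 ≤ φ x) :
    ∑ x ∈ Ioc 0 k, φ (p * x) ≤ ∑ x ∈ Ioc 0 n, if p ∣ x then φ x else 0 := by
  rw [← Finset.sum_filter]
  have hinj : Set.InjOn (fun x => p * x) (Ioc 0 k : Finset ℕ) := fun a _ b _ hab =>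
    Nat.eq_of_mul_eq_mul_left hp hab
  rw [← Finset.sum_image (f := φ) hinj]
  refine Finset.sum_le_sum_of_subset_of_nonneg ?_ fun x _ _ => h0 x
  intro y hy
  obtain ⟨x, hx, rfl⟩ := Finset.mem_image.1 hy
  rw [Finset.mem_Ioc] at hx
  rw [Finset.mem_filter, Finset.mem_Ioc]
  exact ⟨⟨Nat.mul_pos hp hx.1, (Nat.mul_le_mul_left p hx.2).trans hk⟩, Dvd.intro _ rfl⟩

theorem tkm_om (P : Finset ℕ) (φ : ℕ → ℝ) (x : ℕ) :
    ∑ p ∈ P, (if p ∣ x then φ x else 0) / rs P = om P x * φ x := by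
  rw [← Finset.sum_div, ← Finset.sum_filter, Finset.sum_const, nsmul_eq_mul, om]
  ring

theorem tkmix {e : ℝ} (he : 0 < e) :
    ∃ K0 : ℝ, 1 ≤ K0 ∧ ∀ (B : ℕ) (P : Finset ℕ) (Z N : ℕ), (∀ p ∈ P, p.Prime ∧ p ≤ Z) →
      K0 ≤ rs P → K0 * (Z : ℝ) ^ 2 ≤ N → Mix B N e P (pw P) id fun p => N / p := by
  obtain ⟨K1, hK1, h⟩ := tk1 (half_pos he)
  refine ⟨max K1 (2 / e), hK1.trans (le_max_left _ _), fun B P Z N hP hr hN => ?_⟩
  have hK : 1 ≤ max K1 (2 / e) := hK1.trans (le_max_left _ _)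
  have hrs : 0 < rs P := by linarith
  obtain ⟨p0, hp0⟩ := tkm_nonempty hrs
  have hZ1 : 1 ≤ Z := (hP p0 hp0).1.one_le.trans (hP p0 hp0).2
  have hZ : (1 : ℝ) ≤ Z := by exact_mod_cast hZ1
  have hZN : (Z : ℝ) ≤ N := by nlinarith
  have hZN' : Z ≤ N := by exact_mod_cast hZN
  have hN0 : (0 : ℝ) < N := by linarith
  have hsmall : (Z : ℝ) / N ≤ e / 2 := by
    rw [div_le_iff₀ hN0]
    have h1 : 2 / e * (Z : ℝ) ^ 2 ≤ N :=
      (mul_le_mul_of_nonneg_right (le_max_right _ _) (by positivity)).trans hN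
    have h2 : e / 2 * (2 / e * (Z : ℝ) ^ 2) = (Z : ℝ) ^ 2 := by field_simp
    have h3 : e / 2 * (2 / e * (Z : ℝ) ^ 2) ≤ e / 2 * N :=
      mul_le_mul_of_nonneg_left h1 (by positivity)
    nlinarith
  refine ⟨fun p hp => ⟨pw_nonneg P p, (hP p hp).1.pos, ?_, Nat.mul_div_le N p⟩, (sum_pw hrs).le,
    fun B' hB1 _ φ h0 h1 => ?_⟩
  · exact Nat.div_pos ((hP p hp).2.trans hZN') (hP p hp).1.pos
  have hB : (1 : ℝ) ≤ B' := by exact_mod_cast hB1
  have hBN : (0 : ℝ) < ((B' * N : ℕ) : ℝ) := by push_cast; positivity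
  have hstep : ∀ p ∈ P, pw P p * av (B' * (N / p)) (dil (id p) φ) ≤
      (∑ x ∈ Ioc 0 (B' * N), (if p ∣ x then φ x else 0) / rs P) / ((B' * N : ℕ) : ℝ)
        + pw P p * ((Z : ℝ) / N) := by
    intro p hp
    have hpp := (hP p hp).1.pos
    have hkpos : 0 < N / p := Nat.div_pos ((hP p hp).2.trans hZN') hpp
    have hp0 : (0 : ℝ) < p := by exact_mod_cast hpp
    have hk0 : (0 : ℝ) < ((N / p : ℕ) : ℝ) := by exact_mod_cast hkpos
    have hpk : (p : ℝ) * ((N / p : ℕ) : ℝ) ≤ N := by exact_mod_cast Nat.mul_div_le N p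
    have hpk2 : (N : ℝ) ≤ (p : ℝ) * ((N / p : ℕ) : ℝ) + Z := by
      have h5 : N ≤ p * (N / p) + Z := by
        have := Nat.div_add_mod N p
        have := Nat.mod_lt N hpp
        have := (hP p hp).2
        omega
      exact_mod_cast h5
    have hsub := tkm_sub (k := B' * (N / p)) (n := B' * N) hpp
      (by rw [Nat.mul_left_comm]; exact Nat.mul_le_mul_left _ (Nat.mul_div_le N p)) h0
    have hS1 : ∑ x ∈ Ioc 0 (B' * (N / p)), φ (p * x) ≤ (B' : ℝ) * ((N / p : ℕ) : ℝ) := by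
      calc _ ≤ ∑ _x ∈ Ioc 0 (B' * (N / p)), (1 : ℝ) := Finset.sum_le_sum fun x _ => h1 _
        _ = _ := by simp
    have hS0 : 0 ≤ ∑ x ∈ Ioc 0 (B' * (N / p)), φ (p * x) := Finset.sum_nonneg fun x _ => h0 _
    rw [← Finset.sum_div]
    unfold av dil pw
    simp only [id]
    set S := ∑ x ∈ Ioc 0 (B' * (N / p)), φ (p * x)
    set T := ∑ x ∈ Ioc 0 (B' * N), if p ∣ x then φ x else 0
    set k : ℝ := ((N / p : ℕ) : ℝ)
    push_cast
    have hA : S / (rs P) / ((B' : ℝ) * N) ≤ T / rs P / ((B' : ℝ) * N) := by gcongr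
    have hBq : 1 / (rs P * p) * (S / ((B' : ℝ) * k)) - S / (rs P) / ((B' : ℝ) * N)
        = 1 / (rs P * p) * ((S / ((B' : ℝ) * k)) * ((N - p * k) / N)) := by
      field_simp
    have hC : (S / ((B' : ℝ) * k)) * ((N - p * k) / N) ≤ (Z : ℝ) / N := by
      have h6 : S / ((B' : ℝ) * k) ≤ 1 := by
        rw [div_le_one (by positivity)]; exact hS1
      have h7 : (N - p * k) / N ≤ (Z : ℝ) / N := by gcongr; linarith
      have h8 : 0 ≤ (N - p * k) / N := div_nonneg (by linarith) hN0.le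
      nlinarith
    have hD : 1 / (rs P * p) * ((S / ((B' : ℝ) * k)) * ((N - p * k) / N))
        ≤ 1 / (rs P * p) * ((Z : ℝ) / N) := mul_le_mul_of_nonneg_left hC (by positivity)
    linarith
  have htk := h P Z (B' * N) hP ((le_max_left _ _).trans hr) (by
    have h9 : K1 * (Z : ℝ) ^ 2 ≤ N :=
      (mul_le_mul_of_nonneg_right (le_max_left _ _) (by positivity)).trans hN
    push_cast
    nlinarith)
  calc _ ≤ ∑ p ∈ P, ((∑ x ∈ Ioc 0 (B' * N), (if p ∣ x then φ x else 0) / rs P)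
          / ((B' * N : ℕ) : ℝ) + pw P p * ((Z : ℝ) / N)) := Finset.sum_le_sum hstep
    _ = (∑ x ∈ Ioc 0 (B' * N), om P x * φ x) / ((B' * N : ℕ) : ℝ) + (Z : ℝ) / N := by
        rw [Finset.sum_add_distrib, ← Finset.sum_mul, sum_pw hrs, one_mul, ← Finset.sum_div,
          Finset.sum_comm]
        simp only [tkm_om]
    _ ≤ (∑ x ∈ Ioc 0 (B' * N), (φ x + |om P x - 1|)) / ((B' * N : ℕ) : ℝ) + e / 2 := by
        gcongr with x _
        have h2 := le_abs_self (om P x - 1)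
        have h3 := abs_nonneg (om P x - 1)
        have h4 := h0 x
        have h5 := h1 x
        nlinarith
    _ = av (B' * N) φ + av (B' * N) (fun x => |om P x - 1|) + e / 2 := by
        unfold av
        rw [Finset.sum_add_distrib, add_div]
    _ ≤ _ := by linarith

theorem PS.mono {l : ℕ} {K K' : ℝ} {a a' : ℕ} {Q : Fin (l + 1) → Finset ℕ} {P : Finset ℕ}
    {Z N : ℕ} (h : PS l K a Q P Z N) (h0 : 0 < K') (hK : K' ≤ K) (ha : a' ≤ a) :
    PS l K' a' Q P Z N := by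
  refine ⟨h.pQ, h.pP, h.dQ, h.dP, fun j => hK.trans (h.bQ j), hK.trans h.bP, ?_⟩
  obtain ⟨p0, hp0⟩ := tkm_nonempty (P := P) (by linarith [h.bP])
  have hZ1 : 1 ≤ Z := (h.pP p0 hp0).1.one_le.trans (h.pP p0 hp0).2.2
  have hZ : (1 : ℝ) ≤ Z := by exact_mod_cast hZ1
  refine le_trans ?_ h.sz
  exact mul_le_mul hK (pow_le_pow_right₀ hZ ha) (by positivity) (by linarith)

theorem Gt_le {Q : Finset ℕ} {g : ℕ → ℕ → ℝ} {M : ℝ} (hM : 0 ≤ M)
    (hg : ∀ q ∈ Q, ∀ y, |g q y| ≤ M) (x : ℕ) : |Gt Q g x| ≤ M := by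
  unfold Gt
  rw [abs_div, Nat.abs_cast]
  refine div_le_of_le_mul₀ (Nat.cast_nonneg _) hM ?_
  calc _ ≤ ∑ q ∈ Q.filter (· ∣ x), |g q (x / q)| := Finset.abs_sum_le_sum_abs _ _
    _ ≤ ∑ _q ∈ Q.filter (· ∣ x), M :=
        Finset.sum_le_sum fun q hq => hg q (Finset.mem_filter.1 hq).1 _
    _ = _ := by rw [Finset.sum_const, nsmul_eq_mul, mul_comm]

theorem Gt_smul (Q : Finset ℕ) (g : ℕ → ℕ → ℝ) (c : ℝ) (x : ℕ) :
    Gt Q (fun q y => c * g q y) x = c * Gt Q g x := by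
  unfold Gt
  rw [← Finset.mul_sum, mul_div_assoc]

theorem tkm_filter {Q : Finset ℕ} {p : ℕ} (hp : ∀ q ∈ Q, Nat.Coprime q p) (x : ℕ) :
    Q.filter (· ∣ p * x) = Q.filter (· ∣ x) :=
  Finset.filter_congr fun q hq => (hp q hq).dvd_mul_left

theorem dil_Gt {Q : Finset ℕ} (g : ℕ → ℕ → ℝ) {p : ℕ} (hp : ∀ q ∈ Q, Nat.Coprime q p) :
    dil p (Gt Q g) = Gt Q fun q => dil p (g q) := by
  funext x
  unfold dil Gt
  rw [tkm_filter hp]
  congr 1
  refine Finset.sum_congr rfl fun q hq => ?_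
  rw [Nat.mul_div_assoc p (Finset.mem_filter.1 hq).2]

theorem om_mul {Q : Finset ℕ} {p : ℕ} (hp : ∀ q ∈ Q, Nat.Coprime q p) (x : ℕ) :
    om Q (p * x) = om Q x := by
  unfold om
  rw [tkm_filter hp]

theorem om_mul_Gt {Q : Finset ℕ} (hQ : ∀ q ∈ Q, 0 < q) (g : ℕ → ℕ → ℝ) (x : ℕ) :
    om Q x * Gt Q g x = ∑ q ∈ Q, pw Q q * if q ∣ x then (q : ℝ) * g q (x / q) else 0 := by
  have h1 : ∑ q ∈ Q, pw Q q * (if q ∣ x then (q : ℝ) * g q (x / q) else 0)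
      = (∑ q ∈ Q.filter (· ∣ x), g q (x / q)) / rs Q := by
    rw [Finset.sum_filter, Finset.sum_div]
    refine Finset.sum_congr rfl fun q hq => ?_
    have hq0 : (q : ℝ) ≠ 0 := by exact_mod_cast (hQ q hq).ne'
    unfold pw
    split_ifs
    · by_cases hr : rs Q = 0
      · simp [hr]
      · field_simp
    · simp
  rw [h1]
  unfold om Gt
  by_cases hc : (Q.filter (· ∣ x)).card = 0
  · rw [Finset.card_eq_zero] at hc
    simp [hc]
  · have hc' : (((Q.filter (· ∣ x)).card : ℕ) : ℝ) ≠ 0 := by exact_mod_cast hc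
    field_simp

end Pool.Agent.Lib.MP_0a3467_an.Cv
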