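import Pool.Agent.Lib.MP_0a3467_an.Cv.Primes
import Pool.Agent.Lib.MP_0a3467_an.Cv.TKM
import Pool.Agent.Lib.MP_0a3467_an.Cv.LowL

open Finset

namespace Pool.Agent.Lib.MP_0a3467_an.Cv

private lemma asm_drop (f : ℝ → ℝ) (h0 : ∀ M, 0 ≤ M → 0 ≤ f M) {d : ℝ} (hd : 0 < d) :
    ∃ M : ℝ, 1 ≤ M ∧ f M - f (M + 1) ≤ d := by
  by_contra hcon
  push Not at hcon
  have key : ∀ n : ℕ, f (1 + n) ≤ f 1 - n * d := by
    intro n
    induction n with
    | zero => simp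
    | succ n ih =>
      have h := hcon (1 + n) (by have : (0 : ℝ) ≤ n := Nat.cast_nonneg n; linarith)
      have e1 : (1 : ℝ) + ((n + 1 : ℕ) : ℝ) = 1 + n + 1 := by push_cast; ring
      rw [e1]
      push_cast
      linarith
  obtain ⟨n, hn⟩ := exists_nat_gt (f 1 / d)
  have h1 := key n
  have h2 := h0 (1 + n) (by have : (0 : ℝ) ≤ n := Nat.cast_nonneg n; linarith)
  rw [div_lt_iff₀ hd] at hn
  linarith

private lemma asm_cj_update {l : ℕ} (M : Fin (l + 1) → ℝ) (t j : Fin (l + 1)) (hj : j ≤ t)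
    (x : ℝ) : cj l (Function.update M t x) j = cj l M j := by
  unfold cj
  congr 1
  refine Finset.prod_congr rfl fun i hi => ?_
  have : i ≠ t := ne_of_lt (lt_of_lt_of_le (Finset.mem_Iio.1 hi) hj)
  exact Function.update_of_ne this _ _

/-- The choice of the complexities. -/
theorem choose_M (l : ℕ) (L : Fin (l + 1) → ℝ → ℝ) (h0 : ∀ j M, 0 ≤ M → 0 ≤ L j M)
    (h1 : ∀ j M, 0 ≤ M → L j (M + 1) ≤ L j M) {e : ℝ} (he : 0 < e) :
    ∃ M τ : Fin (l + 1) → ℝ, (∀ j, 1 ≤ M j) ∧ (∀ j, 0 < τ j ∧ τ j ≤ 1) ∧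
      ∀ j, cj l M j * τ j ≤ e ∧ L j (M j) - L j (M j + 1) ≤ τ j ^ 2 := by
  have _ := h1
  have key : ∀ t : ℕ, ∃ M : Fin (l + 1) → ℝ, (∀ j, 1 ≤ M j) ∧ ∀ j : Fin (l + 1), j.val < t →
      L j (M j) - L j (M j + 1) ≤ (min 1 (e / cj l M j)) ^ 2 := by
    intro t
    induction t with
    | zero => exact ⟨fun _ => 1, fun _ => le_rfl, fun j hj => absurd hj (Nat.not_lt_zero _)⟩
    | succ t ih =>
      obtain ⟨M, hM, hL⟩ := ih
      by_cases ht : t < l + 1
      · have hpos : 0 < min 1 (e / cj l M ⟨t, ht⟩) :=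
          lt_min one_pos (div_pos he (cj_pos hM _))
        obtain ⟨x, hx, hx'⟩ := asm_drop (L ⟨t, ht⟩) (h0 _) (pow_pos hpos 2)
        refine ⟨Function.update M ⟨t, ht⟩ x, fun j => ?_, fun j hj => ?_⟩
        · by_cases hjt : j = ⟨t, ht⟩
          · rw [hjt, Function.update_self]; exact hx
          · rw [Function.update_of_ne hjt]; exact hM j
        · have hle : j ≤ ⟨t, ht⟩ := by
            rw [Fin.le_def]; exact Nat.lt_succ_iff.1 hj
          rw [asm_cj_update M _ j hle]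
          by_cases hjt : j = ⟨t, ht⟩
          · rw [hjt, Function.update_self]; exact hx'
          · rw [Function.update_of_ne hjt]
            refine hL j ?_
            have h2 : j.val ≠ t := fun h => hjt (Fin.ext h)
            omega
      · exact ⟨M, hM, fun j _ => hL j (by have := j.isLt; omega)⟩
  obtain ⟨M, hM, hL⟩ := key (l + 1)
  refine ⟨M, fun j => min 1 (e / cj l M j), hM,
    fun j => ⟨lt_min one_pos (div_pos he (cj_pos hM j)), min_le_left _ _⟩,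
    fun j => ⟨?_, hL j j.isLt⟩⟩
  have hc := cj_pos hM j
  calc cj l M j * min 1 (e / cj l M j) ≤ cj l M j * (e / cj l M j) :=
        mul_le_mul_of_nonneg_left (min_le_right _ _) hc.le
    _ = e := by field_simp

private lemma asm_term {c τ x d e e' : ℝ} (hc : 0 < c) (hτ : 0 < τ) (h1 : c * τ ≤ e)
    (h2 : d ≤ τ ^ 2) (h3 : c * e' ≤ e * τ) (hx : x ≤ 2 * d + 6 * e') :
    c * (τ + x / (2 * τ)) ≤ 5 * e := by
  have h4 : x / (2 * τ) ≤ τ + 3 * e' / τ := by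
    rw [div_le_iff₀ (by positivity)]
    have : (τ + 3 * e' / τ) * (2 * τ) = 2 * τ ^ 2 + 6 * e' := by field_simp; ring
    rw [this]; linarith
  have h5 : c * (3 * e' / τ) ≤ 3 * e := by
    rw [← mul_div_assoc, div_le_iff₀ hτ]; linarith
  calc c * (τ + x / (2 * τ)) ≤ c * (τ + (τ + 3 * e' / τ)) :=
        mul_le_mul_of_nonneg_left (by linarith) hc.le
    _ = 2 * (c * τ) + c * (3 * e' / τ) := by ring
    _ ≤ 5 * e := by linarith

private lemma asm_avg_ge {ι : Type} {P : Finset ι} {w f : ι → ℝ} {a : ℝ} (hw : ∀ p, 0 ≤ w p)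
    (h1 : ∑ p ∈ P, w p = 1) (hf : ∀ p ∈ P, a ≤ f p) : a ≤ ∑ p ∈ P, w p * f p := by
  calc a = ∑ p ∈ P, w p * a := by rw [← Finset.sum_mul, h1, one_mul]
    _ ≤ ∑ p ∈ P, w p * f p :=
        Finset.sum_le_sum fun p hp => mul_le_mul_of_nonneg_left (hf p hp) (hw p)

private lemma asm_avg_aff {ι : Type} {P : Finset ι} {w : ι → ℝ} (f : ι → ℝ) (a b : ℝ)
    (h1 : ∑ p ∈ P, w p = 1) :
    ∑ p ∈ P, w p * (a * f p + b) = a * ∑ p ∈ P, w p * f p + b := by
  have : ∀ p ∈ P, w p * (a * f p + b) = a * (w p * f p) + w p * b := fun p _ => by ring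
  rw [Finset.sum_congr rfl this, Finset.sum_add_distrib, ← Finset.mul_sum, ← Finset.sum_mul, h1,
    one_mul]

private lemma asm_div_ge {N Y Z m : ℕ} (hm0 : 0 < m) (hm : m ≤ Z ^ 2) (hZ : Z ^ 4 ≤ N)
    (hY : Y ^ 2 ≤ N) : Y ≤ N / m := by
  rw [Nat.le_div_iff_mul_le hm0]
  have h1 : m ^ 2 ≤ N := by
    calc m ^ 2 ≤ (Z ^ 2) ^ 2 := Nat.pow_le_pow_left hm 2
      _ = Z ^ 4 := by ring
      _ ≤ N := hZ
  have h2 : (Y * m) ^ 2 ≤ N ^ 2 := by
    calc (Y * m) ^ 2 = Y ^ 2 * m ^ 2 := by ring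
      _ ≤ N * N := Nat.mul_le_mul hY h1
      _ = N ^ 2 := by ring
  exact (Nat.pow_le_pow_iff_left (by norm_num)).1 h2

private lemma asm_small {ι : Type} [Fintype ι] (c τ : ι → ℝ) (hc : ∀ j, 0 < c j)
    (hτ : ∀ j, 0 < τ j) {m e : ℝ} (hm : 0 < m) (he : 0 < e) :
    ∃ e' > 0, e' ≤ e ∧ m * e' ≤ e ∧ ∀ j, c j * e' ≤ e * τ j := by
  have h1 : ∀ᶠ x in nhdsWithin (0 : ℝ) (Set.Ioi 0), x ≤ e :=
    nhdsWithin_le_nhds (Iic_mem_nhds he)
  have h2 : ∀ᶠ x in nhdsWithin (0 : ℝ) (Set.Ioi 0), x ≤ e / m :=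
    nhdsWithin_le_nhds (Iic_mem_nhds (div_pos he hm))
  have h3 : ∀ᶠ x in nhdsWithin (0 : ℝ) (Set.Ioi 0), ∀ j, x ≤ e * τ j / c j :=
    Filter.eventually_all.2 fun j =>
      nhdsWithin_le_nhds (Iic_mem_nhds (div_pos (mul_pos he (hτ j)) (hc j)))
  have h4 : ∀ᶠ x in nhdsWithin (0 : ℝ) (Set.Ioi 0), 0 < x := self_mem_nhdsWithin
  obtain ⟨x, ⟨⟨hx1, hx2⟩, hx3⟩, hx4⟩ := (((h1.and h2).and h3).and h4).exists
  refine ⟨x, hx4, hx1, ?_, fun j => ?_⟩
  · rw [le_div_iff₀ hm] at hx2; linarith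
  · have := hx3 j
    rw [le_div_iff₀ (hc j)] at this; linarith

/-- ASM. The assembly of the estimates. -/
theorem asm (l : ℕ) (A : ℕ → ℝ) (D : Fin (l + 1) → ℝ → ℕ → ℝ)
    (h0 : ∀ j M N, 0 ≤ M → 0 ≤ D j M N ∧ D j M N ≤ 1)
    (hanti : ∀ j M N, 0 ≤ M → D j (M + 1) N ≤ D j M N)
    (hfar : ∀ M τ : Fin (l + 1) → ℝ, (∀ j, 1 ≤ M j) → (∀ j, 0 < τ j ∧ τ j ≤ 1) → ∀ e > 0,
      ∀ Y00 : ℕ, ∃ (t : ℕ) (Ys : ℕ → ℕ) (lam : ℕ → ℝ), (∀ i, 0 ≤ lam i ∧ Y00 ≤ Ys i) ∧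
        1 - e ≤ ∑ i ∈ range t, lam i ∧ ∑ i ∈ range t, lam i ≤ 1 ∧ ∃ N1 : ℕ, ∀ N ≥ N1,
          |A N - ∑ i ∈ range t, lam i * A (Ys i)| ≤ (∏ j, M j) * e +
            ∑ j, cj l M j * (τ j + (2 * D j (M j) N - D j (M j + 1) N -
              ∑ i ∈ range t, lam i * D j (M j + 1) (Ys i)) / (2 * τ j)))
    (hloc : ∀ M τ : Fin (l + 1) → ℝ, (∀ j, 1 ≤ M j) → (∀ j, 0 < τ j ∧ τ j ≤ 1) → ∀ e > 0,
      ∃ (K0 : ℝ) (a : ℕ), 1 ≤ K0 ∧ ∀ (Q : Fin (l + 1) → Finset ℕ) (P : Finset ℕ) (Z N : ℕ),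
        PS l K0 a Q P Z N →
        |A N - ∑ p ∈ P, pw P p * A (N / p)| ≤ e +
          ∑ j, cj l M j * (τ j + (∑ q ∈ Q j, pw (Q j) q *
            (2 * D j (M j) (N / q) - D j (M j + 1) (N / q) -
              ∑ p ∈ P, pw P p * D j (M j + 1) (N / q / p))) / (2 * τ j)))
    (hgood : ∀ j M, 0 ≤ M → ∀ e > 0, ∀ a0 : ℕ, ∃ N1 : ℕ, ∀ N ≥ N1, ∀ P : Finset ℕ,
      (∀ p ∈ P, p.Prime ∧ N ≤ p ^ a0 ∧ p ^ 2 ≤ N) → 1 ≤ rs P →
      ∑ p ∈ P, pw P p * D j M (N / p) ≤ Filter.liminf (D j M) Filter.atTop + e) :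
    ∃ c, Filter.Tendsto A Filter.atTop (nhds c) := by
  set L : Fin (l + 1) → ℝ → ℝ := fun j M => Filter.liminf (D j M) Filter.atTop with hLdef
  have hbd : ∀ j M, 0 ≤ M → Filter.IsBoundedUnder (· ≥ ·) Filter.atTop (D j M) := fun j M hM =>
    Filter.isBoundedUnder_of_eventually_ge (Filter.Eventually.of_forall fun N => (h0 j M N hM).1)
  have hcb : ∀ j M, 0 ≤ M → Filter.IsCoboundedUnder (· ≥ ·) Filter.atTop (D j M) := fun j M hM =>
    Filter.isCoboundedUnder_ge_of_le _ fun N => (h0 j M N hM).2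
  have hL0 : ∀ j M, 0 ≤ M → 0 ≤ L j M := fun j M hM =>
    Filter.le_liminf_of_le (hcb j M hM) (Filter.Eventually.of_forall fun N => (h0 j M N hM).1)
  have hL1 : ∀ j M, 0 ≤ M → L j M ≤ 1 := fun j M hM =>
    Filter.liminf_le_of_frequently_le
      (Filter.Eventually.of_forall fun N => (h0 j M N hM).2).frequently (hbd j M hM)
  have hLa : ∀ j M, 0 ≤ M → L j (M + 1) ≤ L j M := fun j M hM =>
    Filter.liminf_le_liminf (Filter.Eventually.of_forall fun N => hanti j M N hM)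
      (hbd j (M + 1) (by linarith)) (hcb j M hM)
  have main : ∀ e > 0, ∃ c : ℝ, ∃ N0 : ℕ, ∀ N ≥ N0, |A N - c| ≤ (10 * (l + 1) + 2) * e := by
    intro e he
    obtain ⟨M, τ, hM, hτ, hMτ⟩ := choose_M l L hL0 hLa he
    have hM0 : ∀ j, 0 ≤ M j := fun j => le_trans zero_le_one (hM j)
    have hc : ∀ j, 0 < cj l M j := cj_pos hM
    have hprod : 0 < ∏ j, M j := Finset.prod_pos fun j _ => lt_of_lt_of_le one_pos (hM j)
    obtain ⟨e', he', he1, he2, he3⟩ := asm_small (cj l M) τ hc (fun j => (hτ j).1) hprod he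
    have hY : ∀ᶠ k in Filter.atTop, ∀ j, L j (M j + 1) - e' < D j (M j + 1) k :=
      Filter.eventually_all.2 fun j =>
        Filter.eventually_lt_of_lt_liminf (by simp only [hLdef]; linarith)
          (hbd j _ (by linarith [hM0 j]))
    obtain ⟨Y, hY⟩ := Filter.eventually_atTop.1 hY
    obtain ⟨t, Ys, lam, hlam, hs1, hs2, N1, hN1⟩ := hfar M τ hM hτ e' he' Y
    set c := ∑ i ∈ range t, lam i * A (Ys i) with hcdef
    have hroot : ∀ j, L j (M j + 1) - 2 * e' ≤ ∑ i ∈ range t, lam i * D j (M j + 1) (Ys i) := by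
      intro j
      have a0 := hL0 j (M j + 1) (by linarith [hM0 j])
      have a1 := hL1 j (M j + 1) (by linarith [hM0 j])
      have a2 : ∑ i ∈ range t, lam i * (L j (M j + 1) - e') ≤
          ∑ i ∈ range t, lam i * D j (M j + 1) (Ys i) :=
        Finset.sum_le_sum fun i _ =>
          mul_le_mul_of_nonneg_left (hY _ (hlam i).2 j).le (hlam i).1
      rw [← Finset.sum_mul] at a2
      nlinarith
    have hfar' : ∀ N, N1 ≤ N → Y ≤ N → |A N - c| ≤ e + ∑ j, cj l M j *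
        (τ j + (2 * D j (M j) N + (3 * e' - 2 * L j (M j + 1))) / (2 * τ j)) := by
      intro N h1 h2
      refine (hN1 N h1).trans (add_le_add he2 (Finset.sum_le_sum fun j _ => ?_))
      refine mul_le_mul_of_nonneg_left (add_le_add le_rfl ?_) (hc j).le
      refine div_le_div_of_nonneg_right ?_ (by linarith [(hτ j).1])
      linarith [hroot j, hY N h2 j]
    obtain ⟨K0, a, hK0, hl⟩ := hloc M τ hM hτ e' he'
    obtain ⟨a0, N2, hPS⟩ := exists_PS l K0 (max a 4)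
    choose N3 hN3 using fun j => hgood j (M j) (hM0 j) e' he' a0
    refine ⟨c, max N2 (max ((max N1 Y) ^ 2) (Finset.univ.sup N3)), fun N hN => ?_⟩
    have hN2 : N2 ≤ N := le_trans (le_max_left _ _) hN
    have hNY : (max N1 Y) ^ 2 ≤ N := le_trans (le_trans (le_max_left _ _) (le_max_right _ _)) hN
    have hN3' : ∀ j, N3 j ≤ N := fun j =>
      le_trans (le_trans (le_trans (Finset.le_sup (f := N3) (Finset.mem_univ j))
        (le_max_right _ _)) (le_max_right _ _)) hN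
    obtain ⟨Q, P, Z, hps, hQa, hPa⟩ := hPS N hN2
    have hps1 := hps.mono (K' := K0) (a' := a) (by linarith) le_rfl (le_max_left _ _)
    have hps2 := hps.mono (K' := 1) (a' := 4) one_pos hK0 (le_max_right _ _)
    have hZ : Z ^ 4 ≤ N := by
      have := hps2.sz
      rw [one_mul] at this
      exact_mod_cast this
    have hsq : ∀ p : ℕ, p.Prime → p ≤ Z → p ^ 2 ≤ N := fun p hp hpZ => by
      calc p ^ 2 ≤ p ^ 4 := Nat.pow_le_pow_right hp.pos (by norm_num)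
        _ ≤ Z ^ 4 := Nat.pow_le_pow_left hpZ 4
        _ ≤ N := hZ
    have hd1 : ∀ p : ℕ, p.Prime → p ≤ Z → max N1 Y ≤ N / p := fun p hp hpZ =>
      asm_div_ge hp.pos (by nlinarith [hp.pos]) hZ hNY
    have hd2 : ∀ q p : ℕ, q.Prime → q ≤ Z → p.Prime → p ≤ Z → Y ≤ N / q / p := by
      intro q p hq hqZ hp hpZ
      rw [Nat.div_div_eq_div_mul]
      refine le_trans (le_max_right N1 Y) (asm_div_ge (Nat.mul_pos hq.pos hp.pos) ?_ hZ hNY)
      rw [sq]; exact Nat.mul_le_mul hqZ hpZ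
    have hP1 : ∑ p ∈ P, pw P p = 1 := sum_pw (by linarith [hps2.bP])
    have hQ1 : ∀ j, ∑ q ∈ Q j, pw (Q j) q = 1 := fun j => sum_pw (by linarith [hps2.bQ j])
    have hgP : ∀ j, ∑ p ∈ P, pw P p * D j (M j) (N / p) ≤ L j (M j) + e' := fun j =>
      hN3 j N (hN3' j) P (fun p hp => ⟨(hps.pP p hp).1, hPa p hp,
        hsq p (hps.pP p hp).1 (hps.pP p hp).2.2⟩) hps2.bP
    have hgQ : ∀ j, ∑ q ∈ Q j, pw (Q j) q * D j (M j) (N / q) ≤ L j (M j) + e' := fun j =>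
      hN3 j N (hN3' j) (Q j) (fun q hq => ⟨(hps.pQ j q hq).1, hQa j q hq,
        hsq q (hps.pQ j q hq).1 (hps.pQ j q hq).2.2⟩) (hps2.bQ j)
    have hsum : ∑ _j : Fin (l + 1), 5 * e = 5 * (l + 1) * e := by
      simp only [Finset.sum_const, Finset.card_univ, Fintype.card_fin, nsmul_eq_mul]
      push_cast; ring
    have step1 : |A N - ∑ p ∈ P, pw P p * A (N / p)| ≤ e + 5 * (l + 1) * e := by
      refine (hl Q P Z N hps1).trans (add_le_add he1 ?_)
      rw [← hsum]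
      refine Finset.sum_le_sum fun j _ => ?_
      refine asm_term (hc j) (hτ j).1 (hMτ j).1 (hMτ j).2 (he3 j) ?_
      have b1 : ∑ q ∈ Q j, pw (Q j) q * (2 * D j (M j) (N / q) - D j (M j + 1) (N / q) -
            ∑ p ∈ P, pw P p * D j (M j + 1) (N / q / p)) ≤
          ∑ q ∈ Q j, pw (Q j) q * (2 * D j (M j) (N / q) + (2 * e' - 2 * L j (M j + 1))) := by
        refine Finset.sum_le_sum fun q hq => mul_le_mul_of_nonneg_left ?_ (pw_nonneg _ _)
        have hq' := hps.pQ j q hq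
        have c1 := hY _ (le_trans (le_max_right _ _) (hd1 q hq'.1 hq'.2.2)) j
        have c2 : L j (M j + 1) - e' ≤ ∑ p ∈ P, pw P p * D j (M j + 1) (N / q / p) :=
          asm_avg_ge (pw_nonneg P) hP1 fun p hp =>
            (hY _ (hd2 q p hq'.1 hq'.2.2 (hps.pP p hp).1 (hps.pP p hp).2.2) j).le
        linarith
      rw [asm_avg_aff _ _ _ (hQ1 j)] at b1
      linarith [hgQ j]
    have step2 : |∑ p ∈ P, pw P p * A (N / p) - c| ≤ e + 5 * (l + 1) * e := by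
      have e1 : ∑ p ∈ P, pw P p * A (N / p) - c = ∑ p ∈ P, pw P p * (A (N / p) - c) := by
        have := asm_avg_aff (fun p => A (N / p)) 1 (-c) hP1
        simp only [one_mul, ← sub_eq_add_neg] at this
        exact this.symm
      rw [e1]
      have e2 : ∀ p ∈ P, |pw P p * (A (N / p) - c)| ≤ pw P p * (1 * (∑ j, cj l M j *
          (τ j + (2 * D j (M j) (N / p) + (3 * e' - 2 * L j (M j + 1))) / (2 * τ j))) + e) := by
        intro p hp
        have hp' := hd1 p (hps.pP p hp).1 (hps.pP p hp).2.2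
        rw [abs_mul, abs_of_nonneg (pw_nonneg P p)]
        refine mul_le_mul_of_nonneg_left ?_ (pw_nonneg P p)
        have := hfar' (N / p) (le_trans (le_max_left _ _) hp') (le_trans (le_max_right _ _) hp')
        linarith
      refine (Finset.abs_sum_le_sum_abs _ _).trans ((Finset.sum_le_sum e2).trans ?_)
      rw [asm_avg_aff _ _ _ hP1, one_mul, add_comm, ← hsum]
      refine add_le_add le_rfl ?_
      simp only [Finset.mul_sum]
      rw [Finset.sum_comm]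
      refine Finset.sum_le_sum fun j _ => ?_
      have e3 : ∑ p ∈ P, pw P p * (cj l M j * (τ j + (2 * D j (M j) (N / p) +
            (3 * e' - 2 * L j (M j + 1))) / (2 * τ j))) =
          cj l M j * (τ j + (2 * ∑ p ∈ P, pw P p * D j (M j) (N / p) +
            (3 * e' - 2 * L j (M j + 1))) / (2 * τ j)) := by
        have := asm_avg_aff (fun p => D j (M j) (N / p)) (cj l M j * (2 / (2 * τ j)))
          (cj l M j * (τ j + (3 * e' - 2 * L j (M j + 1)) / (2 * τ j))) hP1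
        refine Eq.trans (Finset.sum_congr rfl fun p _ => ?_) (this.trans ?_)
        · ring
        · ring
      rw [e3]
      refine asm_term (hc j) (hτ j).1 (hMτ j).1 (hMτ j).2 (he3 j) ?_
      linarith [hgP j]
    calc |A N - c| ≤ |A N - ∑ p ∈ P, pw P p * A (N / p)| + |∑ p ∈ P, pw P p * A (N / p) - c| :=
          abs_sub_le _ _ _
      _ ≤ (10 * (l + 1) + 2) * e := by linarith
  refine cauchySeq_tendsto_of_complete (Metric.cauchySeq_iff'.2 fun ε hε => ?_)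
  have hC : (0 : ℝ) < 10 * (l + 1) + 2 := by positivity
  obtain ⟨c, N0, hN0⟩ := main (ε / (3 * (10 * (l + 1) + 2))) (by positivity)
  refine ⟨N0, fun n hn => ?_⟩
  have e1 : (10 * ((l : ℝ) + 1) + 2) * (ε / (3 * (10 * (l + 1) + 2))) = ε / 3 := by field_simp
  have h1 := hN0 n hn
  have h2 := hN0 N0 le_rfl
  rw [e1] at h1 h2
  rw [Real.dist_eq]
  have h3 := abs_sub_le (A n) c (A N0)
  rw [abs_sub_comm c] at h3
  linarith

end Pool.Agent.Lib.MP_0a3467_an.Cv
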