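import Pool.Agent.Lib.MP_0a3467_an.Cv.LowL

open Finset

namespace Pool.Agent.Lib.MP_0a3467_an.Cv

variable {l B N : ℕ} {M : ℝ} {f g : ℕ → ℝ}

theorem dst_av_le_one (n : ℕ) {φ : ℕ → ℝ} (h : ∀ x, φ x ≤ 1) : av n φ ≤ 1 := by
  unfold av
  refine div_le_one_of_le₀ ?_ (Nat.cast_nonneg n)
  simpa using sum_le_card_nsmul (Ioc 0 n) φ 1 fun x _ => h x

theorem dst_mul_av (k B : ℕ) (φ : ℕ → ℝ) :
    (k : ℝ) * av (B * k) φ = (∑ x ∈ Ioc 0 (B * k), φ x) / B := by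
  rcases Nat.eq_zero_or_pos k with rfl | hk
  · simp
  · have hk' : (k : ℝ) ≠ 0 := by exact_mod_cast hk.ne'
    unfold av
    rw [Nat.cast_mul, mul_comm (B : ℝ), ← div_div, ← mul_div_assoc, mul_div_cancel₀ _ hk']

theorem er_nonneg (n : ℕ) (f g : ℕ → ℝ) : 0 ≤ er n f g :=
  div_nonneg (sum_nonneg fun _ _ => sq_nonneg _) (Nat.cast_nonneg n)

theorem dst_bdd (l n N : ℕ) (M : ℝ) (f : ℕ → ℝ) :
    BddBelow (Set.range fun g : {g : ℕ → ℝ // Str l M N g} => er n f g) :=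
  ⟨0, by
    rintro _ ⟨g, rfl⟩
    exact er_nonneg _ _ _⟩

theorem dst_nonneg (l B : ℕ) (M : ℝ) (N : ℕ) (f : ℕ → ℝ) : 0 ≤ dst l B M N f :=
  Real.iInf_nonneg fun _ => er_nonneg _ _ _

theorem dst_le_er (hg : Str l M N g) (B : ℕ) (f : ℕ → ℝ) : dst l B M N f ≤ er (B * N) f g :=
  ciInf_le (dst_bdd l (B * N) N M f) ⟨g, hg⟩

theorem exists_near (l B N : ℕ) (hM : 0 ≤ M) (f : ℕ → ℝ) {ζ : ℝ} (hζ : 0 < ζ) :
    ∃ g, Str l M N g ∧ er (B * N) f g ≤ dst l B M N f + ζ := by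
  have : Nonempty {g : ℕ → ℝ // Str l M N g} := ⟨⟨_, Str.zero hM⟩⟩
  obtain ⟨g, hg⟩ := exists_lt_of_ciInf_lt
    (f := fun g : {g : ℕ → ℝ // Str l M N g} => er (B * N) f g) (lt_add_of_pos_right _ hζ)
  exact ⟨g, g.2, hg.le⟩

theorem dst_le_one (l B N : ℕ) (hM : 0 ≤ M) (hf : ∀ x, |f x| ≤ 1) : dst l B M N f ≤ 1 := by
  refine (dst_le_er (Str.zero hM) B f).trans (dst_av_le_one _ fun x => ?_)
  rw [sub_zero]
  exact (sq_le_one_iff_abs_le_one _).2 (hf x)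

theorem dst_anti (l B N : ℕ) {M' : ℝ} (hM : 0 ≤ M) (h : M ≤ M') (f : ℕ → ℝ) :
    dst l B M' N f ≤ dst l B M N f := by
  refine le_of_forall_pos_le_add fun ζ hζ => ?_
  obtain ⟨g, h1, h2⟩ := exists_near l B N hM f hζ
  exact (dst_le_er (h1.mono h) B f).trans h2

theorem dst_scale (l B : ℕ) (hM : 0 ≤ M) {k N : ℕ} (hk : k ≤ N) (f : ℕ → ℝ) :
    (k : ℝ) * dst l B M k f ≤ N * dst l B M N f := by
  refine le_of_forall_pos_le_add fun ζ hζ => ?_
  have hN : (0 : ℝ) ≤ N := Nat.cast_nonneg N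
  obtain ⟨g, h1, h2⟩ := exists_near l B N hM f (ζ := ζ / (N + 1)) (by positivity)
  have h3 : (k : ℝ) * er (B * k) f g ≤ N * er (B * N) f g := by
    unfold er
    rw [dst_mul_av, dst_mul_av]
    exact div_le_div_of_nonneg_right (sum_le_sum_of_subset_of_nonneg
      (Ioc_subset_Ioc_right (Nat.mul_le_mul_left B hk)) fun _ _ _ => sq_nonneg _)
      (Nat.cast_nonneg B)
  have h4 : (N : ℝ) * (ζ / (N + 1)) ≤ ζ := by
    rw [← mul_div_assoc, div_le_iff₀ (by positivity)]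
    linarith
  have h5 := mul_le_mul_of_nonneg_left (dst_le_er (h1.scale hk) B f) (Nat.cast_nonneg (α := ℝ) k)
  have h6 := mul_le_mul_of_nonneg_left h2 hN
  linarith

theorem measurable_dst (l B : ℕ) (M : ℝ) (N : ℕ) : Measurable (dst l B M N) := by
  refine UpperSemicontinuous.measurable (upperSemicontinuous_ciInf
    (f := fun (g : {g : ℕ → ℝ // Str l M N g}) (f : ℕ → ℝ) => er (B * N) f g)
    (dst_bdd l (B * N) N M) fun g => Continuous.upperSemicontinuous ?_)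
  unfold er av
  fun_prop

theorem dst_orth_aux (hg : Str l M N g) {D : ℕ → ℝ} (hD : Str l 1 N D) {t : ℝ} (h1 : |t| ≤ 1)
    (B : ℕ) (f : ℕ → ℝ) :
    dst l B (M + 1) N f ≤
      er (B * N) f g - 2 * t * (av (B * N) fun x => (f x - g x) * D x) + t ^ 2 := by
  have h2 := dst_le_er ((hg.add (hD.smul t)).mono (M' := M + 1) (by linarith)) B f
  have h3 : er (B * N) f (fun x => g x + t * D x) =
      er (B * N) f g - 2 * t * (av (B * N) fun x => (f x - g x) * D x) +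
        t ^ 2 * av (B * N) fun x => D x ^ 2 := by
    unfold er av
    rw [← mul_div_assoc, ← mul_div_assoc, ← sub_div, ← add_div, mul_sum, mul_sum,
      ← sum_sub_distrib, ← sum_add_distrib]
    congr 1
    exact sum_congr rfl fun x _ => by ring
  have h4 : (av (B * N) fun x => D x ^ 2) ≤ 1 :=
    dst_av_le_one _ fun x => (sq_le_one_iff_abs_le_one _).2 (hD.bound x)
  have h5 := mul_le_mul_of_nonneg_left h4 (sq_nonneg t)
  linarith

/-- A nearly optimal approximation has an error nearly orthogonal to structured functions. -/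
theorem orth (hg : Str l M N g) {D : ℕ → ℝ} (hD : Str l 1 N D) {τ : ℝ} (h0 : 0 < τ) (h1 : τ ≤ 1)
    (B : ℕ) (f : ℕ → ℝ) :
    |av (B * N) fun x => (f x - g x) * D x| ≤
      (er (B * N) f g - dst l B (M + 1) N f) / (2 * τ) + τ / 2 := by
  have a1 := dst_orth_aux hg hD (t := τ) (by rwa [abs_of_pos h0]) B f
  have a2 := dst_orth_aux hg hD (t := -τ) (by rwa [abs_neg, abs_of_pos h0]) B f
  rw [← sub_le_iff_le_add, le_div_iff₀ (by positivity)]
  rcases abs_cases (av (B * N) fun x => (f x - g x) * D x) with h | h <;> rw [h.1] <;> linarith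

variable {ι : Type} {T : Finset ι} {w : ι → ℝ} {R k : ι → ℕ} {e : ℝ} {B' : ℕ}

theorem Mix.er_le (h : Mix B N e T w R k) (h1 : 1 ≤ B') (h2 : B' ≤ B) (hf : ∀ x, |f x| ≤ 1)
    (hg : ∀ x, |g x| ≤ M) :
    ∑ i ∈ T, w i * er (B' * k i) (dil (R i) f) (dil (R i) g) ≤
      er (B' * N) f g + e * (1 + M) ^ 2 := by
  have hM : 0 ≤ M := (abs_nonneg _).trans (hg 0)
  have hc : 0 < (1 + M) ^ 2 := by positivity
  have h3 := h.2.2 B' h1 h2 (fun x => (f x - g x) ^ 2 / (1 + M) ^ 2) (fun x => by positivity)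
    fun x => by
      rw [div_le_one hc, ← sq_abs (f x - g x)]
      exact pow_le_pow_left₀ (abs_nonneg _) ((abs_sub _ _).trans (add_le_add (hf x) (hg x))) 2
  have e1 : ∀ (n : ℕ) (u v : ℕ → ℝ),
      (av n fun x => (u x - v x) ^ 2 / (1 + M) ^ 2) = er n u v / (1 + M) ^ 2 := by
    intro n u v
    unfold er av
    rw [← sum_div, div_right_comm]
  have e2 : ∀ i, av (B' * k i) (dil (R i) fun x => (f x - g x) ^ 2 / (1 + M) ^ 2) =
      er (B' * k i) (dil (R i) f) (dil (R i) g) / (1 + M) ^ 2 := fun i => e1 _ _ _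
  simp only [e1, e2, ← mul_div_assoc] at h3
  rw [← sum_div, div_le_iff₀ hc, add_mul, div_mul_cancel₀ _ hc.ne'] at h3
  exact h3

theorem Mix.dst_le (h : Mix B N 0 T w R k) (h1 : 1 ≤ B') (h2 : B' ≤ B) (hM : 0 ≤ M)
    (hf : ∀ x, |f x| ≤ 1) :
    ∑ i ∈ T, w i * dst l B' M (k i) (dil (R i) f) ≤ dst l B' M N f := by
  refine le_of_forall_pos_le_add fun ζ hζ => ?_
  obtain ⟨g, g1, g2⟩ := exists_near l B' N hM f hζ
  have h3 := h.er_le h1 h2 hf g1.bound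
  rw [zero_mul, add_zero] at h3
  refine le_trans (sum_le_sum fun i hi => ?_) (h3.trans g2)
  obtain ⟨a1, -, -, a2⟩ := h.1 i hi
  exact mul_le_mul_of_nonneg_left (dst_le_er (g1.dil a2) B' _) a1

end Pool.Agent.Lib.MP_0a3467_an.Cv
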