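import Pool.Agent.Lib.MP_0a3467_an.Cv.TKM
import Pool.Agent.Lib.MP_0a3467_an.Cv.Dst

open Finset

namespace Pool.Agent.Lib.MP_0a3467_an.Cv

theorem beta_sum_av (n : ℕ) (φ : ℕ → ℝ) : ∑ x ∈ Ioc 0 n, φ x = n * av n φ := by
  unfold av
  obtain rfl | h := n.eq_zero_or_pos
  · simp
  · rw [mul_div_cancel₀ _ (Nat.cast_ne_zero.2 h.ne')]

theorem beta_mult (n : ℕ) {q : ℕ} (hq : 0 < q) (φ : ℕ → ℝ) :
    (∑ x ∈ Ioc 0 n, if q ∣ x then φ x else 0) = ∑ y ∈ Ioc 0 (n / q), φ (q * y) := by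
  rw [← sum_filter, ← sum_image (g := (q * ·)) fun _ _ _ _ h => Nat.eq_of_mul_eq_mul_left hq h]
  congr 1
  ext x
  simp only [mem_filter, mem_image, mem_Ioc, Nat.le_div_iff_mul_le hq]
  constructor
  · rintro ⟨⟨h1, h2⟩, y, rfl⟩
    exact ⟨y, ⟨Nat.pos_of_mul_pos_left h1, by rwa [mul_comm]⟩, rfl⟩
  · rintro ⟨y, ⟨h1, h2⟩, rfl⟩
    exact ⟨⟨Nat.mul_pos hq h1, by rwa [mul_comm]⟩, dvd_mul_right _ _⟩

theorem beta_one (B N : ℕ) {q : ℕ} (hq : 0 < q) {u : ℕ → ℝ} {c O : ℝ} (hu : ∀ y, |u y| ≤ c)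
    (hO : |av (B * (N / q)) u| ≤ O) :
    |∑ y ∈ Ioc 0 (B * N / q), u y| ≤ B * N * (1 / q * O) + B * c := by
  have h1 : B * (N / q) ≤ B * N / q := Nat.mul_div_le_mul_div_assoc B N q
  have h2 : B * N / q ≤ B * (N / q) + B := by
    refine Nat.div_le_of_le_mul ?_
    calc B * N ≤ B * (q * (N / q + 1)) := Nat.mul_le_mul_left B (Nat.lt_mul_div_succ N hq).le
      _ = _ := by ring
  have hc : 0 ≤ c := (abs_nonneg _).trans (hu 0)
  have h0 : 0 ≤ O := (abs_nonneg _).trans hO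
  rw [← sum_Ioc_consecutive u (Nat.zero_le _) h1, beta_sum_av]
  refine (abs_add_le _ _).trans (add_le_add ?_ ?_)
  · rw [abs_mul, Nat.abs_cast, Nat.cast_mul]
    calc (B : ℝ) * (N / q : ℕ) * |av (B * (N / q)) u| ≤ B * (N / q) * O := by
          gcongr
          exact Nat.cast_div_le
      _ = _ := by ring
  · refine (abs_sum_le_sum_abs _ _).trans ((sum_le_card_nsmul _ _ c fun y _ => hu y).trans ?_)
    rw [nsmul_eq_mul, Nat.card_Ioc]
    gcongr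
    omega

theorem beta_pt (Q : Finset ℕ) (g : ℕ → ℕ → ℝ) (a b : ℝ) (x : ℕ) :
    (a - Gt Q g x) * b = (1 - om Q x) * ((a - Gt Q g x) * b) +
      1 / rs Q * ∑ q ∈ Q, if q ∣ x then (a - g q (x / q)) * b else 0 := by
  rw [← sum_filter, ← sum_mul, sum_sub_distrib, sum_const, nsmul_eq_mul]
  unfold om Gt
  obtain h | h := (Q.filter (· ∣ x)).eq_empty_or_nonempty
  · simp [h]
  · have : ((Q.filter (· ∣ x)).card : ℝ) ≠ 0 := Nat.cast_ne_zero.2 h.card_pos.ne'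
    generalize ((Q.filter (· ∣ x)).card : ℝ) = c at *
    generalize ∑ q ∈ Q with q ∣ x, g q (x / q) = s
    rw [div_eq_mul_one_div c]
    generalize 1 / rs Q = r
    field_simp
    ring

/-- BETA. The glued approximation is nearly orthogonal to structured functions. -/
theorem beta (l B N : ℕ) (M τ : ℝ) (Q : Finset ℕ) (f : ℕ → ℝ) (g : ℕ → ℕ → ℝ) (D : ℕ → ℝ)
    (e1 e2 : ℝ) (hB : 0 < B) (hN : 0 < N) (hM : 0 ≤ M) (h0 : 0 < τ) (h1 : τ ≤ 1)
    (hQ : ∀ q ∈ Q, 0 < q) (hK : 0 < rs Q) (hf : ∀ x, |f x| ≤ 1)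
    (hg : ∀ q ∈ Q, Str l M (N / q) (g q)) (hD : Str l 1 N D)
    (he1 : av (B * N) (fun x => |om Q x - 1|) ≤ e1) (he2 : (Q.card : ℝ) ≤ e2 * rs Q * N) :
    |av (B * N) fun x => (f x - Gt Q g x) * D x| ≤ (1 + M) * (e1 + e2) +
      ∑ q ∈ Q, pw Q q * ((er (B * (N / q)) (dil q f) (g q) -
        dst l B (M + 1) (N / q) (dil q f)) / (2 * τ) + τ / 2) := by
  have hb : ∀ x {v : ℝ}, |v| ≤ M → |(f x - v) * D x| ≤ 1 + M := fun x v hv => by
    rw [abs_mul]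
    exact (mul_le_of_le_one_right (abs_nonneg _) (hD.bound x)).trans
      ((abs_sub _ _).trans (add_le_add (hf x) hv))
  have hBN : (0 : ℝ) < (B * N : ℕ) := by positivity
  obtain ⟨O, hO⟩ : ∃ O : ℕ → ℝ, ∀ q, (er (B * (N / q)) (dil q f) (g q) -
    dst l B (M + 1) (N / q) (dil q f)) / (2 * τ) + τ / 2 = O q := ⟨_, fun _ => rfl⟩
  have h2 : ∀ q ∈ Q, |∑ x ∈ Ioc 0 (B * N), if q ∣ x then (f x - g q (x / q)) * D x else 0| ≤
      B * N * (1 / q * O q) + B * (1 + M) := fun q hq => by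
    rw [beta_mult _ (hQ q hq)]
    simp only [Nat.mul_div_cancel_left _ (hQ q hq)]
    exact beta_one B N (hQ q hq) (fun y => hb _ ((hg q hq).bound y))
      (hO q ▸ orth (hg q hq) (hD.dil (Nat.mul_div_le N q)) h0 h1 B (dil q f))
  have h3 : |∑ x ∈ Ioc 0 (B * N), (1 - om Q x) * ((f x - Gt Q g x) * D x)| ≤
      (B * N : ℕ) * e1 * (1 + M) := by
    refine (abs_sum_le_sum_abs _ _).trans (le_trans (sum_le_sum (g := fun x =>
      |om Q x - 1| * (1 + M)) fun x _ => ?_) ?_)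
    · rw [abs_mul, abs_sub_comm]
      exact mul_le_mul_of_nonneg_left (hb x (Gt_le hM (fun q hq => (hg q hq).bound) x))
        (abs_nonneg _)
    · rw [← sum_mul, beta_sum_av]
      gcongr
  simp only [hO]
  refine le_of_mul_le_mul_left ?_ hBN
  rw [← Nat.abs_cast (R := ℝ) (B * N), ← abs_mul, ← beta_sum_av, Nat.abs_cast,
    sum_congr rfl fun x _ => beta_pt Q g (f x) (D x) x, sum_add_distrib, ← mul_sum, sum_comm]
  refine (abs_add_le _ _).trans ((add_le_add h3 (le_trans (le_of_eq (abs_mul _ _))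
    (mul_le_mul (abs_of_pos (one_div_pos.2 hK)).le ((abs_sum_le_sum_abs _ _).trans
      (sum_le_sum h2)) (abs_nonneg _) (one_div_pos.2 hK).le))).trans ?_)
  have h4 : ∑ q ∈ Q, pw Q q * O q = 1 / rs Q * ∑ q ∈ Q, 1 / (q : ℝ) * O q := by
    rw [mul_sum]
    exact sum_congr rfl fun q _ => by rw [pw, ← mul_assoc, one_div_mul_one_div]
  have h5 : 1 / rs Q * Q.card ≤ e2 * N := by
    rw [one_div, inv_mul_le_iff₀ hK]
    linarith
  rw [sum_add_distrib, ← mul_sum, sum_const, nsmul_eq_mul, h4, Nat.cast_mul]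
  have h6 := mul_le_mul_of_nonneg_right h5 (by positivity : (0 : ℝ) ≤ B * (1 + M))
  linarith

end Pool.Agent.Lib.MP_0a3467_an.Cv
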