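import Pool.Agent.Lib.MP_0a3467_an.Cv.LowL

open Finset

namespace Pool.Agent.Lib.MP_0a3467_an.Cv

variable {s : ℕ} {H : Type}

theorem adm_pair {F : Fin (s + 1) → (Fin (s + 1) → H) → ℝ} (hF : Adm F) (a a' : H) :
    Adm fun (r : Fin s) (g : Fin s → H) =>
      F r.succ (Fin.cons a g) * F r.succ (Fin.cons a' g) := by
  refine ⟨fun r h => ?_, fun r h b => ?_⟩
  · rw [abs_mul]
    exact mul_le_one₀ (hF.1 _ _) (abs_nonneg _) (hF.1 _ _)
  · have e : ∀ c : H, F r.succ (Fin.cons c (Function.update h r b)) =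
        F r.succ (Fin.cons c h) := by
      intro c
      rw [← hF.2 r.succ (Fin.cons c h) b]
      congr 1
      exact Fin.cons_update (α := fun _ => H) c h r b
    show F r.succ (Fin.cons a (Function.update h r b)) *
      F r.succ (Fin.cons a' (Function.update h r b)) = _
    rw [e, e]

theorem cs_sum_cons (S : Finset H) (f : (Fin (s + 1) → H) → ℝ) :
    ∑ h ∈ Fintype.piFinset fun _ : Fin (s + 1) => S, f h =
      ∑ g ∈ Fintype.piFinset fun _ : Fin s => S, ∑ a ∈ S, f (Fin.cons a g) := by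
  rw [← sum_product']
  refine sum_nbij' (fun h => (Fin.tail h, h 0)) (fun p => Fin.cons p.2 p.1) ?_ ?_ ?_ ?_ ?_
  · intro h hh
    simp only [mem_product, Fintype.mem_piFinset] at hh ⊢
    exact ⟨fun i => hh _, hh 0⟩
  · intro p hp
    simp only [mem_product, Fintype.mem_piFinset] at hp ⊢
    intro i
    refine Fin.cases ?_ (fun j => ?_) i
    · simpa using hp.2
    · simpa using hp.1 j
  · intro h _
    exact Fin.cons_self_tail h
  · intro p _
    simp
  · intro h _
    simp

/-- One Cauchy-Schwarz step. -/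
theorem cs_step (S : Finset H) (V : (Fin (s + 1) → H) → ℝ)
    {F : Fin (s + 1) → (Fin (s + 1) → H) → ℝ} (hF : Adm F) :
    (∑ h ∈ Fintype.piFinset fun _ : Fin (s + 1) => S, V h * ∏ r, F r h) ^ 2 ≤
      (S.card : ℝ) ^ s * ∑ g ∈ Fintype.piFinset fun _ : Fin s => S,
        (∑ a ∈ S, V (Fin.cons a g) * ∏ r : Fin s, F r.succ (Fin.cons a g)) ^ 2 := by
  rw [cs_sum_cons]
  have hc : ((Fintype.piFinset fun _ : Fin s => S).card : ℝ) = (S.card : ℝ) ^ s := by
    rw [Fintype.card_piFinset_const]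
    push_cast
    rfl
  refine sq_sum_le_card_mul_sum_sq.trans ?_
  rw [hc]
  refine mul_le_mul_of_nonneg_left (sum_le_sum fun g _ => ?_) (by positivity)
  rcases S.eq_empty_or_nonempty with rfl | ⟨a₀, -⟩
  · simp
  have e : ∀ a : H, F 0 (Fin.cons a g) = F 0 (Fin.cons a₀ g) := by
    intro a
    rw [← hF.2 0 (Fin.cons a₀ g) a]
    congr 1
    exact (Fin.update_cons_zero (α := fun _ => H) a₀ g a).symm
  have e2 : ∑ a ∈ S, V (Fin.cons a g) * ∏ r, F r (Fin.cons a g) =
      F 0 (Fin.cons a₀ g) *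
        ∑ a ∈ S, V (Fin.cons a g) * ∏ r : Fin s, F r.succ (Fin.cons a g) := by
    rw [mul_sum]
    refine sum_congr rfl fun a _ => ?_
    rw [Fin.prod_univ_succ, e a]
    ring
  rw [e2, mul_pow]
  refine mul_le_of_le_one_left (sq_nonneg _) ?_
  rw [← sq_abs]
  exact pow_le_one₀ (abs_nonneg _) (hF.1 _ _)

/-- With one variable the cut norm is the absolute value of the average. -/
theorem cut_one (S : Finset H) (U : H → ℝ) {b : ℝ} (h : |∑ a ∈ S, U a| ≤ b * S.card) :
    Cut (s := 1) S (fun h => U (h 0)) b := by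
  intro F hF
  rw [pow_one]
  rcases S.eq_empty_or_nonempty with rfl | ⟨a₀, -⟩
  · simp
  have e : ∀ g : Fin 1 → H, F 0 g = F 0 (fun _ => a₀) := by
    intro g
    rw [← hF.2 0 g a₀]
    congr 1
    funext i
    rw [Subsingleton.elim i 0, Function.update_self]
  have e2 : ∑ g ∈ Fintype.piFinset fun _ : Fin 1 => S, U (g 0) * ∏ r, F r g =
      F 0 (fun _ => a₀) * ∑ a ∈ S, U a := by
    rw [cs_sum_cons (s := 0), mul_sum]
    simp only [Fintype.piFinset_of_isEmpty, univ_unique, sum_singleton, Fin.cons_zero,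
      prod_singleton, Fin.default_eq_zero]
    refine sum_congr rfl fun a _ => ?_
    rw [e]
    ring
  rw [e2, abs_mul]
  exact (mul_le_of_le_one_left (abs_nonneg _) (hF.1 _ _)).trans h

end Pool.Agent.Lib.MP_0a3467_an.Cv
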