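import Pool.Agent.Lib.MP_0a3467_an.Cv.Sieve

open Finset

namespace Pool.Agent.Lib.MP_0a3467_an.Cv

lemma rough_nonneg (W R : ℕ) : 0 ≤ v0 W R :=
  vv_nonneg (fun _ => ⟨zero_le_one, le_rfl⟩) (fun _ hp => (Nat.mem_primesLE.1 hp).2) R

lemma rough_pairs (W a b : ℕ) {c : ℝ} (hc : 0 ≤ c) :
    bad (Ioc a b) (fun R => v0 W R / c) id ≤
      ∑ p ∈ (Ioc W b).filter Nat.Prime, (∑ R ∈ Ioc a b, if p ∣ R then v0 W R / c else 0) ^ 2 := by
  have h0 : ∀ p R : ℕ, 0 ≤ (if p ∣ R then v0 W R / c else 0) := fun p R => by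
    split_ifs
    · exact div_nonneg (rough_nonneg W R) hc
    · exact le_rfl
  simp only [sq, sum_mul_sum]
  rw [sum_comm]
  refine sum_le_sum fun R hR => ?_
  rw [sum_comm]
  refine sum_le_sum fun R' _ => ?_
  have hs : 0 ≤ ∑ p ∈ (Ioc W b).filter Nat.Prime,
      (if p ∣ R then v0 W R / c else 0) * (if p ∣ R' then v0 W R' / c else 0) :=
    sum_nonneg fun p _ => mul_nonneg (h0 p R) (h0 p R')
  by_cases hco : Nat.Coprime (id R) (id R')
  · rw [if_pos hco]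
    exact hs
  rw [if_neg hco]
  obtain ⟨p, hp, h1, h2⟩ := Nat.Prime.not_coprime_iff_dvd.1 hco
  by_cases hW : p ≤ W
  · have hz : v0 W R = 0 := v0_eq_zero hp hW h1
    refine le_trans (le_of_eq ?_) hs
    simp only [hz, zero_div, zero_mul]
  · have hR' := mem_Ioc.1 hR
    have hm : p ∈ (Ioc W b).filter Nat.Prime := mem_filter.2 ⟨mem_Ioc.2 ⟨by omega,
      (Nat.le_of_dvd (by simp only [id]; omega) h1).trans hR'.2⟩, hp⟩
    refine le_trans (le_of_eq ?_) (single_le_sum (f := fun p =>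
      (if p ∣ R then v0 W R / c else 0) * (if p ∣ R' then v0 W R' / c else 0))
      (fun p _ => mul_nonneg (h0 p R) (h0 p R')) hm)
    simp only [id] at h1 h2
    rw [if_pos h1, if_pos h2]

lemma rough_mult {W a b p : ℕ} (hab : a ≤ b) (hp : p.Prime) (hW : W < p) :
    ∑ R ∈ Ioc a b, (if p ∣ R then v0 W R else 0) ≤
      ((b : ℝ) - a) / p + 1 + (∏ q ∈ W.primesLE, q : ℕ) := by
  have hP : ∀ q ∈ W.primesLE, q.Prime := fun _ hq => (Nat.mem_primesLE.1 hq).2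
  have e1 : ∑ R ∈ Ioc a b, (if p ∣ R then v0 W R else 0) = ∑ t ∈ Ioc (a / p) (b / p), v0 W t := by
    rw [← sum_filter]
    symm
    refine sum_nbij' (fun t => p * t) (fun R => R / p) ?_ ?_ ?_ ?_ ?_
    · intro t ht
      obtain ⟨h1, h2⟩ := mem_Ioc.1 ht
      refine mem_filter.2 ⟨mem_Ioc.2 ⟨?_, ?_⟩, Dvd.intro _ rfl⟩
      · rw [mul_comm]
        exact (Nat.div_lt_iff_lt_mul hp.pos).1 h1
      · rw [mul_comm]
        exact (Nat.le_div_iff_mul_le hp.pos).1 h2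
    · intro R hR
      obtain ⟨h1, t, rfl⟩ := mem_filter.1 hR
      obtain ⟨h2, h3⟩ := mem_Ioc.1 h1
      rw [Nat.mul_div_cancel_left _ hp.pos]
      rw [mul_comm] at h2 h3
      exact mem_Ioc.2 ⟨(Nat.div_lt_iff_lt_mul hp.pos).2 h2, (Nat.le_div_iff_mul_le hp.pos).2 h3⟩
    · intro t _
      exact Nat.mul_div_cancel_left _ hp.pos
    · intro R hR
      exact Nat.mul_div_cancel' (mem_filter.1 hR).2
    · intro t _
      refine (vv_mul _ hP (fun q hq hd => ?_) t).symm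
      have h1 := (Nat.prime_dvd_prime_iff_eq (hP q hq) hp).1 hd
      have h2 := (Nat.mem_primesLE.1 hq).1
      omega
  have hle : a / p ≤ b / p := Nat.div_le_div_right hab
  have h := seg_le (vv_per (fun _ => (1 : ℝ)) W.primesLE) (prod_pos fun q hq => (hP q hq).pos)
    (rough_nonneg W) (a / p) (b / p - a / p)
  rw [vv_av (fun _ => ⟨zero_le_one, le_rfl⟩) hP, mul_one, Nat.add_sub_cancel' hle,
    Nat.cast_sub hle] at h
  rw [e1]
  refine h.trans ?_
  have h1 : ((b / p : ℕ) : ℝ) ≤ b / p := Nat.cast_div_le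
  have hp0 : (0 : ℝ) < p := by exact_mod_cast hp.pos
  have h2 : (a : ℝ) / p ≤ ((a / p : ℕ) : ℝ) + 1 := by
    rw [div_le_iff₀ hp0]
    have h3 : a < (a / p + 1) * p := (Nat.div_lt_iff_lt_mul hp.pos).1 (Nat.lt_succ_self _)
    exact_mod_cast h3.le
  rw [sub_div]
  linarith

/-- The weight of the pairs of rough numbers of a window that are not coprime. -/
theorem bad_rough {e : ℝ} (he : 0 < e) {η0 : ℝ} (hη0 : 0 < η0) :
    ∃ W0 : ℕ, ∀ W ≥ W0, ∃ X0 : ℝ, ∀ X η : ℝ, X0 ≤ X → η0 ≤ η → η ≤ 1 →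
      bad (Ioc ⌊X⌋₊ ⌊(1 + η) * X⌋₊) (fun R => v0 W R / (η * X)) id ≤ e := by
  refine ⟨⌈4 / e⌉₊ + 1, fun W hW => ?_⟩
  set Q : ℝ := ((∏ q ∈ W.primesLE, q : ℕ) : ℝ) with hQ
  have hQ0 : 0 ≤ Q := Nat.cast_nonneg _
  refine ⟨max 1 (8 * (2 + Q) ^ 2 / (η0 ^ 2 * e)), fun X η hX h0 h1 => ?_⟩
  have hX1 : 1 ≤ X := (le_max_left _ _).trans hX
  have hX2 : 8 * (2 + Q) ^ 2 / (η0 ^ 2 * e) ≤ X := (le_max_right _ _).trans hX
  have hη : 0 < η := hη0.trans_le h0
  have hc : 0 < η * X := by positivity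
  set a := ⌊X⌋₊ with ha
  set b := ⌊(1 + η) * X⌋₊ with hb
  have hab : a ≤ b := Nat.floor_le_floor (by nlinarith)
  have hb1 : (b : ℝ) ≤ (1 + η) * X := Nat.floor_le (by positivity)
  have ha1 : X < a + 1 := Nat.lt_floor_add_one X
  have hW0 : W ≠ 0 := by omega
  have hW1 : 4 / e ≤ W := (Nat.le_ceil _).trans (by exact_mod_cast (by omega))
  have hWp : (0 : ℝ) < W := by exact_mod_cast Nat.pos_of_ne_zero hW0
  refine (rough_pairs W a b hc.le).trans ?_
  have key : ∀ p ∈ (Ioc W b).filter Nat.Prime,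
      (∑ R ∈ Ioc a b, if p ∣ R then v0 W R / (η * X) else 0) ^ 2 ≤
        2 * ((p : ℝ) ^ 2)⁻¹ + 2 * ((2 + Q) / (η0 * X)) ^ 2 := by
    intro p hp
    obtain ⟨h2, h3⟩ := mem_filter.1 hp
    have h4 := rough_mult hab h3 (mem_Ioc.1 h2).1
    have hp1 : (1 : ℝ) ≤ p := by exact_mod_cast h3.one_le
    have e1 : (∑ R ∈ Ioc a b, if p ∣ R then v0 W R / (η * X) else 0) =
        (∑ R ∈ Ioc a b, if p ∣ R then v0 W R else 0) / (η * X) := by
      rw [sum_div]
      refine sum_congr rfl fun R _ => ?_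
      split_ifs <;> simp
    have h5 : ((b : ℝ) - a) / p ≤ η * X / p + 1 := by
      have h6 : ((b : ℝ) - a) / p ≤ (η * X + 1) / p := by
        gcongr
        linarith
      have h7 : 1 / (p : ℝ) ≤ 1 := (div_le_one (by linarith)).2 hp1
      rw [add_div] at h6
      linarith
    have h8 : (∑ R ∈ Ioc a b, if p ∣ R then v0 W R else 0) / (η * X) ≤
        (p : ℝ)⁻¹ + (2 + Q) / (η0 * X) := by
      have h9 : (∑ R ∈ Ioc a b, if p ∣ R then v0 W R else 0) / (η * X) ≤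
          (η * X / p + (2 + Q)) / (η * X) := by
        gcongr
        linarith
      have h10 : (η * X / p + (2 + Q)) / (η * X) = (p : ℝ)⁻¹ + (2 + Q) / (η * X) := by
        field_simp
      have h11 : (2 + Q) / (η * X) ≤ (2 + Q) / (η0 * X) := by gcongr
      linarith
    have h12 : 0 ≤ (∑ R ∈ Ioc a b, if p ∣ R then v0 W R else 0) / (η * X) := by
      refine div_nonneg (sum_nonneg fun R _ => ?_) hc.le
      split_ifs
      · exact rough_nonneg W R
      · exact le_rfl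
    rw [e1, ← inv_pow]
    refine (pow_le_pow_left₀ h12 h8 2).trans ?_
    nlinarith [sq_nonneg ((p : ℝ)⁻¹ - (2 + Q) / (η0 * X))]
  refine (sum_le_sum key).trans ((sum_le_sum_of_subset_of_nonneg (filter_subset _ _)
    fun p _ _ => by positivity).trans ?_)
  rw [sum_add_distrib, ← mul_sum, sum_const, nsmul_eq_mul, Nat.card_Ioc]
  have s1 : ∑ p ∈ Ioc W b, ((p : ℝ) ^ 2)⁻¹ ≤ e / 4 := by
    have h2 : (W : ℝ)⁻¹ ≤ e / 4 := by
      rw [inv_le_comm₀ hWp (by positivity), inv_div]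
      exact hW1
    rcases le_total W b with h3 | h3
    · have h4 := sum_Ioc_inv_sq_le_sub (α := ℝ) hW0 h3
      have h5 : (0 : ℝ) ≤ (b : ℝ)⁻¹ := by positivity
      linarith
    · rw [Ioc_eq_empty (by omega), sum_empty]
      positivity
  have s2 : ((b - W : ℕ) : ℝ) ≤ 2 * X := by
    have h2 : ((b - W : ℕ) : ℝ) ≤ b := by exact_mod_cast Nat.sub_le _ _
    nlinarith
  have s3 : 2 * X * (2 * ((2 + Q) / (η0 * X)) ^ 2) ≤ e / 2 := by
    rw [div_le_iff₀ (by positivity)] at hX2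
    have h2 : 2 * X * (2 * ((2 + Q) / (η0 * X)) ^ 2) = 4 * (2 + Q) ^ 2 / (η0 ^ 2 * X) := by
      field_simp
      ring
    rw [h2, div_le_iff₀ (by positivity)]
    nlinarith
  have s4 : ((b - W : ℕ) : ℝ) * (2 * ((2 + Q) / (η0 * X)) ^ 2) ≤
      2 * X * (2 * ((2 + Q) / (η0 * X)) ^ 2) := mul_le_mul_of_nonneg_right s2 (by positivity)
  linarith

end Pool.Agent.Lib.MP_0a3467_an.Cv
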