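import Pool.Agent.Lib.MP_0a3467_an.Cv.PerL

open Finset

namespace Pool.Agent.Lib.MP_0a3467_an.Cv

variable {q q' : ℕ} {W W' : ℕ × ℕ → ℝ}

theorem perm_eq (q : ℕ) (W : ℕ × ℕ → ℝ) : mean q W = av q fun a => av q fun b => W (a, b) := by
  simp only [mean, box, av, sum_product, ← sum_div, div_div, sq]

theorem perm_eq' (q : ℕ) (W : ℕ × ℕ → ℝ) : mean q W = av q fun b => av q fun a => W (a, b) := by
  simp only [mean, box, av, sum_product_right, ← sum_div, div_div, sq]

theorem perm_const (f : ℕ → ℝ) (q : ℕ) : (av q fun _ => av q f) = av q f := by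
  rcases Nat.eq_zero_or_pos q with rfl | hq
  · simp [av]
  · have : (q : ℝ) ≠ 0 := by positivity
    generalize av q f = c
    simp [av, mul_div_cancel_left₀ _ this]

theorem perm_snd (hW : Per q W) (a : ℕ) : Function.Periodic (fun b => W (a, b)) q :=
  fun b => (hW a b).2

theorem perm_fst (hW : Per q W) (b : ℕ) : Function.Periodic (fun a => W (a, b)) q :=
  fun a => (hW a b).1

theorem perm_av (hW : Per q W) (n : ℕ) :
    Function.Periodic (fun a => av n fun b => W (a, b)) q := fun a => by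
  simp only [(hW a _).1]

theorem perm_mul (hW : Per q W) (a b k : ℕ) :
    W (a + q * k, b) = W (a, b) ∧ W (a, b + q * k) = W (a, b) := by
  constructor
  · simpa [mul_comm] using (perm_fst hW b).nat_mul k a
  · simpa [mul_comm] using (perm_snd hW a).nat_mul k b

theorem mean_nonneg (h0 : ∀ z, 0 ≤ W z) (q : ℕ) : 0 ≤ mean q W :=
  div_nonneg (sum_nonneg fun z _ => h0 z) (sq_nonneg _)

theorem Per.of_dvd (hW : Per q W) (h : q ∣ q') : Per q' W := by
  obtain ⟨k, rfl⟩ := h
  exact fun a b => perm_mul hW a b k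

theorem Per.comp (hW : Per q W) (φ : ℝ → ℝ) : Per q fun z => φ (W z) :=
  fun a b => ⟨congrArg φ (hW a b).1, congrArg φ (hW a b).2⟩

theorem Per.mul (hW : Per q W) (hW' : Per q' W') : Per (q * q') fun z => W z * W' z := by
  intro a b
  have h1 := hW.of_dvd (dvd_mul_right q q') a b
  have h2 := hW'.of_dvd (dvd_mul_left q' q) a b
  exact ⟨by simp only [h1.1, h2.1], by simp only [h1.2, h2.2]⟩

theorem Per.affine (hW : Per q W) (x : ℕ × ℕ) (A : ℕ) : Per q fun z => W (x + A • z) := by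
  obtain ⟨x, y⟩ := x
  intro a b
  have h := perm_mul hW (x + A * a) (y + A * b) A
  simp only [Prod.smul_mk, Prod.mk_add_mk, smul_eq_mul, mul_add, ← add_assoc, mul_comm A q]
  exact h

theorem Per.add_smul (hW : Per q W) (x z : ℕ × ℕ) : W (x + q • z) = W x := by
  obtain ⟨x, y⟩ := x
  obtain ⟨a, b⟩ := z
  simp only [Prod.smul_mk, Prod.mk_add_mk, smul_eq_mul]
  rw [(perm_mul hW _ _ _).1, (perm_mul hW _ _ _).2]

theorem per_fst {f : ℕ → ℝ} (hf : Function.Periodic f q) : Per q fun z => f z.1 :=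
  fun a _ => ⟨hf a, rfl⟩

theorem mean_fst (f : ℕ → ℝ) (q : ℕ) : mean q (fun z => f z.1) = av q f := by
  rw [perm_eq']
  exact perm_const f q

theorem mean_shift (hW : Per q W) (x : ℕ × ℕ) : mean q (fun z => W (x + z)) = mean q W := by
  obtain ⟨x, y⟩ := x
  simp only [perm_eq, Prod.mk_add_mk, fun a => av_shift (perm_snd hW a) y]
  exact av_shift (perm_av hW q) x

theorem mean_affine (hW : Per q W) {A : ℕ} (hA : Nat.Coprime A q) (x : ℕ × ℕ) :
    mean q (fun z => W (x + A • z)) = mean q W := by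
  obtain ⟨x, y⟩ := x
  simp only [perm_eq, Prod.smul_mk, Prod.mk_add_mk, smul_eq_mul,
    fun a => av_affine (perm_snd hW a) hA y]
  exact av_affine (perm_av hW q) hA x

theorem mean_mul_period (hW : Per q W) {k : ℕ} (hk : 0 < k) : mean (q * k) W = mean q W := by
  simp only [perm_eq, fun a => av_mul_period (perm_snd hW a) hk]
  exact av_mul_period (perm_av hW q) hk

theorem mean_mul (hW : Per q W) (hW' : Per q' W') (hc : Nat.Coprime q q') :
    mean (q * q') (fun z => W z * W' z) = mean q W * mean q' W' := by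
  simp only [perm_eq, fun a => av_mul (perm_snd hW a) (perm_snd hW' a) hc]
  exact av_mul (perm_av hW q) (perm_av hW' q') hc

theorem per_prod {ι : Type} (T : Finset ι) (q : ι → ℕ) (W : ι → ℕ × ℕ → ℝ)
    (hW : ∀ i ∈ T, Per (q i) (W i)) : Per (∏ i ∈ T, q i) fun z => ∏ i ∈ T, W i z := by
  intro a b
  exact ⟨prod_congr rfl fun i hi => ((hW i hi).of_dvd (dvd_prod_of_mem q hi) a b).1,
    prod_congr rfl fun i hi => ((hW i hi).of_dvd (dvd_prod_of_mem q hi) a b).2⟩

theorem mean_prod {ι : Type} (T : Finset ι) (q : ι → ℕ) (W : ι → ℕ × ℕ → ℝ)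
    (hW : ∀ i ∈ T, Per (q i) (W i))
    (hc : ∀ i ∈ T, ∀ j ∈ T, i ≠ j → Nat.Coprime (q i) (q j)) :
    mean (∏ i ∈ T, q i) (fun z => ∏ i ∈ T, W i z) = ∏ i ∈ T, mean (q i) (W i) := by
  simp only [perm_eq, fun a => av_prod T q (fun i b => W i (a, b))
    (fun i hi => perm_snd (hW i hi) a) hc]
  exact av_prod T q (fun i a => av (q i) fun b => W i (a, b)) (fun i hi => perm_av (hW i hi) _) hc

theorem per_form {f : ℕ → ℝ} (hf : Function.Periodic f q) (j : ℕ) :
    Per q fun z => f (z.1 + j * z.2) := by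
  intro a b
  constructor
  · simp only [add_right_comm a q]
    exact hf _
  · simp only [mul_add, ← add_assoc]
    simpa using hf.nat_mul j (a + j * b)

theorem mean_form {f : ℕ → ℝ} (hf : Function.Periodic f q) (j : ℕ) :
    mean q (fun z => f (z.1 + j * z.2)) = av q f := by
  simp only [perm_eq', add_comm _ (j * _), av_shift hf]
  exact perm_const f q

theorem rect_le (hW : Per q W) (hq : 0 < q) (h0 : ∀ z, 0 ≤ W z) (a n b m : ℕ) :
    ∑ z ∈ Ioc a (a + n) ×ˢ Ioc b (b + m), W z ≤ ((n : ℝ) + q) * ((m : ℝ) + q) * mean q W := by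
  rw [sum_product, perm_eq, mul_comm ((n : ℝ) + q), mul_assoc]
  refine (sum_le_sum fun x _ => seg_le (perm_snd hW x) hq (fun _ => h0 _) b m).trans ?_
  rw [← mul_sum]
  exact mul_le_mul_of_nonneg_left
    (seg_le (perm_av hW q) hq (fun _ => av_nonneg (fun _ => h0 _) _) a n) (by positivity)

theorem rect_ge (hW : Per q W) (hq : 0 < q) (h0 : ∀ z, 0 ≤ W z) (a n b m : ℕ) (hn : q ≤ n)
    (hm : q ≤ m) :
    ((n : ℝ) - q) * ((m : ℝ) - q) * mean q W ≤ ∑ z ∈ Ioc a (a + n) ×ˢ Ioc b (b + m), W z := by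
  rw [sum_product, perm_eq, mul_comm ((n : ℝ) - q), mul_assoc]
  refine le_trans ?_ (sum_le_sum fun x _ => seg_ge (perm_snd hW x) hq (fun _ => h0 _) b m)
  rw [← mul_sum]
  exact mul_le_mul_of_nonneg_left
    (seg_ge (perm_av hW q) hq (fun _ => av_nonneg (fun _ => h0 _) _) a n)
    (sub_nonneg.2 (Nat.cast_le.2 hm))

/-- A periodic function of mean zero has a small sum over a large box. -/
theorem box_zero (hW : Per q W) (hq : 0 < q) {C : ℝ} (h0 : mean q W = 0)
    (hC : mean q (fun z => |W z|) ≤ C) {H : ℕ} (hH : q ≤ H) :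
    |∑ z ∈ box H, W z| ≤ 2 * C * q * H := by
  have p1 : ∀ z, 0 ≤ |W z| + W z := fun z => by linarith [neg_abs_le (W z)]
  have p2 : ∀ z, 0 ≤ |W z| - W z := fun z => by linarith [le_abs_self (W z)]
  have a1 := rect_le (hW.comp fun t => |t| + t) hq p1 0 H 0 H
  have a2 := rect_ge (hW.comp fun t => |t| + t) hq p1 0 H 0 H hH hH
  have a3 := rect_le (hW.comp fun t => |t| - t) hq p2 0 H 0 H
  have a4 := rect_ge (hW.comp fun t => |t| - t) hq p2 0 H 0 H hH hH
  have e1 : mean q (fun z => |W z| + W z) = mean q fun z => |W z| := by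
    rw [mean, sum_add_distrib, add_div, ← mean, ← mean, h0, add_zero]
  have e2 : mean q (fun z => |W z| - W z) = mean q fun z => |W z| := by
    rw [mean, sum_sub_distrib, sub_div, ← mean, ← mean, h0, sub_zero]
  rw [e1, zero_add, sum_add_distrib] at a1 a2
  rw [e2, zero_add, sum_sub_distrib] at a3 a4
  have h1 : (q : ℝ) * H * mean q (fun z => |W z|) ≤ q * H * C :=
    mul_le_mul_of_nonneg_left hC (by positivity)
  rw [box, abs_le]
  constructor <;> nlinarith

end Pool.Agent.Lib.MP_0a3467_an.Cv
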