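import Pool.Agent.Lib.MP_0a3467_an.Cv.LowL
import Pool.Agent.Lib.MP_0a3467_an.Cv.PerM

open Finset

namespace Pool.Agent.Lib.MP_0a3467_an.Cv

variable {l N : ℕ}

theorem struct_card (N : ℕ) : ((box N).card : ℝ) = (N : ℝ) ^ 2 := by
  simp [box, sq]

theorem struct_form (j : Fin (l + 1)) {H : ℕ} {z : ℕ × ℕ} (hz : z ≤ (H, H)) :
    z.1 + j * z.2 ≤ (l + 1) * H := by
  have h1 : z.1 ≤ H := hz.1
  have h2 : j * z.2 ≤ l * H := Nat.mul_le_mul (Nat.lt_succ_iff.1 j.2) hz.2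
  linarith

theorem struct_one {ι : Type} [Fintype ι] {s : ℕ} {H : Type} {B : Set H}
    {G : ι → (Fin s → H) → ℝ} (h : ∀ i, Low B 1 (G i)) : Low B 1 fun x => ∏ i, G i x := by
  simpa using Low.prod (Ms := fun _ => 1) univ fun i _ => h i

theorem Pr_le {f : Om l} (hf : ∀ j x, |f j x| ≤ 1) (z : ℕ × ℕ) : |Pr l f z| ≤ 1 := by
  rw [Pr, abs_prod]
  exact prod_le_one (fun _ _ => abs_nonneg _) fun _ _ => hf _ _

theorem struct_sum {f : Om l} (hf : ∀ j x, |f j x| ≤ 1) (S : Finset (ℕ × ℕ)) :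
    |∑ z ∈ S, Pr l f z| ≤ S.card :=
  (abs_sum_le_sum_abs _ _).trans (by simpa using sum_le_card_nsmul S _ 1 fun z _ => Pr_le hf z)

theorem LS_le {f : Om l} (hf : ∀ j x, |f j x| ≤ 1) (N : ℕ) : |LS l N f| ≤ (N : ℝ) ^ 2 :=
  struct_card N ▸ struct_sum hf _

theorem Lam_le {f : Om l} (hf : ∀ j x, |f j x| ≤ 1) (N : ℕ) : |Lam l N f| ≤ 1 := by
  rw [Lam, abs_div, abs_of_nonneg (sq_nonneg (N : ℝ))]
  exact div_le_one_of_le₀ (LS_le hf N) (sq_nonneg _)

theorem LS_sub_le {f : Om l} (hf : ∀ j x, |f j x| ≤ 1) {k N : ℕ} (hk : k ≤ N) :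
    |LS l N f - LS l k f| ≤ (N : ℝ) ^ 2 - (k : ℝ) ^ 2 := by
  have hs : box k ⊆ box N :=
    product_subset_product (Ioc_subset_Ioc_right hk) (Ioc_subset_Ioc_right hk)
  rw [LS, LS, ← sum_sdiff_eq_sub hs, ← struct_card, ← struct_card, ← cast_card_sdiff hs]
  exact struct_sum hf _

theorem Lam_smul (M : Fin (l + 1) → ℝ) (f : Om l) (N : ℕ) :
    Lam l N (fun j x => M j * f j x) = (∏ j, M j) * Lam l N f := by
  simp only [Lam, LS, Pr, prod_mul_distrib, ← mul_sum, mul_div_assoc]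

theorem Pr_smul (f : Om l) (r : ℕ) (z : ℕ × ℕ) : Pr l f (r • z) = Pr l (dl r f) z := by
  refine prod_congr rfl fun j _ => ?_
  simp only [dl, dil, Prod.smul_fst, Prod.smul_snd, smul_eq_mul]
  congr 1
  ring

theorem struct_lin (j A : ℕ) (x : ℕ × ℕ) (h : Fin (l + 1) → ℕ × ℕ) :
    (x + A • ∑ r, h r).1 + j * (x + A • ∑ r, h r).2 =
      x.1 + j * x.2 + A * ∑ r, ((h r).1 + j * (h r).2) := by
  simp only [Prod.fst_add, Prod.snd_add, Prod.smul_fst, Prod.smul_snd, smul_eq_mul, Prod.fst_sum,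
    Prod.snd_sum, sum_add_distrib, ← mul_sum]
  ring

theorem str_Pr {g : Om l} (hg : ∀ j, Str l 1 N (g j)) {H : ℕ} (hH : (l + 1) * H ≤ N)
    (x : ℕ × ℕ) :
    Low (s := l + 1) (Set.Iic (H, H)) 1 fun h => Pr l g (x + l.factorial • ∑ r, h r) := by
  simp only [Pr, struct_lin]
  exact struct_one fun j => (hg j (x.1 + j * x.2)).comp (fun z : ℕ × ℕ => z.1 + j * z.2)
    fun z hz => (struct_form j hz).trans hH

theorem str_line {g : Om l} (hg : ∀ j, Str l 1 N (g j)) {Q Y H : ℕ}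
    (hH : Q * (l + 1) * Y * H ≤ N) (x : ℕ) :
    Low (s := l + 1) (Set.Iic H) 1
      fun t => Lam l Y (dl (x + l.factorial * Q * ∑ r, t r) g) := by
  have h1 : ∀ z ∈ box Y, Low (s := l + 1) (Set.Iic H) 1
      fun t => Pr l (dl (x + l.factorial * Q * ∑ r, t r) g) z := fun z hz => by
    have hz' : z ≤ (Y, Y) := by
      simp only [box, mem_product, mem_Ioc] at hz
      exact ⟨hz.1.2, hz.2.2⟩
    refine struct_one fun j => ((hg j (x * (z.1 + j * z.2))).comp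
      (fun t : ℕ => Q * (z.1 + j * z.2) * t) fun t ht => ?_).congr fun t _ => ?_
    · refine le_trans ?_ hH
      rw [mul_assoc Q (l + 1)]
      exact Nat.mul_le_mul (Nat.mul_le_mul_left _ (struct_form j hz')) ht
    · simp only [dl, dil, ← mul_sum]
      congr 1
      ring
  refine (((Low.sum (box Y) h1).smul ((Y : ℝ) ^ 2)⁻¹).mono ?_).congr fun t _ => ?_
  · rw [sum_const, nsmul_eq_mul, mul_one, struct_card, abs_of_nonneg (by positivity)]
    exact inv_mul_le_one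
  · rw [Lam, LS, div_eq_inv_mul]

theorem str_Kq {q : Fin (l + 1) → ℕ} (hq : ∀ j, 0 < q j) {g : Om l}
    (hg : ∀ j, Str l 1 (N / q j) (g j)) {H : ℕ} (hH : (∏ j, q j) * (l + 1) * H ≤ N) (x : ℕ × ℕ) :
    Low (s := l + 1) (Set.Iic (H, H)) (rq l q x)
      fun h => Kq l q g (x + (l.factorial * ∏ j, q j) • ∑ r, h r) := by
  simp only [Kq, rq, struct_lin]
  refine Low.prod univ fun j _ => ?_
  obtain ⟨c, hc⟩ : q j ∣ ∏ j, q j := dvd_prod_of_mem _ (mem_univ j)
  have e : ∀ n : ℕ, l.factorial * (∏ j, q j) * n = q j * (l.factorial * (c * n)) := fun n => by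
    rw [hc]; ring
  simp only [e, Nat.dvd_add_left (dvd_mul_right _ _), Nat.add_mul_div_left _ _ (hq j)]
  split_ifs
  · have h1 := ((hg j ((x.1 + j * x.2) / q j)).comp (B' := Set.Iic (H, H))
      (fun z : ℕ × ℕ => c * (z.1 + j * z.2)) fun z hz => by
        refine (Nat.le_div_iff_mul_le (hq j)).2 (le_trans ?_ hH)
        rw [hc, mul_assoc (q j * c), mul_comm _ (q j), ← mul_assoc]
        exact Nat.mul_le_mul_left _ (struct_form j hz)).smul (q j)
    simpa only [Nat.abs_cast, mul_one, ← mul_sum] using h1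
  · exact Low.const (by simp)

theorem rq_nonneg (q : Fin (l + 1) → ℕ) (z : ℕ × ℕ) : 0 ≤ rq l q z :=
  prod_nonneg fun j _ => by split_ifs <;> positivity

theorem Kq_le (q : Fin (l + 1) → ℕ) {g : Om l} (hg : ∀ j x, |g j x| ≤ 1) (z : ℕ × ℕ) :
    |Kq l q g z| ≤ rq l q z := by
  rw [Kq, abs_prod]
  refine prod_le_prod (fun _ _ => abs_nonneg _) fun j _ => ?_
  split_ifs
  · rw [abs_mul, Nat.abs_cast]
    exact mul_le_of_le_one_right (Nat.cast_nonneg _) (hg _ _)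
  · simp

theorem struct_periodic (r : ℕ) (c : ℝ) :
    Function.Periodic (fun x : ℕ => if r ∣ x then c else 0) r := fun x => by
  simp only [Nat.dvd_add_self_right]

theorem struct_per (q : Fin (l + 1) → ℕ) : Per (∏ j, q j) (rq l q) :=
  per_prod univ q _ fun j _ => per_form (struct_periodic (q j) (q j)) j

theorem rq_per (q : Fin (l + 1) → ℕ) : Per (l.factorial * ∏ j, q j) (rq l q) :=
  (struct_per q).of_dvd (dvd_mul_left _ _)

theorem rq_mean {q : Fin (l + 1) → ℕ} (hq : ∀ j, 0 < q j)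
    (hc : ∀ i j, i ≠ j → Nat.Coprime (q i) (q j)) :
    mean (l.factorial * ∏ j, q j) (rq l q) = 1 := by
  rw [mul_comm, mean_mul_period (struct_per q) l.factorial_pos]
  refine (mean_prod univ q _ (fun j _ => per_form (struct_periodic (q j) (q j)) j)
    fun i _ j _ => hc i j).trans (prod_eq_one fun j _ => ?_)
  rw [mean_form (struct_periodic (q j) (q j)), av_dvd (hq j)]
  exact div_self (Nat.cast_pos.2 (hq j)).ne'

end Pool.Agent.Lib.MP_0a3467_an.Cv
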