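import Pool.Agent.Lib.MP_0a3467_an.Cv.Dil2
import Pool.Agent.Lib.MP_0a3467_an.Cv.Struct
import Pool.Agent.Lib.MP_0a3467_an.Cv.Rough

open Finset

namespace Pool.Agent.Lib.MP_0a3467_an.Cv

theorem chBase_pt {l : ℕ} {g : Om l} (hg : ∀ j x, |g j x| ≤ 1) {Y R : ℕ} {X η : ℝ} (hY : 1 ≤ Y)
    (hX : 0 < X) (hη1 : η ≤ 1) (h1 : X ≤ R) (h2 : (R : ℝ) ≤ (1 + η) * X) :
    |Lam l Y g - (R : ℝ) ^ 2 * LS l (⌊X * Y⌋₊ / R) g / (X * Y) ^ 2| ≤ 5 * η + 2 / Y := by
  have hY1 : (1 : ℝ) ≤ Y := by exact_mod_cast hY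
  have hR : (0 : ℝ) < R := by linarith
  set t : ℝ := R / X with ht
  have ht1 : 1 ≤ t := by rw [ht, le_div_iff₀ hX]; linarith
  have ht2 : t ≤ 1 + η := by rw [ht, div_le_iff₀ hX]; linarith
  have hfl : ⌊X * Y⌋₊ / R = ⌊(Y : ℝ) / t⌋₊ := by
    rw [← Nat.floor_div_natCast]; congr 1; rw [ht]; field_simp
  rw [hfl]
  set k := ⌊(Y : ℝ) / t⌋₊ with hk
  have hYt : (Y : ℝ) / t ≤ Y := div_le_self (by linarith) ht1
  have hkY' : (k : ℝ) ≤ Y := (Nat.floor_le (by positivity)).trans hYt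
  have hkY : k ≤ Y := by exact_mod_cast hkY'
  have hk0 : (0 : ℝ) ≤ k := Nat.cast_nonneg _
  have hk2 : (Y : ℝ) - k ≤ η * Y + 1 := by
    have e1 : (Y : ℝ) / t < k + 1 := Nat.lt_floor_add_one _
    have e2 : (1 - η) * Y ≤ (Y : ℝ) / t := by
      rw [le_div_iff₀ (by linarith)]
      have : (1 - η) * t ≤ 1 := by nlinarith
      nlinarith
    linarith
  have a1 := LS_sub_le hg hkY
  have a2 := LS_le hg k
  have e1 : Lam l Y g - (R : ℝ) ^ 2 * LS l k g / (X * Y) ^ 2 =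
      ((LS l Y g - LS l k g) - (t ^ 2 - 1) * LS l k g) / (Y : ℝ) ^ 2 := by
    rw [Lam, ht]; field_simp; ring
  rw [e1, abs_div, abs_of_pos (show (0 : ℝ) < (Y : ℝ) ^ 2 by positivity),
    div_le_iff₀ (by positivity)]
  refine (abs_sub _ _).trans ?_
  have ht3 : 0 ≤ t ^ 2 - 1 := by nlinarith
  have ht4 : t ^ 2 - 1 ≤ 3 * η := by nlinarith
  rw [abs_mul, abs_of_nonneg ht3]
  have a3 : (t ^ 2 - 1) * |LS l k g| ≤ 3 * η * (Y : ℝ) ^ 2 :=
    mul_le_mul ht4 (a2.trans (by gcongr)) (abs_nonneg _) (by linarith)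
  have a4 : (Y : ℝ) ^ 2 - (k : ℝ) ^ 2 ≤ (η * Y + 1) * (2 * Y) := by
    rw [sq_sub_sq, mul_comm]
    exact mul_le_mul hk2 (by linarith) (by positivity) (by linarith)
  have a5 : (5 * η + 2 / Y) * (Y : ℝ) ^ 2 = 3 * η * (Y : ℝ) ^ 2 + (η * Y + 1) * (2 * Y) := by
    field_simp; ring
  linarith

theorem chBase_core (l W : ℕ) (hW : l ≤ W) (Y c : ℕ) (X η δ : ℝ) (hη : 0 < η) (hη1 : η ≤ 1)
    (hX : 1 ≤ X) (hY : X ^ 2 ^ l ≤ Y) (hδ0 : 0 < δ) (hδ1 : δ ≤ 1)
    (hc : (2 : ℝ) ^ 2 ^ l ≤ δ ^ 2 ^ l * c) (hc2 : (((l + 1) * l.factorial * c : ℕ) : ℝ) ≤ X)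
    (hQ : 1 + ((∏ p ∈ W.primesLE, p : ℕ) : ℝ) ≤ η * X)
    (hb : 4 ^ l * bad (Ioc ⌊X⌋₊ ⌊(1 + η) * X⌋₊) (fun R => v0 W R / (η * X)) id ≤ δ ^ 2 ^ l) :
    Ok l W η Y X (10 * η + 4 / X + 80 * δ + 64 * (((l + 1) * l.factorial * c : ℕ) : ℝ) / X +
      (1 + ((∏ p ∈ W.primesLE, p : ℕ) : ℝ)) / (η * X)) := by
  intro g hg
  set QW := ∏ p ∈ W.primesLE, p with hQW
  set c3 := (l + 1) * l.factorial * c with hc3
  have hPp : ∀ p ∈ W.primesLE, p.Prime := fun p hp => (Nat.mem_primesLE.1 hp).2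
  have hQW0 : 0 < QW := prod_pos fun p hp => (hPp p hp).pos
  have hQW0' : (0 : ℝ) ≤ QW := Nat.cast_nonneg _
  have hX0 : 0 < X := by linarith
  have hηX : 0 < η * X := by positivity
  have hXY : X ≤ Y := le_trans (le_self_pow₀ hX (by positivity)) hY
  have hY1 : (1 : ℝ) ≤ Y := hX.trans hXY
  have hY1' : 1 ≤ Y := by exact_mod_cast hY1
  set N := ⌊X * Y⌋₊ with hN
  set a := ⌊X⌋₊ with ha
  set b := ⌊(1 + η) * X⌋₊ with hbdef
  have hab : a ≤ b := Nat.floor_mono (by nlinarith)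
  obtain ⟨n, hn⟩ := Nat.exists_eq_add_of_le hab
  have hb1 : (b : ℝ) ≤ (1 + η) * X := Nat.floor_le (by positivity)
  have hb2 : (1 + η) * X < b + 1 := Nat.lt_floor_add_one _
  have ha1 : (a : ℝ) ≤ X := Nat.floor_le hX0.le
  have ha2 : X < a + 1 := Nat.lt_floor_add_one X
  have hn0 : (b : ℝ) = a + n := by exact_mod_cast hn
  have ha01 : ∀ p : ℕ, 0 ≤ (fun _ => (1 : ℝ)) p ∧ (fun _ => (1 : ℝ)) p ≤ 1 := fun _ => by simp
  have hv0 : ∀ R, 0 ≤ v0 W R := vv_nonneg ha01 hPp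
  set V := ∑ R ∈ Ioc a b, v0 W R with hV
  have hV1 : V ≤ η * X + (1 + QW) := by
    have := seg_le (vv_per (fun _ => 1) W.primesLE) hQW0 hv0 a n
    rw [vv_av ha01 hPp, ← hn, ← hQW] at this
    have e : V ≤ ((n : ℝ) + QW) * 1 := this
    linarith
  have hV2 : η * X - (1 + QW) ≤ V := by
    have := seg_ge (vv_per (fun _ => 1) W.primesLE) hQW0 hv0 a n
    rw [vv_av ha01 hPp, ← hn, ← hQW] at this
    have e : ((n : ℝ) - QW) * 1 ≤ V := this
    linarith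
  have hg1 : ∀ j x, |g j x| ≤ 1 := fun j x => (hg j).bound x
  set T := (Ioc a b).filter fun R => v0 W R ≠ 0 with hT
  set π : ℕ → ℝ := fun R => v0 W R / (2 * (η * X)) with hπ
  have hπ0 : ∀ R, 0 ≤ π R := fun R => div_nonneg (hv0 R) (by positivity)
  have hTs : ∀ F : ℕ → ℝ, ∑ R ∈ Ioc a b, v0 W R * F R = 2 * (η * X) * ∑ R ∈ T, π R * F R := by
    intro F
    rw [hT, sum_filter_of_ne, mul_sum]
    · refine sum_congr rfl fun R _ => ?_
      rw [hπ]; field_simp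
    · intro R _ h h0
      exact h (by simp [hπ, h0])
  have hπ1 : ∑ R ∈ T, π R ≤ 1 := by
    have := hTs fun _ => 1
    simp only [mul_one] at this
    have e : 2 * (η * X) * ∑ R ∈ T, π R ≤ 2 * (η * X) * 1 := by rw [← this]; linarith
    exact le_of_mul_le_mul_left e (by positivity)
  have hbad : 4 ^ l * bad T π id ≤ δ ^ 2 ^ l := by
    refine le_trans ?_ hb
    gcongr
    have hle : ∀ R, π R ≤ v0 W R / (η * X) := fun R =>
      div_le_div_of_nonneg_left (hv0 R) hηX (by linarith)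
    have h0 : ∀ R, 0 ≤ v0 W R / (η * X) := fun R => div_nonneg (hv0 R) hηX.le
    unfold bad
    refine le_trans (sum_le_sum fun R _ => ?_) (sum_le_sum_of_subset_of_nonneg
      (filter_subset _ _) fun R _ _ => sum_nonneg fun R' _ => ?_)
    · refine le_trans (sum_le_sum fun R' _ => ?_) (sum_le_sum_of_subset_of_nonneg
        (filter_subset _ _) fun R' _ _ => ?_)
      · split_ifs
        · exact le_rfl
        · exact mul_le_mul (hle R) (hle R') (hπ0 R') (h0 R)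
      · split_ifs
        · exact le_rfl
        · exact mul_nonneg (h0 R) (h0 R')
    · split_ifs
      · exact le_rfl
      · exact mul_nonneg (h0 R) (h0 R')
  have hf1 : 1 ≤ l.factorial := Nat.factorial_pos l
  have hDN : (l + 1) * l.factorial * (c * Y) ≤ N := Nat.le_floor (by
    have : (((l + 1) * l.factorial * (c * Y) : ℕ) : ℝ) = c3 * Y := by rw [hc3]; push_cast; ring
    rw [this]; gcongr)
  have d2 := dil2 l T π (Pr l g) (fun _ => 1) l.factorial b (c * Y) N 1 δ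
    (fun R _ => hπ0 R) hπ1
    (fun R hR => by
      obtain ⟨h3, h4⟩ := mem_filter.1 hR
      obtain ⟨h5, h6⟩ := mem_Ioc.1 h3
      refine ⟨by omega, h6, Nat.coprime_of_dvd fun p hp h7 h8 => h4 (v0_eq_zero hp ?_ h8)⟩
      exact ((hp.dvd_factorial).1 h7).trans hW)
    hδ0 hδ1 hbad
    (by
      calc (b : ℝ) ^ 2 ^ l ≤ (2 * X) ^ 2 ^ l := by gcongr; nlinarith
        _ = 2 ^ 2 ^ l * X ^ 2 ^ l := mul_pow _ _ _
        _ ≤ δ ^ 2 ^ l * c * Y := by gcongr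
        _ = _ := by push_cast; ring)
    hf1 (fun _ _ => ⟨rfl, rfl⟩)
    (by
      have : (l.factorial : ℝ) ≠ 0 := by positivity
      simp only [mean, box, sum_const, card_product, Nat.card_Ioc, nsmul_eq_mul]
      simp only [Nat.sub_zero, Nat.cast_mul, mul_one]
      rw [div_le_one (by positivity)]
      exact le_of_eq (by ring))
    (Pr_le hg1)
    (str_Pr hg (le_trans (by gcongr; exact Nat.le_mul_of_pos_right _ hf1) hDN)) hDN
  have hXY0 : 0 < X * Y := by positivity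
  have hNr : (N : ℝ) ≤ X * Y := Nat.floor_le hXY0.le
  have hN0 : (0 : ℝ) ≤ N := Nat.cast_nonneg _
  set E : ℕ → ℝ := fun R =>
    |(R : ℝ) ^ 2 * ∑ z ∈ box (N / R), Pr l g (R • z) - ∑ z ∈ box N, Pr l g z| with hE
  have d3 : (∑ R ∈ T, π R * E R) / (X * Y) ^ 2 ≤ 40 * δ + 32 * c3 / X := by
    refine (div_le_div_of_nonneg_right d2 (by positivity)).trans ?_
    rw [one_mul, add_div]
    refine add_le_add ?_ ?_
    · rw [div_le_iff₀ (by positivity)]
      gcongr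
    · calc 32 * (((l : ℝ) + 1) * l.factorial * ((c * Y : ℕ) : ℝ)) * N / (X * Y) ^ 2
          ≤ 32 * (((l : ℝ) + 1) * l.factorial * ((c * Y : ℕ) : ℝ)) * (X * Y) / (X * Y) ^ 2 := by
            gcongr
        _ = _ := by rw [hc3]; push_cast; field_simp
  set P := Tp l (X * Y) g with hP
  have hP1 : |P| ≤ 1 := by
    rw [hP, Tp, abs_div, abs_of_pos (show 0 < (X * Y) ^ 2 by positivity),
      div_le_one (by positivity)]
    exact (LS_le hg1 _).trans (by gcongr)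
  have key : ∀ R ∈ Ioc a b, |v0 W R * (Lam l Y (dl R g) - P)| ≤
      v0 W R * (5 * η + 2 / X) + v0 W R * E R / (X * Y) ^ 2 := by
    intro R hR
    obtain ⟨h5, h6⟩ := mem_Ioc.1 hR
    have h7 : (a : ℝ) + 1 ≤ R := by exact_mod_cast h5
    have h8 : (R : ℝ) ≤ b := by exact_mod_cast h6
    have h9 := chBase_pt (g := dl R g) (fun j x => hg1 j _) hY1' hX0 hη1 (R := R) (by linarith)
      (by linarith)
    have h10 : E R / (X * Y) ^ 2 =
        |(R : ℝ) ^ 2 * LS l (N / R) (dl R g) / (X * Y) ^ 2 - P| := by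
      rw [hE, hP, Tp, ← sub_div, abs_div, abs_of_pos (show 0 < (X * Y) ^ 2 by positivity)]
      simp only [LS, Pr_smul, ← hN]
    rw [abs_mul, abs_of_nonneg (hv0 R), mul_div_assoc, ← mul_add, h10]
    refine mul_le_mul_of_nonneg_left ((abs_sub_le _ _ _).trans (add_le_add (h9.trans ?_) le_rfl))
      (hv0 R)
    gcongr
  have e1 : Tm l (v0 W) η Y X g - P =
      (∑ R ∈ Ioc a b, v0 W R * (Lam l Y (dl R g) - P)) / (η * X) + (V - η * X) / (η * X) * P := by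
    simp only [Tm, mul_sub, sum_sub_distrib, ← sum_mul, ← hV, ← ha, ← hbdef]
    field_simp
    ring
  have e2 : |∑ R ∈ Ioc a b, v0 W R * (Lam l Y (dl R g) - P)| ≤
      2 * (η * X) * (5 * η + 2 / X) + 2 * (η * X) * (40 * δ + 32 * c3 / X) := by
    refine (abs_sum_le_sum_abs _ _).trans ((sum_le_sum key).trans ?_)
    rw [sum_add_distrib, ← sum_mul, ← sum_div, hTs E, mul_div_assoc, ← hV]
    gcongr
    linarith
  rw [e1]
  refine (abs_add_le _ _).trans ?_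
  have e3 : |(V - η * X) / (η * X) * P| ≤ (1 + QW) / (η * X) := by
    rw [abs_mul, abs_div, abs_of_pos hηX]
    refine (mul_le_of_le_one_right (by positivity) hP1).trans ?_
    gcongr
    rw [abs_le]; constructor <;> linarith
  have e4 : |(∑ R ∈ Ioc a b, v0 W R * (Lam l Y (dl R g) - P)) / (η * X)| ≤
      10 * η + 4 / X + 80 * δ + 64 * c3 / X := by
    rw [abs_div, abs_of_pos hηX, div_le_iff₀ hηX]
    refine e2.trans (le_of_eq ?_)
    ring
  linarith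

/-- CHAIN, base. -/
theorem chain_base (l : ℕ) {e : ℝ} (he : 0 < e) {η0 : ℝ} (hη0 : 0 < η0) :
    ∃ W0 : ℕ, ∀ W ≥ W0, ∃ X0 : ℝ, ∀ (Y : ℕ) (X η : ℝ), X0 ≤ X → X ^ 2 ^ l ≤ Y → η0 ≤ η →
      η ≤ 1 → Ok l W η Y X (e + 10 * η) := by
  set δ := min 1 (e / 160) with hδ
  have hδ0 : 0 < δ := by positivity
  obtain ⟨W0, hW0⟩ := bad_rough (e := δ ^ 2 ^ l / 4 ^ l) (by positivity) hη0
  refine ⟨max W0 l, fun W hW => ?_⟩
  obtain ⟨X0, hX0⟩ := hW0 W (le_of_max_le_left hW)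
  set c := ⌈(2 : ℝ) ^ 2 ^ l / δ ^ 2 ^ l⌉₊ with hc
  set c3 : ℝ := (((l + 1) * l.factorial * c : ℕ) : ℝ) with hc3
  set q : ℝ := 1 + ((∏ p ∈ W.primesLE, p : ℕ) : ℝ) with hq
  have hc30 : 0 ≤ c3 := Nat.cast_nonneg _
  have hq0 : 0 ≤ q := by positivity
  have t1 : 0 ≤ q / η0 := by positivity
  have t2 : 0 ≤ (4 + 64 * c3 + q / η0) / (e / 2) := by positivity
  refine ⟨max X0 (1 + c3 + q / η0 + (4 + 64 * c3 + q / η0) / (e / 2)),
    fun Y X η hX hY h0 h1 g hg => ?_⟩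
  have hX1 := le_of_max_le_right hX
  have hXp : 0 < X := by linarith
  have hηX : η0 * X ≤ η * X := by gcongr
  have hqX : q ≤ η0 * X := by rw [← div_le_iff₀' hη0]; linarith
  have key := chBase_core l W (le_of_max_le_right hW) Y c X η δ (by linarith) h1 (by linarith) hY
    hδ0 (min_le_left _ _) (by rw [← div_le_iff₀' (by positivity)]; exact Nat.le_ceil _)
    (by linarith) (by linarith)
    (by rw [← le_div_iff₀' (by positivity)]; exact hX0 X η (le_of_max_le_left hX) h0 h1) g hg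
  refine key.trans ?_
  have e1 : q / (η * X) ≤ q / η0 / X := by
    rw [div_div]; exact div_le_div_of_nonneg_left hq0 (by positivity) hηX
  have e2 : (4 + 64 * c3 + q / η0) / X ≤ e / 2 := by
    rw [div_le_iff₀ hXp, ← div_le_iff₀' (by positivity)]; linarith
  have e3 : δ ≤ e / 160 := min_le_right _ _
  rw [add_div, add_div] at e2
  linarith

end Pool.Agent.Lib.MP_0a3467_an.Cv
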