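import Pool.Agent.Lib.MP_0a3467_an.Cv.GV
import Pool.Agent.Lib.MP_0a3467_an.Cv.App

open Finset

namespace Pool.Agent.Lib.MP_0a3467_an.Cv

/-- The normalized indicator of the multiples of `r`. -/
noncomputable def dil2u (r : ℕ) (z : ℕ × ℕ) : ℝ := if r ∣ z.1 ∧ r ∣ z.2 then (r : ℝ) ^ 2 else 0

theorem dil2u_nonneg (r : ℕ) (z : ℕ × ℕ) : 0 ≤ dil2u r z := by
  unfold dil2u
  split_ifs <;> positivity

theorem dil2u_per (r : ℕ) : Per r (dil2u r) := by
  intro a b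
  simp [dil2u]

theorem dil2u_sum {r : ℕ} (hr : 0 < r) (N : ℕ) (K : ℕ × ℕ → ℝ) :
    ∑ z ∈ box N, K z * dil2u r z = (r : ℝ) ^ 2 * ∑ z ∈ box (N / r), K (r • z) := by
  have h1 : ∀ z, K z * dil2u r z = if r ∣ z.1 ∧ r ∣ z.2 then (r : ℝ) ^ 2 * K z else 0 := by
    intro z
    unfold dil2u
    split_ifs <;> ring
  simp only [h1]
  rw [← sum_filter, mul_sum]
  symm
  refine sum_bij (fun z _ => r • z) ?_ ?_ ?_ fun _ _ => rfl
  · rintro ⟨a, b⟩ hz
    simp only [box, mem_product, mem_Ioc] at hz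
    simp only [box, mem_filter, mem_product, mem_Ioc, Prod.smul_mk, smul_eq_mul, dvd_mul_right,
      and_self, and_true]
    have h2 := (Nat.le_div_iff_mul_le hr).1 hz.1.2
    have h3 := (Nat.le_div_iff_mul_le hr).1 hz.2.2
    exact ⟨⟨Nat.mul_pos hr hz.1.1, by rwa [mul_comm]⟩, Nat.mul_pos hr hz.2.1, by rwa [mul_comm]⟩
  · rintro ⟨a, b⟩ _ ⟨a', b'⟩ _ h
    simp only [Prod.smul_mk, smul_eq_mul, Prod.mk.injEq] at h
    exact Prod.ext (Nat.eq_of_mul_eq_mul_left hr h.1) (Nat.eq_of_mul_eq_mul_left hr h.2)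
  · rintro ⟨a, b⟩ hz
    simp only [box, mem_filter, mem_product, mem_Ioc] at hz
    obtain ⟨⟨h2, h3⟩, ⟨a, rfl⟩, ⟨b, rfl⟩⟩ := hz
    refine ⟨(a, b), ?_, rfl⟩
    simp only [box, mem_product, mem_Ioc]
    exact ⟨⟨Nat.pos_of_mul_pos_left h2.1, (Nat.le_div_iff_mul_le hr).2 (by rw [mul_comm]; exact h2.2)⟩,
      Nat.pos_of_mul_pos_left h3.1, (Nat.le_div_iff_mul_le hr).2 (by rw [mul_comm]; exact h3.2)⟩

theorem dil2_card_box (N : ℕ) : ((box N).card : ℝ) = (N : ℝ) ^ 2 := by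
  simp [box, sq]

theorem dil2u_mean {r : ℕ} (hr : 0 < r) (a b : ℝ) :
    mean r (fun z => a * (dil2u r z + b)) = a * (1 + b) := by
  have h1 := dil2u_sum hr r fun _ => 1
  simp only [one_mul, Nat.div_self hr, sum_const, nsmul_eq_mul, dil2_card_box, Nat.cast_one,
    one_pow, mul_one] at h1
  have h2 : (r : ℝ) ≠ 0 := by exact_mod_cast hr.ne'
  unfold mean
  rw [← mul_sum, sum_add_distrib, h1, sum_const, nsmul_eq_mul, dil2_card_box]
  field_simp

theorem dil2_mean_mono {q : ℕ} {W W' : ℕ × ℕ → ℝ} (h : ∀ z, W z ≤ W' z) :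
    mean q W ≤ mean q W' :=
  div_le_div_of_nonneg_right (sum_le_sum fun z _ => h z) (by positivity)

theorem dil2_abs {e : ℝ} (he : |e| = 1) (r : ℕ) (z : ℕ × ℕ) :
    |e * (dil2u r z + -1)| ≤ 1 * (dil2u r z + 1) := by
  have := dil2u_nonneg r z
  rw [abs_mul, he, one_mul, one_mul, abs_le]
  constructor <;> linarith

/-- DIL2. Sums over a box and over its dilated sub-boxes agree for most dilations. -/
theorem dil2 (s : ℕ) (T : Finset ℕ) (π : ℕ → ℝ) (K ρ : ℕ × ℕ → ℝ) (A Q H N : ℕ) (c δ : ℝ)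
    (hπ : ∀ r ∈ T, 0 ≤ π r) (hπ1 : ∑ r ∈ T, π r ≤ 1)
    (hT : ∀ r ∈ T, 0 < r ∧ r ≤ Q ∧ Nat.Coprime A r) (hδ0 : 0 < δ) (hδ1 : δ ≤ 1)
    (h1 : 4 ^ s * bad T π id ≤ δ ^ 2 ^ s) (h2 : (Q : ℝ) ^ 2 ^ s ≤ δ ^ 2 ^ s * H) (hA : 0 < A)
    (hρ : Per A ρ) (hc : mean A ρ ≤ c) (hKb : ∀ x, |K x| ≤ ρ x)
    (hK : ∀ x, Low (s := s + 1) (Set.Iic (H, H)) (ρ x) fun h => K (x + A • ∑ r, h r))
    (hD : (s + 1) * A * H ≤ N) :
    ∑ r ∈ T, π r * |(r : ℝ) ^ 2 * ∑ z ∈ box (N / r), K (r • z) - ∑ z ∈ box N, K z| ≤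
      c * (40 * δ * (N : ℝ) ^ 2 + 32 * ((s + 1) * A * H) * N) := by
  have hρ0 : ∀ x, 0 ≤ ρ x := fun x => (abs_nonneg _).trans (hKb x)
  have hc0 : 0 ≤ c := (mean_nonneg hρ0 A).trans hc
  rcases T.eq_empty_or_nonempty with rfl | ⟨r0, hr0⟩
  · rw [sum_empty]
    positivity
  have hQ1 : 1 ≤ Q := le_trans (hT r0 hr0).1 (hT r0 hr0).2.1
  have hQH : Q ≤ H := by
    have h3 : (1 : ℝ) ≤ Q := by exact_mod_cast hQ1
    have h4 : (Q : ℝ) ≤ (Q : ℝ) ^ 2 ^ s := le_self_pow₀ h3 (by positivity)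
    have h5 : δ ^ 2 ^ s * (H : ℝ) ≤ H :=
      mul_le_of_le_one_left (by positivity) (pow_le_one₀ hδ0.le hδ1)
    exact_mod_cast h4.trans (h2.trans h5)
  have hH1 : 1 ≤ H := hQ1.trans hQH
  obtain ⟨D, hDdef⟩ : ∃ D : ℕ, D = (s + 1) * A * H := ⟨_, rfl⟩
  have hDr : (D : ℝ) = (s + 1) * A * H := by rw [hDdef]; push_cast; ring
  have hAH : A * H ≤ D := by
    rw [hDdef, mul_assoc]
    exact Nat.le_mul_of_pos_left _ (Nat.succ_pos s)
  rw [← hDdef] at hD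
  rw [← hDr]
  obtain ⟨ε, hε1, hε2⟩ : ∃ ε : ℕ → ℝ, (∀ r, |ε r| = 1) ∧ ∀ r : ℕ,
      |(r : ℝ) ^ 2 * ∑ z ∈ box (N / r), K (r • z) - ∑ z ∈ box N, K z| =
        ε r * ((r : ℝ) ^ 2 * ∑ z ∈ box (N / r), K (r • z) - ∑ z ∈ box N, K z) := by
    refine ⟨fun r => if 0 ≤ (r : ℝ) ^ 2 * ∑ z ∈ box (N / r), K (r • z) - ∑ z ∈ box N, K z
      then 1 else -1, fun r => ?_, fun r => ?_⟩
    · dsimp only
      split_ifs <;> simp
    · dsimp only
      split_ifs with h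
      · rw [abs_of_nonneg h, one_mul]
      · rw [abs_of_neg (not_le.1 h), neg_one_mul]
  have hL : ∑ r ∈ T, π r * |(r : ℝ) ^ 2 * ∑ z ∈ box (N / r), K (r • z) - ∑ z ∈ box N, K z| =
      ∑ z ∈ box N, K z * ∑ r ∈ T, π r * (ε r * (dil2u r z + -1)) := by
    simp only [mul_sum (s := T)]
    rw [sum_comm]
    refine sum_congr rfl fun r hr => ?_
    rw [hε2, ← dil2u_sum (hT r hr).1, ← sum_sub_distrib, mul_sum, mul_sum]
    exact sum_congr rfl fun z _ => by ring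
  have hstrip : ∀ u v n m : ℕ, D ≤ n → D ≤ m →
      ∑ x ∈ Ioc u (u + n) ×ˢ Ioc v (v + m),
        |K x * ∑ r ∈ T, π r * (ε r * (dil2u r x + -1))| ≤ 8 * n * m * c := by
    intro u v n m hn hm
    have h3 : ∀ x, |K x * ∑ r ∈ T, π r * (ε r * (dil2u r x + -1))| ≤
        ∑ r ∈ T, π r * (ρ x * (1 * (dil2u r x + 1))) := by
      intro x
      rw [mul_sum]
      refine (abs_sum_le_sum_abs _ _).trans (sum_le_sum fun r hr => ?_)
      rw [mul_left_comm, abs_mul, abs_of_nonneg (hπ r hr), abs_mul]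
      exact mul_le_mul_of_nonneg_left
        (mul_le_mul (hKb x) (dil2_abs (hε1 r) r x) (abs_nonneg _) (hρ0 x)) (hπ r hr)
    refine (sum_le_sum fun x _ => h3 x).trans ?_
    rw [sum_comm]
    have h4 : ∀ r ∈ T, ∑ x ∈ Ioc u (u + n) ×ˢ Ioc v (v + m),
        π r * (ρ x * (1 * (dil2u r x + 1))) ≤ π r * (8 * n * m * c) := by
      intro r hr
      obtain ⟨hr1, hr2, hr3⟩ := hT r hr
      rw [← mul_sum]
      refine mul_le_mul_of_nonneg_left ?_ (hπ r hr)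
      have hp : Per r fun z => 1 * (dil2u r z + 1) := (dil2u_per r).comp fun t => 1 * (t + 1)
      refine (rect_le (hρ.mul hp) (Nat.mul_pos hA hr1) (fun z => mul_nonneg (hρ0 z) (by
        have := dil2u_nonneg r z
        positivity)) u n v m).trans ?_
      rw [mean_mul hρ hp hr3, dil2u_mean hr1]
      have h5 : A * r ≤ D := (Nat.mul_le_mul_left _ (hr2.trans hQH)).trans hAH
      have h6 : ((A * r : ℕ) : ℝ) ≤ n := by exact_mod_cast h5.trans hn
      have h7 : ((A * r : ℕ) : ℝ) ≤ m := by exact_mod_cast h5.trans hm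
      have h8 := mean_nonneg hρ0 A
      calc ((n : ℝ) + (A * r : ℕ)) * ((m : ℝ) + (A * r : ℕ)) * (mean A ρ * (1 * (1 + 1))) ≤
            ((n : ℝ) + n) * ((m : ℝ) + m) * (c * (1 * (1 + 1))) := by gcongr
        _ = 8 * n * m * c := by ring
    refine (sum_le_sum h4).trans ?_
    rw [← sum_mul]
    exact mul_le_of_le_one_left (by positivity) hπ1
  have hmain := app2 (s := s + 1) (box H) (Set.Iic (H, H)) ⟨(H, H), by simp [box]; omega⟩
    (fun z hz => by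
      simp only [box, coe_product, coe_Ioc, Set.mem_prod, Set.mem_Ioc] at hz
      exact ⟨hz.1.2, hz.2.2⟩)
    (fun h => A • ∑ r, h r) D N
    (fun h hh => by
      have h3 : ∀ r, (h r).1 ≤ H ∧ (h r).2 ≤ H := fun r => by
        have := hh r
        simp only [box, mem_product, mem_Ioc] at this
        exact ⟨this.1.2, this.2.2⟩
      have h4 : ∑ r, (h r).1 ≤ (s + 1) * H := by
        simpa using sum_le_card_nsmul univ (fun r => (h r).1) H fun r _ => (h3 r).1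
      have h5 : ∑ r, (h r).2 ≤ (s + 1) * H := by
        simpa using sum_le_card_nsmul univ (fun r => (h r).2) H fun r _ => (h3 r).2
      have h6 : A * ((s + 1) * H) = D := by rw [hDdef]; ring
      simp only [Prod.smul_fst, Prod.smul_snd, Prod.fst_sum, Prod.snd_sum, smul_eq_mul]
      exact ⟨(Nat.mul_le_mul_left _ h4).trans h6.le, (Nat.mul_le_mul_left _ h5).trans h6.le⟩)
    K (fun z => ∑ r ∈ T, π r * (ε r * (dil2u r z + -1))) ρ (5 * 2 * δ) (8 * D * N * c) hK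
    (fun x => gv s T π id (fun r z => ε r * (dil2u r (x + A • z) + -1)) Q H 2 δ hπ hπ1
      (fun r hr => ⟨(hT r hr).1, (hT r hr).2.1⟩)
      (fun r _ => ((dil2u_per r).comp fun t => ε r * (t + -1)).affine x A)
      (fun r hr => by
        have h3 := mean_affine ((dil2u_per r).comp fun t => ε r * (t + -1)) (hT r hr).2.2 x
        rw [dil2u_mean (hT r hr).1] at h3
        simpa using h3)
      (fun r hr => by
        have h3 := mean_affine ((dil2u_per r).comp fun t => |ε r * (t + -1)|) (hT r hr).2.2 x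
        refine h3.trans_le ((dil2_mean_mono (dil2_abs (hε1 r) r)).trans ?_)
        rw [dil2u_mean (hT r hr).1]
        norm_num)
      (by norm_num) hδ0 hδ1 h1 h2)
    (fun u v => ⟨hstrip u v D N le_rfl hD, (hstrip u v N D hD le_rfl).trans_eq (by ring)⟩)
  have hsum : ∑ x ∈ box N, ρ x ≤ 4 * (N : ℝ) ^ 2 * c := by
    have h3 := rect_le hρ hA hρ0 0 N 0 N
    simp only [zero_add] at h3
    have h4 : (A : ℝ) ≤ N := by
      exact_mod_cast ((Nat.le_mul_of_pos_right A hH1).trans hAH).trans hD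
    have h8 := mean_nonneg hρ0 A
    calc ∑ x ∈ box N, ρ x ≤ ((N : ℝ) + A) * ((N : ℝ) + A) * mean A ρ := h3
      _ ≤ ((N : ℝ) + N) * ((N : ℝ) + N) * c := by gcongr
      _ = 4 * (N : ℝ) ^ 2 * c := by ring
  rw [hL]
  refine (le_abs_self _).trans (hmain.trans ?_)
  have h9 := mul_le_mul_of_nonneg_right hsum (by positivity : 0 ≤ 5 * 2 * δ)
  nlinarith [h9]

end Pool.Agent.Lib.MP_0a3467_an.Cv
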