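import Pool.Agent.Lib.MP_0a3467_an.Cv.PerL

open Finset

namespace Pool.Agent.Lib.MP_0a3467_an.Cv

variable {a : ℕ → ℝ} {P : Finset ℕ}

theorem aS_mem {σ : ℝ} (hσ : 0 < σ) (p : ℕ) : 0 ≤ aS σ p ∧ aS σ p ≤ 1 := by
  refine ⟨Real.rpow_nonneg (Nat.cast_nonneg p) _, ?_⟩
  rcases Nat.eq_zero_or_pos p with rfl | hp
  · simp [aS, Real.zero_rpow (neg_ne_zero.2 hσ.ne')]
  · exact Real.rpow_le_one_of_one_le_of_nonpos (by exact_mod_cast hp) (by linarith)

theorem sieve_den {t : ℝ} (ht : t ≤ 1) {p : ℕ} (hp : p.Prime) : 1 / 2 ≤ 1 - t / p := by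
  have h2 : (2 : ℝ) ≤ p := by exact_mod_cast hp.two_le
  have : t / p ≤ 1 / 2 := by
    rw [div_le_iff₀ (by linarith)]
    linarith
  linarith

theorem sieve_fac (ha : ∀ p, 0 ≤ a p ∧ a p ≤ 1) {p : ℕ} (hp : p.Prime) (R : ℕ) :
    0 ≤ (1 - if p ∣ R then a p else 0) / (1 - a p / p) ∧
      (1 - if p ∣ R then a p else 0) / (1 - a p / p) ≤ 2 := by
  have h := sieve_den (ha p).2 hp
  have h1 : 0 ≤ (1 - if p ∣ R then a p else 0) ∧ (1 - if p ∣ R then a p else 0) ≤ 1 := by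
    split_ifs <;> constructor <;> linarith [(ha p).1, (ha p).2]
  refine ⟨div_nonneg h1.1 (by linarith), ?_⟩
  rw [div_le_iff₀ (by linarith)]
  linarith [h1.2]

theorem vv_nonneg (ha : ∀ p, 0 ≤ a p ∧ a p ≤ 1) (hP : ∀ p ∈ P, p.Prime) (R : ℕ) :
    0 ≤ vv a P R :=
  prod_nonneg fun p hp => (sieve_fac ha (hP p hp) R).1

theorem vv_le (ha : ∀ p, 0 ≤ a p ∧ a p ≤ 1) (hP : ∀ p ∈ P, p.Prime) (R : ℕ) :
    vv a P R ≤ 2 ^ P.card := by
  rw [← prod_const]
  exact prod_le_prod (fun p hp => (sieve_fac ha (hP p hp) R).1)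
    fun p hp => (sieve_fac ha (hP p hp) R).2

theorem vv_per (a : ℕ → ℝ) (P : Finset ℕ) : Function.Periodic (vv a P) (∏ p ∈ P, p) := by
  intro R
  refine prod_congr rfl fun p hp => ?_
  simp only [Nat.dvd_add_left (dvd_prod_of_mem (fun p => p) hp)]

theorem vv_mul (a : ℕ → ℝ) (hP : ∀ p ∈ P, p.Prime) {r : ℕ} (hr : ∀ p ∈ P, ¬p ∣ r) (R : ℕ) :
    vv a P (r * R) = vv a P R := by
  refine prod_congr rfl fun p hp => ?_
  simp only [(hP p hp).dvd_mul, hr p hp, false_or]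

theorem vv_split (a : ℕ → ℝ) {W y : ℕ} (h : W ≤ y) (R : ℕ) :
    vv a y.primesLE R = vv a W.primesLE R * vv a (y.primesLE \ W.primesLE) R := by
  unfold vv
  rw [mul_comm, prod_sdiff]
  intro p hp
  rw [Nat.mem_primesLE] at hp ⊢
  exact ⟨hp.1.trans h, hp.2⟩

theorem sieve_av {p : ℕ} (hp : 0 < p) (s t : ℝ) :
    av p (fun x => if p ∣ x then s else t) = (s + (p - 1) * t) / p := by
  obtain ⟨n, rfl⟩ : ∃ n, p = n + 1 := ⟨p - 1, by omega⟩
  unfold av
  rw [sum_Ioc_succ_top (Nat.zero_le n), if_pos dvd_rfl, sum_congr rfl (g := fun _ => t)]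
  · simp [add_comm]
  · intro x hx
    rw [mem_Ioc] at hx
    exact if_neg (Nat.not_dvd_of_pos_of_lt hx.1 (by omega))

/-- The local factor at one prime. -/
theorem vv_local (ha : ∀ p, 0 ≤ a p ∧ a p ≤ 1) {p : ℕ} (hp : p.Prime) (u : ℕ → ℝ)
    (hu : u = fun R => (1 - if p ∣ R then a p else 0) / (1 - a p / p)) :
    Function.Periodic u p ∧ (∀ x, 0 ≤ u x ∧ u x ≤ 2) ∧ av p u = 1 ∧
      av p (fun x => (u x - 1) ^ 2) ≤ 4 / p := by
  have hd := sieve_den (ha p).2 hp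
  have h2 : (2 : ℝ) ≤ p := by exact_mod_cast hp.two_le
  have hp0 : (0 : ℝ) < p := by linarith
  obtain ⟨D, hD⟩ : ∃ D, D = 1 - a p / p := ⟨_, rfl⟩
  have hD' : a p = p * (1 - D) := by rw [hD]; field_simp; ring
  rw [← hD] at hd
  have hD0 : 0 < D := by linarith
  refine ⟨fun x => ?_, fun x => ?_, ?_, ?_⟩
  · simp only [hu, Nat.dvd_add_self_right]
  · rw [hu]
    exact sieve_fac ha hp x
  · have : u = fun x => if p ∣ x then (1 - a p) / D else 1 / D := by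
      rw [hu, hD]
      funext x
      split_ifs <;> simp
    rw [this, sieve_av hp.pos, hD']
    field_simp
    ring
  · have : (fun x => (u x - 1) ^ 2) =
        fun x => if p ∣ x then ((1 - a p) / D - 1) ^ 2 else (1 / D - 1) ^ 2 := by
      rw [hu, hD]
      funext x
      split_ifs with h <;> simp [h]
    rw [this, sieve_av hp.pos]
    refine div_le_div_of_nonneg_right ?_ hp0.le
    have e : ((1 - a p) / D - 1) ^ 2 + (p - 1) * (1 / D - 1) ^ 2 =
        (a p) ^ 2 * (1 - 1 / p) / D ^ 2 := by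
      rw [hD']
      field_simp
      ring
    rw [e, div_le_iff₀ (by positivity)]
    have h3 : (a p) ^ 2 ≤ 1 := pow_le_one₀ (ha p).1 (ha p).2
    have h4 : 0 < 1 / (p : ℝ) := by positivity
    nlinarith [sq_nonneg (a p)]

theorem vv_av (ha : ∀ p, 0 ≤ a p ∧ a p ≤ 1) (hP : ∀ p ∈ P, p.Prime) :
    av (∏ p ∈ P, p) (vv a P) = 1 := by
  have h := av_prod P (fun p => p) (fun p R => (1 - if p ∣ R then a p else 0) / (1 - a p / p))
    (fun p hp => (vv_local ha (hP p hp) _ rfl).1)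
    fun p hp q hq hne => (Nat.coprime_primes (hP p hp) (hP q hq)).2 hne
  exact h.trans (prod_eq_one fun p hp => (vv_local ha (hP p hp) _ rfl).2.2.1)

theorem v0_eq_zero {W R p : ℕ} (hp : p.Prime) (hW : p ≤ W) (h : p ∣ R) : v0 W R = 0 :=
  prod_eq_zero (Nat.mem_primesLE.2 ⟨hW, hp⟩) (by simp [h])

theorem vv_close (W : ℕ) {e : ℝ} (he : 0 < e) :
    ∃ σ0 > 0, ∀ σ, 0 < σ → σ ≤ σ0 → ∀ R, |vv (aS σ) W.primesLE R - v0 W R| ≤ e := by
  let G : Finset ℕ → (ℕ → ℝ) → ℝ := fun S b =>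
    ∏ p ∈ W.primesLE, (1 - if p ∈ S then b p else 0) / (1 - b p / p)
  have h1 : ∀ S, Filter.Tendsto (fun σ => G S (aS σ)) (nhds 0) (nhds (G S fun _ => 1)) := by
    intro S
    refine tendsto_finsetProd _ fun p hp => ?_
    have hp' := Nat.prime_of_mem_primesLE hp
    have h2 : Filter.Tendsto (fun σ => aS σ p) (nhds 0) (nhds 1) := by
      have : Continuous fun σ : ℝ => (p : ℝ) ^ (-σ) :=
        continuous_const.rpow continuous_neg fun _ => Or.inl (by exact_mod_cast hp'.ne_zero)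
      simpa [aS] using this.tendsto 0
    refine Filter.Tendsto.div (tendsto_const_nhds.sub ?_)
      (tendsto_const_nhds.sub (h2.div_const _)) (by linarith [sieve_den le_rfl hp'])
    split_ifs
    · exact h2
    · exact tendsto_const_nhds
  have h2 : ∀ᶠ σ in nhds (0 : ℝ), ∀ S ∈ W.primesLE.powerset, |G S (aS σ) - G S fun _ => 1| ≤ e := by
    rw [Filter.eventually_all_finset]
    intro S _
    filter_upwards [Metric.tendsto_nhds.1 (h1 S) e he] with σ h using h.le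
  obtain ⟨δ, hδ, h3⟩ := Metric.eventually_nhds_iff.1 h2
  refine ⟨δ / 2, half_pos hδ, fun σ h0 h4 R => ?_⟩
  have h5 := h3 (y := σ) (by rw [Real.dist_eq, sub_zero, abs_of_pos h0]; linarith)
    (W.primesLE.filter (· ∣ R)) (mem_powerset.2 (filter_subset _ _))
  have h6 : ∀ b, G (W.primesLE.filter (· ∣ R)) b = vv b W.primesLE R := fun b =>
    prod_congr rfl fun p hp => by simp only [mem_filter, hp, true_and]
  rwa [h6, h6] at h5

theorem kap_pos {σ : ℝ} (hσ : 0 < σ) (y : ℕ) : 0 < kap σ y :=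
  prod_pos fun p hp => by linarith [sieve_den (aS_mem hσ p).2 (Nat.prime_of_mem_primesLE hp)]

theorem wt_eq {σ : ℝ} (hσ : 0 < σ) (y R : ℕ) : wt σ y R = kap σ y * vv (aS σ) y.primesLE R := by
  unfold wt kap vv
  rw [← prod_mul_distrib]
  refine prod_congr rfl fun p hp => ?_
  have := sieve_den (aS_mem hσ p).2 (Nat.prime_of_mem_primesLE hp)
  rw [mul_div_cancel₀ _ (by linarith)]

theorem wt_nonneg {σ : ℝ} (hσ : 0 < σ) (y R : ℕ) : 0 ≤ wt σ y R := by
  rw [wt_eq hσ]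
  exact mul_nonneg (kap_pos hσ y).le
    (vv_nonneg (aS_mem hσ) (fun _ => Nat.prime_of_mem_primesLE) R)

end Pool.Agent.Lib.MP_0a3467_an.Cv
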