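import Pool.Agent.Lib.MP_0a3467_an.Cv.Dil1
import Pool.Agent.Lib.MP_0a3467_an.Cv.Dil2
import Pool.Agent.Lib.MP_0a3467_an.Cv.Struct
import Pool.Agent.Lib.MP_0a3467_an.Cv.Sieve

open Finset

namespace Pool.Agent.Lib.MP_0a3467_an.Cv

theorem chStep_core (l W : ℕ) (hW : l ≤ W) (Y : ℕ) (hY : 1 ≤ Y) (X η e δ : ℝ) (hη : 0 < η)
    (hη1 : η ≤ 1) (T : Finset ℕ) (Q H : ℕ) (hu : 0 < T.card)
    (hT : ∀ r ∈ T, r.Prime ∧ W < r ∧ r ≤ Q) (hδ0 : 0 < δ) (hδ1 : δ ≤ 1)
    (h1 : 4 ^ l / (T.card : ℝ) ≤ δ ^ 2 ^ l) (h2 : (Q : ℝ) ^ 2 ^ l ≤ δ ^ 2 ^ l * H)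
    (hD : (((l + 1) * (l.factorial * ∏ p ∈ W.primesLE, p) * H : ℕ) : ℝ) + 1 ≤ η * X)
    (hOk : ∀ r ∈ T, Ok l W η Y (X / r) e) :
    Ok l W η Y X (e + (120 * δ +
      64 * (((l + 1) * (l.factorial * ∏ p ∈ W.primesLE, p) * H : ℕ) : ℝ) / (η * X))) := by
  intro g hg
  set QW := ∏ p ∈ W.primesLE, p with hQW
  set D := (l + 1) * (l.factorial * QW) * H with hDdef
  have hPp : ∀ p ∈ W.primesLE, p.Prime := fun p hp => (Nat.mem_primesLE.1 hp).2
  have hQW0 : 0 < QW := prod_pos fun p hp => (hPp p hp).pos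
  have hD0 : (0 : ℝ) ≤ D := Nat.cast_nonneg _
  have hηX : 1 ≤ η * X := by linarith
  have hX : 0 < X := (mul_pos_iff_of_pos_left hη).1 (by linarith)
  have hXη : η * X ≤ X := by nlinarith
  have hY1 : (1 : ℝ) ≤ Y := by exact_mod_cast hY
  have hXY : X ≤ X * Y := by nlinarith
  set N := ⌊X * Y⌋₊ with hN
  set a := ⌊X⌋₊ with ha
  set b := ⌊(1 + η) * X⌋₊ with hb
  have hab : a ≤ b := Nat.floor_mono (by nlinarith)
  obtain ⟨n, hn⟩ := Nat.exists_eq_add_of_le hab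
  have hn1 : (n : ℝ) ≤ η * X + 1 := by
    have e1 : (b : ℝ) ≤ (1 + η) * X := Nat.floor_le (by positivity)
    have e2 : X < a + 1 := Nat.lt_floor_add_one X
    have e3 : (b : ℝ) = a + n := by exact_mod_cast hn
    nlinarith
  have hn2 : D ≤ n := by
    have e1 : (1 + η) * X < b + 1 := Nat.lt_floor_add_one _
    have e2 : (a : ℝ) ≤ X := Nat.floor_le hX.le
    have e3 : (b : ℝ) = a + n := by exact_mod_cast hn
    have : (D : ℝ) ≤ n := by nlinarith
    exact_mod_cast this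
  have hf1 : 1 ≤ l.factorial := Nat.factorial_pos l
  have hD2 : (l + 1) * l.factorial * H ≤ D := by
    rw [hDdef]; gcongr; exact Nat.le_mul_of_pos_right _ hQW0
  have hDN : D * Y ≤ N := Nat.le_floor (by push_cast; gcongr; linarith)
  have hDN' : D ≤ N := le_trans (Nat.le_mul_of_pos_right _ hY) hDN
  have hg1 : ∀ j x, |g j x| ≤ 1 := fun j x => (hg j).bound x
  set π : ℕ → ℝ := fun _ => 1 / (T.card : ℝ) with hπ
  have hu' : (0 : ℝ) < T.card := by exact_mod_cast hu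
  have hπs : ∑ r ∈ T, π r = 1 := by simp [hπ, hu.ne']
  have hbad : 4 ^ l * bad T π id ≤ δ ^ 2 ^ l := by
    rw [bad_primes T (fun p hp => (hT p hp).1)]
    refine le_trans (le_of_eq ?_) h1
    simp only [hπ, sum_const, nsmul_eq_mul]
    field_simp
  have hcf : ∀ r ∈ T, Nat.Coprime l.factorial r := fun r hr =>
    (Nat.coprime_comm.1 ((Nat.Prime.coprime_iff_not_dvd (hT r hr).1).2 fun h => by
      have := ((hT r hr).1.dvd_factorial).1 h
      have := (hT r hr).2.1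
      omega))
  have hnd : ∀ r ∈ T, ∀ p ∈ W.primesLE, ¬p ∣ r := fun r hr p hp h => by
    have h3 := (Nat.prime_dvd_prime_iff_eq (hPp p hp) (hT r hr).1).1 h
    have := (Nat.mem_primesLE.1 hp).1
    have := (hT r hr).2.1
    omega
  have hcQ : ∀ r ∈ T, Nat.Coprime (l.factorial * QW) r := fun r hr =>
    Nat.Coprime.mul_left (hcf r hr) (Nat.Coprime.prod_left fun p hp =>
      (Nat.Prime.coprime_iff_not_dvd (hPp p hp)).2 (hnd r hr p hp))
  have ha01 : ∀ p : ℕ, 0 ≤ (fun _ => (1 : ℝ)) p ∧ (fun _ => (1 : ℝ)) p ≤ 1 := fun _ => by simp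
  have hv0 : ∀ R, 0 ≤ v0 W R := vv_nonneg ha01 hPp
  have hper : Function.Periodic (v0 W) (l.factorial * QW) := by
    have := (vv_per (fun _ => 1) W.primesLE).nat_mul l.factorial
    simpa [v0] using this
  have hav : av (l.factorial * QW) (v0 W) ≤ 1 := by
    rw [mul_comm, v0, av_mul_period (vv_per _ _) hf1, vv_av ha01 hPp]
  have d1 := dil1 l T π (fun R => v0 W R * Lam l Y (dl R g)) (v0 W) (l.factorial * QW) Q H a n 1 δ
    (fun _ _ => by positivity) hπs.le (fun r hr => ⟨(hT r hr).1.pos, (hT r hr).2.2, hcQ r hr⟩)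
    hδ0 hδ1 hbad h2 (by positivity) hper hav
    (fun x => by
      rw [abs_mul, abs_of_nonneg (hv0 x)]
      exact mul_le_of_le_one_right (hv0 x) (Lam_le (fun j y => hg1 j _) Y))
    (fun x => by
      have h3 : QW * (l + 1) * Y * H ≤ N := by
        refine le_trans ?_ hDN
        rw [hDdef]
        calc QW * (l + 1) * Y * H = (l + 1) * (1 * QW) * H * Y := by ring
          _ ≤ _ := by gcongr
      have h4 := (str_line hg h3 x).smul (v0 W x)
      rw [abs_of_nonneg (hv0 x), mul_one] at h4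
      refine h4.congr fun t _ => ?_
      have := hper.nat_mul (∑ r, t r) x
      rw [Nat.cast_id, mul_comm] at this
      rw [this])
    hn2
  have d2 := dil2 l T π (Pr l g) (fun _ => 1) l.factorial Q H N 1 δ
    (fun _ _ => by positivity) hπs.le (fun r hr => ⟨(hT r hr).1.pos, (hT r hr).2.2, hcf r hr⟩)
    hδ0 hδ1 hbad h2 hf1 (fun _ _ => ⟨rfl, rfl⟩)
    (by
      have : (l.factorial : ℝ) ≠ 0 := by positivity
      simp only [mean, box, sum_const, card_product, Nat.card_Ioc, nsmul_eq_mul]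
      simp only [Nat.sub_zero, Nat.cast_mul, mul_one]
      rw [div_le_one (by positivity)]
      exact le_of_eq (by ring))
    (Pr_le hg1)
    (str_Pr hg (le_trans (by gcongr; exact Nat.le_mul_of_pos_right _ hf1) (hD2.trans hDN')))
    (hD2.trans hDN')
  have hXY0 : 0 < X * Y := by positivity
  have key : ∀ r ∈ T, |Tm l (v0 W) η Y X g - Tp l (X * Y) g| ≤ e +
      (|(r : ℝ) * ∑ R ∈ Ioc (a / r) ((a + n) / r), v0 W (r * R) * Lam l Y (dl (r * R) g) -
        ∑ R ∈ Ioc a (a + n), v0 W R * Lam l Y (dl R g)| / (η * X) +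
      |(r : ℝ) ^ 2 * ∑ z ∈ box (N / r), Pr l g (r • z) - ∑ z ∈ box N, Pr l g z| / (X * Y) ^ 2) := by
    intro r hr
    have hr0 : (0 : ℝ) < r := by exact_mod_cast (hT r hr).1.pos
    have hfl : ⌊X / r * Y⌋₊ = N / r := by
      rw [hN, ← Nat.floor_div_natCast]; congr 1; ring
    have h3 := hOk r hr (dl r g) fun j => by
      rw [hfl]; exact (hg j).dil (Nat.mul_div_le N r)
    have e1 : Tm l (v0 W) η Y (X / r) (dl r g) = ((r : ℝ) *
        ∑ R ∈ Ioc (a / r) ((a + n) / r), v0 W (r * R) * Lam l Y (dl (r * R) g)) / (η * X) := by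
      have e2 : ⌊(1 + η) * (X / r)⌋₊ = (a + n) / r := by
        rw [← hn, hb, ← Nat.floor_div_natCast]; congr 1; ring
      rw [Tm, e2, Nat.floor_div_natCast, ← ha]
      rw [sum_congr rfl fun R _ => show v0 W R * Lam l Y (dl R (dl r g)) =
        v0 W (r * R) * Lam l Y (dl (r * R) g) by
          rw [dl_dl, v0, vv_mul _ hPp (hnd r hr)]]
      field_simp
    have e2 : Tp l (X / r * Y) (dl r g) =
        ((r : ℝ) ^ 2 * ∑ z ∈ box (N / r), Pr l g (r • z)) / (X * Y) ^ 2 := by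
      rw [Tp, hfl, LS, sum_congr rfl fun z _ => (Pr_smul g r z).symm]
      field_simp
    have e3 : Tm l (v0 W) η Y X g =
        (∑ R ∈ Ioc a (a + n), v0 W R * Lam l Y (dl R g)) / (η * X) := by rw [Tm, ← hn]
    have e4 : Tp l (X * Y) g = (∑ z ∈ box N, Pr l g z) / (X * Y) ^ 2 := rfl
    rw [e1, e2] at h3
    rw [e3, e4, ← abs_of_pos (show 0 < η * X by linarith), ← abs_div,
      ← abs_of_pos (show 0 < (X * Y) ^ 2 by positivity), ← abs_div, abs_of_pos (show 0 < η * X by linarith),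
      abs_of_pos (show 0 < (X * Y) ^ 2 by positivity), sub_div, sub_div]
    generalize (∑ R ∈ Ioc a (a + n), v0 W R * Lam l Y (dl R g)) / (η * X) = x1 at *
    generalize (∑ z ∈ box N, Pr l g z) / (X * Y) ^ 2 = x2 at *
    generalize ((r : ℝ) * ∑ R ∈ Ioc (a / r) ((a + n) / r),
      v0 W (r * R) * Lam l Y (dl (r * R) g)) / (η * X) = x3 at *
    generalize ((r : ℝ) ^ 2 * ∑ z ∈ box (N / r), Pr l g (r • z)) / (X * Y) ^ 2 = x4 at *
    have := abs_sub_le x1 x3 x2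
    have := abs_sub_le x3 x4 x2
    have := abs_sub_comm x1 x3
    linarith
  have hsum := sum_le_sum fun r hr => mul_le_mul_of_nonneg_left (key r hr)
    (show 0 ≤ π r by positivity)
  rw [← sum_mul, hπs, one_mul] at hsum
  refine hsum.trans ?_
  simp only [mul_add, sum_add_distrib, ← mul_div_assoc, ← sum_div]
  rw [← sum_mul, hπs, one_mul]
  have hNr : (N : ℝ) ≤ X * Y := Nat.floor_le hXY0.le
  have hN0 : (0 : ℝ) ≤ N := Nat.cast_nonneg _
  have hD2' : ((l : ℝ) + 1) * l.factorial * H ≤ D := by exact_mod_cast hD2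
  have hD1' : ((l : ℝ) + 1) * ((l.factorial * QW : ℕ) : ℝ) * H = D := by rw [hDdef]; push_cast; ring
  rw [hD1'] at d1
  have b1 : 1 * (40 * δ * n + 32 * (D : ℝ)) / (η * X) ≤ 80 * δ + 32 * D / (η * X) := by
    rw [one_mul, add_div]
    gcongr
    rw [div_le_iff₀ (by linarith)]
    nlinarith
  have b2 : 1 * (40 * δ * (N : ℝ) ^ 2 + 32 * (((l : ℝ) + 1) * l.factorial * H) * N) / (X * Y) ^ 2 ≤
      40 * δ + 32 * D / (η * X) := by
    rw [one_mul, add_div]
    refine add_le_add ?_ ?_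
    · rw [div_le_iff₀ (by positivity)]
      gcongr
    · calc 32 * (((l : ℝ) + 1) * l.factorial * H) * N / (X * Y) ^ 2
          ≤ 32 * D * (X * Y) / (X * Y) ^ 2 := by gcongr
        _ = 32 * D / (X * Y) := by field_simp
        _ ≤ _ := div_le_div_of_nonneg_left (by positivity) (by linarith) (by linarith)
  have c1 := (div_le_div_of_nonneg_right d1 (show 0 ≤ η * X by linarith)).trans b1
  have c2 := (div_le_div_of_nonneg_right d2 (show 0 ≤ (X * Y) ^ 2 by positivity)).trans b2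
  have : 64 * (D : ℝ) / (η * X) = 32 * D / (η * X) + 32 * D / (η * X) := by ring
  linarith

/-- CHAIN, step. -/
theorem chain_step (l W : ℕ) (hW : l ≤ W) {η0 : ℝ} (hη0 : 0 < η0) :
    ∃ X1 C : ℝ, 0 ≤ C ∧ ∀ (Y : ℕ) (X η e : ℝ), 1 ≤ Y → X1 ≤ X → η0 ≤ η → η ≤ 1 →
      (∀ r : ℕ, (r : ℝ) ^ 2 ≤ X → X ≤ (r : ℝ) ^ 2 ^ (l + 3) → Ok l W η Y (X / r) e) →
      Ok l W η Y X (e + C * Real.log X ^ (-(1 / 2 ^ l : ℝ))) := by
  set c0 := (l + 1) * (l.factorial * ∏ p ∈ W.primesLE, p) with hc0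
  set a := 2 ^ (l + 1) with ha
  set β : ℝ := 1 / 2 ^ l with hβ
  have hβ0 : 0 < β := by positivity
  have hβ1 : β ≤ 1 := by
    rw [hβ, div_le_one (by positivity)]; exact one_le_pow₀ (by norm_num)
  have ha2 : 2 ≤ a := by
    rw [ha, pow_succ]; have := Nat.one_le_two_pow (n := l); omega
  refine ⟨Real.exp (2 * a * (4 ^ l + W + 2) + 128 * c0 / η0 + 2 / η0),
    120 * (4 ^ l * (4 * a) : ℝ) ^ β + 64 * (64 * c0 / η0), by positivity,
    fun Y X η e hY hX h0 h1 hOk => ?_⟩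
  have t1 : (0 : ℝ) ≤ 2 * a * (4 ^ l + W + 2) := by positivity
  have t2 : (0 : ℝ) ≤ 128 * c0 / η0 := by positivity
  have t3 : (0 : ℝ) < 2 / η0 := by positivity
  have hX0 : 0 < X := (Real.exp_pos _).trans_le hX
  have hlog := (Real.le_log_iff_exp_le hX0).2 hX
  have hXl : Real.log X + 1 ≤ X := by linarith [Real.log_le_sub_one_of_pos hX0]
  set L := Nat.log 2 ⌊X⌋₊ with hL
  set u := L / (2 * a) with hu
  have hfl : ⌊X⌋₊ ≠ 0 := (Nat.floor_pos.2 (by linarith)).ne'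
  have hL1 : (2 : ℝ) ^ L ≤ X :=
    le_trans (by exact_mod_cast Nat.pow_log_le_self 2 hfl) (Nat.floor_le hX0.le)
  have hL2 : X ≤ (2 : ℝ) ^ (L + 1) := by
    have e1 : ⌊X⌋₊ + 1 ≤ 2 ^ (L + 1) := Nat.lt_pow_succ_log_self (by norm_num) _
    have e2 : ((⌊X⌋₊ + 1 : ℕ) : ℝ) ≤ (2 ^ (L + 1) : ℕ) := by exact_mod_cast e1
    push_cast at e2
    linarith [Nat.lt_floor_add_one X]
  have hl2 := Real.log_two_lt_d9
  have hl2' := Real.log_two_gt_d9
  have hL3 : Real.log X ≤ L + 1 := by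
    have := Real.log_le_log hX0 hL2
    rw [Real.log_pow] at this
    push_cast at this
    nlinarith [(Nat.cast_nonneg L : (0 : ℝ) ≤ L)]
  have hL4 : (L : ℝ) ≤ 2 * Real.log X := by
    have := Real.log_le_log (by positivity) hL1
    rw [Real.log_pow] at this
    nlinarith [(Nat.cast_nonneg L : (0 : ℝ) ≤ L)]
  have hu1 : L + 1 ≤ 2 * a * (u + 1) := Nat.lt_mul_div_succ L (by omega)
  have hu2 : 2 * a * u ≤ L := Nat.mul_div_le L (2 * a)
  have hu3 : 4 ^ l + W + 1 ≤ u := by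
    have e1 : ((L + 1 : ℕ) : ℝ) ≤ (2 * a * (u + 1) : ℕ) := by exact_mod_cast hu1
    push_cast at e1
    have e2 : (2 * a : ℝ) * (4 ^ l + W + 2) ≤ 2 * a * (u + 1) := by linarith
    have e3 := le_of_mul_le_mul_left e2 (by positivity)
    have e4 : ((4 ^ l + W + 1 : ℕ) : ℝ) ≤ u := by push_cast; linarith
    exact_mod_cast e4
  have hu0 : 0 < u := lt_of_lt_of_le (Nat.succ_pos _) hu3
  have hWu : W < u := lt_of_lt_of_le (Nat.lt_succ_of_le (Nat.le_add_left _ _)) hu3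
  have h4l : 4 ^ l ≤ u := le_trans (Nat.le_succ_of_le (Nat.le_add_right _ _)) hu3
  have hur : (0 : ℝ) < u := by exact_mod_cast hu0
  have hu4 : L + 1 ≤ 4 * a * u := hu1.trans (by nlinarith)
  have hlog1 : 1 ≤ Real.log X := by
    have : (1 : ℝ) ≤ 2 * a * (4 ^ l + W + 2) := by exact_mod_cast (by positivity : 0 < 2 * a * (4 ^ l + W + 2))
    linarith
  obtain ⟨T, hT, hTr⟩ := prime_family u
  set δ : ℝ := (4 ^ l / u : ℝ) ^ β with hδ
  have hδp : δ ^ 2 ^ l = 4 ^ l / u := by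
    rw [hδ, ← Real.rpow_natCast, ← Real.rpow_mul (by positivity), hβ]
    simp
  have h4u : (4 ^ l / u : ℝ) ≤ 1 := by
    rw [div_le_one hur]; exact_mod_cast h4l
  have hQa : ((4 ^ u : ℕ) : ℝ) ^ a ≤ X := by
    refine le_trans ?_ hL1
    have : (4 ^ u) ^ a ≤ 2 ^ L := by
      rw [show 4 = 2 ^ 2 by norm_num, ← pow_mul, ← pow_mul]
      exact Nat.pow_le_pow_right (by norm_num) (by nlinarith)
    exact_mod_cast this
  set s := (4 ^ u) ^ 2 ^ l with hs
  have hs1 : 1 ≤ s := Nat.one_le_pow _ _ (by positivity)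
  set y := X ^ (1 / 4 : ℝ) with hy
  have hy0 : 0 < y := by positivity
  have hy4 : y ^ 4 = X := by
    rw [hy, ← Real.rpow_natCast, ← Real.rpow_mul hX0.le]; norm_num
  have hly : Real.log X ≤ 4 * y := by
    have := Real.log_le_rpow_div hX0.le (show (0 : ℝ) < 1 / 4 by norm_num)
    linarith
  have hsy : (s : ℝ) ≤ y ^ 2 := by
    refine abs_le_of_sq_le_sq' ?_ (by positivity) |>.2
    rw [← pow_mul, hy4, hs]
    push_cast
    rw [← pow_mul, ← pow_succ]
    exact_mod_cast hQa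
  have hDl : ((c0 * (s * u) : ℕ) : ℝ) * Real.log X ≤ 64 * c0 * X := by
    have e1 : (u : ℝ) ≤ L := by exact_mod_cast (by nlinarith : u ≤ L)
    push_cast
    calc (c0 : ℝ) * (s * u) * Real.log X ≤ c0 * (y ^ 2 * (2 * (4 * y))) * (4 * y) := by
          gcongr; linarith
      _ = 32 * c0 * y ^ 4 := by ring
      _ ≤ _ := by rw [hy4]; gcongr; norm_num
  have hηX : η0 * X ≤ η * X := by gcongr
  have hD : ((c0 * (s * u) : ℕ) : ℝ) + 1 ≤ η * X := by
    have e1 : 128 * (c0 : ℝ) ≤ η0 * Real.log X := by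
      rw [← div_le_iff₀' hη0]; linarith
    have e2 : 2 ≤ η0 * X := by rw [← div_le_iff₀' hη0]; linarith
    have e3 : ((c0 * (s * u) : ℕ) : ℝ) * Real.log X ≤ η0 * X / 2 * Real.log X := by nlinarith
    have := le_of_mul_le_mul_right e3 (by linarith)
    linarith
  have key := chStep_core l W hW Y hY X η e δ (by linarith) h1 T (4 ^ u) (s * u) (hT ▸ hu0)
    (fun r hr => ⟨(hTr r hr).1, hWu.trans (Nat.lt_two_pow_self.trans (hTr r hr).2.1), (hTr r hr).2.2⟩) (by positivity)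
    (Real.rpow_le_one (by positivity) h4u hβ0.le) (by rw [hδp, hT])
    (by
      rw [hδp, hs]
      push_cast
      rw [div_mul_eq_mul_div, le_div_iff₀ hur]
      exact le_mul_of_one_le_left (by positivity) (one_le_pow₀ (by norm_num)))
    hD fun r hr => hOk r ?_ ?_
  · intro g hg
    refine (key g hg).trans ?_
    have e1 : δ ≤ (4 ^ l * (4 * a) : ℝ) ^ β * Real.log X ^ (-β) := by
      rw [Real.rpow_neg (by linarith), ← div_eq_mul_inv, ← Real.div_rpow (by positivity) (by linarith)]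
      refine Real.rpow_le_rpow (by positivity) ?_ hβ0.le
      rw [div_le_div_iff₀ hur (by linarith), mul_assoc]
      have : ((L + 1 : ℕ) : ℝ) ≤ (4 * a * u : ℕ) := by exact_mod_cast hu4
      push_cast at this
      gcongr; linarith
    have e2 : 64 * ((c0 * (s * u) : ℕ) : ℝ) / (η * X) ≤
        64 * (64 * c0 / η0) * Real.log X ^ (-β) := by
      have e3 : (Real.log X)⁻¹ ≤ Real.log X ^ (-β) := by
        rw [← Real.rpow_neg_one]
        exact Real.rpow_le_rpow_of_exponent_le hlog1 (by linarith)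
      calc _ ≤ 64 * ((c0 * (s * u) : ℕ) : ℝ) / (η0 * X) := by gcongr
        _ ≤ 64 * (64 * c0 / η0) * (Real.log X)⁻¹ := by
          rw [div_le_iff₀ (by positivity)]
          field_simp
          linarith
        _ ≤ _ := by gcongr
    linarith
  · calc (r : ℝ) ^ 2 ≤ ((4 ^ u : ℕ) : ℝ) ^ 2 := by gcongr; exact (hTr r hr).2.2
      _ ≤ ((4 ^ u : ℕ) : ℝ) ^ a := pow_le_pow_right₀ (by exact_mod_cast Nat.one_le_pow _ _ (by norm_num)) ha2
      _ ≤ X := hQa
  · refine hL2.trans ?_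
    have : 2 ^ (L + 1) ≤ r ^ 2 ^ (l + 3) := by
      calc 2 ^ (L + 1) ≤ 2 ^ (u * 2 ^ (l + 3)) := Nat.pow_le_pow_right (by norm_num) (by
            refine hu4.trans (le_of_eq ?_)
            rw [ha]; ring)
        _ = (2 ^ u) ^ 2 ^ (l + 3) := pow_mul _ _ _
        _ ≤ _ := Nat.pow_le_pow_left (hTr r hr).2.1.le _
    exact_mod_cast this

end Pool.Agent.Lib.MP_0a3467_an.Cv
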