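import Pool.Agent.Lib.MP_0a3467_an.Cv.ChBase
import Pool.Agent.Lib.MP_0a3467_an.Cv.ChStep

open Finset

namespace Pool.Agent.Lib.MP_0a3467_an.Cv

lemma chain_mono {l W Y : ℕ} {η X e e' : ℝ} (h : Ok l W η Y X e) (he : e ≤ e') :
    Ok l W η Y X e' := fun g hg => (h g hg).trans he

/-- The gain of the potential along one step. -/
lemma chain_gain {k : ℕ} {β C X r : ℝ} (hβ : 0 < β) (hC : 0 ≤ C) (hk : 2 ≤ k) (hX : 1 < X)
    (hr : 0 < r) (h1 : 1 < X / r) (h2 : X ≤ r ^ k) :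
    C / ((1 - 1 / (k : ℝ)) ^ (-β) - 1) * Real.log X ^ (-β) + C * Real.log X ^ (-β) ≤
      C / ((1 - 1 / (k : ℝ)) ^ (-β) - 1) * Real.log (X / r) ^ (-β) := by
  have hk' : (2 : ℝ) ≤ k := by exact_mod_cast hk
  have hk0 : (0 : ℝ) < k := by linarith
  have hγ : 1 / (k : ℝ) ≤ 1 / 2 := one_div_le_one_div_of_le two_pos hk'
  have hγ0 : 0 < 1 / (k : ℝ) := by positivity
  have hd : 1 < (1 - 1 / (k : ℝ)) ^ (-β) :=
    Real.one_lt_rpow_of_pos_of_lt_one_of_neg (by linarith) (by linarith) (by linarith)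
  have hL : 0 < Real.log X := Real.log_pos hX
  have h3 : Real.log X ≤ k * Real.log r := by
    rw [← Real.log_pow]
    exact Real.log_le_log (by linarith) h2
  have h4 : Real.log (X / r) ≤ (1 - 1 / (k : ℝ)) * Real.log X := by
    rw [Real.log_div (by linarith) hr.ne']
    have : 1 / (k : ℝ) * Real.log X ≤ Real.log r := by
      rw [one_div, inv_mul_le_iff₀ hk0]
      exact h3
    linarith
  have h5 := Real.rpow_le_rpow_of_nonpos (Real.log_pos h1) h4 (by linarith : -β ≤ 0)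
  rw [Real.mul_rpow (by linarith) hL.le] at h5
  have h6 : 0 < (1 - 1 / (k : ℝ)) ^ (-β) - 1 := by linarith
  refine le_trans (le_of_eq ?_) (mul_le_mul_of_nonneg_left h5 (div_nonneg hC h6.le))
  generalize (1 - 1 / (k : ℝ)) ^ (-β) = d at h6
  field_simp
  ring

/-- CHAIN. -/
theorem chain_all (l : ℕ) {e : ℝ} (he : 0 < e) {η0 : ℝ} (hη0 : 0 < η0) :
    ∃ W0 : ℕ, ∀ W ≥ W0, ∃ Y0 : ℕ, ∀ Y ≥ Y0, ∀ X η : ℝ, (Y : ℝ) ≤ X → η0 ≤ η → η ≤ 1 →
      Ok l W η Y X (e + 10 * η) := by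
  obtain ⟨W0, hW0⟩ := chain_base l (half_pos he) hη0
  refine ⟨max W0 l, fun W hW => ?_⟩
  obtain ⟨X0, hb⟩ := hW0 W (le_of_max_le_left hW)
  obtain ⟨X1, C, hC, hs⟩ := chain_step l W (le_of_max_le_right hW) hη0
  set β : ℝ := 1 / 2 ^ l with hβd
  have hβ : 0 < β := by positivity
  have hk : 2 ≤ 2 ^ (l + 3) := by
    calc 2 = 2 ^ 1 := rfl
      _ ≤ 2 ^ (l + 3) := Nat.pow_le_pow_right two_pos (by omega)
  set Bc : ℝ := C / ((1 - 1 / ((2 ^ (l + 3) : ℕ) : ℝ)) ^ (-β) - 1) with hBc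
  have hBc0 : 0 ≤ Bc := by
    have hk' : (2 : ℝ) ≤ ((2 ^ (l + 3) : ℕ) : ℝ) := by exact_mod_cast hk
    have hγ : 1 / ((2 ^ (l + 3) : ℕ) : ℝ) ≤ 1 / 2 := one_div_le_one_div_of_le two_pos hk'
    have hγ0 : 0 < 1 / ((2 ^ (l + 3) : ℕ) : ℝ) := by positivity
    have hd : 1 < (1 - 1 / ((2 ^ (l + 3) : ℕ) : ℝ)) ^ (-β) :=
      Real.one_lt_rpow_of_pos_of_lt_one_of_neg (by linarith) (by linarith) (by linarith)
    exact div_nonneg hC (by linarith)
  have t1 : Filter.Tendsto (fun Y : ℕ => (Y : ℝ) ^ (((2 ^ (l + 1) : ℕ) : ℝ)⁻¹)) Filter.atTop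
      Filter.atTop := (tendsto_rpow_atTop (by positivity)).comp tendsto_natCast_atTop_atTop
  have t2 : Filter.Tendsto (fun X : ℝ => Bc * Real.log X ^ (-β)) Filter.atTop (nhds 0) := by
    simpa using ((tendsto_rpow_neg_atTop hβ).comp Real.tendsto_log_atTop).const_mul Bc
  obtain ⟨Y0, hY0⟩ := Filter.eventually_atTop.1
    ((t1.eventually ((Filter.eventually_ge_atTop (max (max X0 X1) 2)).and
      (t2.eventually (eventually_le_nhds (half_pos he))))).and (Filter.eventually_ge_atTop 1))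
  refine ⟨Y0, fun Y hY X η hX h1 h2 => ?_⟩
  obtain ⟨⟨a1, a2⟩, a3⟩ := hY0 Y hY
  have hpow : ((Y : ℝ) ^ (((2 ^ (l + 1) : ℕ) : ℝ)⁻¹)) ^ (2 ^ (l + 1)) = Y :=
    Real.rpow_inv_natCast_pow (Nat.cast_nonneg Y) (by positivity)
  generalize (Y : ℝ) ^ (((2 ^ (l + 1) : ℕ) : ℝ)⁻¹) = Xb at a1 a2 hpow
  simp only [max_le_iff] at a1
  obtain ⟨⟨b0, b1⟩, b2⟩ := a1
  have anti : ∀ X : ℝ, Xb ≤ X → Bc * Real.log X ^ (-β) ≤ Bc * Real.log Xb ^ (-β) := fun X h =>
    mul_le_mul_of_nonneg_left (Real.rpow_le_rpow_of_nonpos (Real.log_pos (by linarith))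
      (Real.log_le_log (by linarith) h) (by linarith)) hBc0
  have claim : ∀ n : ℕ, ∀ X : ℝ, Xb ≤ X → X < 2 ^ n * Xb →
      Ok l W η Y X (e / 2 + 10 * η + (Bc * Real.log Xb ^ (-β) - Bc * Real.log X ^ (-β))) := by
    intro n
    induction n with
    | zero => intro X c1 c2; simp only [pow_zero, one_mul] at c2; linarith
    | succ n ih =>
      intro X c1 c2
      by_cases hc : X ^ 2 ^ l ≤ Y
      · exact chain_mono (hb Y X η (b0.trans c1) hc h1 h2) (by linarith [anti X c1])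
      · have c3 : Xb ^ 2 < X := by
          refine lt_of_pow_lt_pow_left₀ (2 ^ l) (by linarith) ?_
          rw [← pow_mul, ← pow_succ', hpow]
          exact not_le.1 hc
        have := hs Y X η (e / 2 + 10 * η + (Bc * Real.log Xb ^ (-β) - Bc * Real.log X ^ (-β)) -
          C * Real.log X ^ (-β)) a3 (b1.trans c1) h1 h2 fun r r1 r2 => ?_
        · exact chain_mono this (by linarith)
        have r3 : 2 ≤ r := by
          by_contra hr
          have : (r : ℝ) ≤ 1 := by exact_mod_cast (by omega : r ≤ 1)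
          have := pow_le_one₀ (n := 2 ^ (l + 3)) (Nat.cast_nonneg r) this
          linarith
        have r4 : (2 : ℝ) ≤ r := by exact_mod_cast r3
        have r0 : (0 : ℝ) < r := by linarith
        have r5 : Xb ≤ X / r := by
          rw [le_div_iff₀ r0]
          refine le_of_sq_le_sq (by rw [mul_pow]; nlinarith) (by linarith)
        have r6 : X / r < 2 ^ n * Xb := by
          have : X / r ≤ X / 2 := div_le_div_of_nonneg_left (by linarith) two_pos r4
          rw [pow_succ] at c2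
          linarith
        have r7 := chain_gain hβ hC hk (by linarith : 1 < X) r0 (by linarith) r2
        exact chain_mono (ih _ r5 r6) (by linarith)
  have hXb : Xb ≤ X := by
    refine le_trans ?_ hX
    rw [← hpow]
    exact le_self_pow₀ (by linarith) (by positivity)
  obtain ⟨n, hn⟩ := pow_unbounded_of_one_lt (X / Xb) (one_lt_two (α := ℝ))
  rw [div_lt_iff₀ (by linarith)] at hn
  have hp : 0 ≤ Bc * Real.log X ^ (-β) :=
    mul_nonneg hBc0 (Real.rpow_nonneg (Real.log_nonneg (by linarith)) _)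
  exact chain_mono (claim n X hXb hn) (by linarith)

end Pool.Agent.Lib.MP_0a3467_an.Cv
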