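import Mathlib

/-!
Definitions for the convergence of linear-pattern averages of multiplicative actions.
-/

open Finset

namespace Pool.Agent.Lib.MP_0a3467_an.Cv

/-- Admissible tuples: `F r` is bounded by one and does not depend on the coordinate `r`. -/
def Adm {s : ℕ} {H : Type} (F : Fin s → (Fin s → H) → ℝ) : Prop :=
  (∀ r h, |F r h| ≤ 1) ∧ ∀ r h a, F r (Function.update h r a) = F r h

/-- On `B ^ s` the function `G` is dominated by `M` times the products of admissible tuples. -/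
def Low {s : ℕ} {H : Type} (B : Set H) (M : ℝ) (G : (Fin s → H) → ℝ) : Prop :=
  ∀ (I : Type) (S : Finset I) (c : I → ℝ) (pt : I → Fin s → H) (b : ℝ),
    (∀ i ∈ S, ∀ r, pt i r ∈ B) →
    (∀ F, Adm F → |∑ i ∈ S, c i * ∏ r, F r (pt i)| ≤ b) → |∑ i ∈ S, c i * G (pt i)| ≤ M * b

/-- The normalized cut norm of `V` on `S ^ s` is at most `b`. -/
def Cut {s : ℕ} {H : Type} (S : Finset H) (V : (Fin s → H) → ℝ) (b : ℝ) : Prop :=
  ∀ F, Adm F →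
    |∑ h ∈ Fintype.piFinset fun _ : Fin s => S, V h * ∏ r, F r h| ≤ b * (S.card : ℝ) ^ s

/-- Structured functions of complexity `M` at scale `N`. -/
def Str (l : ℕ) (M : ℝ) (N : ℕ) (g : ℕ → ℝ) : Prop :=
  ∀ x, Low (s := l + 1) (Set.Iic N) M fun h => g (x + l.factorial * ∑ r, h r)

abbrev Om (l : ℕ) : Type := Fin (l + 1) → ℕ → ℝ

def box (N : ℕ) : Finset (ℕ × ℕ) := Ioc 0 N ×ˢ Ioc 0 N

def Pr (l : ℕ) (f : Om l) (z : ℕ × ℕ) : ℝ := ∏ j : Fin (l + 1), f j (z.1 + j * z.2)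

def LS (l N : ℕ) (f : Om l) : ℝ := ∑ z ∈ box N, Pr l f z

noncomputable def Lam (l N : ℕ) (f : Om l) : ℝ := LS l N f / (N : ℝ) ^ 2

def dil (R : ℕ) (f : ℕ → ℝ) : ℕ → ℝ := fun x => f (R * x)

def dl {l : ℕ} (R : ℕ) (f : Om l) : Om l := fun j => dil R (f j)

/-- The average over `1, …, n`. -/
noncomputable def av (n : ℕ) (φ : ℕ → ℝ) : ℝ := (∑ x ∈ Ioc 0 n, φ x) / n

noncomputable def er (n : ℕ) (f g : ℕ → ℝ) : ℝ := av n fun x => (f x - g x) ^ 2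

/-- The squared distance on `1, …, B N` to the structured functions. -/
noncomputable def dst (l B : ℕ) (M : ℝ) (N : ℕ) (f : ℕ → ℝ) : ℝ :=
  ⨅ g : {g : ℕ → ℝ // Str l M N g}, er (B * N) f g

def Bj (l : ℕ) (j : Fin (l + 1)) : ℕ := if j = 0 then 1 else l + 1

def C0 (l : ℕ) : ℝ := 2 * (l + 1) * l.factorial + 1

noncomputable def cj (l : ℕ) (M : Fin (l + 1) → ℝ) (j : Fin (l + 1)) : ℝ :=
  C0 l * (l + 1) * ∏ i ∈ Iio j, M i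

/-- A sub-mixture of dilated intervals inside the interval of scale `N`, with error `e`. -/
def Mix {ι : Type} (B N : ℕ) (e : ℝ) (T : Finset ι) (w : ι → ℝ) (R k : ι → ℕ) : Prop :=
  (∀ i ∈ T, 0 ≤ w i ∧ 0 < R i ∧ 0 < k i ∧ R i * k i ≤ N) ∧ ∑ i ∈ T, w i ≤ 1 ∧
    ∀ B', 1 ≤ B' → B' ≤ B → ∀ φ : ℕ → ℝ, (∀ x, 0 ≤ φ x) → (∀ x, φ x ≤ 1) →
      ∑ i ∈ T, w i * av (B' * k i) (dil (R i) φ) ≤ av (B' * N) φ + e

/-- Periodicity in both coordinates. -/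
def Per (q : ℕ) (W : ℕ × ℕ → ℝ) : Prop :=
  ∀ a b, W (a + q, b) = W (a, b) ∧ W (a, b + q) = W (a, b)

noncomputable def mean (q : ℕ) (W : ℕ × ℕ → ℝ) : ℝ := (∑ z ∈ box q, W z) / (q : ℝ) ^ 2

/-- The total weight of the pairs of labels with moduli that are not coprime. -/
noncomputable def bad {Θ : Type} (T : Finset Θ) (π : Θ → ℝ) (q : Θ → ℕ) : ℝ :=
  ∑ θ ∈ T, ∑ θ' ∈ T, if Nat.Coprime (q θ) (q θ') then 0 else π θ * π θ'

noncomputable def Kq (l : ℕ) (q : Fin (l + 1) → ℕ) (g : Om l) (z : ℕ × ℕ) : ℝ :=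
  ∏ j : Fin (l + 1), if q j ∣ z.1 + j * z.2 then (q j : ℝ) * g j ((z.1 + j * z.2) / q j) else 0

noncomputable def rq (l : ℕ) (q : Fin (l + 1) → ℕ) (z : ℕ × ℕ) : ℝ :=
  ∏ j : Fin (l + 1), if q j ∣ z.1 + j * z.2 then (q j : ℝ) else 0

/-- The normalized sieve weight. -/
noncomputable def vv (a : ℕ → ℝ) (P : Finset ℕ) (R : ℕ) : ℝ :=
  ∏ p ∈ P, (1 - if p ∣ R then a p else 0) / (1 - a p / p)

noncomputable def v0 (W : ℕ) : ℕ → ℝ := vv (fun _ => 1) W.primesLE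

noncomputable def aS (σ : ℝ) (p : ℕ) : ℝ := (p : ℝ) ^ (-σ)

noncomputable def wt (σ : ℝ) (y R : ℕ) : ℝ := ∏ p ∈ y.primesLE, (1 - if p ∣ R then aS σ p else 0)

noncomputable def kap (σ : ℝ) (y : ℕ) : ℝ := ∏ p ∈ y.primesLE, (1 - aS σ p / p)

/-- The limiting weight of the window number `i`. -/
noncomputable def lamF (σ θ : ℝ) (y B : ℕ) (Ys : ℕ → ℕ) (i : ℕ) : ℝ :=
  θ * kap σ y * aS σ (B * Ys i) * (1 - (Ys i : ℝ) / Ys (i + 1))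

def win (N : ℕ) (Ys : ℕ → ℕ) (i : ℕ) : Finset ℕ := Ioc (N / Ys (i + 1)) (N / Ys i)

noncomputable def Tm (l : ℕ) (v : ℕ → ℝ) (η : ℝ) (Y : ℕ) (X : ℝ) (g : Om l) : ℝ :=
  (∑ R ∈ Ioc ⌊X⌋₊ ⌊(1 + η) * X⌋₊, v R * Lam l Y (dl R g)) / (η * X)

noncomputable def Tp (l : ℕ) (Z : ℝ) (g : Om l) : ℝ := LS l ⌊Z⌋₊ g / Z ^ 2

def Ok (l W : ℕ) (η : ℝ) (Y : ℕ) (X e : ℝ) : Prop :=
  ∀ g : Om l, (∀ j, Str l 1 ⌊X * Y⌋₊ (g j)) → |Tm l (v0 W) η Y X g - Tp l (X * Y) g| ≤ e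

/-- The sum of the reciprocals. -/
noncomputable def rs (P : Finset ℕ) : ℝ := ∑ p ∈ P, 1 / (p : ℝ)

/-- The logarithmic probability weights. -/
noncomputable def pw (P : Finset ℕ) (p : ℕ) : ℝ := 1 / (rs P * p)

noncomputable def om (P : Finset ℕ) (x : ℕ) : ℝ := ((P.filter (· ∣ x)).card : ℝ) / rs P

noncomputable def Gt (Q : Finset ℕ) (g : ℕ → ℕ → ℝ) (x : ℕ) : ℝ :=
  (∑ q ∈ Q.filter (· ∣ x), g q (x / q)) / ((Q.filter (· ∣ x)).card : ℝ)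

/-- A system of disjoint sets of primes with large sums of reciprocals. -/
structure PS (l : ℕ) (K : ℝ) (a : ℕ) (Q : Fin (l + 1) → Finset ℕ) (P : Finset ℕ) (Z N : ℕ) :
    Prop where
  pQ : ∀ j, ∀ q ∈ Q j, q.Prime ∧ l < q ∧ q ≤ Z
  pP : ∀ p ∈ P, p.Prime ∧ l < p ∧ p ≤ Z
  dQ : Pairwise fun i j => Disjoint (Q i) (Q j)
  dP : ∀ j, Disjoint (Q j) P
  bQ : ∀ j, K ≤ rs (Q j)
  bP : K ≤ rs P
  sz : K * (Z : ℝ) ^ a ≤ N

end Pool.Agent.Lib.MP_0a3467_an.Cv
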