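import Pool.Agent.Lib.MP_0a3467_an.Cv.Dual

open Finset

namespace Pool.Agent.Lib.MP_0a3467_an.Cv

/-- The hybrid tuples. -/
def repHyb {l : ℕ} (f g : Om l) (t : ℕ) : Om l := fun i => if (i : ℕ) < t then g i else f i

theorem rep_scale {l : ℕ} (N : ℕ) (f g : Om l) (M : Fin (l + 1) → ℝ) (hM : ∀ j, 1 ≤ M j)
    (j : Fin (l + 1)) (u : ℕ → ℝ) :
    LS l N (Function.update (repHyb f g j) j u) = (∏ i ∈ Iio j, M i) *
      LS l N (Function.update (repHyb f (fun i x => g i x / M i) j) j u) := by
  unfold LS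
  rw [mul_sum]
  refine sum_congr rfl fun z _ => ?_
  have h1 : ∏ i ∈ Iio j, M i = ∏ i, if i < j then M i else 1 := by
    rw [← prod_filter]
    congr 1
    ext i
    simp
  unfold Pr
  rw [h1, ← prod_mul_distrib]
  refine prod_congr rfl fun i _ => ?_
  rcases eq_or_ne i j with rfl | hij
  · simp
  · rw [Function.update_of_ne hij, Function.update_of_ne hij]
    unfold repHyb
    have h0 : M i ≠ 0 := by have := hM i; positivity
    by_cases h : i < j
    · have h' : (i : ℕ) < j := h
      simp only [h, h', if_true]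
      field_simp
    · have h' : ¬(i : ℕ) < j := h
      simp only [h, h', if_false, one_mul]

theorem rep_step (l N : ℕ) (hN : 0 < N) (f g : Om l) (M : Fin (l + 1) → ℝ) (b : ℝ)
    (hf : ∀ j x, |f j x| ≤ 1) (hM : ∀ j, 1 ≤ M j) (hg : ∀ j x, |g j x| ≤ M j) (j : Fin (l + 1))
    (hβ : ∀ D, Str l 1 N D → |av (Bj l j * N) fun x => (f j x - g j x) * D x| ≤ b) :
    |Lam l N (repHyb f g j) - Lam l N (repHyb f g (j + 1))| ≤ cj l M j * b := by
  have e1 : repHyb f g j = Function.update (repHyb f g j) j (f j) := by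
    funext i
    rcases eq_or_ne i j with rfl | hij
    · simp [repHyb]
    · rw [Function.update_of_ne hij]
  have e2 : repHyb f g (j + 1) = Function.update (repHyb f g j) j (g j) := by
    funext i
    rcases eq_or_ne i j with rfl | hij
    · simp [repHyb]
    · rw [Function.update_of_ne hij]
      have h : (i : ℕ) ≠ j := fun e => hij (Fin.ext e)
      have h' : (i : ℕ) < j + 1 ↔ (i : ℕ) < j := by omega
      simp only [repHyb, h']
  obtain ⟨D, hD, hLS⟩ := dual l N hN j (repHyb f (fun i x => g i x / M i) j) fun i x => by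
    unfold repHyb
    split_ifs
    · have h0 : 0 < M i := lt_of_lt_of_le one_pos (hM i)
      rw [abs_div, abs_of_pos h0, div_le_one h0]
      exact hg i x
    · exact hf i x
  have hC : 0 < C0 l := lt_of_lt_of_le one_pos (C0_ge l)
  have hb : 0 ≤ b := (abs_nonneg _).trans (hβ _ (Str.zero zero_le_one))
  have h1 := hβ _ (hD.div hC)
  have hP : 0 < ∏ i ∈ Iio j, M i := prod_pos fun i _ => lt_of_lt_of_le one_pos (hM i)
  have hN' : (0 : ℝ) < N := Nat.cast_pos.2 hN
  have hB : (0 : ℝ) < Bj l j := Nat.cast_pos.2 (Bj_pos j)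
  have hB' : (Bj l j : ℝ) ≤ l + 1 := by exact_mod_cast Bj_le j
  have e3 : Lam l N (repHyb f g j) - Lam l N (repHyb f g (j + 1)) =
      (C0 l * Bj l j * ∏ i ∈ Iio j, M i) *
        av (Bj l j * N) fun x => (f j x - g j x) * (D x / C0 l) := by
    unfold Lam av
    rw [e2, e1, Function.update_idem, rep_scale N f g M hM, rep_scale N f g M hM, hLS, hLS]
    have e4 : ∑ x ∈ Ioc 0 (Bj l j * N), (f j x - g j x) * (D x / C0 l) =
        (∑ x ∈ Ioc 0 (Bj l j * N), f j x * D x - ∑ x ∈ Ioc 0 (Bj l j * N), g j x * D x) / C0 l := by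
      rw [← sum_sub_distrib, sum_div]
      exact sum_congr rfl fun x _ => by ring
    rw [e4]
    push_cast
    field_simp
  rw [e3, abs_mul, abs_of_pos (by positivity)]
  unfold cj
  gcongr

/-- REP. Replacing all functions, one position after the other. -/
theorem rep (l N : ℕ) (hN : 0 < N) (f g : Om l) (M β : Fin (l + 1) → ℝ)
    (hf : ∀ j x, |f j x| ≤ 1) (hM : ∀ j, 1 ≤ M j) (hg : ∀ j x, |g j x| ≤ M j)
    (hβ : ∀ j D, Str l 1 N D → |av (Bj l j * N) fun x => (f j x - g j x) * D x| ≤ β j) :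
    |Lam l N f - Lam l N g| ≤ ∑ j, cj l M j * β j := by
  have e0 : repHyb f g 0 = f := by
    funext i
    simp [repHyb]
  have e1 : repHyb f g (l + 1) = g := by
    funext i
    simp only [repHyb, i.2, if_true]
  have e2 := sum_range_sub' (fun t => Lam l N (repHyb f g t)) (l + 1)
  rw [e0, e1, ← Fin.sum_univ_eq_sum_range
    (fun t => Lam l N (repHyb f g t) - Lam l N (repHyb f g (t + 1)))] at e2
  rw [← e2]
  exact (abs_sum_le_sum_abs _ _).trans
    (sum_le_sum fun j _ => rep_step l N hN f g M (β j) hf hM hg j (hβ j))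

end Pool.Agent.Lib.MP_0a3467_an.Cv
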