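import Pool.Agent.Lib.MP_0a3467_an.Cv.Loc
import Pool.Agent.Lib.MP_0a3467_an.Cv.Beta
import Pool.Agent.Lib.MP_0a3467_an.Cv.Rep

open Finset

namespace Pool.Agent.Lib.MP_0a3467_an.Cv

theorem det1_scale {K : ℝ} {Z N p : ℕ} (_hK : 0 ≤ K) (hp : 0 < p) (hpZ : p ≤ Z)
    (hN : (K + 1) * (Z : ℝ) ^ 3 ≤ N) : K * (Z : ℝ) ^ 2 ≤ (N / p : ℕ) := by
  have hp' : (0 : ℝ) < p := by exact_mod_cast hp
  have hZ : (p : ℝ) ≤ Z := by exact_mod_cast hpZ
  have hZ1 : (1 : ℝ) ≤ Z := by exact_mod_cast hp.trans_le hpZ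
  have h1 : (N : ℝ) < ((N / p : ℕ) + 1) * p := by
    have := Nat.lt_div_mul_add (a := N) hp
    have h4 : (N : ℝ) < ((N / p * p + p : ℕ) : ℝ) := by exact_mod_cast this
    push_cast at h4
    linarith
  have h2 : (((N / p : ℕ) : ℝ) + 1) * p ≤ ((N / p : ℕ) + 1) * Z :=
    mul_le_mul_of_nonneg_left hZ (by positivity)
  have h3 : (K + 1) * (Z : ℝ) ^ 2 * Z ≤ ((N / p : ℕ) + 1) * Z := by
    have : (K + 1) * (Z : ℝ) ^ 2 * Z = (K + 1) * (Z : ℝ) ^ 3 := by ring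
    linarith
  have h4 := le_of_mul_le_mul_right h3 (by linarith)
  nlinarith

theorem det1_step (l : ℕ) (M τ : Fin (l + 1) → ℝ) (hM : ∀ j, 1 ≤ M j)
    (hτ : ∀ j, 0 < τ j ∧ τ j ≤ 1) {ζ K : ℝ} (hζ : 0 < ζ) (hK : 1 ≤ K) (hKζ : 1 ≤ ζ * K)
    (htk : ∀ (P : Finset ℕ) (Z n : ℕ), (∀ p ∈ P, p.Prime ∧ p ≤ Z) → K ≤ rs P →
      K * (Z : ℝ) ^ 2 ≤ n → av n (fun x => |om P x - 1|) ≤ ζ)
    (Q : Fin (l + 1) → Finset ℕ) {Z n : ℕ} (hZ : 1 ≤ Z) (hQ : ∀ j, ∀ q ∈ Q j, q.Prime ∧ q ≤ Z)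
    (hr : ∀ j, K ≤ rs (Q j)) (hn : K * (Z : ℝ) ^ 2 ≤ n) (f : Om l) (hf : ∀ j x, |f j x| ≤ 1)
    (g : Fin (l + 1) → ℕ → ℕ → ℝ) (hg : ∀ j, ∀ q ∈ Q j, Str l (M j) (n / q) (g j q)) :
    |Lam l n f - Lam l n fun j => Gt (Q j) (g j)| ≤
      ∑ j, cj l M j * ((1 + M j) * (ζ + ζ) + ∑ q ∈ Q j, pw (Q j) q *
        ((er (Bj l j * (n / q)) (dil q (f j)) (g j q) -
          dst l (Bj l j) (M j + 1) (n / q) (dil q (f j))) / (2 * τ j) + τ j / 2)) := by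
  have hZ1 : (1 : ℝ) ≤ Z := by exact_mod_cast hZ
  have hZ2 : (Z : ℝ) ≤ (Z : ℝ) ^ 2 := by nlinarith
  have hn0 : (0 : ℝ) < n := by nlinarith
  have hn1 : 0 < n := by exact_mod_cast hn0
  refine rep l n hn1 f _ M _ hf hM (fun j x => Gt_le (by linarith [hM j])
    (fun q hq y => (hg j q hq).bound y) x) fun j D hD => ?_
  refine beta l (Bj l j) n (M j) (τ j) (Q j) (f j) (g j) D ζ ζ (Bj_pos j) hn1
    (by linarith [hM j]) (hτ j).1 (hτ j).2 (fun q hq => (hQ j q hq).1.pos) (by linarith [hr j])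
    (hf j) (hg j) hD (htk _ Z _ (hQ j) (hr j) ?_) ?_
  · have h1 : n ≤ Bj l j * n := Nat.le_mul_of_pos_left _ (Bj_pos j)
    have h2 : (n : ℝ) ≤ ((Bj l j * n : ℕ) : ℝ) := by exact_mod_cast h1
    linarith
  · have h1 : Q j ⊆ Ioc 0 Z := fun q hq => mem_Ioc.2 ⟨(hQ j q hq).1.pos, (hQ j q hq).2⟩
    have h2 : (Q j).card ≤ Z := by simpa using card_le_card h1
    have h3 : ((Q j).card : ℝ) ≤ Z := by exact_mod_cast h2
    have h4 : 1 ≤ ζ * rs (Q j) := hKζ.trans (mul_le_mul_of_nonneg_left (hr j) hζ.le)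
    have h5 : (Z : ℝ) ≤ n := by nlinarith
    nlinarith

theorem det1_alg {P Q : Finset ℕ} {u v : ℕ → ℝ} (hu : ∑ p ∈ P, u p = 1) (hv : ∑ q ∈ Q, v q = 1)
    (hv0 : ∀ q, 0 ≤ v q) {c ζ ξ τ : ℝ} (hτ : 0 < τ) (a d d' : ℕ → ℝ) (b b' : ℕ → ℕ → ℝ)
    (h1 : ∀ q ∈ Q, a q ≤ d q + ζ) (h2 : ∀ q ∈ Q, ∑ p ∈ P, u p * b p q ≤ a q + ξ) :
    (c + ∑ q ∈ Q, v q * ((a q - d' q) / (2 * τ) + τ / 2)) +
      ∑ p ∈ P, u p * (c + ∑ q ∈ Q, v q * ((b p q - b' p q) / (2 * τ) + τ / 2)) ≤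
      2 * c + (2 * ζ + ξ) / (2 * τ) +
        (τ + (∑ q ∈ Q, v q * (2 * d q - d' q - ∑ p ∈ P, u p * b' p q)) / (2 * τ)) := by
  have e1 : ∑ p ∈ P, u p * (c + ∑ q ∈ Q, v q * ((b p q - b' p q) / (2 * τ) + τ / 2)) =
      c + ∑ q ∈ Q, v q * ((∑ p ∈ P, u p * b p q - ∑ p ∈ P, u p * b' p q) / (2 * τ) + τ / 2) := by
    simp only [mul_add (u _), sum_add_distrib]
    rw [← sum_mul, hu, one_mul]
    congr 1
    simp only [mul_sum]
    rw [sum_comm]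
    refine sum_congr rfl fun q _ => ?_
    have e2 : τ / 2 = ∑ p ∈ P, u p * (τ / 2) := by rw [← sum_mul, hu, one_mul]
    conv_rhs => rw [e2, ← sum_sub_distrib, sum_div, ← sum_add_distrib, mul_sum]
    exact sum_congr rfl fun p _ => by ring
  have e3 : (2 * ζ + ξ) / (2 * τ) +
      (τ + (∑ q ∈ Q, v q * (2 * d q - d' q - ∑ p ∈ P, u p * b' p q)) / (2 * τ)) =
      ∑ q ∈ Q, v q * ((2 * ζ + ξ) / (2 * τ) + τ +
        (2 * d q - d' q - ∑ p ∈ P, u p * b' p q) / (2 * τ)) := by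
    simp only [mul_add (v _), sum_add_distrib]
    rw [← sum_mul, ← sum_mul, hv, one_mul, one_mul, sum_div, add_assoc]
    congr 2
    exact sum_congr rfl fun q _ => by ring
  have e4 : ∑ q ∈ Q, v q * ((a q - d' q) / (2 * τ) + τ / 2) +
      ∑ q ∈ Q, v q * ((∑ p ∈ P, u p * b p q - ∑ p ∈ P, u p * b' p q) / (2 * τ) + τ / 2) ≤
      ∑ q ∈ Q, v q * ((2 * ζ + ξ) / (2 * τ) + τ +
        (2 * d q - d' q - ∑ p ∈ P, u p * b' p q) / (2 * τ)) := by
    rw [← sum_add_distrib]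
    refine sum_le_sum fun q hq => ?_
    rw [← mul_add]
    refine mul_le_mul_of_nonneg_left ?_ (hv0 q)
    have h3 : (a q - d' q + (∑ p ∈ P, u p * b p q - ∑ p ∈ P, u p * b' p q)) / (2 * τ) ≤
        (2 * ζ + ξ + (2 * d q - d' q - ∑ p ∈ P, u p * b' p q)) / (2 * τ) :=
      div_le_div_of_nonneg_right (by linarith [h1 q hq, h2 q hq]) (by linarith)
    rw [add_div, add_div] at h3
    linarith
  rw [e1, add_assoc (2 * c), e3]
  linarith

/-- DET1. The deterministic comparison with prime dilates. -/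
theorem det1 (l : ℕ) (M τ : Fin (l + 1) → ℝ) (hM : ∀ j, 1 ≤ M j) (hτ : ∀ j, 0 < τ j ∧ τ j ≤ 1)
    {e : ℝ} (he : 0 < e) :
    ∃ (K0 : ℝ) (a : ℕ), 1 ≤ K0 ∧ ∀ (Q : Fin (l + 1) → Finset ℕ) (P : Finset ℕ) (Z N : ℕ),
      PS l K0 a Q P Z N → ∀ f : Om l, (∀ j x, |f j x| ≤ 1) →
      |Lam l N f - ∑ p ∈ P, pw P p * Lam l (N / p) (dl p f)| ≤ e +
        ∑ j, cj l M j * (τ j + (∑ q ∈ Q j, pw (Q j) q *
          (2 * dst l (Bj l j) (M j) (N / q) (dil q (f j)) -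
            dst l (Bj l j) (M j + 1) (N / q) (dil q (f j)) -
            ∑ p ∈ P, pw P p * dst l (Bj l j) (M j + 1) (N / q / p) (dil p (dil q (f j))))) /
          (2 * τ j)) := by
  have hM0 : ∀ j, 0 < M j := fun j => by linarith [hM j]
  have hPi : 0 < ∏ j, M j := prod_pos fun j _ => hM0 j
  obtain ⟨C, hC⟩ : ∃ C : ℝ, C = ∏ j, M j +
      ∑ j, cj l M j * (4 * (1 + M j) + (2 + (1 + M j) ^ 2) / (2 * τ j)) := ⟨_, rfl⟩
  have hC0 : 0 < C := by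
    rw [hC]
    refine add_pos_of_pos_of_nonneg hPi (sum_nonneg fun j _ => ?_)
    have := cj_pos hM j
    have := hM0 j
    have := (hτ j).1
    positivity
  obtain ⟨ζ, hζ, hζC⟩ : ∃ ζ : ℝ, 0 < ζ ∧ ζ * C = e := ⟨e / C, by positivity, by field_simp⟩
  obtain ⟨K1, a1, hK1, hloc⟩ := loc l hζ
  obtain ⟨K2, hK2, htk⟩ := tk1 hζ
  obtain ⟨K3, hK3, hmix⟩ := tkmix hζ
  obtain ⟨K, hKa, hKb, hKc, hKd⟩ : ∃ K : ℝ, K1 ≤ K ∧ K2 ≤ K ∧ K3 ≤ K ∧ 1 ≤ ζ * K := by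
    have h1 : 0 < 1 / ζ := by positivity
    refine ⟨K1 + K2 + K3 + 1 / ζ, by linarith, by linarith, by linarith, ?_⟩
    have : ζ * (K1 + K2 + K3 + 1 / ζ) = ζ * (K1 + K2 + K3) + 1 := by field_simp
    rw [this]
    have : 0 ≤ ζ * (K1 + K2 + K3) := by positivity
    linarith
  have hK : 1 ≤ K := hK1.trans hKa
  refine ⟨K + 1, max a1 3, by linarith, fun Q P Z N hPS f hf => ?_⟩
  have hsz : (K + 1) * (Z : ℝ) ^ 3 ≤ N :=
    (hPS.mono (by linarith) le_rfl (le_max_right _ _)).sz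
  have hrP : K ≤ rs P := by linarith [hPS.bP]
  have hrQ : ∀ j, K ≤ rs (Q j) := fun j => by linarith [hPS.bQ j]
  have hP : ∀ p ∈ P, p.Prime ∧ p ≤ Z := fun p hp => ⟨(hPS.pP p hp).1, (hPS.pP p hp).2.2⟩
  have hQ : ∀ j, ∀ q ∈ Q j, q.Prime ∧ q ≤ Z := fun j q hq =>
    ⟨(hPS.pQ j q hq).1, (hPS.pQ j q hq).2.2⟩
  have hZ : 1 ≤ Z := by
    rcases P.eq_empty_or_nonempty with rfl | ⟨p, hp⟩
    · simp only [rs, sum_empty] at hrP
      linarith
    · exact (hP p hp).1.one_le.trans (hP p hp).2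
  have hsc : ∀ p, p.Prime ∧ p ≤ Z → K * (Z : ℝ) ^ 2 ≤ (N / p : ℕ) := fun p hp =>
    det1_scale (by linarith) hp.1.pos hp.2 hsz
  have hscN : K * (Z : ℝ) ^ 2 ≤ N := by
    simpa using det1_scale (p := 1) (by linarith : 0 ≤ K) one_pos hZ hsz
  have hZsq : (0 : ℝ) ≤ (Z : ℝ) ^ 2 := by positivity
  have htk' : ∀ (P : Finset ℕ) (Z n : ℕ), (∀ p ∈ P, p.Prime ∧ p ≤ Z) → K ≤ rs P →
      K * (Z : ℝ) ^ 2 ≤ n → av n (fun x => |om P x - 1|) ≤ ζ := fun P Z n h1 h2 h3 =>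
    htk P Z n h1 (hKb.trans h2)
      ((mul_le_mul_of_nonneg_right hKb (by positivity)).trans h3)
  choose g hg hge using fun (j : Fin (l + 1)) (q : ℕ) =>
    exists_near l (Bj l j) (N / q) (hM0 j).le (dil q (f j)) hζ
  have hsP : ∑ p ∈ P, pw P p = 1 := sum_pw (by linarith)
  have h0 := det1_step l M τ hM hτ hζ hK hKd htk' Q hZ hQ hrQ hscN f hf g fun j q _ => hg j q
  have hp : ∀ p ∈ P, |Lam l (N / p) (dl p f) - Lam l (N / p) (dl p fun j => Gt (Q j) (g j))| ≤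
      ∑ j, cj l M j * ((1 + M j) * (ζ + ζ) + ∑ q ∈ Q j, pw (Q j) q *
        ((er (Bj l j * (N / q / p)) (dil p (dil q (f j))) (dil p (g j q)) -
          dst l (Bj l j) (M j + 1) (N / q / p) (dil p (dil q (f j)))) / (2 * τ j) + τ j / 2)) := by
    intro p hp
    have e1 : ∀ q, N / p / q = N / q / p := fun q => by
      rw [Nat.div_div_eq_div_mul, Nat.div_div_eq_div_mul, mul_comm]
    have e2 : ∀ q j, dil q (dl p f j) = dil p (dil q (f j)) := fun q j => by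
      simp only [dl]
      rw [dil_dil, dil_dil, mul_comm]
    have e3 : (dl p fun j => Gt (Q j) (g j)) = fun j => Gt (Q j) fun q => dil p (g j q) := by
      funext j
      simp only [dl]
      refine dil_Gt _ fun q hq => (Nat.coprime_primes (hQ j q hq).1 (hP p hp).1).2 ?_
      rintro rfl
      exact disjoint_left.1 (hPS.dP j) hq hp
    have h := det1_step l M τ hM hτ hζ hK hKd htk' Q hZ hQ hrQ (hsc p (hP p hp)) (dl p f)
      (fun j x => hf j _) (fun j q => dil p (g j q)) fun j q _ => by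
        rw [e1]
        exact (hg j q).dil (Nat.mul_div_le _ _)
    rw [e3]
    simpa only [e1, e2] using h
  have hl : |Lam l N (fun j => Gt (Q j) (g j)) -
      ∑ p ∈ P, pw P p * Lam l (N / p) (dl p fun j => Gt (Q j) (g j))| ≤ (∏ j, M j) * ζ := by
    have h := hloc Q P Z N (hPS.mono (by linarith) (by linarith) (le_max_left _ _))
      (fun j q y => g j q y / M j) fun j q _ => (hg j q).div (hM0 j)
    have e1 : (fun j => Gt (Q j) (g j)) =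
        fun j x => M j * Gt (Q j) (fun q y => g j q y / M j) x := by
      funext j x
      rw [← Gt_smul]
      congr 1
      funext q y
      have := (hM0 j).ne'
      field_simp
    have e2 : ∀ p, Lam l (N / p) (dl p fun j => Gt (Q j) (g j)) =
        (∏ j, M j) * Lam l (N / p) (dl p fun j => Gt (Q j) fun q y => g j q y / M j) := by
      intro p
      rw [← Lam_smul, e1]
      rfl
    have e3 : ∑ p ∈ P, pw P p * Lam l (N / p) (dl p fun j => Gt (Q j) (g j)) = (∏ j, M j) *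
        ∑ p ∈ P, pw P p * Lam l (N / p) (dl p fun j => Gt (Q j) fun q y => g j q y / M j) := by
      rw [mul_sum]
      exact sum_congr rfl fun p _ => by rw [e2]; ring
    rw [e3, e1, Lam_smul, ← mul_sub, abs_mul, abs_of_pos hPi]
    exact mul_le_mul_of_nonneg_left h hPi.le
  have hs : |∑ p ∈ P, pw P p * Lam l (N / p) (dl p fun j => Gt (Q j) (g j)) -
      ∑ p ∈ P, pw P p * Lam l (N / p) (dl p f)| ≤
      ∑ j, cj l M j * ∑ p ∈ P, pw P p * ((1 + M j) * (ζ + ζ) + ∑ q ∈ Q j, pw (Q j) q *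
        ((er (Bj l j * (N / q / p)) (dil p (dil q (f j))) (dil p (g j q)) -
          dst l (Bj l j) (M j + 1) (N / q / p) (dil p (dil q (f j)))) / (2 * τ j) + τ j / 2)) := by
    rw [← sum_sub_distrib]
    refine (abs_sum_le_sum_abs _ _).trans ?_
    simp only [mul_sum _ _ (cj l M _)]
    rw [sum_comm]
    refine sum_le_sum fun p hp' => ?_
    rw [← mul_sub, abs_mul, abs_of_nonneg (pw_nonneg P p), abs_sub_comm]
    refine (mul_le_mul_of_nonneg_left (hp p hp') (pw_nonneg P p)).trans (le_of_eq ?_)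
    rw [mul_sum]
    exact sum_congr rfl fun j _ => by ring
  have t1 := abs_sub_le (Lam l N f) (Lam l N fun j => Gt (Q j) (g j))
    (∑ p ∈ P, pw P p * Lam l (N / p) (dl p f))
  have t2 := abs_sub_le (Lam l N fun j => Gt (Q j) (g j))
    (∑ p ∈ P, pw P p * Lam l (N / p) (dl p fun j => Gt (Q j) (g j)))
    (∑ p ∈ P, pw P p * Lam l (N / p) (dl p f))
  have hj := fun j => mul_le_mul_of_nonneg_left (det1_alg (c := (1 + M j) * (ζ + ζ)) hsP
    (sum_pw (P := Q j) (by linarith [hrQ j])) (pw_nonneg (Q j)) (hτ j).1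
    (fun q => er (Bj l j * (N / q)) (dil q (f j)) (g j q))
    (fun q => dst l (Bj l j) (M j) (N / q) (dil q (f j)))
    (fun q => dst l (Bj l j) (M j + 1) (N / q) (dil q (f j)))
    (fun p q => er (Bj l j * (N / q / p)) (dil p (dil q (f j))) (dil p (g j q)))
    (fun p q => dst l (Bj l j) (M j + 1) (N / q / p) (dil p (dil q (f j))))
    (fun q _ => hge j q) fun q hq =>
      (hmix (l + 1) P Z (N / q) hP (hKc.trans hrP)
        ((mul_le_mul_of_nonneg_right hKc hZsq).trans (hsc q (hQ j q hq)))).er_le (Bj_pos j)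
        (Bj_le j) (fun x => hf j _) (hg j q).bound) (cj_pos hM j).le
  have hsum := sum_le_sum fun j (_ : j ∈ univ) => hj j
  simp only [mul_add (cj l M _) (_ + _), sum_add_distrib] at hsum
  have e5 : ∑ j, cj l M j * (2 * ((1 + M j) * (ζ + ζ)) + (2 * ζ + ζ * (1 + M j) ^ 2) / (2 * τ j)) =
      e - (∏ j, M j) * ζ := by
    rw [← hζC, hC, mul_add, mul_comm ζ (∏ j, M j), add_sub_cancel_left, mul_sum]
    exact sum_congr rfl fun j _ => by ring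
  linarith

end Pool.Agent.Lib.MP_0a3467_an.Cv
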