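import Pool.Agent.Lib.MP_0a3467_an.Cv.Rep
import Pool.Agent.Lib.MP_0a3467_an.Cv.Dst
import Pool.Agent.Lib.MP_0a3467_an.Cv.Struct

open Finset

namespace Pool.Agent.Lib.MP_0a3467_an.Cv

/-- Replacement by structured functions at one scale. -/
theorem det2_rep (l N : ℕ) (hN : 0 < N) (M τ : Fin (l + 1) → ℝ) (hM : ∀ j, 1 ≤ M j)
    (hτ : ∀ j, 0 < τ j ∧ τ j ≤ 1) (f g : Om l) (hf : ∀ j x, |f j x| ≤ 1)
    (hg : ∀ j, Str l (M j) N (g j)) :
    |Lam l N f - Lam l N g| ≤ ∑ j, cj l M j *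
      ((er (Bj l j * N) (f j) (g j) - dst l (Bj l j) (M j + 1) N (f j)) / (2 * τ j) + τ j / 2) :=
  rep l N hN f g M _ hf hM (fun j x => (hg j).bound x)
    fun j _ hD => orth (hg j) hD (hτ j).1 (hτ j).2 (Bj l j) (f j)

/-- The comparison for structured functions of larger complexity. -/
theorem det2_mid (l N : ℕ) {ι : Type} (T : Finset ι) (w : ι → ℝ) (R k : ι → ℕ) {e : ℝ}
    (hc : ∀ g : Om l, (∀ j, Str l 1 N (g j)) →
      |∑ i ∈ T, w i * Lam l (k i) (dl (R i) g) - Lam l N g| ≤ e)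
    (M : Fin (l + 1) → ℝ) (hM : ∀ j, 1 ≤ M j) (g : Om l) (hg : ∀ j, Str l (M j) N (g j)) :
    |∑ i ∈ T, w i * Lam l (k i) (dl (R i) g) - Lam l N g| ≤ (∏ j, M j) * e := by
  have hM0 : ∀ j, 0 < M j := fun j => lt_of_lt_of_le one_pos (hM j)
  set g' : Om l := fun j x => g j x / M j with hg'
  have h1 := hc g' fun j => (hg j).div (hM0 j)
  have e0 : g = fun j x => M j * g' j x := by
    funext j x
    simp only [hg']
    field_simp [(hM0 j).ne']
  have e1 : Lam l N g = (∏ j, M j) * Lam l N g' := by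
    conv_lhs => rw [e0]
    exact Lam_smul M g' N
  have e2 : ∀ i, Lam l (k i) (dl (R i) g) = (∏ j, M j) * Lam l (k i) (dl (R i) g') := by
    intro i
    conv_lhs => rw [e0]
    exact Lam_smul M (dl (R i) g') (k i)
  have hP : 0 ≤ ∏ j, M j := Finset.prod_nonneg fun j _ => (hM0 j).le
  have e3 : ∑ i ∈ T, w i * Lam l (k i) (dl (R i) g) - Lam l N g =
      (∏ j, M j) * (∑ i ∈ T, w i * Lam l (k i) (dl (R i) g') - Lam l N g') := by
    rw [mul_sub, Finset.mul_sum, e1]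
    congr 1
    refine Finset.sum_congr rfl fun i _ => ?_
    rw [e2 i]
    ring
  rw [e3, abs_mul, abs_of_nonneg hP]
  exact mul_le_mul_of_nonneg_left h1 hP

/-- Replacement by structured functions at the scales of the mixture. -/
theorem det2_root (l N : ℕ) {ι : Type} (T : Finset ι) (w : ι → ℝ) (R k : ι → ℕ)
    (hm : Mix (l + 1) N 0 T w R k) (M τ : Fin (l + 1) → ℝ) (hM : ∀ j, 1 ≤ M j)
    (hτ : ∀ j, 0 < τ j ∧ τ j ≤ 1) (f g : Om l) (hf : ∀ j x, |f j x| ≤ 1)
    (hg : ∀ j, Str l (M j) N (g j)) :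
    |∑ i ∈ T, w i * Lam l (k i) (dl (R i) f) - ∑ i ∈ T, w i * Lam l (k i) (dl (R i) g)| ≤
      ∑ j, cj l M j * ((er (Bj l j * N) (f j) (g j) -
        ∑ i ∈ T, w i * dst l (Bj l j) (M j + 1) (k i) (dil (R i) (f j))) / (2 * τ j) +
          τ j / 2) := by
  have hw : ∀ i ∈ T, 0 ≤ w i := fun i hi => (hm.1 i hi).1
  have h1 : ∀ i ∈ T, |w i * Lam l (k i) (dl (R i) f) - w i * Lam l (k i) (dl (R i) g)| ≤
      ∑ j, cj l M j * (w i * ((er (Bj l j * k i) (dil (R i) (f j)) (dil (R i) (g j)) -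
        dst l (Bj l j) (M j + 1) (k i) (dil (R i) (f j))) / (2 * τ j) + τ j / 2)) := by
    intro i hi
    have h2 := det2_rep l (k i) (hm.1 i hi).2.2.1 M τ hM hτ (dl (R i) f) (dl (R i) g)
      (fun j x => hf j _) fun j => (hg j).dil (hm.1 i hi).2.2.2
    rw [← mul_sub, abs_mul, abs_of_nonneg (hw i hi)]
    refine (mul_le_mul_of_nonneg_left h2 (hw i hi)).trans (le_of_eq ?_)
    rw [Finset.mul_sum]
    refine Finset.sum_congr rfl fun j _ => ?_
    simp only [dl]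
    ring
  rw [← Finset.sum_sub_distrib]
  refine (Finset.abs_sum_le_sum_abs _ _).trans ((Finset.sum_le_sum h1).trans ?_)
  rw [Finset.sum_comm]
  refine Finset.sum_le_sum fun j _ => ?_
  rw [← Finset.mul_sum]
  refine mul_le_mul_of_nonneg_left ?_ (cj_pos hM j).le
  have h3 := hm.er_le (Bj_pos j) (Bj_le j) (hf j) fun x => (hg j).bound x
  rw [zero_mul, add_zero] at h3
  have h4 : ∑ i ∈ T, w i * ((er (Bj l j * k i) (dil (R i) (f j)) (dil (R i) (g j)) -
        dst l (Bj l j) (M j + 1) (k i) (dil (R i) (f j))) / (2 * τ j) + τ j / 2) =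
      (∑ i ∈ T, w i * er (Bj l j * k i) (dil (R i) (f j)) (dil (R i) (g j)) -
        ∑ i ∈ T, w i * dst l (Bj l j) (M j + 1) (k i) (dil (R i) (f j))) / (2 * τ j) +
        (∑ i ∈ T, w i) * (τ j / 2) := by
    rw [← Finset.sum_sub_distrib, Finset.sum_div, Finset.sum_mul, ← Finset.sum_add_distrib]
    refine Finset.sum_congr rfl fun i _ => ?_
    ring
  rw [h4]
  have ht := (hτ j).1
  refine add_le_add (div_le_div_of_nonneg_right (by linarith) (by positivity)) ?_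
  exact mul_le_of_le_one_left (by positivity) hm.2.1

/-- DET2. The deterministic comparison with a mixture. -/
theorem det2 (l N : ℕ) (hN : 0 < N) {ι : Type} (T : Finset ι) (w : ι → ℝ) (R k : ι → ℕ)
    (hm : Mix (l + 1) N 0 T w R k) {e : ℝ}
    (hc : ∀ g : Om l, (∀ j, Str l 1 N (g j)) →
      |∑ i ∈ T, w i * Lam l (k i) (dl (R i) g) - Lam l N g| ≤ e)
    (M τ : Fin (l + 1) → ℝ) (hM : ∀ j, 1 ≤ M j) (hτ : ∀ j, 0 < τ j ∧ τ j ≤ 1) (f : Om l)
    (hf : ∀ j x, |f j x| ≤ 1) :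
    |Lam l N f - ∑ i ∈ T, w i * Lam l (k i) (dl (R i) f)| ≤ (∏ j, M j) * e +
      ∑ j, cj l M j * (τ j + (2 * dst l (Bj l j) (M j) N (f j) -
        dst l (Bj l j) (M j + 1) N (f j) -
        ∑ i ∈ T, w i * dst l (Bj l j) (M j + 1) (k i) (dil (R i) (f j))) / (2 * τ j)) := by
  refine le_of_forall_pos_le_add fun ε hε => ?_
  have hC : 0 ≤ ∑ j, cj l M j / τ j :=
    Finset.sum_nonneg fun j _ => div_nonneg (cj_pos hM j).le (hτ j).1.le
  set C := ∑ j, cj l M j / τ j with hCd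
  have hζ : 0 < ε / (C + 1) := by positivity
  set ζ := ε / (C + 1) with hζd
  have hCζ : C * ζ ≤ ε := by
    have : ζ * (C + 1) = ε := by
      rw [hζd]
      field_simp
    nlinarith
  choose g hg hge using fun j : Fin (l + 1) =>
    exists_near l (Bj l j) N (le_trans zero_le_one (hM j)) (f j) hζ
  have a1 := det2_rep l N hN M τ hM hτ f g hf hg
  have a2 := det2_mid l N T w R k hc M hM g hg
  have a3 := det2_root l N T w R k hm M τ hM hτ f g hf hg
  have a4 : ∑ j, cj l M j * ((er (Bj l j * N) (f j) (g j) -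
        dst l (Bj l j) (M j + 1) N (f j)) / (2 * τ j) + τ j / 2) +
      ∑ j, cj l M j * ((er (Bj l j * N) (f j) (g j) -
        ∑ i ∈ T, w i * dst l (Bj l j) (M j + 1) (k i) (dil (R i) (f j))) / (2 * τ j) +
          τ j / 2) ≤
      ∑ j, cj l M j * (τ j + (2 * dst l (Bj l j) (M j) N (f j) -
        dst l (Bj l j) (M j + 1) N (f j) -
        ∑ i ∈ T, w i * dst l (Bj l j) (M j + 1) (k i) (dil (R i) (f j))) / (2 * τ j)) +
        C * ζ := by
    rw [hCd, Finset.sum_mul, ← Finset.sum_add_distrib, ← Finset.sum_add_distrib]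
    refine Finset.sum_le_sum fun j _ => ?_
    have ht := (hτ j).1
    have hc0 := (cj_pos hM j).le
    have h5 := hge j
    generalize er (Bj l j * N) (f j) (g j) = E at h5 ⊢
    generalize dst l (Bj l j) (M j) N (f j) = d at h5 ⊢
    generalize dst l (Bj l j) (M j + 1) N (f j) = d1
    generalize ∑ i ∈ T, w i * dst l (Bj l j) (M j + 1) (k i) (dil (R i) (f j)) = d2
    have h6 : cj l M j * (τ j + (2 * d - d1 - d2) / (2 * τ j)) + cj l M j / τ j * ζ -
        (cj l M j * ((E - d1) / (2 * τ j) + τ j / 2) +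
          cj l M j * ((E - d2) / (2 * τ j) + τ j / 2)) = cj l M j * ((d + ζ - E) / τ j) := by
      field_simp
      ring
    have h7 : 0 ≤ cj l M j * ((d + ζ - E) / τ j) :=
      mul_nonneg hc0 (div_nonneg (by linarith) ht.le)
    linarith
  rw [abs_le] at a1 a2 a3 ⊢
  constructor
  · linarith [a1.1, a2.2, a3.2]
  · linarith [a1.2, a2.1, a3.1]

end Pool.Agent.Lib.MP_0a3467_an.Cv
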