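import Pool.Agent.Lib.MP_0a3467_an.Cv.GV
import Pool.Agent.Lib.MP_0a3467_an.Cv.App

open Finset

namespace Pool.Agent.Lib.MP_0a3467_an.Cv

/-- The centred indicator of the multiples of `r`. -/
noncomputable def dil1w (r x : ℕ) : ℝ := (if r ∣ x then (r : ℝ) else 0) - 1

lemma dil1w_per (r : ℕ) : Function.Periodic (dil1w r) r := by
  intro x
  simp [dil1w]

lemma dil1_per_mul {f : ℕ → ℝ} {q : ℕ} (hf : Function.Periodic f q) (k t : ℕ) :
    f (t + k * q) = f t := by
  simpa using hf.nat_mul k t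

lemma dil1_av_add_const {r : ℕ} (hr : 0 < r) (f : ℕ → ℝ) (t : ℝ) :
    av r (fun x => f x + t) = av r f + t := by
  have hr' : (r : ℝ) ≠ 0 := by positivity
  simp only [av, sum_add_distrib, sum_const, Nat.card_Ioc, Nat.sub_zero, nsmul_eq_mul]
  field_simp

lemma dil1_av_smul (r : ℕ) (f : ℕ → ℝ) (t : ℝ) : av r (fun x => t * f x) = t * av r f := by
  simp only [av, ← mul_sum]
  ring

lemma dil1_av_mono (r : ℕ) {f g : ℕ → ℝ} (h : ∀ x, f x ≤ g x) : av r f ≤ av r g := by
  unfold av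
  exact div_le_div_of_nonneg_right (sum_le_sum fun x _ => h x) (Nat.cast_nonneg r)

lemma dil1w_av {r : ℕ} (hr : 0 < r) : av r (dil1w r) = 0 := by
  have hr' : (r : ℝ) ≠ 0 := by positivity
  have h := dil1_av_add_const hr (fun x => if r ∣ x then (r : ℝ) else 0) (-1)
  rw [av_dvd hr, div_self hr'] at h
  have e : dil1w r = fun x => (if r ∣ x then (r : ℝ) else 0) + -1 := by
    funext x
    simp [dil1w, sub_eq_add_neg]
  rw [e, h]
  ring

lemma dil1w_av_abs {r : ℕ} (hr : 0 < r) : av r (fun x => |dil1w r x|) ≤ 2 := by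
  have hr' : (r : ℝ) ≠ 0 := by positivity
  have h := dil1_av_add_const hr (fun x => if r ∣ x then (r : ℝ) else 0) 1
  rw [av_dvd hr, div_self hr'] at h
  refine (dil1_av_mono r (g := fun x => (if r ∣ x then (r : ℝ) else 0) + 1) fun x => ?_).trans
    (by rw [h]; norm_num)
  have h0 : (0 : ℝ) ≤ if r ∣ x then (r : ℝ) else 0 := by split_ifs <;> positivity
  unfold dil1w
  rw [abs_le]
  constructor <;> linarith

lemma dil1_multiples {r : ℕ} (hr : 0 < r) (K : ℕ → ℝ) (a b : ℕ) :
    ∑ x ∈ Ioc a b, K x * dil1w r x =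
      (r : ℝ) * ∑ R ∈ Ioc (a / r) (b / r), K (r * R) - ∑ R ∈ Ioc a b, K R := by
  have h : ∑ R ∈ Ioc (a / r) (b / r), K (r * R) = ∑ x ∈ (Ioc a b).filter (r ∣ ·), K x := by
    refine sum_nbij (fun R => r * R) ?_ ?_ ?_ fun _ _ => rfl
    · intro R hR
      rw [mem_Ioc] at hR
      rw [mem_filter, mem_Ioc]
      refine ⟨⟨?_, ?_⟩, dvd_mul_right _ _⟩
      · have := (Nat.div_lt_iff_lt_mul hr).1 hR.1
        rwa [mul_comm] at this
      · have := (Nat.le_div_iff_mul_le hr).1 hR.2
        rwa [mul_comm] at this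
    · intro R _ R' _ h
      exact Nat.eq_of_mul_eq_mul_left hr h
    · intro x hx
      rw [mem_coe, mem_filter, mem_Ioc] at hx
      obtain ⟨⟨h1, h2⟩, k, rfl⟩ := hx
      refine ⟨k, ?_, rfl⟩
      rw [mem_coe, mem_Ioc]
      exact ⟨(Nat.div_lt_iff_lt_mul hr).2 (by rwa [mul_comm]),
        (Nat.le_div_iff_mul_le hr).2 (by rwa [mul_comm])⟩
  rw [h, sum_filter, mul_sum, ← sum_sub_distrib]
  refine sum_congr rfl fun x _ => ?_
  unfold dil1w
  split_ifs <;> ring

/-- DIL1. Sums over an interval and over its multiples of `r` agree for most `r`. -/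
theorem dil1 (s : ℕ) (T : Finset ℕ) (π : ℕ → ℝ) (K ρ : ℕ → ℝ) (A Q H a n : ℕ) (c δ : ℝ)
    (hπ : ∀ r ∈ T, 0 ≤ π r) (hπ1 : ∑ r ∈ T, π r ≤ 1)
    (hT : ∀ r ∈ T, 0 < r ∧ r ≤ Q ∧ Nat.Coprime A r) (hδ0 : 0 < δ) (hδ1 : δ ≤ 1)
    (h1 : 4 ^ s * bad T π id ≤ δ ^ 2 ^ s) (h2 : (Q : ℝ) ^ 2 ^ s ≤ δ ^ 2 ^ s * H) (hA : 0 < A)
    (hρ : Function.Periodic ρ A) (hc : av A ρ ≤ c) (hKb : ∀ x, |K x| ≤ ρ x)
    (hK : ∀ x, Low (s := s + 1) (Set.Iic H) (ρ x) fun t => K (x + A * ∑ r, t r))
    (hD : (s + 1) * A * H ≤ n) :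
    ∑ r ∈ T, π r * |(r : ℝ) * ∑ R ∈ Ioc (a / r) ((a + n) / r), K (r * R) -
        ∑ R ∈ Ioc a (a + n), K R| ≤ c * (40 * δ * n + 32 * ((s + 1) * A * H)) := by
  have hρ0 : ∀ x, 0 ≤ ρ x := fun x => (abs_nonneg _).trans (hKb x)
  have hav0 : 0 ≤ av A ρ := av_nonneg hρ0 A
  have hc0 : 0 ≤ c := hav0.trans hc
  rcases T.eq_empty_or_nonempty with rfl | ⟨r0, hr0⟩
  · rw [sum_empty]
    positivity
  have hQ1 : 1 ≤ Q := (hT r0 hr0).1.trans_le (hT r0 hr0).2.1
  have hQH : Q ≤ H := by
    have e1 : (Q : ℝ) ≤ (Q : ℝ) ^ 2 ^ s :=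
      le_self_pow₀ (by exact_mod_cast hQ1) (by positivity)
    have e2 : δ ^ 2 ^ s * H ≤ 1 * H :=
      mul_le_mul_of_nonneg_right (pow_le_one₀ hδ0.le hδ1) (Nat.cast_nonneg H)
    have : (Q : ℝ) ≤ H := by linarith
    exact_mod_cast this
  have hH1 : 1 ≤ H := hQ1.trans hQH
  set D : ℕ := (s + 1) * A * H with hDdef
  have hAH : A * H ≤ D := by
    rw [hDdef, mul_assoc]
    exact Nat.le_mul_of_pos_left _ (Nat.succ_pos s)
  have hAn : A ≤ n := ((Nat.le_mul_of_pos_right A hH1).trans hAH).trans hD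
  set Δ : ℕ → ℝ := fun r => (r : ℝ) * ∑ R ∈ Ioc (a / r) ((a + n) / r), K (r * R) -
    ∑ R ∈ Ioc a (a + n), K R with hΔ
  set ε : ℕ → ℝ := fun r => if 0 ≤ Δ r then 1 else -1 with hε
  have hε1 : ∀ r, |ε r| = 1 := by
    intro r
    simp only [hε]
    split_ifs <;> simp
  have hεΔ : ∀ r, |Δ r| = ε r * Δ r := by
    intro r
    simp only [hε]
    split_ifs with h
    · rw [abs_of_nonneg h, one_mul]
    · rw [abs_of_neg (not_le.1 h)]
      ring
  set Wt : ℕ → ℝ := fun x => ∑ r ∈ T, π r * (ε r * dil1w r x) with hWt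
  have hL : ∑ r ∈ T, π r * |Δ r| = ∑ x ∈ Ioc a (a + n), K x * Wt x := by
    simp only [hWt, mul_sum]
    rw [sum_comm]
    refine sum_congr rfl fun r hr => ?_
    rw [hεΔ, show Δ r = ∑ x ∈ Ioc a (a + n), K x * dil1w r x from
      (dil1_multiples (hT r hr).1 K a (a + n)).symm, mul_sum, mul_sum]
    exact sum_congr rfl fun x _ => by ring
  have hmain := app1 (s := s + 1) (box H) (Set.Iic (H, H)) ⟨(1, 1), by simp [box, hH1]⟩
    (by
      intro z hz
      simp only [box, coe_product, coe_Ioc, Set.mem_prod, Set.mem_Ioc] at hz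
      exact ⟨hz.1.2, hz.2.2⟩)
    (fun h => A * ∑ r, (h r).1) D a n
    (by
      intro h hh
      have : ∑ r, (h r).1 ≤ (s + 1) * H := by
        refine (sum_le_card_nsmul _ _ H fun r _ => ?_).trans (by simp)
        have := hh r
        simp only [box, mem_product, mem_Ioc] at this
        exact this.1.2
      calc A * ∑ r, (h r).1 ≤ A * ((s + 1) * H) := Nat.mul_le_mul_left _ this
        _ = D := by rw [hDdef]; ring)
    K Wt ρ (5 * 2 * δ) (4 * D * c)
    (fun x => (hK x).comp (B' := Set.Iic (H, H)) Prod.fst fun z hz => hz.1)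
    (by
      intro x
      have hp : ∀ r, Function.Periodic (fun t => ε r * dil1w r (x + A * t)) r := by
        intro r t
        simp only
        rw [show x + A * (t + r) = x + A * t + A * r by ring, dil1_per_mul (dil1w_per r)]
      have := gv s T π id (fun r z => ε r * dil1w r (x + A * z.1)) Q H 2 δ hπ hπ1
        (fun r hr => ⟨(hT r hr).1, (hT r hr).2.1⟩) (fun r _ => per_fst (hp r))
        (fun r hr => by
          rw [id, mean_fst (fun t => ε r * dil1w r (x + A * t)), dil1_av_smul,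
            av_affine (dil1w_per r) (hT r hr).2.2, dil1w_av (hT r hr).1, mul_zero])
        (fun r hr => by
          have hq : Function.Periodic (fun t => |dil1w r t|) r := fun t => by
            simp only [dil1w_per r t]
          simp only [id, abs_mul, hε1, one_mul]
          rw [mean_fst (fun t => |dil1w r (x + A * t)|), av_affine hq (hT r hr).2.2]
          exact dil1w_av_abs (hT r hr).1)
        (by norm_num) hδ0 hδ1 h1 h2
      simpa only [Prod.fst_sum] using this)
    (by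
      intro u
      have e1 : ∀ x, |K x * Wt x| ≤ ∑ r ∈ T, π r * (ρ x * |dil1w r x|) := by
        intro x
        rw [abs_mul]
        have e2 : |Wt x| ≤ ∑ r ∈ T, π r * |dil1w r x| := by
          refine (abs_sum_le_sum_abs _ _).trans (sum_le_sum fun r hr => ?_)
          rw [abs_mul, abs_mul, hε1, one_mul, abs_of_nonneg (hπ r hr)]
        refine (mul_le_mul (hKb x) e2 (abs_nonneg _) (hρ0 x)).trans (le_of_eq ?_)
        rw [mul_sum]
        exact sum_congr rfl fun r _ => by ring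
      refine (sum_le_sum fun x _ => e1 x).trans ?_
      rw [sum_comm]
      have e3 : ∀ r ∈ T, ∑ x ∈ Ioc u (u + D), π r * (ρ x * |dil1w r x|) ≤ π r * (4 * D * c) := by
        intro r hr
        rw [← mul_sum]
        refine mul_le_mul_of_nonneg_left ?_ (hπ r hr)
        have hq : Function.Periodic (fun t => |dil1w r t|) r := fun t => by
          simp only [dil1w_per r t]
        have hp : Function.Periodic (fun t => ρ t * |dil1w r t|) (A * r) := by
          intro t
          simp only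
          rw [dil1_per_mul (dil1w_per r), mul_comm A r, dil1_per_mul hρ]
        have e4 := seg_le hp (Nat.mul_pos hA (hT r hr).1)
          (fun t => mul_nonneg (hρ0 t) (abs_nonneg _)) u D
        rw [av_mul hρ hq (hT r hr).2.2] at e4
        refine e4.trans ?_
        have e5 : ((A * r : ℕ) : ℝ) ≤ D := by
          exact_mod_cast (Nat.mul_le_mul_left A ((hT r hr).2.1.trans hQH)).trans hAH
        have e6 : av A ρ * av r (fun t => |dil1w r t|) ≤ c * 2 :=
          mul_le_mul hc (dil1w_av_abs (hT r hr).1) (av_nonneg (fun t => abs_nonneg _) r) hc0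
        have e7 : 0 ≤ av A ρ * av r (fun t => |dil1w r t|) :=
          mul_nonneg hav0 (av_nonneg (fun t => abs_nonneg _) r)
        calc ((D : ℝ) + (A * r : ℕ)) * (av A ρ * av r fun t => |dil1w r t|)
            ≤ (D + D) * (c * 2) := mul_le_mul (by linarith) e6 e7 (by positivity)
          _ = 4 * D * c := by ring
      refine (sum_le_sum e3).trans ?_
      rw [← sum_mul]
      exact mul_le_of_le_one_left (by positivity) hπ1)
  have hsum : ∑ x ∈ Ioc a (a + n), ρ x ≤ 2 * n * c := by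
    refine (seg_le hρ hA hρ0 a n).trans ?_
    have : (A : ℝ) ≤ n := by exact_mod_cast hAn
    calc ((n : ℝ) + A) * av A ρ ≤ (n + n) * c := mul_le_mul (by linarith) hc hav0 (by positivity)
      _ = 2 * n * c := by ring
  have hDc : ((s : ℝ) + 1) * A * H = D := by rw [hDdef]; push_cast; ring
  change ∑ r ∈ T, π r * |Δ r| ≤ _
  rw [hL, hDc]
  refine (le_abs_self _).trans (hmain.trans ?_)
  have e8 : (∑ x ∈ Ioc a (a + n), ρ x) * (5 * 2 * δ) ≤ 2 * n * c * (5 * 2 * δ) :=
    mul_le_mul_of_nonneg_right hsum (by positivity)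
  have e9 : 0 ≤ c * δ * n := by positivity
  have e10 : 0 ≤ c * D := by positivity
  nlinarith

/-- For distinct primes only the diagonal is bad. -/
theorem bad_primes (T : Finset ℕ) (hT : ∀ p ∈ T, p.Prime) (π : ℕ → ℝ) :
    bad T π id = ∑ p ∈ T, π p ^ 2 := by
  unfold bad
  refine sum_congr rfl fun p hp => ?_
  rw [sum_eq_single p]
  · rw [if_neg, sq]
    simp only [id]
    rw [Nat.coprime_primes (hT p hp) (hT p hp)]
    simp
  · intro q hq hne
    rw [if_pos]
    exact (Nat.coprime_primes (hT p hp) (hT q hq)).2 hne.symm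
  · intro h
    exact absurd hp h

/-- Many primes between `2 ^ u` and `4 ^ u`. -/
theorem prime_family (u : ℕ) :
    ∃ T : Finset ℕ, T.card = u ∧ ∀ r ∈ T, r.Prime ∧ 2 ^ u < r ∧ r ≤ 4 ^ u := by
  have h : ∀ i : ℕ, ∃ p, p.Prime ∧ 2 ^ (u + i) < p ∧ p ≤ 2 * 2 ^ (u + i) := fun i =>
    Nat.exists_prime_lt_and_le_two_mul _ (by positivity)
  choose f hf using h
  have hmono : StrictMono f := by
    refine strictMono_nat_of_lt_succ fun i => ?_
    have e1 := (hf i).2.2
    have e2 := (hf (i + 1)).2.1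
    rw [← add_assoc, pow_succ] at e2
    omega
  refine ⟨(range u).image f, by rw [card_image_of_injective _ hmono.injective, card_range], ?_⟩
  intro r hr
  obtain ⟨i, hi, rfl⟩ := mem_image.1 hr
  rw [mem_range] at hi
  refine ⟨(hf i).1, lt_of_le_of_lt (Nat.pow_le_pow_right two_pos (Nat.le_add_right u i))
    (hf i).2.1, (hf i).2.2.trans ?_⟩
  rw [← pow_succ', show 4 ^ u = 2 ^ (u + u) by rw [pow_add, ← mul_pow]; norm_num]
  exact Nat.pow_le_pow_right two_pos (by omega)

end Pool.Agent.Lib.MP_0a3467_an.Cv
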