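import Pool.Agent.Lib.MP_0a3467_an.Cv.LowL

open Finset

namespace Pool.Agent.Lib.MP_0a3467_an.Cv

/-- The indicator function of `1, …, N`. -/
def dualChi (N : ℕ) (n : ℤ) : ℝ := if 1 ≤ n ∧ n ≤ N then 1 else 0

/-- The factors of the dual function. -/
def dualF {l : ℕ} (N : ℕ) (j : Fin (l + 1)) (f : Om l) (y n : ℤ) (i : Fin (l + 1)) : ℝ :=
  if i = j then dualChi N n else
    f i (y + ((i : ℤ) - j) * n).toNat * if i = 0 then dualChi N (y + ((i : ℤ) - j) * n) else 1

lemma dual_chi_le (N : ℕ) (n : ℤ) : |dualChi N n| ≤ 1 := by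
  unfold dualChi; split_ifs <;> simp

lemma dual_F_le {l : ℕ} (N : ℕ) (j : Fin (l + 1)) {f : Om l} (hf : ∀ i x, |f i x| ≤ 1) (y n : ℤ)
    (i : Fin (l + 1)) : |dualF N j f y n i| ≤ 1 := by
  unfold dualF
  split_ifs
  · exact dual_chi_le _ _
  · rw [abs_mul]
    exact mul_le_one₀ (hf _ _) (abs_nonneg _) (dual_chi_le _ _)
  · rw [mul_one]
    exact hf _ _

lemma dual_upd {s : ℕ} (d : Fin s → ℤ) (h : Fin s → ℕ) {r : Fin s} (hr : d r = 0) (a : ℕ) :
    ∑ t, d t * (Function.update h r a t : ℕ) = ∑ t, d t * h t := by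
  refine sum_congr rfl fun t _ => ?_
  by_cases e : t = r
  · rw [e, hr, zero_mul, zero_mul]
  · rw [Function.update_of_ne e]

lemma dual_dvd {l : ℕ} {r j : Fin (l + 1)} (h : r ≠ j) :
    ((r : ℤ) - j) * ((l.factorial : ℤ) / ((r : ℤ) - j)) = l.factorial := by
  refine Int.mul_ediv_cancel' (Int.natAbs_dvd.1 (Int.natCast_dvd_natCast.2 ?_))
  have h1 : (r : ℕ) ≠ j := fun e => h (Fin.ext e)
  have h2 := r.2
  have h3 := j.2
  exact Nat.dvd_factorial (by omega) (by omega)

lemma dual_shift {l : ℕ} (N : ℕ) (j : Fin (l + 1)) (f : Om l) (y w : ℤ) {E : ℕ} (hw : |w| ≤ E) :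
    ∑ n ∈ Ioc 0 N, ∏ i, dualF N j f y n i =
      ∑ n ∈ Icc (1 - E : ℤ) (N + E), ∏ i, dualF N j f y (n - w) i := by
  rw [abs_le] at hw
  refine sum_of_injOn (fun n : ℕ => (n : ℤ) + w) (fun a _ b _ e => by simpa using e)
    (fun n hn => ?_) (fun n _ hn => ?_) fun n _ => by rw [add_sub_cancel_right]
  · rw [mem_coe, mem_Ioc] at hn
    rw [mem_coe, mem_Icc]
    beta_reduce
    constructor <;> omega
  · refine prod_eq_zero (mem_univ j) ?_
    rw [dualF, if_pos rfl, dualChi, if_neg]
    intro h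
    refine hn ⟨(n - w).toNat, ?_, ?_⟩
    · rw [mem_coe, mem_Ioc]
      constructor <;> omega
    · show (((n - w).toNat : ℕ) : ℤ) + w = n
      omega

lemma dual_line {l : ℕ} (N : ℕ) (j : Fin (l + 1)) (f : Om l) (u : ℕ → ℝ) {n : ℕ}
    (hn : n ∈ Ioc 0 N) : ∑ m ∈ Ioc 0 N, Pr l (Function.update f j u) (m, n) =
      ∑ x ∈ Ioc 0 (Bj l j * N), u x * ∏ i, dualF N j f x n i := by
  rw [mem_Ioc] at hn
  have hj : (j : ℕ) * n ≤ l * N := Nat.mul_le_mul (Nat.lt_succ_iff.1 j.2) hn.2
  refine sum_of_injOn (fun m : ℕ => m + j * n) (fun a _ b _ e => by simpa using e)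
    (fun m hm => ?_) (fun x hx hx' => ?_) fun m hm => ?_
  · rw [mem_coe, mem_Ioc] at hm ⊢
    beta_reduce
    refine ⟨by omega, ?_⟩
    unfold Bj
    split_ifs with h
    · rw [h]; simpa using hm.2
    · rw [add_mul, one_mul]; omega
  · by_cases h : j = 0
    · refine absurd ⟨x, ?_, ?_⟩ hx'
      · simpa [Bj, h] using hx
      · simp [h]
    · rw [prod_eq_zero (mem_univ 0), mul_zero]
      rw [dualF, if_neg (Ne.symm h), if_pos rfl, dualChi, if_neg, mul_zero]
      intro h1
      have e : ((x : ℤ) + (((0 : Fin (l + 1)) : ℕ) - (j : ℕ) : ℤ) * n) = x - (j * n : ℕ) := by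
        simp only [Fin.val_zero]; push_cast; ring
      rw [e] at h1
      refine hx' ⟨x - j * n, ?_, ?_⟩
      · rw [mem_coe, mem_Ioc]
        constructor <;> omega
      · show x - j * n + j * n = x
        omega
  · rw [mem_Ioc] at hm
    have e0 : u (m + j * n) = ∏ i : Fin (l + 1), if i = j then u (m + j * n) else 1 := by simp
    rw [e0, ← prod_mul_distrib, Pr]
    refine prod_congr rfl fun i _ => ?_
    by_cases h : i = j
    · rw [h, Function.update_self, dualF, if_pos rfl, if_pos rfl, dualChi, if_pos, mul_one]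
      constructor <;> omega
    · have e : (((m + j * n : ℕ) : ℤ) + ((i : ℕ) - (j : ℕ) : ℤ) * n) = ((m + i * n : ℕ) : ℤ) := by
        push_cast; ring
      rw [Function.update_of_ne h, dualF, if_neg h, if_neg h, one_mul, e, Int.toNat_natCast]
      split_ifs with h0
      · rw [dualChi, if_pos, mul_one]
        rw [h0]
        simp only [Fin.val_zero, zero_mul, add_zero]
        constructor <;> omega
      · rw [mul_one]

/-- DUAL. The dual function of the position `j` is structured. -/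
theorem dual (l N : ℕ) (hN : 0 < N) (j : Fin (l + 1)) (f : Om l) (hf : ∀ i x, |f i x| ≤ 1) :
    ∃ D : ℕ → ℝ, Str l (C0 l) N D ∧
      ∀ u : ℕ → ℝ, LS l N (Function.update f j u) = N * ∑ x ∈ Ioc 0 (Bj l j * N), u x * D x := by
  have hN' : (0 : ℝ) < N := by exact_mod_cast hN
  refine ⟨fun x => (N : ℝ)⁻¹ * ∑ n ∈ Ioc 0 N, ∏ i, dualF N j f x n i, fun x => ?_, fun u => ?_⟩
  · set c : Fin (l + 1) → ℤ := fun r => (l.factorial : ℤ) / ((r : ℤ) - j) with hc
    set E := (l + 1) * l.factorial * N with hE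
    have hadm : ∀ n : ℤ, Adm fun (r : Fin (l + 1)) (h : Fin (l + 1) → ℕ) =>
        dualF N j f ((x + l.factorial * ∑ t, h t : ℕ) : ℤ) (n - ∑ t, c t * h t) r := by
      refine fun n => ⟨fun r h => dual_F_le N j hf _ _ _, fun r h a => ?_⟩
      by_cases e : r = j
      · simp only [dualF, if_pos e]
        rw [dual_upd c h (by simp [hc, e])]
      · have key : ∀ h : Fin (l + 1) → ℕ, ((x + l.factorial * ∑ t, h t : ℕ) : ℤ) +
            ((r : ℤ) - j) * (n - ∑ t, c t * h t) = x + ((r : ℤ) - j) * n +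
              ∑ t, ((l.factorial : ℤ) - ((r : ℤ) - j) * c t) * h t := fun h => by
          push_cast
          simp only [sub_mul ((l.factorial : ℤ)), sum_sub_distrib, mul_assoc, ← mul_sum]
          ring
        simp only [dualF, if_neg e, key]
        rw [dual_upd _ h (by rw [hc, dual_dvd e, sub_self])]
    have h1 := (Low.sum (B := Set.Iic N) (Icc (1 - E : ℤ) (N + E))
      fun n _ => Low.of_adm (hadm n)).smul (N : ℝ)⁻¹
    refine (h1.congr fun h hh => ?_).mono (le_of_eq ?_)
    · refine congrArg _ (dual_shift N j f _ _ ?_).symm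
      refine (abs_sum_le_sum_abs _ _).trans ((sum_le_card_nsmul _ _ (l.factorial * N : ℤ)
        fun t _ => ?_).trans (le_of_eq ?_))
      · rw [abs_mul]
        refine mul_le_mul ((Int.abs_ediv_le_abs _ _).trans (by simp)) ?_ (abs_nonneg _)
          (by positivity)
        have : h t ≤ N := hh t
        simpa using this
      · simp [hE, mul_assoc]
    · rw [sum_const, Int.card_Icc, show (N : ℤ) + E + 1 - (1 - E) = ((N + 2 * E : ℕ) : ℤ) by
        push_cast; ring, Int.toNat_natCast, abs_of_pos (inv_pos.2 hN'), C0, hE]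
      simp only [nsmul_eq_mul]
      push_cast
      field_simp
      ring
  · rw [LS, box, sum_product_right, sum_congr rfl fun n hn => dual_line N j f u hn, sum_comm,
      mul_sum]
    refine sum_congr rfl fun x _ => ?_
    rw [← mul_sum]
    field_simp

end Pool.Agent.Lib.MP_0a3467_an.Cv
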