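import Pool.Agent.Lib.MP_0a3467_an.Cv.Defs

open Finset

namespace Pool.Agent.Lib.MP_0a3467_an.Cv

/-- GOODA. Logarithmic averages of the excess over the lower limit are small. -/
theorem good1 (D : ℕ → ℝ) (h0 : ∀ k, 0 ≤ D k) (h1 : ∀ k, D k ≤ 1)
    (hG : ∀ e > 0, ∀ Y00 : ℕ, ∃ Y0 ≥ Y00, ∃ n0 : ℕ, ∀ n ≥ n0, ∃ (t : ℕ) (lam : ℕ → ℝ),
      (∀ i, 0 ≤ lam i) ∧ 1 - e ≤ ∑ i ∈ range t, lam i ∧ ∑ i ∈ range t, lam i ≤ 1 ∧ n < Y0 + t ∧
      (∀ i, Y0 + i ≤ n → 1 / (50 * ((Y0 + i : ℕ) : ℝ) * Real.log n) ≤ lam i) ∧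
      ∃ N1 : ℕ, ∀ N ≥ N1, ∑ i ∈ range t, lam i * D (Y0 + i) ≤ D N)
    {e : ℝ} (he : 0 < e) :
    ∃ Y0 n0 : ℕ, 0 < Y0 ∧ (∀ k ≥ Y0, Filter.liminf D Filter.atTop - e ≤ D k) ∧ ∀ n ≥ n0,
      ∑ k ∈ Icc Y0 n, (D k - Filter.liminf D Filter.atTop + e) / k ≤ 100 * e * Real.log n := by
  set L := Filter.liminf D Filter.atTop with hL
  have hb : Filter.IsBoundedUnder (· ≥ ·) Filter.atTop D :=
    Filter.isBoundedUnder_of ⟨0, fun k => h0 k⟩
  have hb' : Filter.IsBoundedUnder (· ≤ ·) Filter.atTop D :=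
    Filter.isBoundedUnder_of ⟨1, fun k => h1 k⟩
  have hcb : Filter.IsCoboundedUnder (· ≥ ·) Filter.atTop D := hb'.isCoboundedUnder_ge
  have hL0 : 0 ≤ L := Filter.le_liminf_of_le hcb (Filter.Eventually.of_forall h0)
  have hL1 : L ≤ 1 :=
    Filter.liminf_le_of_frequently_le (Filter.Eventually.of_forall h1).frequently hb
  have hev : ∀ᶠ k in Filter.atTop, L - e < D k :=
    Filter.eventually_lt_of_lt_liminf (by linarith) hb
  obtain ⟨Y00, hY⟩ := Filter.eventually_atTop.mp hev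
  obtain ⟨Y0, hY0, n0, hn0⟩ := hG e he (max Y00 1)
  have hpos : 0 < Y0 := lt_of_lt_of_le one_pos ((le_max_right _ _).trans hY0)
  have hge : ∀ k ≥ Y0, L - e ≤ D k := fun k hk =>
    (hY k (((le_max_left _ _).trans hY0).trans hk)).le
  refine ⟨Y0, max n0 2, hpos, hge, fun n hn => ?_⟩
  obtain ⟨t, lam, l0, l1, l2, l3, l4, N1, l5⟩ := hn0 n ((le_max_left _ _).trans hn)
  have hn2 : 2 ≤ n := (le_max_right _ _).trans hn
  have hlog : 0 < Real.log n := Real.log_pos (by exact_mod_cast hn2)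
  have a1 : ∑ i ∈ range t, lam i * D (Y0 + i) ≤ L :=
    Filter.le_liminf_of_le hcb (Filter.eventually_atTop.mpr ⟨N1, l5⟩)
  have a2 : ∑ i ∈ range t, lam i * (D (Y0 + i) - L + e) ≤ 2 * e := by
    have a3 : ∑ i ∈ range t, lam i * (D (Y0 + i) - L + e) =
        ∑ i ∈ range t, lam i * D (Y0 + i) + (∑ i ∈ range t, lam i) * (e - L) := by
      rw [Finset.sum_mul, ← Finset.sum_add_distrib]
      exact Finset.sum_congr rfl fun i _ => by ring
    rw [a3]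
    nlinarith
  have a4 : ∑ k ∈ Icc Y0 n, (D k - L + e) / k ≤
      ∑ k ∈ Icc Y0 n, 50 * Real.log n * (lam (k - Y0) * (D k - L + e)) := by
    refine Finset.sum_le_sum fun k hk => ?_
    obtain ⟨hk1, hk2⟩ := Finset.mem_Icc.mp hk
    have hk0 : (0 : ℝ) < k := by exact_mod_cast hpos.trans_le hk1
    have b1 := l4 (k - Y0) (by omega)
    rw [show Y0 + (k - Y0) = k by omega, div_le_iff₀ (by positivity)] at b1
    have b2 : 0 ≤ D k - L + e := by linarith [hge k hk1]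
    rw [div_le_iff₀ hk0]
    nlinarith [mul_le_mul_of_nonneg_right b1 b2]
  have a5 : ∑ k ∈ Icc Y0 n, 50 * Real.log n * (lam (k - Y0) * (D k - L + e)) ≤
      ∑ k ∈ Ico Y0 (Y0 + t), 50 * Real.log n * (lam (k - Y0) * (D k - L + e)) := by
    refine Finset.sum_le_sum_of_subset_of_nonneg (fun k hk => ?_) fun k hk _ => ?_
    · rw [Finset.mem_Icc] at hk
      rw [Finset.mem_Ico]
      omega
    · have b2 : 0 ≤ D k - L + e := by linarith [hge k (Finset.mem_Ico.mp hk).1]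
      have := l0 (k - Y0)
      positivity
  rw [Finset.sum_Ico_eq_sum_range] at a5
  simp only [Nat.add_sub_cancel_left] at a5
  have a6 := mul_le_mul_of_nonneg_left a2 (show 0 ≤ 50 * Real.log n by positivity)
  rw [Finset.mul_sum] at a6
  linarith

/-- One-sided continuity: a scale is controlled by the average over slightly larger scales. -/
theorem good_loc (D : ℕ → ℝ) (h0 : ∀ k, 0 ≤ D k) (h1 : ∀ k, D k ≤ 1)
    (h2 : ∀ k' k : ℕ, k' ≤ k → (k' : ℝ) * D k' ≤ k * D k) {E k' : ℕ} (hE : 0 < E)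
    (hk : E ≤ k') :
    D k' ≤ 1 / E + (∑ k ∈ Ioc k' (k' + k' / E), D k) / (k' / E : ℕ) := by
  have hm : 0 < k' / E := Nat.div_pos hk hE
  have hm' : (0 : ℝ) < (k' / E : ℕ) := by exact_mod_cast hm
  have hE' : (0 : ℝ) < E := by exact_mod_cast hE
  have hk' : (0 : ℝ) < k' := by exact_mod_cast hE.trans_le hk
  have hdiv : ((k' / E : ℕ) : ℝ) ≤ k' * (1 / E) := by
    rw [mul_one_div]
    exact Nat.cast_div_le
  have a1 : ∀ k ∈ Ioc k' (k' + k' / E), D k' - 1 / E ≤ D k := by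
    intro k hkk
    obtain ⟨hk1, hk2⟩ := Finset.mem_Ioc.mp hkk
    have b1 := h2 k' k hk1.le
    have b2 : (k : ℝ) ≤ k' + (k' / E : ℕ) := by exact_mod_cast hk2
    have b3 : (k : ℝ) * D k ≤ (k' + (k' / E : ℕ)) * D k := mul_le_mul_of_nonneg_right b2 (h0 k)
    have b4 : ((k' / E : ℕ) : ℝ) * D k ≤ (k' / E : ℕ) := mul_le_of_le_one_right hm'.le (h1 k)
    refine le_of_mul_le_mul_left ?_ hk'
    linarith
  have a2 := Finset.card_nsmul_le_sum _ _ _ a1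
  rw [Nat.card_Ioc, Nat.add_sub_cancel_left, nsmul_eq_mul] at a2
  have a3 : D k' - 1 / E ≤ (∑ k ∈ Ioc k' (k' + k' / E), D k) / (k' / E : ℕ) := by
    rw [le_div_iff₀ hm']
    linarith
  linarith

end Pool.Agent.Lib.MP_0a3467_an.Cv
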