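import Pool.Agent.Lib.MP_0a3467_an.Cv.Primes
import Pool.Agent.Lib.MP_0a3467_an.Cv.GoodA

open Finset

namespace Pool.Agent.Lib.MP_0a3467_an.Cv

lemma good_one (D : ℕ → ℝ) (h0 : ∀ k, 0 ≤ D k) (h1 : ∀ k, D k ≤ 1)
    (h2 : ∀ k' k : ℕ, k' ≤ k → (k' : ℝ) * D k' ≤ k * D k) {E Y0 N k' : ℕ} {c : ℝ} (hE : 0 < E)
    (hk : E ≤ k') (hY : Y0 ≤ k') (hN : 2 * k' ≤ N) (hc : ∀ k ≥ Y0, c ≤ D k) :
    D k' ≤ 1 / E + c + 4 * E * ∑ k ∈ Icc Y0 N, if k' < k ∧ k ≤ 2 * k' then (D k - c) / k else 0 := by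
  have h3 := good_loc D h0 h1 h2 hE hk
  set m := k' / E with hm
  have hm0 : 0 < m := Nat.div_pos hk hE
  have hm1 : m ≤ k' := Nat.div_le_self _ _
  have hm2 : k' < E * (m + 1) := Nat.lt_mul_div_succ k' hE
  have hm0' : (0 : ℝ) < m := by exact_mod_cast hm0
  have h4 : (∑ k ∈ Ioc k' (k' + m), D k) / m = c + ∑ k ∈ Ioc k' (k' + m), (D k - c) / m := by
    rw [← sum_div, sum_sub_distrib, sum_const, Nat.card_Ioc, Nat.add_sub_cancel_left, nsmul_eq_mul]
    field_simp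
    ring
  rw [h4] at h3
  have h5 : ∑ k ∈ Ioc k' (k' + m), (D k - c) / m ≤
      4 * E * ∑ k ∈ Icc Y0 N, if k' < k ∧ k ≤ 2 * k' then (D k - c) / k else 0 := by
    rw [← sum_filter, mul_sum]
    calc ∑ k ∈ Ioc k' (k' + m), (D k - c) / m
        ≤ ∑ k ∈ Ioc k' (k' + m), 4 * E * ((D k - c) / k) := by
          refine sum_le_sum fun k hk1 => ?_
          obtain ⟨a1, a2⟩ := mem_Ioc.1 hk1
          have hb : 0 ≤ D k - c := sub_nonneg.2 (hc k (by omega))
          have hk0 : (0 : ℝ) < k := by exact_mod_cast (by omega : 0 < k)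
          have h6 : k ≤ 4 * E * m := by nlinarith
          have h7 : (k : ℝ) ≤ 4 * E * m := by exact_mod_cast h6
          rw [← mul_div_assoc, div_le_div_iff₀ hm0' hk0]
          nlinarith [mul_le_mul_of_nonneg_left h7 hb]
      _ ≤ _ := by
          refine sum_le_sum_of_subset_of_nonneg (fun k hk1 => ?_) fun k hk1 _ => ?_
          · obtain ⟨a1, a2⟩ := mem_Ioc.1 hk1
            exact mem_filter.2 ⟨mem_Icc.2 ⟨by omega, by omega⟩, a1, by omega⟩
          · have hb : 0 ≤ D k - c := sub_nonneg.2 (hc k (mem_Icc.1 (mem_filter.1 hk1).1).1)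
            positivity
  linarith

lemma good_pr {N a0 k : ℕ} (ha : 0 < a0) (hN : 2 ≤ N) (hk : 0 < k) (P : Finset ℕ)
    (hP : ∀ p ∈ P, p.Prime ∧ N ≤ p ^ a0 ∧ p ^ 2 ≤ N) :
    rs (P.filter fun p => N / p < k ∧ k ≤ 2 * (N / p)) ≤ 6 * a0 / Real.log N := by
  have ha' : (0 : ℝ) < a0 := by exact_mod_cast ha
  have hN' : (1 : ℝ) < N := by exact_mod_cast hN
  have hl := Real.log_pos hN'
  have hk' : (0 : ℝ) < k := by exact_mod_cast hk
  have h := prime_short (P.filter fun p => N / p < k ∧ k ≤ 2 * (N / p)) (u := (N : ℝ) / k)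
    (v := Real.exp (Real.log N / a0)) (by positivity) (Real.one_lt_exp_iff.2 (by positivity)) (by
      intro p hp
      obtain ⟨hp1, hp2, hp3⟩ := mem_filter.1 hp
      obtain ⟨q1, q2, -⟩ := hP p hp1
      have hp0 : (0 : ℝ) < p := by exact_mod_cast q1.pos
      refine ⟨q1, ?_, ?_, ?_⟩
      · rw [div_lt_iff₀ hk']
        have := (Nat.div_lt_iff_lt_mul q1.pos).1 hp2
        exact_mod_cast (mul_comm k p ▸ this)
      · rw [← mul_div_assoc, le_div_iff₀ hk']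
        have h1 := Nat.div_mul_le_self N p
        have h2 : p * k ≤ 4 * N := by nlinarith
        exact_mod_cast h2
      · rw [← Real.le_log_iff_exp_le hp0, div_le_iff₀ ha', mul_comm, ← Real.log_pow]
        exact Real.log_le_log (by linarith) (by exact_mod_cast q2))
  rw [Real.log_exp] at h
  refine h.trans (le_of_eq ?_)
  field_simp

/-- GOOD. Most prime quotients of a large scale are good scales. -/
theorem good (D : ℕ → ℝ) (h0 : ∀ k, 0 ≤ D k) (h1 : ∀ k, D k ≤ 1)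
    (h2 : ∀ k' k : ℕ, k' ≤ k → (k' : ℝ) * D k' ≤ k * D k)
    (hG : ∀ e > 0, ∀ Y00 : ℕ, ∃ Y0 ≥ Y00, ∃ n0 : ℕ, ∀ n ≥ n0, ∃ (t : ℕ) (lam : ℕ → ℝ),
      (∀ i, 0 ≤ lam i) ∧ 1 - e ≤ ∑ i ∈ range t, lam i ∧ ∑ i ∈ range t, lam i ≤ 1 ∧ n < Y0 + t ∧
      (∀ i, Y0 + i ≤ n → 1 / (50 * ((Y0 + i : ℕ) : ℝ) * Real.log n) ≤ lam i) ∧
      ∃ N1 : ℕ, ∀ N ≥ N1, ∑ i ∈ range t, lam i * D (Y0 + i) ≤ D N)
    {e : ℝ} (he : 0 < e) (a0 : ℕ) :
    ∃ N1 : ℕ, ∀ N ≥ N1, ∀ P : Finset ℕ, (∀ p ∈ P, p.Prime ∧ N ≤ p ^ a0 ∧ p ^ 2 ≤ N) →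
      1 ≤ rs P → ∑ p ∈ P, pw P p * D (N / p) ≤ Filter.liminf D Filter.atTop + e := by
  rcases Nat.eq_zero_or_pos a0 with rfl | ha
  · refine ⟨2, fun N hN P hP hr => ?_⟩
    have : P = ∅ := eq_empty_of_forall_notMem fun p hp => by
      have := (hP p hp).2.1
      rw [pow_zero] at this
      omega
    rw [this, rs, sum_empty] at hr
    norm_num at hr
  have ha' : (0 : ℝ) < a0 := by exact_mod_cast ha
  obtain ⟨E, hE⟩ := exists_nat_ge (4 / e)
  have hE0' : (0 : ℝ) < E := (by positivity : (0 : ℝ) < 4 / e).trans_le hE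
  have hE0 : 0 < E := by exact_mod_cast hE0'
  have hE1 : 1 / (E : ℝ) ≤ e / 4 := by
    rw [div_le_iff₀ he] at hE
    rw [div_le_div_iff₀ hE0' (by norm_num)]
    linarith
  set e1 := e / (4800 * E * a0) with he1
  have he1' : 0 < e1 := by positivity
  obtain ⟨Y0, n0, hY0, hlo, hsum⟩ := good1 D h0 h1 hG he1'
  set L := Filter.liminf D Filter.atTop with hL
  refine ⟨max (max n0 2) (max Y0 E ^ 2), fun N hN P hP hr => ?_⟩
  have hN0 : n0 ≤ N := (le_max_left _ _).trans ((le_max_left _ _).trans hN)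
  have hN2 : 2 ≤ N := (le_max_right _ _).trans ((le_max_left _ _).trans hN)
  have hNK : max Y0 E ^ 2 ≤ N := (le_max_right _ _).trans hN
  have hN' : (1 : ℝ) < N := by exact_mod_cast hN2
  have hl := Real.log_pos hN'
  have hr0 : 0 < rs P := by linarith
  have hK : ∀ p ∈ P, max Y0 E ≤ N / p := by
    intro p hp
    obtain ⟨q1, -, q3⟩ := hP p hp
    rw [Nat.le_div_iff_mul_le q1.pos]
    rcases le_total p (max Y0 E) with h | h <;> nlinarith
  set b : ℕ → ℝ := fun k => (D k - (L - e1)) / k with hb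
  have hb0 : ∀ k ∈ Icc Y0 N, 0 ≤ b k := fun k hk =>
    div_nonneg (sub_nonneg.2 (hlo k (mem_Icc.1 hk).1)) (Nat.cast_nonneg _)
  have hpw : ∑ p ∈ P, pw P p = 1 := by
    have : ∑ p ∈ P, pw P p = rs P / rs P := by
      rw [eq_div_iff hr0.ne', sum_mul]
      refine sum_congr rfl fun p _ => ?_
      unfold pw
      field_simp
    rw [this, div_self hr0.ne']
  have hstep : ∀ p ∈ P, pw P p * D (N / p) ≤ pw P p * (1 / E + (L - e1)) +
      4 * E * ∑ k ∈ Icc Y0 N, if N / p < k ∧ k ≤ 2 * (N / p) then 1 / (p : ℝ) * b k else 0 := by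
    intro p hp
    obtain ⟨q1, -, -⟩ := hP p hp
    have hp0 : (0 : ℝ) < p := by exact_mod_cast q1.pos
    have h2N : 2 * (N / p) ≤ N := by
      have := Nat.div_mul_le_self N p
      have := q1.two_le
      nlinarith
    have h3 := good_one D h0 h1 h2 hE0 ((le_max_right _ _).trans (hK p hp))
      ((le_max_left _ _).trans (hK p hp)) h2N hlo
    have hw0 : 0 ≤ pw P p := by unfold pw; positivity
    have hw1 : pw P p ≤ 1 / p := by
      unfold pw
      exact one_div_le_one_div_of_le hp0 (by nlinarith)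
    have h4 : ∑ k ∈ Icc Y0 N, (if N / p < k ∧ k ≤ 2 * (N / p) then 1 / (p : ℝ) * b k else 0) =
        1 / p * ∑ k ∈ Icc Y0 N, if N / p < k ∧ k ≤ 2 * (N / p) then b k else 0 := by
      rw [mul_sum]
      exact sum_congr rfl fun k _ => by split_ifs <;> simp
    have h5 : 0 ≤ ∑ k ∈ Icc Y0 N, if N / p < k ∧ k ≤ 2 * (N / p) then b k else 0 :=
      sum_nonneg fun k hk => by split_ifs; exacts [hb0 k hk, le_rfl]
    rw [h4]
    have h6 := mul_le_mul_of_nonneg_left h3 hw0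
    have h7 := mul_le_mul_of_nonneg_right hw1 h5
    have h8 := mul_le_mul_of_nonneg_left h7 (by positivity : (0 : ℝ) ≤ 4 * E)
    simp only [hb] at h8 ⊢
    nlinarith
  have hswap : ∑ p ∈ P, ∑ k ∈ Icc Y0 N,
      (if N / p < k ∧ k ≤ 2 * (N / p) then 1 / (p : ℝ) * b k else 0) ≤ 600 * a0 * e1 := by
    rw [sum_comm]
    calc _ ≤ ∑ k ∈ Icc Y0 N, 6 * a0 / Real.log N * b k := by
          refine sum_le_sum fun k hk => ?_
          rw [← sum_filter, ← sum_mul]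
          exact mul_le_mul_of_nonneg_right
            (good_pr ha hN2 (hY0.trans_le (mem_Icc.1 hk).1) P hP) (hb0 k hk)
      _ = 6 * a0 / Real.log N * ∑ k ∈ Icc Y0 N, (D k - L + e1) / k := by
          rw [mul_sum]
          refine sum_congr rfl fun k _ => ?_
          simp only [hb]
          ring
      _ ≤ 6 * a0 / Real.log N * (100 * e1 * Real.log N) :=
          mul_le_mul_of_nonneg_left (hsum N hN0) (by positivity)
      _ = _ := by field_simp; norm_num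
  refine (sum_le_sum hstep).trans ?_
  rw [sum_add_distrib, ← sum_mul, hpw, ← mul_sum]
  have h9 := mul_le_mul_of_nonneg_left hswap (by positivity : (0 : ℝ) ≤ 4 * E)
  have h10 : 4 * (E : ℝ) * (600 * a0 * e1) = e / 2 := by
    rw [he1]; field_simp; norm_num
  linarith

end Pool.Agent.Lib.MP_0a3467_an.Cv
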