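import Pool.Agent.Lib.MP_0a3467_an.Cv.ThinMix

open Finset

namespace Pool.Agent.Lib.MP_0a3467_an.Cv

theorem goodmix_aS_exp (σ : ℝ) {p : ℕ} (hp : 0 < p) : aS σ p = Real.exp (-(σ * Real.log p)) := by
  rw [aS, Real.rpow_def_of_pos (by exact_mod_cast hp)]
  congr 1
  ring

theorem goodmix_aS_ge (σ : ℝ) {p : ℕ} (hp : 0 < p) : 1 - σ * Real.log p ≤ aS σ p := by
  rw [goodmix_aS_exp σ hp]
  linarith [Real.add_one_le_exp (-(σ * Real.log p))]

theorem goodmix_aS_mul (σ : ℝ) (p q : ℕ) : aS σ (p * q) = aS σ p * aS σ q := by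
  rw [aS, aS, aS, Nat.cast_mul, Real.mul_rpow (Nat.cast_nonneg _) (Nat.cast_nonneg _)]

theorem goodmix_aS_third {n k : ℕ} (hk : 0 < k) (hkn : k ≤ n) (hn : 0 < Real.log n) :
    1 / 3 ≤ aS (1 / Real.log n) k := by
  rw [goodmix_aS_exp _ hk]
  have h1 : Real.log k ≤ Real.log n :=
    Real.log_le_log (by exact_mod_cast hk) (by exact_mod_cast hkn)
  have h2 : 1 / Real.log n * Real.log k ≤ 1 := by
    rw [one_div_mul_eq_div, div_le_one hn]
    exact h1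
  have h3 : Real.exp (-1) ≤ Real.exp (-(1 / Real.log n * Real.log k)) :=
    Real.exp_le_exp.mpr (by linarith)
  refine le_trans ?_ h3
  rw [Real.exp_neg, ← one_div]
  exact one_div_le_one_div_of_le (Real.exp_pos 1) (by linarith [Real.exp_one_lt_d9])

theorem goodmix_exists_t {σ ε : ℝ} (hσ : 0 < σ) (hε : 0 < ε) (Y0 n : ℕ) :
    ∃ t, n < Y0 + t ∧ aS σ (Y0 + t) ≤ ε := by
  have h1 : Filter.Tendsto (fun k : ℕ => aS σ k) Filter.atTop (nhds 0) :=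
    (tendsto_rpow_neg_atTop hσ).comp tendsto_natCast_atTop_atTop
  obtain ⟨K, hK⟩ := Filter.eventually_atTop.mp (h1.eventually (ge_mem_nhds hε))
  exact ⟨K + n + 1, by omega, hK _ (by omega)⟩

theorem goodmix_mass {ε σ η a b c : ℝ} (h0 : 0 < ε) (h1 : ε ≤ 1 / 8) (hσ : 0 < σ) (hσ' : σ ≤ ε)
    (hη : 0 ≤ η) (hη' : η ≤ ε) (ha : 1 - ε ≤ a) (hb : 1 - ε ≤ b) (hc : c ≤ ε) :
    1 - 8 * ε ≤ (1 - ε) * a * (b - c) / ((1 + σ) * (1 + η)) := by
  rw [le_div_iff₀ (by positivity)]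
  have a1 : (1 + σ) * (1 + η) ≤ 1 + 3 * ε := by nlinarith
  have a2 : (1 - 8 * ε) * ((1 + σ) * (1 + η)) ≤ (1 - 8 * ε) * (1 + 3 * ε) :=
    mul_le_mul_of_nonneg_left a1 (by linarith)
  have a3 : 1 - 2 * ε ≤ (1 - ε) * a := by nlinarith
  have a4 : (1 - 2 * ε) * (1 - 2 * ε) ≤ (1 - ε) * a * (b - c) :=
    mul_le_mul a3 (by linarith) (by linarith) (by linarith)
  nlinarith

/-- GOODMIX. The mixture with all consecutive scales. -/
theorem goodmix (l : ℕ) {e : ℝ} (he : 0 < e) (Y00 : ℕ) :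
    ∃ Y0 ≥ Y00, ∃ n0 : ℕ, ∀ n ≥ n0, ∃ (t : ℕ) (lam : ℕ → ℝ), (∀ i, 0 ≤ lam i) ∧
      1 - e ≤ ∑ i ∈ range t, lam i ∧ ∑ i ∈ range t, lam i ≤ 1 ∧ n < Y0 + t ∧
      (∀ i, Y0 + i ≤ n → 1 / (50 * ((Y0 + i : ℕ) : ℝ) * Real.log n) ≤ lam i) ∧
      ∃ N1 : ℕ, ∀ N ≥ N1, ∃ (T : Finset (Σ _ : ℕ, ℕ)) (w : (Σ _ : ℕ, ℕ) → ℝ),
        Mix (l + 1) N 0 T w (fun x => x.2) (fun x => Y0 + x.1) ∧
        ∀ a : ℕ → ℝ, ∑ x ∈ T, w x * a (Y0 + x.1) = ∑ i ∈ range t, lam i * a (Y0 + i) := by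
  obtain ⟨ε, hε0, hε1, hεe⟩ : ∃ ε : ℝ, 0 < ε ∧ ε ≤ 1 / 8 ∧ 8 * ε ≤ e :=
    ⟨min e 1 / 8, by positivity, by linarith [min_le_right e 1], by linarith [min_le_left e 1]⟩
  obtain ⟨Y0, hY00, hY0, hYε⟩ : ∃ Y0 : ℕ, Y00 ≤ Y0 ∧ 0 < Y0 ∧ 1 / (Y0 : ℝ) ≤ ε := by
    refine ⟨max Y00 ⌈1 / ε⌉₊, le_max_left _ _, ?_, ?_⟩
    · exact lt_of_lt_of_le (Nat.ceil_pos.mpr (by positivity)) (le_max_right _ _)
    · have h1 : 1 / ε ≤ ((max Y00 ⌈1 / ε⌉₊ : ℕ) : ℝ) :=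
        (Nat.le_ceil _).trans (by exact_mod_cast le_max_right _ _)
      rwa [one_div_le (lt_of_lt_of_le (by positivity) h1) hε0]
  have hY0' : (0 : ℝ) < Y0 := by exact_mod_cast hY0
  set M : ℝ := 1 + Real.log (l + 1 : ℕ) + Real.log Y0 with hM
  have hl0 : 0 ≤ Real.log (l + 1 : ℕ) := Real.log_natCast_nonneg _
  have hl1 : 0 ≤ Real.log Y0 := Real.log_natCast_nonneg _
  have hev : ∀ᶠ n : ℕ in Filter.atTop, M / ε ≤ Real.log n :=
    (Real.tendsto_log_atTop.comp tendsto_natCast_atTop_atTop).eventually_ge_atTop _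
  obtain ⟨n0, hn0⟩ := Filter.eventually_atTop.mp hev
  refine ⟨Y0, hY00, n0, fun n hn => ?_⟩
  have hlog : 0 < Real.log n := lt_of_lt_of_le (by positivity) (hn0 n hn)
  set σ : ℝ := 1 / Real.log n with hσdef
  have hσ : 0 < σ := by positivity
  have hσM : σ * M ≤ ε := by
    have h1 := (div_le_iff₀ hε0).mp (hn0 n hn)
    rw [hσdef, one_div_mul_eq_div, div_le_iff₀ hlog]
    linarith
  have s1 : σ ≤ ε := by nlinarith
  have s2 : 1 - ε ≤ aS σ (l + 1) := by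
    have := goodmix_aS_ge σ (Nat.succ_pos l)
    nlinarith
  have s3 : 1 - ε ≤ aS σ Y0 := by
    have := goodmix_aS_ge σ hY0
    nlinarith
  obtain ⟨t, ht1, ht2⟩ := goodmix_exists_t hσ hε0 Y0 n
  have hmono : StrictMono fun i => Y0 + i := fun a b h => by simpa using h
  have hθ0 : 0 ≤ 1 - ε := by linarith
  obtain ⟨N1, hN1⟩ := thinmix hσ hθ0 (by linarith) ((l + 1) * (Y0 + t)) (l + 1) t (by omega)
    hmono (by simpa using hY0) le_rfl
  set lam := lamF σ (1 - ε) ((l + 1) * (Y0 + t)) (l + 1) (fun i => Y0 + i) with hlam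
  have hex : ∀ N ≥ N1, ∀ a : ℕ → ℝ,
      ∑ x ∈ (range t).sigma fun i => win N (fun i => Y0 + i) i,
        lam x.1 * wt σ ((l + 1) * (Y0 + t)) x.2 /
          (∑ R ∈ win N (fun i => Y0 + i) x.1, wt σ ((l + 1) * (Y0 + t)) R) * a (Y0 + x.1) =
        ∑ i ∈ range t, lam i * a (Y0 + i) := by
    intro N hN a
    rw [Finset.sum_sigma]
    refine Finset.sum_congr rfl fun i hi => ?_
    have h1 := (hN1 N hN).1 i (Finset.mem_range.mp hi)
    simp only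
    rw [← Finset.sum_mul, ← Finset.sum_div, ← Finset.mul_sum, mul_div_assoc, div_self h1.ne',
      mul_one]
  refine ⟨t, lam, lamF_nonneg hσ hθ0 _ _ hmono, ?_, ?_, ht1, fun i hi => ?_, N1,
    fun N hN => ⟨_, _, (hN1 N hN).2, hex N hN⟩⟩
  · have h1 := lamF_mass (η := 1 / Y0) hσ hθ0 (by positivity) ((l + 1) * (Y0 + t)) (l + 1) t
      hmono (by simpa using hY0) (fun i => by
        push_cast
        have h2 : (1 + 1 / (Y0 : ℝ)) * (Y0 + i) = Y0 + i + 1 + i / Y0 := by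
          field_simp
          ring
        have h3 : (0 : ℝ) ≤ i / Y0 := by positivity
        rw [h2]
        linarith)
    have h4 := goodmix_mass hε0 hε1 hσ s1 (by positivity) hYε s2 s3 ht2
    simp only [Nat.add_zero] at h1
    linarith
  · have h1 := hex N1 le_rfl fun _ => 1
    have h2 := (hN1 N1 le_rfl).2.2.1
    simp only [mul_one] at h1
    rw [← h1]
    exact h2
  · have hk : 0 < Y0 + i := by omega
    have hk' : (1 : ℝ) ≤ (Y0 + i : ℕ) := by exact_mod_cast hk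
    have b1 : 1 / 3 ≤ aS σ (Y0 + i) := goodmix_aS_third hk hi hlog
    have b2 : σ / 2 ≤ kap σ ((l + 1) * (Y0 + t)) :=
      le_trans (div_le_div_of_nonneg_left hσ.le (by positivity) (by linarith)) (kap_ge hσ _)
    have b3 : 1 / (2 * ((Y0 + i : ℕ) : ℝ)) ≤ 1 - ((Y0 + i : ℕ) : ℝ) / (Y0 + (i + 1) : ℕ) := by
      have b4 : ((Y0 + (i + 1) : ℕ) : ℝ) = (Y0 + i : ℕ) + 1 := by
        push_cast
        ring
      rw [b4, one_sub_div (by positivity), add_sub_cancel_left]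
      exact one_div_le_one_div_of_le (by positivity) (by linarith)
    have b5 : 1 / 2 * (σ / 2) * (1 / 2 * (1 / 3)) * (1 / (2 * ((Y0 + i : ℕ) : ℝ))) ≤ lam i := by
      simp only [hlam, lamF]
      rw [goodmix_aS_mul]
      have b6 : 1 / 2 ≤ 1 - ε := by linarith
      have b7 : 1 / 2 ≤ aS σ (l + 1) := by linarith
      have c1 := kap_pos hσ ((l + 1) * (Y0 + t))
      have c2 := (aS_mem hσ (l + 1)).1
      have c3 := (aS_mem hσ (Y0 + i)).1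
      gcongr
    refine le_trans ?_ b5
    have b8 : 1 / 2 * (σ / 2) * (1 / 2 * (1 / 3)) * (1 / (2 * ((Y0 + i : ℕ) : ℝ))) =
        1 / (48 * ((Y0 + i : ℕ) : ℝ) * Real.log n) := by
      rw [hσdef]
      field_simp
      norm_num
    rw [b8]
    refine one_div_le_one_div_of_le (by positivity) ?_
    have b9 : 0 ≤ ((Y0 + i : ℕ) : ℝ) * Real.log n := by positivity
    linarith

end Pool.Agent.Lib.MP_0a3467_an.Cv
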