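import Pool.Agent.Lib.MP_0a3467_an.Cv.Dst
import Pool.Agent.Lib.MP_0a3467_an.Cv.Struct
import Pool.Agent.Lib.MP_0a3467_an.Cv.Good
import Pool.Agent.Lib.MP_0a3467_an.Cv.GoodMix

open Finset

namespace Pool.Agent.Lib.MP_0a3467_an.Cv

open MeasureTheory

variable {l : ℕ}

/-- A dilation-invariant law of bounded sequences. -/
structure Stat (ν : Measure (Om l)) : Prop where
  prob : IsProbabilityMeasure ν
  bdd : ∀ᵐ f ∂ν, ∀ j x, |f j x| ≤ 1
  inv : ∀ R, 0 < R → MeasurePreserving (dl R) ν ν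

noncomputable def AA (ν : Measure (Om l)) (N : ℕ) : ℝ := ∫ f, Lam l N f ∂ν

noncomputable def DD (ν : Measure (Om l)) (j : Fin (l + 1)) (M : ℝ) (N : ℕ) : ℝ :=
  ∫ f, dst l (Bj l j) M N (f j) ∂ν

variable {ν : Measure (Om l)}

theorem exp1_dil (R : ℕ) : Measurable (dil R) := by
  unfold dil
  fun_prop

theorem exp1_dl (R : ℕ) : Measurable (dl (l := l) R) :=
  measurable_pi_lambda _ fun j => (exp1_dil R).comp (measurable_pi_apply j)

theorem exp1_one (f : ℕ → ℝ) : dil 1 f = f := by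
  funext x
  rw [dil, one_mul]

theorem exp1_one' (f : Om l) : dl 1 f = f := by
  funext j
  exact exp1_one _

theorem measurable_Lam (l N : ℕ) : Measurable (Lam l N) := by
  unfold Lam LS Pr
  fun_prop

theorem Stat.int_Lam (h : Stat ν) (N R : ℕ) : Integrable (fun f => Lam l N (dl R f)) ν := by
  have := h.prob
  refine Integrable.of_bound ((measurable_Lam l N).comp (exp1_dl R)).aestronglyMeasurable 1 ?_
  filter_upwards [h.bdd] with f hf
  exact Lam_le (fun j x => hf j (R * x)) N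

theorem Stat.int_Lam' (h : Stat ν) (N : ℕ) : Integrable (Lam l N) ν := by
  simpa only [exp1_one'] using h.int_Lam N 1

theorem Stat.int_dst (h : Stat ν) (j : Fin (l + 1)) {M : ℝ} (hM : 0 ≤ M) (N R : ℕ) :
    Integrable (fun f => dst l (Bj l j) M N (dil R (f j))) ν := by
  have := h.prob
  refine Integrable.of_bound (((measurable_dst l _ M N).comp (exp1_dil R)).comp
    (measurable_pi_apply j)).aestronglyMeasurable 1 ?_
  filter_upwards [h.bdd] with f hf
  rw [Real.norm_eq_abs, abs_of_nonneg (dst_nonneg ..)]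
  exact dst_le_one l _ N hM fun x => hf j (R * x)

theorem Stat.int_dst' (h : Stat ν) (j : Fin (l + 1)) {M : ℝ} (hM : 0 ≤ M) (N : ℕ) :
    Integrable (fun f => dst l (Bj l j) M N (f j)) ν := by
  simpa only [exp1_one] using h.int_dst j hM N 1

theorem Stat.AA_dl (h : Stat ν) (N : ℕ) {R : ℕ} (hR : 0 < R) :
    ∫ f, Lam l N (dl R f) ∂ν = AA ν N := by
  rw [AA]
  conv_rhs => rw [← (h.inv R hR).map_eq]
  exact (integral_map (exp1_dl R).aemeasurable (measurable_Lam l N).aestronglyMeasurable).symm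

theorem Stat.DD_dil (h : Stat ν) (j : Fin (l + 1)) (M : ℝ) (N : ℕ) {R : ℕ} (hR : 0 < R) :
    ∫ f, dst l (Bj l j) M N (dil R (f j)) ∂ν = DD ν j M N := by
  have h1 : Measurable fun f : Om l => dst l (Bj l j) M N (f j) :=
    (measurable_dst l _ M N).comp (measurable_pi_apply j)
  have h2 := integral_map (μ := ν) (exp1_dl R).aemeasurable h1.aestronglyMeasurable
  rw [(h.inv R hR).map_eq] at h2
  exact h2.symm

theorem Stat.DD_mem (h : Stat ν) (j : Fin (l + 1)) (M : ℝ) (N : ℕ) (hM : 0 ≤ M) :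
    0 ≤ DD ν j M N ∧ DD ν j M N ≤ 1 := by
  have := h.prob
  refine ⟨integral_nonneg fun f => dst_nonneg .., ?_⟩
  have h1 : DD ν j M N ≤ ∫ _, (1 : ℝ) ∂ν := by
    refine integral_mono_ae (h.int_dst' j hM N) (integrable_const _) ?_
    filter_upwards [h.bdd] with f hf
    exact dst_le_one l _ N hM (hf j)
  simpa using h1

theorem Stat.DD_anti (h : Stat ν) (j : Fin (l + 1)) (M : ℝ) (N : ℕ) (hM : 0 ≤ M) :
    DD ν j (M + 1) N ≤ DD ν j M N := by
  exact integral_mono (h.int_dst' j (by linarith) N) (h.int_dst' j hM N) fun f =>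
    dst_anti l _ N hM (by linarith) _

theorem Stat.DD_good (h : Stat ν) (j : Fin (l + 1)) (M : ℝ) (hM : 0 ≤ M) (e : ℝ) (he : 0 < e)
    (a0 : ℕ) : ∃ N1 : ℕ, ∀ N ≥ N1, ∀ P : Finset ℕ, (∀ p ∈ P, p.Prime ∧ N ≤ p ^ a0 ∧ p ^ 2 ≤ N) →
      1 ≤ rs P → ∑ p ∈ P, pw P p * DD ν j M (N / p) ≤
        Filter.liminf (DD ν j M) Filter.atTop + e := by
  refine good (DD ν j M) (fun k => (h.DD_mem j M k hM).1) (fun k => (h.DD_mem j M k hM).2)
    (fun k' k hk => ?_) (fun e' he' Y00 => ?_) he a0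
  · rw [DD, DD, ← integral_const_mul, ← integral_const_mul]
    exact integral_mono ((h.int_dst' j hM k').const_mul _) ((h.int_dst' j hM k).const_mul _)
      fun f => dst_scale l _ hM hk _
  · obtain ⟨Y0, h1, n0, h2⟩ := goodmix l he' Y00
    refine ⟨Y0, h1, n0, fun n hn => ?_⟩
    obtain ⟨t, lam, k1, k2, k3, k4, k5, N1, k6⟩ := h2 n hn
    refine ⟨t, lam, k1, k2, k3, k4, k5, N1, fun N hN => ?_⟩
    obtain ⟨T, w, k7, k8⟩ := k6 N hN
    rw [← k8 (DD ν j M)]
    have k9 : ∑ x ∈ T, w x * DD ν j M (Y0 + x.1) =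
        ∫ f, ∑ x ∈ T, w x * dst l (Bj l j) M (Y0 + x.1) (dil x.2 (f j)) ∂ν := by
      rw [integral_finsetSum _ fun x _ => (h.int_dst j hM _ _).const_mul _]
      refine sum_congr rfl fun x hx => ?_
      rw [integral_const_mul, h.DD_dil j M _ (k7.1 x hx).2.1]
    rw [k9]
    refine integral_mono_ae (integrable_finsetSum _ fun x _ => (h.int_dst j hM _ _).const_mul _)
      (h.int_dst' j hM N) ?_
    filter_upwards [h.bdd] with f hf
    exact k7.dst_le (Bj_pos j) (Bj_le j) hM (hf j)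

end Pool.Agent.Lib.MP_0a3467_an.Cv
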