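import Pool.Agent.Lib.MP_0a3467_an.Cv.Sieve

open Finset

namespace Pool.Agent.Lib.MP_0a3467_an.Cv

theorem aS_sub_le {σ : ℝ} (hσ : 0 < σ) {u v : ℕ} (hu : 0 < u) (huv : u ≤ v) :
    aS σ u - aS σ v ≤ σ * aS σ u * ((v - u : ℝ) / u) ∧
      σ * aS σ v * ((v - u : ℝ) / v) ≤ aS σ u - aS σ v := by
  have hu0 : (0 : ℝ) < u := by exact_mod_cast hu
  have hv0 : (0 : ℝ) < v := by exact_mod_cast lt_of_lt_of_le hu huv
  have hq : (0 : ℝ) < (v : ℝ) / u := div_pos hv0 hu0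
  set L : ℝ := Real.log ((v : ℝ) / u) with hL
  have hL1 : L ≤ (v - u : ℝ) / u := by
    have h := Real.log_le_sub_one_of_pos hq
    have e : (v : ℝ) / u - 1 = (v - u : ℝ) / u := by field_simp
    linarith
  have hL2 : (v - u : ℝ) / v ≤ L := by
    have h := Real.one_sub_inv_le_log_of_pos hq
    have e : 1 - ((v : ℝ) / u)⁻¹ = (v - u : ℝ) / v := by field_simp
    linarith
  have hlog : Real.log (v : ℝ) = Real.log (u : ℝ) + L := by
    rw [hL, Real.log_div hv0.ne' hu0.ne']; ring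
  have hau : aS σ u = Real.exp (Real.log (u : ℝ) * (-σ)) := by
    unfold aS; rw [Real.rpow_def_of_pos hu0]
  have hav : aS σ v = Real.exp (Real.log (v : ℝ) * (-σ)) := by
    unfold aS; rw [Real.rpow_def_of_pos hv0]
  have hpu : 0 < aS σ u := by rw [hau]; exact Real.exp_pos _
  have hpv : 0 < aS σ v := by rw [hav]; exact Real.exp_pos _
  have e1 : aS σ v = aS σ u * Real.exp (-(σ * L)) := by
    rw [hav, hau, ← Real.exp_add, hlog]; congr 1; ring
  have e2 : aS σ u = aS σ v * Real.exp (σ * L) := by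
    rw [hav, hau, ← Real.exp_add, hlog]; congr 1; ring
  constructor
  · have h1 := Real.add_one_le_exp (-(σ * L))
    have h2 : aS σ u * (-(σ * L) + 1) ≤ aS σ v := by
      rw [e1]; exact mul_le_mul_of_nonneg_left h1 hpu.le
    have h3 : σ * aS σ u * L ≤ σ * aS σ u * ((v - u : ℝ) / u) :=
      mul_le_mul_of_nonneg_left hL1 (mul_pos hσ hpu).le
    nlinarith
  · have h1 := Real.add_one_le_exp (σ * L)
    have h2 : aS σ v * (σ * L + 1) ≤ aS σ u := by
      rw [e2]; exact mul_le_mul_of_nonneg_left h1 hpv.le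
    have h3 : σ * aS σ v * ((v - u : ℝ) / v) ≤ σ * aS σ v * L :=
      mul_le_mul_of_nonneg_left hL2 (mul_pos hσ hpv).le
    nlinarith

/-- The completely multiplicative function `m ↦ m ^ (-s)`. -/
noncomputable def thinKHom (s : ℝ) : ℕ →* ℝ where
  toFun m := (m : ℝ) ^ (-s)
  map_one' := by simp
  map_mul' a b := by
    push_cast
    exact Real.mul_rpow (Nat.cast_nonneg a) (Nat.cast_nonneg b)

theorem thinK_step {σ : ℝ} (hσ : 0 < σ) (N : ℕ) :
    ∑ m ∈ range (N + 2), (m : ℝ) ^ (-(1 + σ)) ≤ 1 + (1 - aS σ (N + 1)) / σ := by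
  induction N with
  | zero =>
    simp [sum_range_succ, aS]
    have h1 : (0 : ℝ) ^ (-σ + -1) = 0 := Real.zero_rpow (by linarith)
    rw [h1]
  | succ n ih =>
    rw [show n + 1 + 2 = (n + 2) + 1 from rfl, sum_range_succ]
    have h := (aS_sub_le hσ (u := n + 1) (v := n + 2) (Nat.succ_pos n) (Nat.le_succ _)).2
    have hv0 : (0 : ℝ) < ((n + 2 : ℕ) : ℝ) := by positivity
    have e : (((n + 2 : ℕ) : ℝ)) ^ (-(1 + σ)) =
        aS σ (n + 2) * ((((n + 2 : ℕ) : ℝ) - ((n + 1 : ℕ) : ℝ)) / ((n + 2 : ℕ) : ℝ)) := by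
      unfold aS
      rw [show -(1 + σ) = -σ - 1 by ring, Real.rpow_sub_one hv0.ne']
      have : (((n + 2 : ℕ) : ℝ) - ((n + 1 : ℕ) : ℝ)) = 1 := by push_cast; ring
      rw [this]; ring
    have h2 : (((n + 2 : ℕ) : ℝ)) ^ (-(1 + σ)) ≤ (aS σ (n + 1) - aS σ (n + 2)) / σ := by
      rw [le_div_iff₀ hσ, e]; linarith
    have e3 : 1 + (1 - aS σ (n + 1 + 1)) / σ =
        1 + (1 - aS σ (n + 1)) / σ + (aS σ (n + 1) - aS σ (n + 2)) / σ := by
      rw [show n + 1 + 1 = n + 2 from rfl]; ring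
    rw [e3]; linarith

theorem thinK_sum_le {σ : ℝ} (hσ : 0 < σ) (N : ℕ) :
    ∑ m ∈ range N, (m : ℝ) ^ (-(1 + σ)) ≤ 1 + 1 / σ := by
  have h1 : ∑ m ∈ range N, (m : ℝ) ^ (-(1 + σ)) ≤ ∑ m ∈ range (N + 2), (m : ℝ) ^ (-(1 + σ)) :=
    sum_le_sum_of_subset_of_nonneg (range_mono (by omega)) (fun _ _ _ => by positivity)
  have h2 := thinK_step hσ N
  have h3 : 0 ≤ aS σ (N + 1) := by unfold aS; positivity
  have h4 : (1 - aS σ (N + 1)) / σ ≤ 1 / σ := div_le_div_of_nonneg_right (by linarith) hσ.le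
  linarith

theorem kap_ge {σ : ℝ} (hσ : 0 < σ) (y : ℕ) : σ / (1 + σ) ≤ kap σ y := by
  have hsum : Summable (thinKHom (1 + σ)) :=
    summable_of_sum_range_le (c := 1 + 1 / σ)
      (fun m => by show 0 ≤ (m : ℝ) ^ (-(1 + σ)); positivity) (thinK_sum_le hσ)
  have htot : ∑' m, thinKHom (1 + σ) m ≤ 1 + 1 / σ :=
    Real.tsum_le_of_sum_range_le
      (fun m => by show 0 ≤ (m : ℝ) ^ (-(1 + σ)); positivity) (thinK_sum_le hσ)
  have hE := EulerProduct.prod_primesBelow_geometric_eq_tsum_smoothNumbers hsum (y + 1)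
  have hsub : ∑' m : (y + 1).smoothNumbers, thinKHom (1 + σ) m ≤ ∑' m, thinKHom (1 + σ) m :=
    Summable.tsum_subtype_le _ _
      (fun m => by show 0 ≤ (m : ℝ) ^ (-(1 + σ)); positivity) hsum
  have hk : (kap σ y)⁻¹ = ∏ p ∈ (y + 1).primesBelow, (1 - thinKHom (1 + σ) p)⁻¹ := by
    unfold kap
    rw [← prod_inv_distrib]
    refine prod_congr rfl fun p hp => ?_
    have hp0 : (0 : ℝ) < p := by exact_mod_cast (Nat.prime_of_mem_primesBelow hp).pos
    congr 2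
    show aS σ p / p = (p : ℝ) ^ (-(1 + σ))
    unfold aS
    rw [show -(1 + σ) = -σ - 1 by ring, Real.rpow_sub_one hp0.ne']
  have hpos := kap_pos hσ y
  have hle : (kap σ y)⁻¹ ≤ 1 + 1 / σ := by rw [hk, hE]; linarith
  have e : 1 + 1 / σ = (σ / (1 + σ))⁻¹ := by field_simp; ring
  rw [e] at hle
  exact (inv_le_inv₀ hpos (by positivity)).1 hle

end Pool.Agent.Lib.MP_0a3467_an.Cv
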