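import Pool.Agent.Lib.MP_0a3467_an.Cv.Thin
import Pool.Agent.Lib.MP_0a3467_an.Cv.ThinK

open Finset

namespace Pool.Agent.Lib.MP_0a3467_an.Cv

theorem thinMix_ratio {Ys : ℕ → ℕ} (hY : StrictMono Ys) (i : ℕ) :
    0 < 1 - (Ys i : ℝ) / Ys (i + 1) := by
  have h1 : Ys i < Ys (i + 1) := hY (Nat.lt_succ_self i)
  have h2 : (Ys i : ℝ) < Ys (i + 1) := by exact_mod_cast h1
  have h3 : (0 : ℝ) < Ys (i + 1) := lt_of_le_of_lt (Nat.cast_nonneg _) h2
  rw [sub_pos, div_lt_one h3]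
  exact h2

theorem lamF_nonneg {σ θ : ℝ} (hσ : 0 < σ) (hθ : 0 ≤ θ) (y B : ℕ) {Ys : ℕ → ℕ}
    (hY : StrictMono Ys) (i : ℕ) : 0 ≤ lamF σ θ y B Ys i :=
  mul_nonneg (mul_nonneg (mul_nonneg hθ (kap_pos hσ y).le) (aS_mem hσ _).1)
    (thinMix_ratio hY i).le

theorem thinMix_aS_mul (σ : ℝ) (a b : ℕ) : aS σ (a * b) = aS σ a * aS σ b := by
  unfold aS
  rw [Nat.cast_mul, Real.mul_rpow (Nat.cast_nonneg _) (Nat.cast_nonneg _)]

theorem lamF_mass {σ θ η : ℝ} (hσ : 0 < σ) (hθ : 0 ≤ θ) (hη : 0 ≤ η) (y B t : ℕ) {Ys : ℕ → ℕ}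
    (hY : StrictMono Ys) (h0 : 0 < Ys 0) (hr : ∀ i, (Ys (i + 1) : ℝ) ≤ (1 + η) * Ys i) :
    θ * aS σ B * (aS σ (Ys 0) - aS σ (Ys t)) / ((1 + σ) * (1 + η)) ≤
      ∑ i ∈ range t, lamF σ θ y B Ys i := by
  have tel : aS σ (Ys 0) - aS σ (Ys t) = ∑ i ∈ range t, (aS σ (Ys i) - aS σ (Ys (i + 1))) :=
    (Finset.sum_range_sub' (fun i => aS σ (Ys i)) t).symm
  rw [tel, mul_sum, sum_div]
  refine sum_le_sum fun i _ => ?_
  have hi : 0 < Ys i := lt_of_lt_of_le h0 (hY.monotone (Nat.zero_le i))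
  have hi' : (0 : ℝ) < Ys i := by exact_mod_cast hi
  have h1 : Ys i ≤ Ys (i + 1) := hY.monotone (Nat.le_succ i)
  have h1' : (Ys i : ℝ) ≤ Ys (i + 1) := by exact_mod_cast h1
  have h2 := (aS_sub_le hσ hi h1).1
  have h3 := kap_ge hσ y
  have h4 : ((Ys (i + 1) : ℝ) - Ys i) / Ys i ≤ (1 + η) * (1 - (Ys i : ℝ) / Ys (i + 1)) := by
    have h5 : (0 : ℝ) < Ys (i + 1) := by linarith
    have h6 : 1 - (Ys i : ℝ) / Ys (i + 1) = ((Ys (i + 1) : ℝ) - Ys i) / Ys (i + 1) := by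
      field_simp
    rw [h6, ← mul_div_assoc, div_le_div_iff₀ hi' h5]
    nlinarith [mul_le_mul_of_nonneg_left (hr i) (sub_nonneg.mpr h1')]
  have ha := (aS_mem hσ (Ys i)).1
  have hb := (aS_mem hσ B).1
  have hρ := (thinMix_ratio hY i).le
  unfold lamF
  rw [thinMix_aS_mul]
  generalize 1 - (Ys i : ℝ) / Ys (i + 1) = ρ at *
  have h7 : aS σ (Ys i) - aS σ (Ys (i + 1)) ≤ σ * aS σ (Ys i) * ((1 + η) * ρ) :=
    h2.trans (mul_le_mul_of_nonneg_left h4 (mul_nonneg hσ.le ha))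
  have h8 : θ * aS σ B * (aS σ (Ys i) - aS σ (Ys (i + 1))) / ((1 + σ) * (1 + η)) ≤
      θ * aS σ B * (σ * aS σ (Ys i) * ((1 + η) * ρ)) / ((1 + σ) * (1 + η)) :=
    div_le_div_of_nonneg_right (mul_le_mul_of_nonneg_left h7 (mul_nonneg hθ hb)) (by positivity)
  refine h8.trans ?_
  have h9 : θ * aS σ B * (σ * aS σ (Ys i) * ((1 + η) * ρ)) / ((1 + σ) * (1 + η)) =
      σ / (1 + σ) * (θ * (aS σ B * aS σ (Ys i)) * ρ) := by
    field_simp
  rw [h9]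
  calc _ ≤ kap σ y * (θ * (aS σ B * aS σ (Ys i)) * ρ) :=
        mul_le_mul_of_nonneg_right h3 (by positivity)
    _ = _ := by ring

theorem thinMix_win {σ θ : ℝ} (hσ : 0 < σ) (hθ : θ < 1) (y : ℕ) {u v : ℕ} (hu : 0 < u)
    (huv : u < v) : ∃ N1 : ℕ, ∀ N ≥ N1, 0 < N ∧ 0 < ∑ R ∈ Ioc (N / v) (N / u), wt σ y R ∧
      θ * kap σ y * (1 - (u : ℝ) / v) * N ≤ u * ∑ R ∈ Ioc (N / v) (N / u), wt σ y R := by
  have hu' : (0 : ℝ) < u := by exact_mod_cast hu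
  have huv' : (u : ℝ) < v := by exact_mod_cast huv
  have hv' : (0 : ℝ) < v := hu'.trans huv'
  have hρ : 0 < 1 - (u : ℝ) / v := by
    rw [sub_pos, div_lt_one hv']
    exact huv'
  have hP : ∀ p ∈ y.primesLE, p.Prime := fun p hp => Nat.prime_of_mem_primesLE hp
  have hq : 0 < ∏ p ∈ y.primesLE, p := prod_pos fun p hp => (hP p hp).pos
  set q : ℕ := ∏ p ∈ y.primesLE, p with hqd
  set θ' : ℝ := max θ 0 with hθ'
  have hθ1 : θ' < 1 := max_lt hθ zero_lt_one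
  obtain ⟨N1, hN1⟩ := exists_nat_gt (u * (1 + q) / ((1 - θ') * (1 - (u : ℝ) / v)))
  refine ⟨N1, fun N hN => ?_⟩
  have hN' : (N1 : ℝ) ≤ N := by exact_mod_cast hN
  have h1 : (u : ℝ) * (1 + q) < N * ((1 - θ') * (1 - (u : ℝ) / v)) := by
    rw [← div_lt_iff₀ (mul_pos (by linarith) hρ)]
    linarith
  have hle : N / v ≤ N / u := Nat.div_le_div_left huv.le hu
  obtain ⟨n, hn⟩ := Nat.exists_eq_add_of_le hle
  have h2 := seg_ge (vv_per (aS σ) y.primesLE) hq (vv_nonneg (aS_mem hσ) hP) (N / v) n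
  rw [vv_av (aS_mem hσ) hP, mul_one, ← hn] at h2
  have h3 : ∑ R ∈ Ioc (N / v) (N / u), wt σ y R =
      kap σ y * ∑ R ∈ Ioc (N / v) (N / u), vv (aS σ) y.primesLE R := by
    rw [mul_sum]
    exact sum_congr rfl fun R _ => wt_eq hσ y R
  have h4 : ((N / v : ℕ) : ℝ) ≤ N / v := Nat.cast_div_le
  have h5 : (N : ℝ) < u * ((N / u : ℕ) + 1) := by
    have := Nat.lt_mul_div_succ N hu
    exact_mod_cast this
  have h6 : ((N / u : ℕ) : ℝ) = (N / v : ℕ) + n := by exact_mod_cast hn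
  have h7 : θ' * (1 - (u : ℝ) / v) * N < u * ((n : ℝ) - q) := by
    have h8 := mul_le_mul_of_nonneg_left h4 hu'.le
    have h9 : (u : ℝ) * (N / v) = N * (u / v) := by ring
    rw [h6] at h5
    nlinarith
  have hθ0 : 0 ≤ θ' := le_max_right _ _
  have h10 : 0 ≤ θ' * (1 - (u : ℝ) / v) * N := by positivity
  have hk := kap_pos hσ y
  have h11 : θ' * (1 - (u : ℝ) / v) * N <
      u * ∑ R ∈ Ioc (N / v) (N / u), vv (aS σ) y.primesLE R :=
    h7.trans_le (mul_le_mul_of_nonneg_left h2 hu'.le)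
  refine ⟨?_, ?_, ?_⟩
  · rcases Nat.eq_zero_or_pos N with h | h
    · rw [h] at h1
      have : (0 : ℝ) < u * (1 + q) := by positivity
      simp only [Nat.cast_zero, zero_mul] at h1
      linarith
    · exact h
  · rw [h3]
    exact mul_pos hk ((mul_pos_iff_of_pos_left hu').mp (h10.trans_lt h11))
  · rw [h3]
    have h12 : θ * (1 - (u : ℝ) / v) * N ≤ θ' * (1 - (u : ℝ) / v) * N :=
      mul_le_mul_of_nonneg_right (mul_le_mul_of_nonneg_right (le_max_left _ _) hρ.le)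
        (Nat.cast_nonneg _)
    calc _ = kap σ y * (θ * (1 - (u : ℝ) / v) * N) := by ring
      _ ≤ kap σ y * (u * ∑ R ∈ Ioc (N / v) (N / u), vv (aS σ) y.primesLE R) :=
        mul_le_mul_of_nonneg_left (h12.trans h11.le) hk.le
      _ = _ := by ring

/-- THINMIX. The mixture of dilated intervals given by the thinning identity. -/
theorem thinmix {σ θ : ℝ} (hσ : 0 < σ) (hθ0 : 0 ≤ θ) (hθ : θ < 1) (y B t : ℕ) (hB : 1 ≤ B)
    {Ys : ℕ → ℕ} (hY : StrictMono Ys) (h0 : 0 < Ys 0) (hy : B * Ys t ≤ y) :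
    ∃ N1 : ℕ, ∀ N ≥ N1, (∀ i < t, 0 < ∑ R ∈ win N Ys i, wt σ y R) ∧
      Mix B N 0 ((range t).sigma fun i => win N Ys i)
        (fun x => lamF σ θ y B Ys x.1 * wt σ y x.2 / ∑ R ∈ win N Ys x.1, wt σ y R)
        (fun x => x.2) fun x => Ys x.1 := by
  have hpos : ∀ i, 0 < Ys i := fun i => lt_of_lt_of_le h0 (hY.monotone (Nat.zero_le i))
  choose M hM using fun i => thinMix_win hσ hθ y (hpos i) (hY (Nat.lt_succ_self i))
  refine ⟨(range (t + 1)).sup M, fun N hN => ?_⟩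
  have hM' := fun i (hi : i < t + 1) => hM i N ((le_sup (mem_range.mpr hi)).trans hN)
  have hN0 : 0 < N := (hM' 0 (Nat.succ_pos t)).1
  have hN0' : (0 : ℝ) < N := by exact_mod_cast hN0
  have hS : ∀ i < t, 0 < ∑ R ∈ win N Ys i, wt σ y R := fun i hi => (hM' i (by omega)).2.1
  have key : ∀ B', 1 ≤ B' → B' ≤ B → ∀ φ : ℕ → ℝ, (∀ x, 0 ≤ φ x) →
      ∑ x ∈ (range t).sigma fun i => win N Ys i,
        lamF σ θ y B Ys x.1 * wt σ y x.2 / (∑ R ∈ win N Ys x.1, wt σ y R) *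
          av (B' * Ys x.1) (dil x.2 φ) ≤ av (B' * N) φ := by
    intro B' hB1 hB2 φ hφ
    have hB' : (0 : ℝ) < B' := by exact_mod_cast hB1
    have h1 := thin_le hσ y B B' N t Ys hY h0 hB2 hy φ hφ
    rw [sum_sigma, av]
    refine le_trans ?_ (div_le_div_of_nonneg_right h1 (Nat.cast_nonneg _))
    rw [sum_div]
    refine sum_le_sum fun i hi => ?_
    rw [sum_div]
    refine sum_le_sum fun R _ => ?_
    have hi' := mem_range.mp hi
    have h2 := hS i hi'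
    have h3 : θ * kap σ y * (1 - (Ys i : ℝ) / Ys (i + 1)) * N ≤
        Ys i * ∑ R ∈ win N Ys i, wt σ y R := (hM' i (by omega)).2.2
    have hYi : (0 : ℝ) < Ys i := by exact_mod_cast hpos i
    have h4 : 0 ≤ ∑ x ∈ Ioc 0 (B' * Ys i), φ (R * x) := sum_nonneg fun x _ => hφ _
    have h5 := wt_nonneg hσ y R
    have h6 := (aS_mem hσ (B * Ys i)).1
    simp only [av, dil, lamF, Nat.cast_mul]
    generalize ∑ x ∈ Ioc 0 (B' * Ys i), φ (R * x) = Φ at *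
    generalize ∑ R ∈ win N Ys i, wt σ y R = S at *
    rw [div_mul_div_comm, div_le_div_iff₀ (by positivity) (by positivity)]
    have h7 := mul_le_mul_of_nonneg_left h3
      (show 0 ≤ wt σ y R * aS σ (B * Ys i) * Φ * B' by positivity)
    nlinarith
  refine ⟨hS, fun x hx => ?_, ?_, fun B' h1 h2 φ h3 _ => ?_⟩
  · obtain ⟨hx1, hx2⟩ := mem_sigma.mp hx
    obtain ⟨hx3, hx4⟩ := mem_Ioc.mp hx2
    refine ⟨div_nonneg (mul_nonneg (lamF_nonneg hσ hθ0 y B hY _) (wt_nonneg hσ y _))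
      (hS _ (mem_range.mp hx1)).le, lt_of_le_of_lt (Nat.zero_le _) hx3, hpos _, ?_⟩
    exact (Nat.le_div_iff_mul_le (hpos _)).mp hx4
  · have h1 := key 1 le_rfl hB (fun _ => 1) fun _ => zero_le_one
    have h2 : ∀ n : ℕ, 0 < n → ∀ ψ : ℕ → ℝ, (∀ x, ψ x = 1) → av n ψ = 1 := by
      intro n hn ψ hψ
      have : (n : ℝ) ≠ 0 := by exact_mod_cast hn.ne'
      simp [av, hψ, this]
    rw [h2 _ (by omega) _ fun _ => rfl] at h1
    refine le_trans (le_of_eq (sum_congr rfl fun x _ => ?_)) h1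
    rw [h2 _ (by have := hpos x.1; omega) (dil x.2 fun _ => 1) fun _ => rfl, mul_one]
  · rw [add_zero]
    exact key B' h1 h2 φ h3

end Pool.Agent.Lib.MP_0a3467_an.Cv
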