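import Pool.Agent.Lib.MP_0a3467_an.Cv.FarWin
import Pool.Agent.Lib.MP_0a3467_an.Cv.ThinMix

open Finset

namespace Pool.Agent.Lib.MP_0a3467_an.Cv

/-- A slowly increasing sequence of scales. -/
def farmix_Ys (E Y : ℕ) : ℕ → ℕ
  | 0 => Y
  | i + 1 => farmix_Ys E Y i + farmix_Ys E Y i / E

theorem farmix_le (E Y i : ℕ) : Y ≤ farmix_Ys E Y i := by
  induction i with
  | zero => exact le_rfl
  | succ i ih => exact ih.trans (Nat.le_add_right _ _)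

theorem farmix_mono {E Y : ℕ} (hE : 0 < E) (hY : 2 * E ≤ Y) : StrictMono (farmix_Ys E Y) :=
  strictMono_nat_of_lt_succ fun i =>
    Nat.lt_add_of_pos_right (Nat.div_pos (by linarith [farmix_le E Y i]) hE)

theorem farmix_up (E Y i : ℕ) :
    (farmix_Ys E Y (i + 1) : ℝ) ≤ (1 + 1 / E) * farmix_Ys E Y i := by
  have h : ((farmix_Ys E Y i / E : ℕ) : ℝ) ≤ farmix_Ys E Y i / E := Nat.cast_div_le
  rw [farmix_Ys, Nat.cast_add, add_mul, one_mul, one_div_mul_eq_div]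
  linarith

theorem farmix_down {E Y : ℕ} (hE : 0 < E) (hY : 2 * E ≤ Y) (i : ℕ) :
    (1 + 1 / E / 2) * (farmix_Ys E Y i : ℝ) ≤ farmix_Ys E Y (i + 1) := by
  have h1 := Nat.lt_floor_add_one ((farmix_Ys E Y i : ℝ) / E)
  rw [Nat.floor_div_eq_div] at h1
  have h2 : (2 : ℝ) ≤ farmix_Ys E Y i / E := by
    rw [le_div_iff₀ (Nat.cast_pos.2 hE)]
    exact_mod_cast hY.trans (farmix_le E Y i)
  have h3 : (1 + 1 / E / 2) * (farmix_Ys E Y i : ℝ) =
      farmix_Ys E Y i + farmix_Ys E Y i / E / 2 := by ring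
  rw [farmix_Ys, Nat.cast_add, h3]
  generalize (farmix_Ys E Y i : ℝ) / E = u at h1 h2 ⊢
  linarith

theorem farmix_aS {n : ℕ} (hn : 0 < n) {d : ℝ} (hd : 0 < d) :
    ∀ᶠ σ in nhdsWithin (0 : ℝ) (Set.Ioi 0), 1 - d ≤ aS σ n := by
  have h1 : Continuous fun σ : ℝ => aS σ n :=
    continuous_const.rpow continuous_neg fun _ => Or.inl (Nat.cast_pos.2 hn).ne'
  have h2 : 1 - d < aS 0 n := by
    rw [aS, neg_zero, Real.rpow_zero]
    linarith
  exact (((h1.tendsto 0).eventually (lt_mem_nhds h2)).mono fun _ h => h.le).filter_mono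
    nhdsWithin_le_nhds

theorem farmix_num {d a b c σ η : ℝ} (hd : 0 < d) (hd1 : d ≤ 1 / 16) (ha : 1 - d ≤ a)
    (hb : 1 - d ≤ b) (hc : c ≤ d) (hσ : 0 < σ) (hσd : σ ≤ d) (hη : 0 < η) (hηd : η ≤ d) :
    1 - 8 * d ≤ (1 - d) * a * (b - c) / ((1 + σ) * (1 + η)) := by
  rw [le_div_iff₀ (by positivity)]
  have h1 : (1 + σ) * (1 + η) ≤ 1 + 3 * d := by nlinarith
  have h2 : 1 - 2 * d ≤ (1 - d) * a := by nlinarith
  have h3 : (1 - 2 * d) * (1 - 2 * d) ≤ (1 - d) * a * (b - c) :=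
    mul_le_mul h2 (by linarith) (by linarith) (by linarith)
  have h4 := mul_le_mul_of_nonneg_left h1 (show 0 ≤ 1 - 8 * d by linarith)
  nlinarith

theorem farmix_sum (t : ℕ) (W : ℕ → Finset ℕ) (lam : ℕ → ℝ) (v : ℕ → ℝ)
    (f : (Σ _ : ℕ, ℕ) → ℝ) :
    ∑ x ∈ (range t).sigma W, lam x.1 * v x.2 / (∑ R ∈ W x.1, v R) * f x =
      ∑ i ∈ range t, lam i / (∑ R ∈ W i, v R) * ∑ R ∈ W i, v R * f ⟨i, R⟩ := by
  rw [sum_sigma]
  refine sum_congr rfl fun i _ => ?_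
  rw [mul_sum]
  exact sum_congr rfl fun R _ => by ring

/-- FARMIX. A mixture of far lower scales on which structured counts agree. -/
theorem farmix (l : ℕ) {e : ℝ} (he : 0 < e) (Y00 : ℕ) :
    ∃ (t : ℕ) (Ys : ℕ → ℕ) (lam : ℕ → ℝ), (∀ i, 0 ≤ lam i ∧ Y00 ≤ Ys i) ∧
      1 - e ≤ ∑ i ∈ range t, lam i ∧ ∑ i ∈ range t, lam i ≤ 1 ∧
      ∃ N1 : ℕ, ∀ N ≥ N1, ∃ (T : Finset (Σ _ : ℕ, ℕ)) (w : (Σ _ : ℕ, ℕ) → ℝ),
        Mix (l + 1) N 0 T w (fun x => x.2) (fun x => Ys x.1) ∧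
        (∀ a : ℕ → ℝ, ∑ x ∈ T, w x * a (Ys x.1) = ∑ i ∈ range t, lam i * a (Ys i)) ∧
        ∀ g : Om l, (∀ j, Str l 1 N (g j)) →
          |∑ x ∈ T, w x * Lam l (Ys x.1) (dl x.2 g) - Lam l N g| ≤ e := by
  obtain ⟨d, hd, hd1, hde⟩ : ∃ d : ℝ, 0 < d ∧ d ≤ 1 / 16 ∧ 16 * d ≤ e :=
    ⟨min e 1 / 16, by positivity, by linarith [min_le_right e 1], by linarith [min_le_left e 1]⟩
  obtain ⟨η1, hη1, hw⟩ := farwin l (half_pos he)
  obtain ⟨E, hE⟩ := exists_nat_one_div_lt (lt_min hη1 hd)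
  rw [← Nat.cast_succ, lt_min_iff] at hE
  have hE0 : 0 < E.succ := E.succ_pos
  generalize E.succ = E at hE hE0
  have hη : (0 : ℝ) < 1 / E := by positivity
  obtain ⟨σ0, hσ0, Y0, hw⟩ := hw _ hη hE.1.le
  obtain ⟨Y, h1, h2, h3⟩ : ∃ Y, Y0 ≤ Y ∧ Y00 ≤ Y ∧ 2 * E ≤ Y := ⟨Y0 + Y00 + 2 * E, by omega⟩
  have hm := farmix_mono hE0 h3
  have hY : 0 < Y := by omega
  obtain ⟨σ, ⟨⟨s1, s2⟩, s3⟩, s4⟩ := ((((farmix_aS l.succ_pos hd).and (farmix_aS hY hd)).and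
    (Ioo_mem_nhdsGT hd)).and (Ioo_mem_nhdsGT hσ0)).exists
  obtain ⟨t, ht⟩ : ∃ t, aS σ (farmix_Ys E Y t) < d :=
    (((tendsto_rpow_neg_atTop s3.1).comp (tendsto_natCast_atTop_atTop.comp
      hm.tendsto_atTop)).eventually (gt_mem_nhds hd)).exists
  set Ys := farmix_Ys E Y with hYs
  set y := (l + 1) * Ys t with hy
  set lam := lamF σ (1 - d) y (l + 1) Ys with hlam
  have l0 : ∀ i, 0 ≤ lam i := lamF_nonneg s3.1 (by linarith) y (l + 1) hm
  have l1 : 1 - e / 2 ≤ ∑ i ∈ range t, lam i := by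
    refine le_trans ?_ ((farmix_num hd hd1 s1 s2 ht.le s3.1 s3.2.le hη hE.2.le).trans
      (lamF_mass s3.1 (by linarith) hη.le y (l + 1) t hm hY (farmix_up E Y)))
    linarith
  obtain ⟨N1, hN1⟩ := thinmix (θ := 1 - d) s3.1 (by linarith) (by linarith) y (l + 1) t
    l.succ_pos hm hY le_rfl
  have ex : ∀ N ≥ N1, ∀ a : ℕ → ℝ, ∑ x ∈ (range t).sigma fun i => win N Ys i,
      lam x.1 * wt σ y x.2 / (∑ R ∈ win N Ys x.1, wt σ y R) * a (Ys x.1) =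
        ∑ i ∈ range t, lam i * a (Ys i) := by
    intro N hN a
    rw [farmix_sum t _ lam (wt σ y) fun x => a (Ys x.1)]
    refine sum_congr rfl fun i hi => ?_
    dsimp only
    rw [← sum_mul, ← mul_assoc, div_mul_cancel₀ _ ((hN1 N hN).1 i (mem_range.1 hi)).ne']
  have l2 : ∑ i ∈ range t, lam i ≤ 1 := by
    have h4 := ex N1 le_rfl fun _ => 1
    simp only [mul_one] at h4
    rw [← h4]
    exact (hN1 N1 le_rfl).2.2.1
  have hall := (Filter.eventually_all_finset (range t)).2 fun i hi =>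
    Filter.eventually_atTop.2 (hw σ s4.1 s4.2.le y (Ys i) (Ys (i + 1))
      (h1.trans (farmix_le E Y i))
      ((hm.monotone (mem_range.1 hi).le).trans (Nat.le_mul_of_pos_left _ l.succ_pos))
      (farmix_down hE0 h3 i) (farmix_up E Y i))
  obtain ⟨N2, hN2⟩ := Filter.eventually_atTop.1 hall
  refine ⟨t, Ys, lam, fun i => ⟨l0 i, h2.trans (farmix_le E Y i)⟩, by linarith, l2, max N1 N2,
    fun N hN => ⟨_, _, (hN1 N (le_of_max_le_left hN)).2, ex N (le_of_max_le_left hN),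
      fun g hg => ?_⟩⟩
  have hL : |Lam l N g| ≤ 1 := Lam_le (fun j x => (hg j).bound x) N
  rw [farmix_sum t _ lam (wt σ y) fun x => Lam l (Ys x.1) (dl x.2 g)]
  dsimp only
  have h4 : |∑ i ∈ range t, (lam i / (∑ R ∈ win N Ys i, wt σ y R) *
      ∑ R ∈ win N Ys i, wt σ y R * Lam l (Ys i) (dl R g) - lam i * Lam l N g)| ≤
      ∑ i ∈ range t, lam i * (e / 2) := by
    refine (abs_sum_le_sum_abs _ _).trans (sum_le_sum fun i hi => ?_)
    have h5 := (hN1 N (le_of_max_le_left hN)).1 i (mem_range.1 hi)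
    have h6 : |∑ R ∈ win N Ys i, wt σ y R * Lam l (Ys i) (dl R g) -
        (∑ R ∈ win N Ys i, wt σ y R) * Lam l N g| ≤ e / 2 * ∑ R ∈ win N Ys i, wt σ y R :=
      hN2 N (le_of_max_le_right hN) i hi g hg
    generalize ∑ R ∈ win N Ys i, wt σ y R * Lam l (Ys i) (dl R g) = A at h6 ⊢
    generalize ∑ R ∈ win N Ys i, wt σ y R = S at h5 h6 ⊢
    have h7 : 0 ≤ lam i / S := div_nonneg (l0 i) h5.le
    rw [show lam i / S * A - lam i * Lam l N g = lam i / S * (A - S * Lam l N g) by field_simp,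
      abs_mul, abs_of_nonneg h7]
    exact (mul_le_mul_of_nonneg_left h6 h7).trans_eq (by field_simp)
  rw [sum_sub_distrib, ← sum_mul, ← sum_mul] at h4
  have h5 : |(∑ i ∈ range t, lam i) * Lam l N g - Lam l N g| ≤ e / 2 := by
    rw [← sub_one_mul, abs_mul, abs_of_nonpos (sub_nonpos.2 l2)]
    exact (mul_le_of_le_one_right (by linarith) hL).trans (by linarith)
  have h6 : (∑ i ∈ range t, lam i) * (e / 2) ≤ e / 2 := mul_le_of_le_one_left (by linarith) l2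
  exact (abs_sub_le _ _ _).trans ((add_le_add (h4.trans h6) h5).trans_eq (add_halves e))

end Pool.Agent.Lib.MP_0a3467_an.Cv
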