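import Pool.Agent.Lib.MP_0a3467_an.Cv.Exp1
import Pool.Agent.Lib.MP_0a3467_an.Cv.Asm
import Pool.Agent.Lib.MP_0a3467_an.Cv.Det1
import Pool.Agent.Lib.MP_0a3467_an.Cv.Det2
import Pool.Agent.Lib.MP_0a3467_an.Cv.FarMix

open Finset

namespace Pool.Agent.Lib.MP_0a3467_an.Cv

open MeasureTheory

/-- An integrable function with a given integral. -/
def Exp2I {l : ℕ} (ν : Measure (Om l)) (F : Om l → ℝ) (c : ℝ) : Prop :=
  Integrable F ν ∧ ∫ f, F f ∂ν = c

section closure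

variable {l : ℕ} {ν : Measure (Om l)} {F G : Om l → ℝ} {a b : ℝ}

theorem Exp2I.const (h : Stat ν) (c : ℝ) : Exp2I ν (fun _ => c) c := by
  have := h.prob
  exact ⟨integrable_const c, by simp⟩

theorem Exp2I.add (h : Exp2I ν F a) (h' : Exp2I ν G b) : Exp2I ν (fun f => F f + G f) (a + b) :=
  ⟨h.1.add h'.1, by rw [integral_add h.1 h'.1, h.2, h'.2]⟩

theorem Exp2I.sub (h : Exp2I ν F a) (h' : Exp2I ν G b) : Exp2I ν (fun f => F f - G f) (a - b) :=
  ⟨h.1.sub h'.1, by rw [integral_sub h.1 h'.1, h.2, h'.2]⟩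

theorem Exp2I.mul (h : Exp2I ν F a) (c : ℝ) : Exp2I ν (fun f => c * F f) (c * a) :=
  ⟨h.1.const_mul c, by rw [integral_const_mul, h.2]⟩

theorem Exp2I.div (h : Exp2I ν F a) (c : ℝ) : Exp2I ν (fun f => F f / c) (a / c) :=
  ⟨h.1.div_const c, by rw [integral_div, h.2]⟩

theorem Exp2I.sum {ι : Type} (s : Finset ι) {F : ι → Om l → ℝ} {a : ι → ℝ}
    (h : ∀ i ∈ s, Exp2I ν (F i) (a i)) : Exp2I ν (fun f => ∑ i ∈ s, F i f) (∑ i ∈ s, a i) :=
  ⟨integrable_finsetSum s fun i hi => (h i hi).1, by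
    rw [integral_finsetSum s fun i hi => (h i hi).1]
    exact sum_congr rfl fun i hi => (h i hi).2⟩

theorem Exp2I.abs_le (h : Exp2I ν F a) (h' : Exp2I ν G b) (hle : ∀ᵐ f ∂ν, |F f| ≤ G f) :
    |a| ≤ b := by
  rw [← h.2, ← h'.2]
  exact abs_integral_le_integral_abs.trans (integral_mono_ae h.1.abs h'.1 hle)

theorem Exp2I.lam (h : Stat ν) (N : ℕ) : Exp2I ν (fun f => Lam l N f) (AA ν N) :=
  ⟨h.int_Lam' N, rfl⟩

theorem Exp2I.lam_dl (h : Stat ν) (N : ℕ) {R : ℕ} (hR : 0 < R) :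
    Exp2I ν (fun f => Lam l N (dl R f)) (AA ν N) :=
  ⟨h.int_Lam N R, h.AA_dl N hR⟩

theorem Exp2I.dst (h : Stat ν) (j : Fin (l + 1)) {M : ℝ} (hM : 0 ≤ M) (N : ℕ) :
    Exp2I ν (fun f => dst l (Bj l j) M N (f j)) (DD ν j M N) :=
  ⟨h.int_dst' j hM N, rfl⟩

theorem Exp2I.dst_dil (h : Stat ν) (j : Fin (l + 1)) {M : ℝ} (hM : 0 ≤ M) (N : ℕ) {R : ℕ}
    (hR : 0 < R) : Exp2I ν (fun f => Cv.dst l (Bj l j) M N (dil R (f j))) (DD ν j M N) :=
  ⟨h.int_dst j hM N R, h.DD_dil j M N hR⟩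

theorem Exp2I.dst_dil2 (h : Stat ν) (j : Fin (l + 1)) {M : ℝ} (hM : 0 ≤ M) (N : ℕ) {p q : ℕ}
    (hp : 0 < p) (hq : 0 < q) :
    Exp2I ν (fun f => Cv.dst l (Bj l j) M N (dil p (dil q (f j)))) (DD ν j M N) := by
  have e : ∀ f : ℕ → ℝ, dil p (dil q f) = dil (q * p) f := fun f => by
    funext x
    simp only [dil, mul_assoc]
  simp only [e]
  exact Exp2I.dst_dil h j hM N (Nat.mul_pos hq hp)

end closure

/-- CORE. Convergence for a dilation-invariant law. -/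
theorem core {l : ℕ} {ν : Measure (Om l)} (h : Stat ν) :
    ∃ c, Filter.Tendsto (AA ν) Filter.atTop (nhds c) := by
  refine asm l (AA ν) (DD ν) (fun j M N hM => h.DD_mem j M N hM)
    (fun j M N hM => h.DD_anti j M N hM) ?_ ?_ fun j M hM e he a0 => h.DD_good j M hM e he a0
  · intro M τ hM hτ e he Y00
    have hM0 : ∀ j, 0 ≤ M j := fun j => zero_le_one.trans (hM j)
    have hM1 : ∀ j, 0 ≤ M j + 1 := fun j => add_nonneg (hM0 j) zero_le_one
    obtain ⟨t, Ys, lam, h1, h2, h3, N1, hN1⟩ := farmix l he Y00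
    refine ⟨t, Ys, lam, h1, h2, h3, max N1 1, fun N hN => ?_⟩
    obtain ⟨T, w, hm, hw, hc⟩ := hN1 N ((le_max_left _ _).trans hN)
    have hN0 : 0 < N := (le_max_right _ _).trans hN
    have hR : ∀ x ∈ T, 0 < x.2 := fun x hx => (hm.1 x hx).2.1
    rw [← hw (AA ν)]
    simp only [← fun j => hw (DD ν j (M j + 1))]
    refine Exp2I.abs_le
      ((Exp2I.lam h N).sub (Exp2I.sum T fun x hx => (Exp2I.lam_dl h (Ys x.1) (hR x hx)).mul (w x)))
      ((Exp2I.const h ((∏ j, M j) * e)).add (Exp2I.sum univ fun j _ =>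
        ((Exp2I.const h (τ j)).add
          (((((Exp2I.dst h j (hM0 j) N).mul 2).sub (Exp2I.dst h j (hM1 j) N)).sub
            (Exp2I.sum T fun x hx =>
              (Exp2I.dst_dil h j (hM1 j) (Ys x.1) (hR x hx)).mul (w x))).div (2 * τ j))).mul
          (cj l M j))) ?_
    filter_upwards [h.bdd] with f hf
    exact det2 l N hN0 T w (fun x => x.2) (fun x => Ys x.1) hm hc M τ hM hτ f hf
  · intro M τ hM hτ e he
    have hM0 : ∀ j, 0 ≤ M j := fun j => zero_le_one.trans (hM j)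
    have hM1 : ∀ j, 0 ≤ M j + 1 := fun j => add_nonneg (hM0 j) zero_le_one
    obtain ⟨K0, a, hK, hd⟩ := det1 l M τ hM hτ he
    refine ⟨K0, a, hK, fun Q P Z N hPS => ?_⟩
    have hP : ∀ p ∈ P, 0 < p := fun p hp => (hPS.pP p hp).1.pos
    have hQ : ∀ j, ∀ q ∈ Q j, 0 < q := fun j q hq => (hPS.pQ j q hq).1.pos
    refine Exp2I.abs_le
      ((Exp2I.lam h N).sub
        (Exp2I.sum P fun p hp => (Exp2I.lam_dl h (N / p) (hP p hp)).mul (pw P p)))
      ((Exp2I.const h e).add (Exp2I.sum univ fun j _ =>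
        ((Exp2I.const h (τ j)).add
          ((Exp2I.sum (Q j) fun q hq =>
            ((((Exp2I.dst_dil h j (hM0 j) (N / q) (hQ j q hq)).mul 2).sub
              (Exp2I.dst_dil h j (hM1 j) (N / q) (hQ j q hq))).sub
              (Exp2I.sum P fun p hp => (Exp2I.dst_dil2 h j (hM1 j) (N / q / p) (hP p hp)
                (hQ j q hq)).mul (pw P p))).mul (pw (Q j) q)).div (2 * τ j))).mul
          (cj l M j))) ?_
    filter_upwards [h.bdd] with f hf
    exact hd Q P Z N hPS f hf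

end Pool.Agent.Lib.MP_0a3467_an.Cv
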