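import Pool.Agent.Lib.MP_0a3467_an.Cv.SV
import Pool.Agent.Lib.MP_0a3467_an.Cv.App
import Pool.Agent.Lib.MP_0a3467_an.Cv.Struct
import Pool.Agent.Lib.MP_0a3467_an.Cv.Sieve

open Finset

namespace Pool.Agent.Lib.MP_0a3467_an.Cv

theorem svapp_coprime {l W p : ℕ} (hl : l ≤ W) (hp : p.Prime) (hW : W < p) :
    Nat.Coprime (l.factorial * ∏ q ∈ W.primesLE, q) p := by
  refine Nat.Coprime.symm ((Nat.Prime.coprime_iff_not_dvd hp).mpr fun h => ?_)
  rcases (Nat.Prime.dvd_mul hp).mp h with h | h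
  · have := (Nat.Prime.dvd_factorial hp).mp h
    omega
  · obtain ⟨q, hq, hpq⟩ := (Prime.dvd_finsetProd_iff hp.prime _).mp h
    have h1 := Nat.le_of_dvd (Nat.prime_of_mem_primesLE hq).pos hpq
    have h2 := Nat.le_of_mem_primesLE hq
    omega

/-- SVAPP. The primes between `W` and `y` of the sieve weight do not matter. -/
theorem svapp (l : ℕ) {e : ℝ} (he : 0 < e) :
    ∃ W0 : ℕ, ∀ W ≥ W0, ∀ (a : ℕ → ℝ) (y Y : ℕ) (η : ℝ), (∀ p, 0 ≤ a p ∧ a p ≤ 1) → W ≤ y →
      0 < η → ∃ X0 : ℝ, ∀ X ≥ X0, ∀ g : Om l, (∀ j, Str l 1 ⌊X * Y⌋₊ (g j)) →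
        |Tm l (vv a y.primesLE) η Y X g - Tm l (vv a W.primesLE) η Y X g| ≤ e := by
  obtain ⟨W1, hsv⟩ := sv l 2 4 (e / 2) (by norm_num) (by norm_num) (by positivity)
  refine ⟨max W1 l, fun W hW a y Y η ha hWy hη => ?_⟩
  have hW1 : W1 ≤ W := (le_max_left _ _).trans hW
  have hWl : l ≤ W := (le_max_right _ _).trans hW
  set P := y.primesLE \ W.primesLE with hP
  have hPp : ∀ p ∈ P, p.Prime ∧ W < p := fun p hp => by
    rw [hP, Finset.mem_sdiff, Nat.mem_primesLE, Nat.mem_primesLE] at hp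
    exact ⟨hp.1.2, not_le.mp fun h => hp.2 ⟨h, hp.1.2⟩⟩
  have hWp : ∀ p ∈ W.primesLE, p.Prime := fun p hp => Nat.prime_of_mem_primesLE hp
  set Q := ∏ q ∈ W.primesLE, q with hQ
  set Pi := ∏ p ∈ P, p with hPi
  have hQ0 : 0 < Q := Finset.prod_pos fun p hp => (hWp p hp).pos
  have hPi0 : 0 < Pi := Finset.prod_pos fun p hp => (hPp p hp).1.pos
  set D := l.factorial * Q * ((l + 1) * Pi) with hD
  set c : ℝ := D * (2 ^ W.primesLE.card * (2 ^ P.card + 1)) with hc
  have hc0 : 0 ≤ c := by positivity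
  refine ⟨max (max 1 ((Q * (l + 1) * Pi : ℕ) : ℝ)) (((1 + Q) * (e / 2) + 2 * c) / (η * (e / 2))),
    fun X hX g hg => ?_⟩
  have hX1 : 1 ≤ X := ((le_max_left _ _).trans (le_max_left _ _)).trans hX
  have hX2 : ((Q * (l + 1) * Pi : ℕ) : ℝ) ≤ X :=
    ((le_max_right _ _).trans (le_max_left _ _)).trans hX
  have hX3 : (1 + Q) * (e / 2) + 2 * c ≤ X * (η * (e / 2)) :=
    (div_le_iff₀ (by positivity)).mp ((le_max_right _ _).trans hX)
  have hX0 : 0 < X := by linarith
  have hfl : ⌊X⌋₊ ≤ ⌊(1 + η) * X⌋₊ := Nat.floor_le_floor (by nlinarith)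
  obtain ⟨n, hn⟩ := Nat.exists_eq_add_of_le hfl
  have hn1 : (n : ℝ) ≤ η * X + 1 := by
    have h1 : ((⌊(1 + η) * X⌋₊ : ℕ) : ℝ) ≤ (1 + η) * X := Nat.floor_le (by positivity)
    have h2 := Nat.lt_floor_add_one X
    rw [hn] at h1
    push_cast at h1
    linarith
  have hv0 := vv_nonneg ha hWp
  have hgb : ∀ R j x, |dl R g j x| ≤ 1 := fun R j x => (hg j).bound _
  have hH : Q * (l + 1) * Y * Pi ≤ ⌊X * Y⌋₊ := by
    refine Nat.le_floor ?_
    have h1 : ((Q * (l + 1) * Y * Pi : ℕ) : ℝ) = ((Q * (l + 1) * Pi : ℕ) : ℝ) * Y := by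
      push_cast; ring
    rw [h1]
    exact mul_le_mul_of_nonneg_right hX2 (Nat.cast_nonneg _)
  have key := app1 (s := l + 1) (Ioc 0 Pi) (Set.Iic Pi) ⟨Pi, by simp [hPi0]⟩
    (fun x hx => (Finset.mem_Ioc.mp hx).2) (fun t => l.factorial * Q * ∑ r, t r) D ⌊X⌋₊ n
    (fun t ht => Nat.mul_le_mul_left _ (by
      have := Finset.sum_le_card_nsmul Finset.univ t Pi fun r _ => (Finset.mem_Ioc.mp (ht r)).2
      simpa using this))
    (fun R => vv a W.primesLE R * Lam l Y (dl R g)) (fun R => vv a P R - 1) (vv a W.primesLE)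
    (e / 2) c
    (fun x => by
      have h1 := (str_line hg hH x).smul (vv a W.primesLE x)
      rw [abs_of_nonneg (hv0 x), mul_one] at h1
      refine h1.congr fun t _ => ?_
      have h2 := (vv_per a W.primesLE).nat_mul (l.factorial * ∑ r, t r) x
      have e1 : x + ((l.factorial * ∑ r, t r : ℕ) : ℕ) * Q = x + l.factorial * Q * ∑ r, t r := by
        ring
      rw [Nat.cast_id, ← hQ, e1] at h2
      rw [h2])
    (fun x => hsv P (fun p t => (1 - if p ∣ x + l.factorial * Q * t then a p else 0) /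
        (1 - a p / p)) (fun p hp => hW1.trans_lt (hPp p hp).2)
      (fun p hp p' hp' hne => (Nat.coprime_primes (hPp p hp).1 (hPp p' hp').1).mpr hne)
      (fun p hp => by
        obtain ⟨h1, h2, h3, h4⟩ := vv_local ha (hPp p hp).1 _ rfl
        have hcop := svapp_coprime hWl (hPp p hp).1 (hPp p hp).2
        refine ⟨fun t => ?_, fun t => h2 _, (av_affine h1 hcop x).trans h3, ?_⟩
        · have h5 := h1.nat_mul (l.factorial * Q) (x + l.factorial * Q * t)
          have e1 : x + l.factorial * Q * t + ((l.factorial * Q : ℕ) : ℕ) * p =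
              x + l.factorial * Q * (t + p) := by ring
          rw [Nat.cast_id, e1] at h5
          exact h5
        · exact (av_affine (h1.comp fun z => (z - 1) ^ 2) hcop x).le.trans h4))
    (fun u => by
      refine (Finset.sum_le_card_nsmul _ _ (2 ^ W.primesLE.card * (2 ^ P.card + 1))
        fun x _ => ?_).trans ?_
      · rw [abs_mul, abs_mul, abs_of_nonneg (hv0 x)]
        have h1 := vv_le ha hWp x
        have h2 := Lam_le (hgb x) Y
        have h3 := vv_le ha (fun p hp => (hPp p hp).1) x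
        have h4 := vv_nonneg ha (fun p hp => (hPp p hp).1) x
        have h5 : (0 : ℝ) < 2 ^ P.card := by positivity
        have h6 : |vv a P x - 1| ≤ 2 ^ P.card + 1 := abs_le.mpr ⟨by linarith, by linarith⟩
        exact mul_le_mul ((mul_le_of_le_one_right (hv0 x) h2).trans h1) h6 (abs_nonneg _)
          (by positivity)
      · rw [Nat.card_Ioc, Nat.add_sub_cancel_left, nsmul_eq_mul])
  have hs := seg_le (vv_per a W.primesLE) hQ0 hv0 ⌊X⌋₊ n
  rw [vv_av ha hWp, mul_one, ← hQ] at hs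
  have e2 : Tm l (vv a y.primesLE) η Y X g - Tm l (vv a W.primesLE) η Y X g =
      (∑ x ∈ Ioc ⌊X⌋₊ (⌊X⌋₊ + n), vv a W.primesLE x * Lam l Y (dl x g) * (vv a P x - 1)) /
        (η * X) := by
    unfold Tm
    rw [← sub_div, ← Finset.sum_sub_distrib, hn]
    congr 1
    refine Finset.sum_congr rfl fun x _ => ?_
    rw [vv_split a hWy x]
    ring
  rw [e2, abs_div, abs_of_pos (by positivity : 0 < η * X), div_le_iff₀ (by positivity)]
  refine key.trans ?_
  have h7 : (∑ x ∈ Ioc ⌊X⌋₊ (⌊X⌋₊ + n), vv a W.primesLE x) * (e / 2) ≤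
      (η * X + 1 + Q) * (e / 2) := mul_le_mul_of_nonneg_right (by linarith) (by positivity)
  linarith

end Pool.Agent.Lib.MP_0a3467_an.Cv
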