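import Pool.Agent.Lib.MP_0a3467_an.Cv.Chain
import Pool.Agent.Lib.MP_0a3467_an.Cv.SVapp

open Finset

namespace Pool.Agent.Lib.MP_0a3467_an.Cv

theorem farwin_tp {l N : ℕ} {g : Om l} (hg : ∀ j x, |g j x| ≤ 1) {Z η : ℝ} (hN : 0 < N)
    (hη : 0 ≤ η) (hZ : (1 + η) * Z = N) : |Tp l Z g - Lam l N g| ≤ 4 * η + 4 / N := by
  have hN' : (0 : ℝ) < N := by exact_mod_cast hN
  have hZ0 : 0 < Z := by
    by_contra h
    have : (1 + η) * Z ≤ 0 := mul_nonpos_of_nonneg_of_nonpos (by linarith) (not_lt.1 h)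
    linarith
  have hZN : Z ≤ N := by nlinarith
  have hk1 : (⌊Z⌋₊ : ℝ) ≤ Z := Nat.floor_le hZ0.le
  have hk2 : Z < ⌊Z⌋₊ + 1 := Nat.lt_floor_add_one Z
  have hk0 : (0 : ℝ) ≤ ⌊Z⌋₊ := Nat.cast_nonneg _
  have hkN : ⌊Z⌋₊ ≤ N := by exact_mod_cast hk1.trans hZN
  have h1 := LS_le hg ⌊Z⌋₊
  have h2 := LS_sub_le hg hkN
  unfold Tp Lam
  generalize LS l ⌊Z⌋₊ g = a at h1 h2 ⊢
  generalize LS l N g = b at h2 ⊢
  generalize (⌊Z⌋₊ : ℝ) = k at *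
  generalize (N : ℝ) = n at *
  have e1 : a / Z ^ 2 - b / n ^ 2 = a * (1 / Z ^ 2 - 1 / n ^ 2) - (b - a) / n ^ 2 := by ring
  have p1 : 0 ≤ 1 / Z ^ 2 - 1 / n ^ 2 :=
    sub_nonneg.2 (one_div_le_one_div_of_le (by positivity) (by gcongr))
  have p2 : k ^ 2 * (1 / Z ^ 2) ≤ 1 := by
    rw [mul_one_div, div_le_one (by positivity)]
    gcongr
  have p3 : |a * (1 / Z ^ 2 - 1 / n ^ 2)| ≤ 1 - (k / n) ^ 2 := by
    rw [abs_mul, abs_of_nonneg p1]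
    calc _ ≤ k ^ 2 * (1 / Z ^ 2 - 1 / n ^ 2) := by gcongr
      _ = k ^ 2 * (1 / Z ^ 2) - (k / n) ^ 2 := by ring
      _ ≤ _ := by linarith
  have p4 : |(b - a) / n ^ 2| ≤ 1 - (k / n) ^ 2 := by
    rw [abs_div, abs_of_pos (by positivity : 0 < n ^ 2), div_le_iff₀ (by positivity)]
    calc _ ≤ n ^ 2 - k ^ 2 := h2
      _ = _ := by field_simp
  have p5 : k / n ≤ 1 := by
    rw [div_le_one hN']
    linarith
  have p6 : 1 - η - 1 / n ≤ k / n := by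
    rw [le_div_iff₀ hN']
    have e2 : (1 - η - 1 / n) * n = n - η * n - 1 := by field_simp
    rw [e2]
    nlinarith
  have p7 : 0 ≤ k / n := by positivity
  have e3 : 4 / n = 4 * (1 / n) := by ring
  rw [e1, e3]
  refine (abs_sub _ _).trans ?_
  nlinarith

theorem farwin_close {l Y : ℕ} {g : Om l} (hg : ∀ j x, |g j x| ≤ 1) {v v' : ℕ → ℝ} {δ η X : ℝ}
    (hδ : 0 ≤ δ) (hv : ∀ R, |v R - v' R| ≤ δ) (hD : 0 < η * X)
    (hc : ((Ioc ⌊X⌋₊ ⌊(1 + η) * X⌋₊).card : ℝ) ≤ 2 * (η * X)) :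
    |Tm l v η Y X g - Tm l v' η Y X g| ≤ 2 * δ := by
  unfold Tm
  rw [← sub_div, ← sum_sub_distrib, abs_div, abs_of_pos hD, div_le_iff₀ hD]
  refine (abs_sum_le_sum_abs _ _).trans ?_
  calc _ ≤ ∑ R ∈ Ioc ⌊X⌋₊ ⌊(1 + η) * X⌋₊, δ := by
        refine sum_le_sum fun R _ => ?_
        rw [← sub_mul, abs_mul]
        calc _ ≤ δ * 1 :=
              mul_le_mul (hv R) (Lam_le (f := dl R g) (fun j x => hg j _) Y) (abs_nonneg _) hδ
          _ = δ := mul_one δ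
    _ = ((Ioc ⌊X⌋₊ ⌊(1 + η) * X⌋₊).card : ℝ) * δ := by rw [sum_const, nsmul_eq_mul]
    _ ≤ _ := by nlinarith

theorem farwin_final {A S D L T E δ e : ℝ} (hD : 0 < D) (hA : T = A / D) (hE : |T - L| ≤ E)
    (hL : |L| ≤ 1) (hS : |S - D| ≤ δ * D) (hδ : δ ≤ 1 / 2) (hδ0 : 0 ≤ δ)
    (he : 2 * (E + δ) ≤ e) : |A - S * L| ≤ e * S := by
  have hE0 : 0 ≤ E := (abs_nonneg _).trans hE
  have e1 : A - S * L = D * (T - L) - (S - D) * L := by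
    rw [hA]
    field_simp
    ring
  have h1 : |D * (T - L)| ≤ D * E := by
    rw [abs_mul, abs_of_pos hD]
    gcongr
  have h2 : |(S - D) * L| ≤ δ * D := by
    rw [abs_mul]
    calc _ ≤ δ * D * 1 := mul_le_mul hS hL (abs_nonneg _) (by positivity)
      _ = _ := mul_one _
  have h3 : D ≤ 2 * S := by
    have := (abs_le.1 hS).1
    nlinarith
  rw [e1]
  refine (abs_sub _ _).trans ?_
  calc _ ≤ (E + δ) * D := by linarith
    _ ≤ (E + δ) * (2 * S) := by gcongr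
    _ = 2 * (E + δ) * S := by ring
    _ ≤ e * S := by gcongr; linarith

/-- FARWIN. The comparison of far scales on one window. -/
theorem farwin (l : ℕ) {e : ℝ} (he : 0 < e) :
    ∃ η1 > 0, ∀ η : ℝ, 0 < η → η ≤ η1 → ∃ σ0 > 0, ∃ Y0 : ℕ, ∀ σ : ℝ, 0 < σ → σ ≤ σ0 →
      ∀ y Y Y' : ℕ, Y0 ≤ Y → Y ≤ y → (1 + η / 2) * Y ≤ Y' → Y' ≤ (1 + η) * Y →
        ∃ N1 : ℕ, ∀ N ≥ N1, ∀ g : Om l, (∀ j, Str l 1 N (g j)) →
          |∑ R ∈ Ioc (N / Y') (N / Y), wt σ y R * Lam l Y (dl R g) -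
              (∑ R ∈ Ioc (N / Y') (N / Y), wt σ y R) * Lam l N g| ≤
            e * ∑ R ∈ Ioc (N / Y') (N / Y), wt σ y R := by
  refine ⟨min 1 (e / 200), lt_min one_pos (by positivity), fun η hη hη1 => ?_⟩
  have hη2 : η ≤ 1 := hη1.trans (min_le_left _ _)
  have hη3 : η ≤ e / 200 := hη1.trans (min_le_right _ _)
  obtain ⟨δ, hδ0, hδ1, hδ2⟩ : ∃ δ : ℝ, 0 < δ ∧ δ ≤ 1 / 2 ∧ δ ≤ e / 100 :=
    ⟨min (1 / 2) (e / 100), lt_min (by norm_num) (by positivity), min_le_left _ _,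
      min_le_right _ _⟩
  obtain ⟨W1, hW1⟩ := chain_all l hδ0 (half_pos hη)
  obtain ⟨W2, hW2⟩ := svapp l hδ0
  obtain ⟨Yc, hYc⟩ := hW1 (max W1 W2) (le_max_left _ _)
  obtain ⟨σ0, hσ0, hcl⟩ := vv_close (max W1 W2) hδ0
  refine ⟨σ0, hσ0, max (max (max W1 W2) 1) Yc, fun σ hσ hσ1 y Y Y' hY hy h1 h2 => ?_⟩
  have hYW : max W1 W2 ≤ Y := ((le_max_left _ _).trans (le_max_left _ _)).trans hY
  have hY1 : 1 ≤ Y := ((le_max_right _ _).trans (le_max_left _ _)).trans hY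
  have hYp : (0 : ℝ) < Y := by exact_mod_cast hY1
  have hY'p : (0 : ℝ) < Y' := lt_of_lt_of_le (by positivity) h1
  obtain ⟨η', hη'⟩ : ∃ η' : ℝ, η' = Y' / Y - 1 := ⟨_, rfl⟩
  have hη'1 : η / 2 ≤ η' := by
    rw [hη', le_sub_iff_add_le, le_div_iff₀ hYp]
    linarith
  have hη'2 : η' ≤ η := by
    rw [hη', sub_le_iff_le_add, div_le_iff₀ hYp]
    linarith
  have hη'0 : 0 < η' := by linarith
  obtain ⟨X0, hX0⟩ := hW2 (max W1 W2) (le_max_right _ _) (aS σ) y Y η' (aS_mem hσ)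
    (hYW.trans hy) hη'0
  have hP : ∀ p ∈ y.primesLE, p.Prime := fun p hp => Nat.prime_of_mem_primesLE hp
  obtain ⟨Q, hQ⟩ : ∃ Q, Q = ∏ p ∈ y.primesLE, p := ⟨_, rfl⟩
  have hQ0 : 0 < Q := hQ ▸ prod_pos fun p hp => (hP p hp).pos
  obtain ⟨N1, hN1⟩ := exists_nat_ge
    (max (max (X0 * Y') (Y * Y')) (max ((Q + 1) / (δ * η') * Y') (max (4 / δ) 1)))
  refine ⟨N1, fun N hN g hg => ?_⟩
  have hN' : (N1 : ℝ) ≤ N := by exact_mod_cast hN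
  have hNN := hN1.trans hN'
  simp only [max_le_iff] at hNN
  obtain ⟨⟨n1, n2⟩, n3, n4, n5⟩ := hNN
  have hNp : 0 < N := by exact_mod_cast (lt_of_lt_of_le one_pos n5 : (0 : ℝ) < N)
  have hNr : (0 : ℝ) < N := by linarith
  obtain ⟨X, hX⟩ : ∃ X : ℝ, X = N / Y' := ⟨_, rfl⟩
  have hXp : 0 < X := by rw [hX]; positivity
  have f1 : ⌊X⌋₊ = N / Y' := by rw [hX, Nat.floor_div_eq_div]
  have e2 : (1 + η') * X = N / Y := by
    rw [hη', hX]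
    field_simp
    ring
  have f2 : ⌊(1 + η') * X⌋₊ = N / Y := by rw [e2, Nat.floor_div_eq_div]
  have e3 : (1 + η') * (X * Y) = N := by
    rw [← mul_assoc, e2]
    field_simp
  have hgb : ∀ j x, |g j x| ≤ 1 := fun j x => (hg j).bound x
  have hg' : ∀ j, Str l 1 ⌊X * Y⌋₊ (g j) := fun j => (hg j).scale (by
    refine Nat.floor_le_of_le ?_
    have : 0 ≤ η' * (X * Y) := by positivity
    linarith)
  have x1 : X0 ≤ X := by rw [hX, le_div_iff₀ hY'p]; exact n1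
  have x2 : (Y : ℝ) ≤ X := by rw [hX, le_div_iff₀ hY'p]; exact n2
  have x3 : (Q : ℝ) + 1 ≤ δ * (η' * X) := by
    have : (Q + 1) / (δ * η') ≤ X := by rw [hX, le_div_iff₀ hY'p]; exact n3
    rw [div_le_iff₀ (by positivity)] at this
    linarith
  have x4 : 4 / (N : ℝ) ≤ δ := by
    rw [div_le_iff₀ hδ0] at n4
    rw [div_le_iff₀ hNr]
    linarith
  have hD : 0 < η' * X := by positivity
  have hle : ⌊X⌋₊ ≤ ⌊(1 + η') * X⌋₊ := Nat.floor_mono (by linarith)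
  obtain ⟨n, hn⟩ := Nat.exists_eq_add_of_le hle
  have hn' : (⌊(1 + η') * X⌋₊ : ℝ) = ⌊X⌋₊ + n := by exact_mod_cast hn
  have c1 := Nat.floor_le hXp.le
  have c2 := Nat.lt_floor_add_one X
  have c3 := Nat.floor_le (show 0 ≤ (1 + η') * X by positivity)
  have c4 := Nat.lt_floor_add_one ((1 + η') * X)
  have hQr : (0 : ℝ) ≤ Q := Nat.cast_nonneg _
  have c5 : (n : ℝ) ≤ η' * X + 1 := by linarith
  have c6 : η' * X - 1 ≤ n := by linarith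
  have hcard : ((Ioc ⌊X⌋₊ ⌊(1 + η') * X⌋₊).card : ℝ) ≤ 2 * (η' * X) := by
    rw [hn, Nat.card_Ioc, Nat.add_sub_cancel_left]
    nlinarith
  have hper := vv_per (aS σ) y.primesLE
  have hav := vv_av (aS_mem hσ) hP
  rw [← hQ] at hper hav
  have s1 := seg_le hper hQ0 (vv_nonneg (aS_mem hσ) hP) ⌊X⌋₊ n
  have s2 := seg_ge hper hQ0 (vv_nonneg (aS_mem hσ) hP) ⌊X⌋₊ n
  rw [hav, mul_one, ← hn] at s1 s2
  have t1 := hX0 X x1 g hg'
  have t2 := farwin_close (Y := Y) hgb hδ0.le (hcl σ hσ hσ1) hD hcard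
  have t3 := hYc Y ((le_max_right _ _).trans hY) X η' x2 hη'1 (hη'2.trans hη2) g hg'
  have t4 := farwin_tp hgb hNp hη'0.le e3
  have key := farwin_final (e := e) (E := 5 * δ + 14 * η') (δ := δ)
    (S := ∑ R ∈ Ioc ⌊X⌋₊ ⌊(1 + η') * X⌋₊, vv (aS σ) y.primesLE R) hD
    (rfl : Tm l (vv (aS σ) y.primesLE) η' Y X g = _) (L := Lam l N g)
    (by
      rw [abs_le] at t1 t2 t3 t4 ⊢
      constructor <;> linarith [t1.1, t1.2, t2.1, t2.2, t3.1, t3.2, t4.1, t4.2])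
    (Lam_le hgb N) (abs_le.2 ⟨by linarith, by linarith⟩) hδ1 hδ0.le (by linarith)
  rw [f1, f2] at key
  have hk := kap_pos hσ y
  simp only [wt_eq hσ, mul_assoc, ← mul_sum]
  rw [← mul_sub, abs_mul, abs_of_pos hk, mul_left_comm]
  gcongr

end Pool.Agent.Lib.MP_0a3467_an.Cv
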