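import Pool.Agent.Lib.MP_0a3467_an.Cv.CS
import Pool.Agent.Lib.MP_0a3467_an.Cv.PerM

open Finset

namespace Pool.Agent.Lib.MP_0a3467_an.Cv

theorem gv_card (H : ℕ) : ((box H).card : ℝ) = (H : ℝ) ^ 2 := by
  simp [box, sq]

theorem gv_bad_nonneg {Θ : Type} {T : Finset Θ} {π : Θ → ℝ} (q : Θ → ℕ)
    (hπ : ∀ θ ∈ T, 0 ≤ π θ) : 0 ≤ bad T π q := by
  refine sum_nonneg fun a ha => sum_nonneg fun b hb => ?_
  split_ifs
  · exact le_rfl
  · exact mul_nonneg (hπ a ha) (hπ b hb)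

theorem gv_bad_pair {Θ : Type} {T : Finset Θ} {π : Θ → ℝ} (q : Θ → ℕ) (hπ : ∀ θ ∈ T, 0 ≤ π θ)
    (hπ1 : ∑ θ ∈ T, π θ ≤ 1) {T' : Finset (Θ × Θ)} (hT : T' ⊆ T ×ˢ T) :
    bad T' (fun p => π p.1 * π p.2) (fun p => q p.1 * q p.2) ≤ 4 * bad T π q := by
  obtain ⟨f, hf⟩ : ∃ f : Θ → Θ → ℝ,
      ∀ a b, f a b = if Nat.Coprime (q a) (q b) then 0 else π a * π b := ⟨_, fun _ _ => rfl⟩
  have f0 : ∀ a ∈ T, ∀ b ∈ T, 0 ≤ f a b := fun a ha b hb => by
    rw [hf]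
    split_ifs
    · exact le_rfl
    · exact mul_nonneg (hπ a ha) (hπ b hb)
  obtain ⟨G, hG⟩ : ∃ G : Θ × Θ → Θ × Θ → ℝ, ∀ p p', G p p' =
      f p.1 p'.1 * (π p.2 * π p'.2) + f p.1 p'.2 * (π p.2 * π p'.1) +
        f p.2 p'.1 * (π p.1 * π p'.2) + f p.2 p'.2 * (π p.1 * π p'.1) := ⟨_, fun _ _ => rfl⟩
  have key : ∀ p ∈ T ×ˢ T, ∀ p' ∈ T ×ˢ T, 0 ≤ G p p' ∧
      (if Nat.Coprime (q p.1 * q p.2) (q p'.1 * q p'.2) then 0
        else π p.1 * π p.2 * (π p'.1 * π p'.2)) ≤ G p p' := by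
    rintro ⟨a, b⟩ hp ⟨c, d⟩ hp'
    obtain ⟨ha, hb⟩ := mem_product.1 hp
    obtain ⟨hc, hd⟩ := mem_product.1 hp'
    have k1 := mul_nonneg (f0 a ha c hc) (mul_nonneg (hπ b hb) (hπ d hd))
    have k2 := mul_nonneg (f0 a ha d hd) (mul_nonneg (hπ b hb) (hπ c hc))
    have k3 := mul_nonneg (f0 b hb c hc) (mul_nonneg (hπ a ha) (hπ d hd))
    have k4 := mul_nonneg (f0 b hb d hd) (mul_nonneg (hπ a ha) (hπ c hc))
    rw [hG]
    dsimp only
    refine ⟨by linarith, ?_⟩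
    split_ifs with h
    · linarith
    · rw [Nat.coprime_mul_iff_left, Nat.coprime_mul_iff_right, Nat.coprime_mul_iff_right] at h
      by_cases h1 : Nat.Coprime (q a) (q c)
      · by_cases h2 : Nat.Coprime (q a) (q d)
        · by_cases h3 : Nat.Coprime (q b) (q c)
          · have h4 : ¬ Nat.Coprime (q b) (q d) := fun h4 => h ⟨⟨h1, h2⟩, h3, h4⟩
            have k5 : f b d = π b * π d := by rw [hf, if_neg h4]
            rw [k5] at k4 ⊢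
            linarith
          · have k5 : f b c = π b * π c := by rw [hf, if_neg h3]
            rw [k5] at k3 ⊢
            linarith
        · have k5 : f a d = π a * π d := by rw [hf, if_neg h2]
          rw [k5] at k2 ⊢
          linarith
      · have k5 : f a c = π a * π c := by rw [hf, if_neg h1]
        rw [k5] at k1 ⊢
        linarith
  have hb : bad T π q = ∑ a ∈ T, ∑ b ∈ T, f a b := by simp only [bad, hf]
  have hS : 0 ≤ ∑ θ ∈ T, π θ := sum_nonneg hπ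
  have hb0 := gv_bad_nonneg q hπ
  calc bad T' (fun p => π p.1 * π p.2) (fun p => q p.1 * q p.2)
      ≤ ∑ p ∈ T', ∑ p' ∈ T ×ˢ T, G p p' := by
        refine sum_le_sum fun p hp => ?_
        exact (sum_le_sum fun p' hp' => (key p (hT hp) p' (hT hp')).2).trans
          (sum_le_sum_of_subset_of_nonneg hT fun p' hp' _ => (key p (hT hp) p' hp').1)
    _ ≤ ∑ p ∈ T ×ˢ T, ∑ p' ∈ T ×ˢ T, G p p' :=
        sum_le_sum_of_subset_of_nonneg hT fun p hp _ =>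
          sum_nonneg fun p' hp' => (key p hp p' hp').1
    _ = 4 * (bad T π q * ((∑ θ ∈ T, π θ) * ∑ θ ∈ T, π θ)) := by
        simp only [sum_product, hG, sum_add_distrib, ← mul_sum, ← sum_mul, hb]
        ring
    _ ≤ 4 * bad T π q := by
        have h1 : (∑ θ ∈ T, π θ) * ∑ θ ∈ T, π θ ≤ 1 := mul_le_one₀ hπ1 hS hπ1
        nlinarith

theorem gv_q_le {s Q H q : ℕ} {δ : ℝ} (hq : 0 < q ∧ q ≤ Q) (hδ0 : 0 < δ) (hδ1 : δ ≤ 1)
    (h2 : (Q : ℝ) ^ 2 ^ s ≤ δ ^ 2 ^ s * H) : q ≤ H := by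
  have h1 : (1 : ℝ) ≤ Q := by exact_mod_cast hq.1.trans_le hq.2
  have h3 : (Q : ℝ) ≤ (Q : ℝ) ^ 2 ^ s := le_self_pow₀ h1 (by positivity)
  have h4 : δ ^ 2 ^ s ≤ 1 := pow_le_one₀ hδ0.le hδ1
  have h5 : (Q : ℝ) ≤ H := by
    have : (0 : ℝ) ≤ H := by positivity
    nlinarith
  exact hq.2.trans (by exact_mod_cast h5)

theorem gv_inner {q H : ℕ} {W : ℕ × ℕ → ℝ} {C : ℝ} (hW : Per q W) (hq : 0 < q) (hH : q ≤ H)
    (hC : mean q (fun z => |W z|) ≤ C) (z : ℕ × ℕ) {P : ℕ × ℕ → ℝ} (hP : ∀ a, |P a| ≤ 1) :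
    |∑ a ∈ box H, W (a + z) * P a| ≤ 4 * C * (box H).card := by
  have h1 : Per q fun a => |W (z + a)| := by
    simpa using (hW.affine z 1).comp fun t => |t|
  have h2 := rect_le h1 hq (fun _ => abs_nonneg _) 0 H 0 H
  have h3 := mean_shift (hW.comp fun t => |t|) z
  have h4 : 0 ≤ mean q fun z => |W z| := mean_nonneg (fun _ => abs_nonneg _) q
  rw [h3, zero_add] at h2
  have h5 : (q : ℝ) ≤ H := by exact_mod_cast hH
  have h6 : (0 : ℝ) ≤ q := by positivity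
  calc |∑ a ∈ box H, W (a + z) * P a| ≤ ∑ a ∈ box H, |W (z + a)| := by
        refine (abs_sum_le_sum_abs _ _).trans (sum_le_sum fun a _ => ?_)
        rw [abs_mul, add_comm a z]
        exact mul_le_of_le_one_right (abs_nonneg _) (hP a)
    _ ≤ ((H : ℝ) + q) * ((H : ℝ) + q) * mean q fun z => |W z| := h2
    _ ≤ (2 * H) * (2 * H) * C :=
        mul_le_mul (mul_le_mul (by linarith) (by linarith) (by linarith) (by linarith)) hC h4
          (by positivity)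
    _ = 4 * C * (box H).card := by
        rw [gv_card]
        ring

theorem gv_zero {Θ : Type} (T : Finset Θ) (π : Θ → ℝ) (q : Θ → ℕ) (W : Θ → ℕ × ℕ → ℝ)
    (Q H : ℕ) (C δ : ℝ) (hπ : ∀ θ ∈ T, 0 ≤ π θ) (hπ1 : ∑ θ ∈ T, π θ ≤ 1)
    (hq : ∀ θ ∈ T, 0 < q θ ∧ q θ ≤ Q) (hper : ∀ θ ∈ T, Per (q θ) (W θ))
    (h0 : ∀ θ ∈ T, mean (q θ) (W θ) = 0) (hC : ∀ θ ∈ T, mean (q θ) (fun z => |W θ z|) ≤ C)
    (hC0 : 0 ≤ C) (hδ0 : 0 < δ) (hδ1 : δ ≤ 1) (h2 : (Q : ℝ) ^ 2 ^ 0 ≤ δ ^ 2 ^ 0 * H) :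
    |∑ a ∈ box H, ∑ θ ∈ T, π θ * W θ a| ≤ 5 * C * δ * (box H).card := by
  have h3 : (Q : ℝ) ≤ δ * H := by simpa using h2
  have hH : (0 : ℝ) ≤ H := by positivity
  have h4 : 0 ≤ C * δ * (H : ℝ) ^ 2 := by positivity
  rw [sum_comm, gv_card]
  calc |∑ θ ∈ T, ∑ a ∈ box H, π θ * W θ a| ≤ ∑ θ ∈ T, π θ * (2 * (C * δ * (H : ℝ) ^ 2)) := by
        refine (abs_sum_le_sum_abs _ _).trans (sum_le_sum fun θ hθ => ?_)
        rw [← mul_sum, abs_mul, abs_of_nonneg (hπ θ hθ)]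
        refine mul_le_mul_of_nonneg_left ?_ (hπ θ hθ)
        refine (box_zero (hper θ hθ) (hq θ hθ).1 (h0 θ hθ) (hC θ hθ)
          (gv_q_le (hq θ hθ) hδ0 hδ1 h2)).trans ?_
        have h5 : (q θ : ℝ) ≤ δ * H := le_trans (by exact_mod_cast (hq θ hθ).2) h3
        calc 2 * C * (q θ : ℝ) * H ≤ 2 * C * (δ * H) * H := by gcongr
          _ = _ := by ring
    _ ≤ 1 * (2 * (C * δ * (H : ℝ) ^ 2)) := by
        rw [← sum_mul]
        exact mul_le_mul_of_nonneg_right hπ1 (by positivity)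
    _ ≤ _ := by linarith

/-- The expansion of the square into coprime and other pairs. -/
theorem gv_expand {Θ α : Type} (T : Finset Θ) (π : Θ → ℝ) (c : Θ × Θ → Prop) [DecidablePred c]
    (S : Finset α) (U : Θ → α → ℝ) (P : α → ℝ) :
    (∑ a ∈ S, (∑ θ ∈ T, π θ * U θ a) * P a) ^ 2 =
      ∑ a ∈ S, ∑ a' ∈ S, (∑ p ∈ (T ×ˢ T).filter c, π p.1 * π p.2 * (U p.1 a * U p.2 a')) *
        (P a * P a') +
      ∑ θ ∈ T, ∑ θ' ∈ T, if c (θ, θ') then 0 else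
        π θ * π θ' * ((∑ a ∈ S, U θ a * P a) * ∑ a ∈ S, U θ' a * P a) := by
  have h1 : ∑ a ∈ S, (∑ θ ∈ T, π θ * U θ a) * P a = ∑ θ ∈ T, π θ * ∑ a ∈ S, U θ a * P a := by
    simp only [sum_mul, mul_sum, mul_assoc]
    exact sum_comm
  have h2 : ∑ a ∈ S, ∑ a' ∈ S,
      (∑ p ∈ (T ×ˢ T).filter c, π p.1 * π p.2 * (U p.1 a * U p.2 a')) * (P a * P a') =
      ∑ p ∈ (T ×ˢ T).filter c,
        π p.1 * π p.2 * ((∑ a ∈ S, U p.1 a * P a) * ∑ a ∈ S, U p.2 a * P a) := by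
    simp only [sum_mul_sum S S]
    simp only [mul_sum, sum_mul]
    rw [sum_comm (s := (T ×ˢ T).filter c)]
    refine sum_congr rfl fun a _ => ?_
    rw [sum_comm (s := (T ×ˢ T).filter c)]
    refine sum_congr rfl fun a' _ => sum_congr rfl fun p _ => ?_
    ring
  rw [h1, h2, sq, sum_mul_sum, sum_filter, sum_product, ← sum_add_distrib]
  refine sum_congr rfl fun θ _ => ?_
  rw [← sum_add_distrib]
  refine sum_congr rfl fun θ' _ => ?_
  split_ifs <;> ring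

/-- GV. Small cut norm for mixtures of periodic functions of mean zero with mostly coprime
periods. -/
theorem gv (s : ℕ) {Θ : Type} (T : Finset Θ) (π : Θ → ℝ) (q : Θ → ℕ) (W : Θ → ℕ × ℕ → ℝ)
    (Q H : ℕ) (C δ : ℝ) (hπ : ∀ θ ∈ T, 0 ≤ π θ) (hπ1 : ∑ θ ∈ T, π θ ≤ 1)
    (hq : ∀ θ ∈ T, 0 < q θ ∧ q θ ≤ Q) (hper : ∀ θ ∈ T, Per (q θ) (W θ))
    (h0 : ∀ θ ∈ T, mean (q θ) (W θ) = 0) (hC : ∀ θ ∈ T, mean (q θ) (fun z => |W θ z|) ≤ C)
    (hC0 : 0 ≤ C) (hδ0 : 0 < δ) (hδ1 : δ ≤ 1) (h1 : 4 ^ s * bad T π q ≤ δ ^ 2 ^ s)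
    (h2 : (Q : ℝ) ^ 2 ^ s ≤ δ ^ 2 ^ s * H) :
    Cut (s := s + 1) (box H) (fun h => ∑ θ ∈ T, π θ * W θ (∑ r, h r)) (5 * C * δ) := by
  induction s generalizing Θ Q C δ with
  | zero =>
    simpa using cut_one (box H) (fun a => ∑ θ ∈ T, π θ * W θ a)
      (gv_zero T π q W Q H C δ hπ hπ1 hq hper h0 hC hC0 hδ0 hδ1 h2)
  | succ s ih =>
    intro F hF
    obtain ⟨T', hT'⟩ : ∃ T' : Finset (Θ × Θ),
        T' = (T ×ˢ T).filter fun p => Nat.Coprime (q p.1) (q p.2) := ⟨_, rfl⟩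
    have hsub : T' ⊆ T ×ˢ T := hT' ▸ filter_subset _ _
    have hm : ∀ p ∈ T', p.1 ∈ T ∧ p.2 ∈ T ∧ Nat.Coprime (q p.1) (q p.2) := fun p hp => by
      rw [hT', mem_filter, mem_product] at hp
      exact ⟨hp.1.1, hp.1.2, hp.2⟩
    have hS : 0 ≤ ∑ θ ∈ T, π θ := sum_nonneg hπ
    have hb0 := gv_bad_nonneg q hπ
    have hpow : (δ ^ 2) ^ 2 ^ s = δ ^ 2 ^ (s + 1) := by
      rw [← pow_mul, pow_succ' 2 s]
    have hsh : ∀ θ ∈ T, ∀ a, Per (q θ) fun z => W θ (a + z) := fun θ hθ a => by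
      simpa using (hper θ hθ).affine a 1
    have k1 : ∀ a a' : ℕ × ℕ, Cut (s := s + 1) (box H)
        (fun g => ∑ p ∈ T', π p.1 * π p.2 * (W p.1 (a + ∑ r, g r) * W p.2 (a' + ∑ r, g r)))
        (5 * C ^ 2 * δ ^ 2) := fun a a' => by
      refine ih T' (fun p => π p.1 * π p.2) (fun p => q p.1 * q p.2)
        (fun p z => W p.1 (a + z) * W p.2 (a' + z)) (Q ^ 2) (C ^ 2) (δ ^ 2)
        (fun p hp => mul_nonneg (hπ _ (hm p hp).1) (hπ _ (hm p hp).2.1)) ?_ (fun p hp => ?_)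
        (fun p hp => (hsh _ (hm p hp).1 a).mul (hsh _ (hm p hp).2.1 a')) (fun p hp => ?_)
        (fun p hp => ?_) (by positivity) (by positivity) (pow_le_one₀ hδ0.le hδ1) ?_ ?_
      · refine (sum_le_sum_of_subset_of_nonneg hsub fun p hp _ =>
          mul_nonneg (hπ _ (mem_product.1 hp).1) (hπ _ (mem_product.1 hp).2)).trans ?_
        rw [sum_product, ← sum_mul_sum]
        exact mul_le_one₀ hπ1 hS hπ1
      · obtain ⟨m1, m2, _⟩ := hm p hp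
        exact ⟨Nat.mul_pos (hq _ m1).1 (hq _ m2).1,
          (Nat.mul_le_mul (hq _ m1).2 (hq _ m2).2).trans (sq Q).ge⟩
      · obtain ⟨m1, m2, m3⟩ := hm p hp
        rw [mean_mul (hsh _ m1 a) (hsh _ m2 a') m3, mean_shift (hper _ m1), h0 _ m1, zero_mul]
      · obtain ⟨m1, m2, m3⟩ := hm p hp
        simp only [abs_mul]
        rw [mean_mul ((hsh _ m1 a).comp fun t => |t|) ((hsh _ m2 a').comp fun t => |t|) m3,
          mean_shift ((hper _ m1).comp fun t => |t|), mean_shift ((hper _ m2).comp fun t => |t|),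
          sq]
        exact mul_le_mul (hC _ m1) (hC _ m2) (mean_nonneg (fun _ => abs_nonneg _) _) hC0
      · rw [hpow]
        refine le_trans ?_ h1
        rw [pow_succ, mul_assoc]
        exact mul_le_mul_of_nonneg_left (gv_bad_pair q hπ hπ1 hsub) (by positivity)
      · rw [hpow, Nat.cast_pow, ← pow_mul, ← pow_succ']
        exact h2
    have hbad : 4 * bad T π q ≤ δ ^ 2 := by
      have m1 : (4 : ℝ) ≤ 4 ^ (s + 1) := le_self_pow₀ (by norm_num) (by omega)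
      have m2 : δ ^ 2 ^ (s + 1) ≤ δ ^ 2 :=
        pow_le_pow_of_le_one hδ0.le hδ1 (Nat.le_self_pow (by omega) 2)
      nlinarith
    obtain ⟨n, hn⟩ : ∃ n : ℝ, n = (box H).card := ⟨_, rfl⟩
    have hn0 : 0 ≤ n := by
      rw [hn]
      positivity
    have hP : ∀ (g : Fin (s + 1) → ℕ × ℕ) (a : ℕ × ℕ),
        |∏ r : Fin (s + 1), F r.succ (Fin.cons a g)| ≤ 1 := fun g a => by
      rw [abs_prod]
      exact prod_le_one (fun _ _ => abs_nonneg _) fun r _ => hF.1 _ _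
    have k2 : ∀ g : Fin (s + 1) → ℕ × ℕ,
        (∑ a ∈ box H, (∑ θ ∈ T, π θ * W θ (∑ r, (Fin.cons a g : Fin (s + 2) → ℕ × ℕ) r)) *
          ∏ r : Fin (s + 1), F r.succ (Fin.cons a g)) ^ 2 ≤
        ∑ a ∈ box H, ∑ a' ∈ box H,
          (∑ p ∈ T', π p.1 * π p.2 * (W p.1 (a + ∑ r, g r) * W p.2 (a' + ∑ r, g r))) *
            ∏ r : Fin (s + 1), F r.succ (Fin.cons a g) * F r.succ (Fin.cons a' g) +
          4 * C ^ 2 * δ ^ 2 * n ^ 2 := fun g => by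
      simp only [Fin.sum_cons, prod_mul_distrib]
      rw [gv_expand T π (fun p => Nat.Coprime (q p.1) (q p.2)) (box H)
        (fun θ a => W θ (a + ∑ r, g r)) (fun a => ∏ r : Fin (s + 1), F r.succ (Fin.cons a g)),
        ← hT']
      refine add_le_add le_rfl ?_
      refine le_trans (b := bad T π q * (4 * C * n) ^ 2) ?_ ?_
      · rw [bad, sum_mul]
        refine sum_le_sum fun θ hθ => ?_
        rw [sum_mul]
        refine sum_le_sum fun θ' hθ' => ?_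
        dsimp only
        split_ifs
        · simp
        · refine mul_le_mul_of_nonneg_left ?_ (mul_nonneg (hπ θ hθ) (hπ θ' hθ'))
          have m1 := gv_inner (hper θ hθ) (hq θ hθ).1 (gv_q_le (hq θ hθ) hδ0 hδ1 h2) (hC θ hθ)
            (∑ r, g r) (hP g)
          have m2 := gv_inner (hper θ' hθ') (hq θ' hθ').1 (gv_q_le (hq θ' hθ') hδ0 hδ1 h2)
            (hC θ' hθ') (∑ r, g r) (hP g)
          rw [← hn] at m1 m2
          refine (le_abs_self _).trans ?_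
          rw [abs_mul, sq]
          exact mul_le_mul m1 m2 (abs_nonneg _) (by positivity)
      · have m1 : 0 ≤ 4 * C ^ 2 * n ^ 2 := by positivity
        calc bad T π q * (4 * C * n) ^ 2 = 4 * C ^ 2 * n ^ 2 * (4 * bad T π q) := by ring
          _ ≤ 4 * C ^ 2 * n ^ 2 * δ ^ 2 := mul_le_mul_of_nonneg_left hbad m1
          _ = _ := by ring
    have k3 := (cs_step (box H) (fun h => ∑ θ ∈ T, π θ * W θ (∑ r, h r)) hF).trans
      (mul_le_mul_of_nonneg_left (sum_le_sum fun g _ => k2 g) (by positivity))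
    rw [sum_add_distrib, sum_comm, sum_const, Fintype.card_piFinset_const, nsmul_eq_mul,
      Nat.cast_pow, ← hn] at k3
    have k4 : ∑ a ∈ box H, ∑ g ∈ Fintype.piFinset fun _ : Fin (s + 1) => box H, ∑ a' ∈ box H,
        (∑ p ∈ T', π p.1 * π p.2 * (W p.1 (a + ∑ r, g r) * W p.2 (a' + ∑ r, g r))) *
          ∏ r : Fin (s + 1), F r.succ (Fin.cons a g) * F r.succ (Fin.cons a' g) ≤
        n * (n * (5 * C ^ 2 * δ ^ 2 * n ^ (s + 1))) := by
      refine (sum_le_card_nsmul _ _ (n * (5 * C ^ 2 * δ ^ 2 * n ^ (s + 1))) fun a _ => ?_).trans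
        (by rw [nsmul_eq_mul, ← hn])
      rw [sum_comm]
      refine (sum_le_card_nsmul _ _ (5 * C ^ 2 * δ ^ 2 * n ^ (s + 1)) fun a' _ => ?_).trans
        (by rw [nsmul_eq_mul, ← hn])
      rw [hn]
      exact (le_abs_self _).trans (k1 a a' _ (adm_pair hF a a'))
    rw [← hn]
    refine abs_le_of_sq_le_sq' ?_ (by positivity) |> abs_le.2
    refine k3.trans ((mul_le_mul_of_nonneg_left (add_le_add k4 le_rfl) (by positivity)).trans ?_)
    have k5 : 0 ≤ C ^ 2 * δ ^ 2 * (n ^ (s + 1) * n) ^ 2 := by positivity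
    rw [pow_succ n (s + 1)]
    nlinarith

end Pool.Agent.Lib.MP_0a3467_an.Cv
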