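import Pool.Agent.Lib.MP_0a3467_an.Cv.TKM
import Pool.Agent.Lib.MP_0a3467_an.Cv.Dil1
import Pool.Agent.Lib.MP_0a3467_an.Cv.Dil2
import Pool.Agent.Lib.MP_0a3467_an.Cv.Struct

open Finset

namespace Pool.Agent.Lib.MP_0a3467_an.Cv

/-- The product of the weighted glued functions is a mixture over tuples of primes. -/
theorem loc_expand {l : ℕ} {Q : Fin (l + 1) → Finset ℕ} (hQ : ∀ j, ∀ q ∈ Q j, 0 < q)
    (g : Fin (l + 1) → ℕ → ℕ → ℝ) (z : ℕ × ℕ) :
    Pr l (fun j => om (Q j)) z * Pr l (fun j => Gt (Q j) (g j)) z =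
      ∑ q ∈ Fintype.piFinset Q, (∏ j, pw (Q j) (q j)) * Kq l q (fun j => g j (q j)) z := by
  unfold Pr
  rw [← Finset.prod_mul_distrib]
  rw [Finset.prod_congr rfl fun j _ => om_mul_Gt (hQ j) (g j) (z.1 + j * z.2)]
  rw [Finset.prod_univ_sum]
  refine Finset.sum_congr rfl fun q _ => ?_
  unfold Kq
  rw [← Finset.prod_mul_distrib]

theorem loc_weight {l : ℕ} {Q : Fin (l + 1) → Finset ℕ} (hQ : ∀ j, 0 < rs (Q j)) :
    ∑ q ∈ Fintype.piFinset Q, ∏ j, pw (Q j) (q j) = 1 := by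
  rw [← Finset.prod_univ_sum]
  exact Finset.prod_eq_one fun j _ => sum_pw (hQ j)

theorem loc_bad {P : Finset ℕ} (hP : ∀ p ∈ P, p.Prime) (h : 0 < rs P) :
    bad P (pw P) id ≤ 1 / rs P := by
  rw [bad_primes P hP]
  have h1 : ∀ p ∈ P, pw P p ^ 2 ≤ pw P p * (1 / rs P) := by
    intro p hp
    rw [sq]
    refine mul_le_mul_of_nonneg_left ?_ (pw_nonneg P p)
    have hp1 : (1 : ℝ) ≤ p := by exact_mod_cast (hP p hp).one_le
    unfold pw
    exact one_div_le_one_div_of_le h (le_mul_of_one_le_right h.le hp1)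
  calc ∑ p ∈ P, pw P p ^ 2 ≤ ∑ p ∈ P, pw P p * (1 / rs P) := Finset.sum_le_sum h1
    _ = 1 / rs P := by rw [← Finset.sum_mul, sum_pw h, one_mul]

/-- A bound that holds for every component of a mixture holds for the mixture. -/
theorem loc_mix {Θ : Type} (T : Finset Θ) (w : Θ → ℝ) (hw : ∀ θ ∈ T, 0 ≤ w θ)
    (hw1 : ∑ θ ∈ T, w θ = 1) (K : Θ → ℕ × ℕ → ℝ) (K' : ℕ × ℕ → ℝ)
    (hK : ∀ z, K' z = ∑ θ ∈ T, w θ * K θ z) (P : Finset ℕ) (π : ℕ → ℝ) (hπ : ∀ p, 0 ≤ π p)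
    (N : ℕ) (b : ℝ)
    (hb : ∀ θ ∈ T, ∑ p ∈ P, π p *
      |(p : ℝ) ^ 2 * ∑ z ∈ box (N / p), K θ (p • z) - ∑ z ∈ box N, K θ z| ≤ b) :
    ∑ p ∈ P, π p * |(p : ℝ) ^ 2 * ∑ z ∈ box (N / p), K' (p • z) - ∑ z ∈ box N, K' z| ≤ b := by
  have h1 : ∀ p : ℕ, (p : ℝ) ^ 2 * ∑ z ∈ box (N / p), K' (p • z) - ∑ z ∈ box N, K' z =
      ∑ θ ∈ T, w θ * ((p : ℝ) ^ 2 * ∑ z ∈ box (N / p), K θ (p • z) - ∑ z ∈ box N, K θ z) := by
    intro p
    simp only [hK]
    rw [Finset.sum_comm (s := box (N / p)), Finset.sum_comm (s := box N), Finset.mul_sum,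
      ← Finset.sum_sub_distrib]
    refine Finset.sum_congr rfl fun θ _ => ?_
    rw [← Finset.mul_sum, ← Finset.mul_sum]
    ring
  calc ∑ p ∈ P, π p * |(p : ℝ) ^ 2 * ∑ z ∈ box (N / p), K' (p • z) - ∑ z ∈ box N, K' z|
      ≤ ∑ p ∈ P, ∑ θ ∈ T, w θ * (π p *
          |(p : ℝ) ^ 2 * ∑ z ∈ box (N / p), K θ (p • z) - ∑ z ∈ box N, K θ z|) := by
        refine Finset.sum_le_sum fun p _ => ?_
        rw [h1 p]
        refine le_trans (mul_le_mul_of_nonneg_left (Finset.abs_sum_le_sum_abs _ _) (hπ p)) ?_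
        rw [Finset.mul_sum]
        refine le_of_eq (Finset.sum_congr rfl fun θ hθ => ?_)
        rw [abs_mul, abs_of_nonneg (hw θ hθ)]
        ring
    _ = ∑ θ ∈ T, w θ * ∑ p ∈ P, π p *
          |(p : ℝ) ^ 2 * ∑ z ∈ box (N / p), K θ (p • z) - ∑ z ∈ box N, K θ z| := by
        rw [Finset.sum_comm]
        refine Finset.sum_congr rfl fun θ _ => ?_
        rw [Finset.mul_sum]
    _ ≤ ∑ θ ∈ T, w θ * b :=
        Finset.sum_le_sum fun θ hθ => mul_le_mul_of_nonneg_left (hb θ hθ) (hw θ hθ)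
    _ = b := by rw [← Finset.sum_mul, hw1, one_mul]

/-- Removing a weight that is close to one. -/
theorem loc_rem (S : Finset (ℕ × ℕ)) (X F : ℕ × ℕ → ℝ) (hF : ∀ z, |F z| ≤ 1) :
    |∑ z ∈ S, F z - ∑ z ∈ S, X z * F z| ≤ ∑ z ∈ S, |X z - 1| := by
  rw [← Finset.sum_sub_distrib]
  refine le_trans (Finset.abs_sum_le_sum_abs _ _) (Finset.sum_le_sum fun z _ => ?_)
  have : F z - X z * F z = -((X z - 1) * F z) := by ring
  rw [this, abs_neg, abs_mul]
  exact mul_le_of_le_one_right (abs_nonneg _) (hF z)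

/-- The final arithmetic. -/
theorem loc_arith {N k p Z S T S' T' e : ℝ} (hk : 0 < k) (hp : 0 < p) (h1 : p * k ≤ N)
    (h2 : N - p * k ≤ Z) (hS : |S - T| ≤ e * N ^ 2) (hS' : |S' - T'| ≤ e * k ^ 2)
    (hb : |S'| ≤ k ^ 2) :
    |S / N ^ 2 - S' / k ^ 2| ≤ 2 * e + |p ^ 2 * T' - T| / N ^ 2 + 2 * (Z / N) := by
  have hN : 0 < N := lt_of_lt_of_le (mul_pos hp hk) h1
  have hN2 : 0 < N ^ 2 := by positivity
  have hk2 : 0 < k ^ 2 := by positivity
  set t := p * k / N with ht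
  have ht0 : 0 ≤ t := by positivity
  have ht1 : t ≤ 1 := (div_le_one hN).2 h1
  have ht2 : 1 - t ≤ Z / N := by
    rw [ht, le_div_iff₀ hN, sub_mul, div_mul_cancel₀ _ hN.ne']
    linarith
  have e1 : S / N ^ 2 - S' / k ^ 2 = (S - T) / N ^ 2 - (p ^ 2 * T' - T) / N ^ 2
      - t ^ 2 * ((S' - T') / k ^ 2) - (1 - t ^ 2) * (S' / k ^ 2) := by
    rw [ht]
    field_simp
    ring
  have a1 : |(S - T) / N ^ 2| ≤ e := by
    rw [abs_div, abs_of_pos hN2, div_le_iff₀ hN2]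
    exact hS
  have a2 : |(p ^ 2 * T' - T) / N ^ 2| = |p ^ 2 * T' - T| / N ^ 2 := by
    rw [abs_div, abs_of_pos hN2]
  have a3 : |(S' - T') / k ^ 2| ≤ e := by
    rw [abs_div, abs_of_pos hk2, div_le_iff₀ hk2]
    exact hS'
  have a4 : |S' / k ^ 2| ≤ 1 := by
    rw [abs_div, abs_of_pos hk2, div_le_one hk2]
    exact hb
  have ht3 : t ^ 2 ≤ 1 := by nlinarith
  have ht4 : 1 - t ^ 2 ≤ 2 * (Z / N) := by nlinarith
  have a5 : |t ^ 2 * ((S' - T') / k ^ 2)| ≤ e := by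
    rw [abs_mul, abs_of_nonneg (sq_nonneg t)]
    exact le_trans (mul_le_of_le_one_left (abs_nonneg _) ht3) a3
  have a6 : |(1 - t ^ 2) * (S' / k ^ 2)| ≤ 2 * (Z / N) := by
    rw [abs_mul, abs_of_nonneg (sub_nonneg.2 ht3)]
    exact le_trans (mul_le_of_le_one_right (sub_nonneg.2 ht3) a4) ht4
  rw [e1]
  have b1 := abs_le.1 a1
  have b2 := abs_le.1 a2.le
  have b5 := abs_le.1 a5
  have b6 := abs_le.1 a6
  rw [abs_le]
  constructor <;> linarith [b1.1, b1.2, b2.1, b2.2, b5.1, b5.2, b6.1, b6.2]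

/-- The dilation estimate for one tuple of primes. -/
theorem loc_tuple {l : ℕ} {K0 : ℝ} {a : ℕ} {Q : Fin (l + 1) → Finset ℕ} {P : Finset ℕ}
    {Z N D : ℕ} (h : PS l K0 a Q P Z N) (hD : 1 ≤ D) (hK : (4 : ℝ) ^ l * D ^ 2 ^ l ≤ K0)
    (hN : D * ((l + 1) * (l.factorial * Z ^ (l + 1)) * (Z * D) ^ 2 ^ l) ≤ N)
    {q : Fin (l + 1) → ℕ} (hq : ∀ j, q j ∈ Q j) {g : Om l}
    (hg : ∀ j, Str l 1 (N / q j) (g j)) :
    ∑ p ∈ P, pw P p *
      |(p : ℝ) ^ 2 * ∑ z ∈ box (N / p), Kq l q g (p • z) - ∑ z ∈ box N, Kq l q g z| ≤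
      72 / D * (N : ℝ) ^ 2 := by
  have hD0 : (0 : ℝ) < D := by exact_mod_cast hD
  have hD1 : (1 : ℝ) ≤ D := by exact_mod_cast hD
  have hK0 : 0 < K0 := lt_of_lt_of_le (by positivity) hK
  have hrs : 0 < rs P := lt_of_lt_of_le hK0 h.bP
  have hq0 : ∀ j, 0 < q j := fun j => (h.pQ j _ (hq j)).1.pos
  have hqZ : ∏ j, q j ≤ Z ^ (l + 1) := by
    have := Finset.prod_le_pow_card (univ : Finset (Fin (l + 1))) q Z
      fun j _ => (h.pQ j _ (hq j)).2.2
    simpa using this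
  have hcop : ∀ i j, i ≠ j → Nat.Coprime (q i) (q j) := by
    intro i j hij
    refine (Nat.coprime_primes (h.pQ i _ (hq i)).1 (h.pQ j _ (hq j)).1).2 fun hh => ?_
    exact Finset.disjoint_left.1 (h.dQ hij) (hq i) (hh ▸ hq j)
  set A := l.factorial * ∏ j, q j with hA
  set H := (Z * D) ^ 2 ^ l with hH
  have hE : D * ((l + 1) * A * H) ≤ N := by
    refine le_trans ?_ hN
    gcongr
    exact Nat.mul_le_mul_left _ hqZ
  have hE1 : (l + 1) * A * H ≤ N := le_trans (Nat.le_mul_of_pos_left _ hD) hE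
  have hE2 : (∏ j, q j) * (l + 1) * H ≤ N := by
    refine le_trans ?_ hE1
    have : ∏ j, q j ≤ A := Nat.le_mul_of_pos_left _ l.factorial_pos
    calc (∏ j, q j) * (l + 1) * H ≤ A * (l + 1) * H := by gcongr
      _ = (l + 1) * A * H := by ring
  have key := dil2 l P (pw P) (Kq l q g) (rq l q) A Z H N 1 (1 / D)
    (fun p _ => pw_nonneg P p) (sum_pw hrs).le ?_ (by positivity)
    ((div_le_one hD0).2 hD1) ?_ ?_ (Nat.mul_pos l.factorial_pos (Finset.prod_pos fun j _ => hq0 j))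
    (rq_per q) (rq_mean hq0 hcop).le (Kq_le q fun j x => (hg j).bound x)
    (str_Kq hq0 hg hE2) hE1
  · refine le_trans key ?_
    have hE' : (D : ℝ) * (((l : ℝ) + 1) * A * H) ≤ N := by exact_mod_cast hE
    have hE'' : ((l : ℝ) + 1) * A * H ≤ 1 / D * N := by
      rw [one_div, inv_mul_eq_div, le_div_iff₀ hD0]
      linarith
    have hN0 : (0 : ℝ) ≤ N := Nat.cast_nonneg N
    have := mul_le_mul_of_nonneg_right hE'' hN0
    have e1 : (72 : ℝ) / D * N ^ 2 = 40 * (1 / D) * N ^ 2 + 32 * (1 / D * N * N) := by ring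
    rw [e1, one_mul]
    linarith
  · intro p hp
    obtain ⟨hpp, hlp, hpZ⟩ := h.pP p hp
    refine ⟨hpp.pos, hpZ, Nat.Coprime.mul_left ?_ (Nat.Coprime.prod_left fun j _ => ?_)⟩
    · exact ((Nat.Prime.coprime_iff_not_dvd hpp).2 fun hh =>
        absurd ((hpp.dvd_factorial).1 hh) (not_le.2 hlp)).symm
    · refine (Nat.coprime_primes (h.pQ j _ (hq j)).1 hpp).2 fun hh => ?_
      exact Finset.disjoint_left.1 (h.dP j) (hq j) (hh ▸ hp)
  · have h1 := loc_bad (fun p hp => (h.pP p hp).1) hrs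
    have h2 : 1 / rs P ≤ 1 / ((4 : ℝ) ^ l * D ^ 2 ^ l) :=
      one_div_le_one_div_of_le (by positivity) (hK.trans h.bP)
    calc (4 : ℝ) ^ l * bad P (pw P) id ≤ 4 ^ l * (1 / ((4 : ℝ) ^ l * D ^ 2 ^ l)) :=
          mul_le_mul_of_nonneg_left (h1.trans h2) (by positivity)
      _ = (1 / D) ^ 2 ^ l := by
          rw [one_div_pow]
          field_simp
  · rw [hH]
    push_cast
    rw [← mul_pow]
    refine le_of_eq ?_
    congr 1
    field_simp

/-- LOC. Counts of glued structured functions agree with the counts on most prime dilates. -/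
theorem loc (l : ℕ) {e : ℝ} (he : 0 < e) :
    ∃ (K0 : ℝ) (a : ℕ), 1 ≤ K0 ∧ ∀ (Q : Fin (l + 1) → Finset ℕ) (P : Finset ℕ) (Z N : ℕ),
      PS l K0 a Q P Z N → ∀ g : Fin (l + 1) → ℕ → ℕ → ℝ,
      (∀ j, ∀ q ∈ Q j, Str l 1 (N / q) (g j q)) →
      |Lam l N (fun j => Gt (Q j) (g j)) -
        ∑ p ∈ P, pw P p * Lam l (N / p) (dl p fun j => Gt (Q j) (g j))| ≤ e := by
  obtain ⟨K1, hK1, htk⟩ := tk2 l (e := e / 4) (by positivity)
  obtain ⟨D0, hD0⟩ := exists_nat_ge (148 / e)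
  obtain ⟨K2, hK2⟩ := exists_nat_ge K1
  set D := D0 + 1 with hDdef
  have hD : 1 ≤ D := Nat.le_add_left 1 D0
  have hDe : 148 / e ≤ (D : ℝ) := by
    rw [hDdef]
    push_cast
    linarith
  have hDpos : (0 : ℝ) < D := by exact_mod_cast hD
  set K3 := D * ((l + 1) * l.factorial * D ^ 2 ^ l) with hK3
  set K4 := 4 ^ l * D ^ 2 ^ l with hK4
  set K := K2 + K3 + K4 + D with hKdef
  have hK2K : K2 ≤ K := by omega
  have hK3K : K3 ≤ K := by omega
  have hK4K : K4 ≤ K := by omega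
  have hDK : D ≤ K := by omega
  have hKpos : (1 : ℝ) ≤ K := by exact_mod_cast hD.trans hDK
  have hK1K : K1 ≤ K := hK2.trans (by exact_mod_cast hK2K)
  refine ⟨K, 2 ^ l + (2 * l + 3), hKpos, fun Q P Z N h g hg => ?_⟩
  have hrs : 0 < rs P := lt_of_lt_of_le (by linarith) h.bP
  have hrsQ : ∀ j, 0 < rs (Q j) := fun j => lt_of_lt_of_le (by linarith) (h.bQ j)
  have hZ : 1 ≤ Z := by
    rcases P.eq_empty_or_nonempty with hP | ⟨p, hp⟩
    · simp [rs, hP] at hrs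
    · exact (h.pP p hp).1.one_le.trans (h.pP p hp).2.2
  have hsz : K * Z ^ (2 ^ l + (2 * l + 3)) ≤ N := by exact_mod_cast h.sz
  have hpow : ∀ b c : ℕ, b ≤ K → c ≤ 2 ^ l + (2 * l + 3) → b * Z ^ c ≤ N := fun b c hb hc =>
    le_trans (Nat.mul_le_mul hb (Nat.pow_le_pow_right hZ hc)) hsz
  have hpow' : ∀ b c : ℕ, b ≤ K → c ≤ 2 * l + 3 → b * Z ^ c ≤ N := fun b c hb hc =>
    hpow b c hb (hc.trans (Nat.le_add_left _ _))
  set G : Om l := fun j => Gt (Q j) (g j) with hG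
  have hG1 : ∀ j x, |G j x| ≤ 1 := fun j x =>
    Gt_le zero_le_one (fun q hq y => (hg j q hq).bound y) x
  set X : ℕ × ℕ → ℝ := Pr l fun j => om (Q j) with hX
  -- the Turan-Kubilius inequality at every large scale
  have htk' : ∀ n : ℕ, K2 * Z ^ (2 * l + 2) ≤ n →
      ∑ z ∈ box n, |X z - 1| ≤ e / 4 * (n : ℝ) ^ 2 := by
    intro n hn
    refine htk Q Z n (fun j q hq => ⟨(h.pQ j q hq).1, (h.pQ j q hq).2.2⟩) h.dQ
      (fun j => hK1K.trans (h.bQ j)) ?_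
    have hn' : (K2 : ℝ) * (Z : ℝ) ^ (2 * l + 2) ≤ n := by exact_mod_cast hn
    exact le_trans (mul_le_mul_of_nonneg_right hK2 (by positivity)) hn'
  -- the dilation estimate for the mixture
  have hmix := loc_mix (Fintype.piFinset Q) (fun q => ∏ j, pw (Q j) (q j))
    (fun q _ => Finset.prod_nonneg fun j _ => pw_nonneg _ _) (loc_weight hrsQ)
    (fun q => Kq l q fun j => g j (q j)) (fun z => X z * Pr l G z)
    (loc_expand (fun j q hq => (h.pQ j q hq).1.pos) g) P (pw P) (pw_nonneg P) N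
    (72 / D * (N : ℝ) ^ 2) (fun q hq => by
      have hq' := Fintype.mem_piFinset.1 hq
      refine loc_tuple h hD ?_ ?_ hq' fun j => hg j _ (hq' j)
      · exact_mod_cast hK4K
      · refine le_trans (le_of_eq ?_) (hpow K3 (2 ^ l + (l + 1)) hK3K (by omega))
        rw [hK3, mul_pow, pow_add]
        ring)
  have hZN : D * Z ≤ N := by simpa using hpow' D 1 hDK (by omega)
  have hNpos : 0 < N := lt_of_lt_of_le (Nat.mul_pos hD hZ) hZN
  have hN0 : (0 : ℝ) < N := by exact_mod_cast hNpos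
  have hZN' : (Z : ℝ) / N ≤ 1 / D := by
    rw [div_le_div_iff₀ hN0 hDpos]
    have : (D : ℝ) * Z ≤ N := by exact_mod_cast hZN
    linarith
  -- the estimate for one prime
  have hone : ∀ p ∈ P, |Lam l N G - Lam l (N / p) (dl p G)| ≤ 2 * (e / 4) +
      |(p : ℝ) ^ 2 * ∑ z ∈ box (N / p), X (p • z) * Pr l G (p • z) -
        ∑ z ∈ box N, X z * Pr l G z| / (N : ℝ) ^ 2 + 2 * ((Z : ℝ) / N) := by
    intro p hp
    obtain ⟨hpp, -, hpZ⟩ := h.pP p hp
    have hXp : ∀ z, X (p • z) = X z := by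
      intro z
      rw [hX, Pr_smul]
      unfold Pr dl dil
      refine Finset.prod_congr rfl fun j _ => om_mul (fun q hq => ?_) _
      refine (Nat.coprime_primes (h.pQ j q hq).1 hpp).2 fun hh => ?_
      exact Finset.disjoint_left.1 (h.dP j) hq (hh ▸ hp)
    have hk : ∀ b : ℕ, b ≤ K → b * Z ^ (2 * l + 2) ≤ N / p := by
      intro b hb
      rw [Nat.le_div_iff_mul_le hpp.pos]
      refine le_trans ?_ (hpow' b (2 * l + 2 + 1) hb (by omega))
      rw [pow_succ _ (2 * l + 2), mul_assoc]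
      gcongr
    have hk0 : 0 < N / p :=
      lt_of_lt_of_le (Nat.mul_pos hD (Nat.pow_pos hZ)) (hk D hDK)
    have hdl : ∀ j x, |dl p G j x| ≤ 1 := fun j x => hG1 j _
    have h1 : (p : ℝ) * (N / p : ℕ) ≤ N := by exact_mod_cast Nat.mul_div_le N p
    have h2 : (N : ℝ) - p * (N / p : ℕ) ≤ Z := by
      have h3 : N ≤ p * (N / p) + Z := by
        have := Nat.div_add_mod N p
        have := Nat.mod_lt N hpp.pos
        omega
      have h4 : (N : ℝ) ≤ p * (N / p : ℕ) + Z := by exact_mod_cast h3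
      linarith
    refine loc_arith (by exact_mod_cast hk0) (by exact_mod_cast hpp.pos) h1 h2
      ((loc_rem _ X _ (Pr_le hG1)).trans (htk' N (hpow' _ _ hK2K (by omega)))) ?_ (LS_le hdl _)
    simp only [hXp, Pr_smul]
    exact (loc_rem _ X _ (Pr_le hdl)).trans (htk' _ (hk _ hK2K))
  have hsum := sum_pw hrs
  have e1 : Lam l N G - ∑ p ∈ P, pw P p * Lam l (N / p) (dl p G) =
      ∑ p ∈ P, pw P p * (Lam l N G - Lam l (N / p) (dl p G)) := by
    simp only [mul_sub]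
    rw [Finset.sum_sub_distrib, ← Finset.sum_mul, hsum, one_mul]
  rw [e1]
  refine le_trans (Finset.abs_sum_le_sum_abs _ _) ?_
  refine le_trans (Finset.sum_le_sum fun p hp => ?_ : _ ≤ ∑ p ∈ P, (pw P p *
      (2 * (e / 4) + 2 * ((Z : ℝ) / N)) + pw P p *
      |(p : ℝ) ^ 2 * ∑ z ∈ box (N / p), X (p • z) * Pr l G (p • z) -
        ∑ z ∈ box N, X z * Pr l G z| / (N : ℝ) ^ 2)) ?_
  · rw [abs_mul, abs_of_nonneg (pw_nonneg P p)]
    refine le_trans (mul_le_mul_of_nonneg_left (hone p hp) (pw_nonneg P p)) (le_of_eq ?_)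
    ring
  · rw [Finset.sum_add_distrib, ← Finset.sum_mul, hsum, one_mul, ← Finset.sum_div]
    have h5 := (div_le_iff₀ (by positivity : (0 : ℝ) < (N : ℝ) ^ 2)).2 hmix
    have h6 : 74 * (1 / (D : ℝ)) ≤ e / 2 := by
      rw [div_le_iff₀ he] at hDe
      rw [mul_one_div, div_le_iff₀ hDpos]
      linarith
    have h7 : (72 : ℝ) / D = 72 * (1 / D) := by ring
    linarith

end Pool.Agent.Lib.MP_0a3467_an.Cv
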