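import Pool.Agent.Lib.MP_0a3467_an.Cv.Defs

open Finset

namespace Pool.Agent.Lib.MP_0a3467_an.Cv

variable {q q' : ℕ} {f f' : ℕ → ℝ} {W W' : ℕ × ℕ → ℝ}

theorem perl_ioc (f : ℕ → ℝ) (a n : ℕ) :
    ∑ x ∈ Ioc a (a + n), f x = ∑ t ∈ range n, f (a + 1 + t) := by
  induction n with
  | zero => simp
  | succ n ih =>
    rw [← add_assoc, sum_Ioc_succ_top (Nat.le_add_right a n), ih, sum_range_succ]
    congr 2
    ring

theorem perl_range (hf : Function.Periodic f q) (a : ℕ) :
    ∑ t ∈ range q, f (a + t) = ∑ t ∈ range q, f t := by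
  induction a with
  | zero => simp
  | succ a ih =>
    have h1 := sum_range_succ (fun t => f (a + t)) q
    have h2 := sum_range_succ' (fun t => f (a + t)) q
    have h3 : ∑ t ∈ range q, f (a + 1 + t) = ∑ t ∈ range q, f (a + (t + 1)) :=
      sum_congr rfl fun t _ => by congr 1; ring
    rw [hf a] at h1
    rw [add_zero] at h2
    rw [h3, ← ih]
    linarith

theorem perl_full (hf : Function.Periodic f q) (a : ℕ) :
    ∑ x ∈ Ioc a (a + q), f x = ∑ t ∈ range q, f t := by
  rw [perl_ioc, perl_range hf]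

theorem perl_zero (hf : Function.Periodic f q) :
    ∑ x ∈ Ioc 0 q, f x = ∑ t ∈ range q, f t := by
  simpa using perl_full hf 0

theorem perl_many (hf : Function.Periodic f q) (a k : ℕ) :
    ∑ x ∈ Ioc a (a + q * k), f x = k * ∑ t ∈ range q, f t := by
  induction k with
  | zero => simp
  | succ k ih =>
    rw [← sum_Ioc_consecutive f (Nat.le_add_right a (q * k))
      (show a + q * k ≤ a + q * (k + 1) by nlinarith [Nat.zero_le q]), ih,
      show a + q * (k + 1) = a + q * k + q by ring, perl_full hf]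
    push_cast
    ring

theorem perl_bij {α β : Type} (S : Finset α) (T : Finset β) (φ : α → β) (g : β → ℝ)
    (h1 : ∀ a ∈ S, φ a ∈ T) (h2 : Set.InjOn φ S) (h3 : T.card ≤ S.card) :
    ∑ a ∈ S, g (φ a) = ∑ b ∈ T, g b := by
  classical
  have : S.image φ = T := eq_of_subset_of_card_le (image_subset_iff.2 h1)
    (by rw [card_image_of_injOn h2]; exact h3)
  rw [← this, sum_image h2]

theorem av_nonneg (hf : ∀ x, 0 ≤ f x) (n : ℕ) : 0 ≤ av n f :=
  div_nonneg (sum_nonneg fun x _ => hf x) (Nat.cast_nonneg n)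

theorem av_shift (hf : Function.Periodic f q) (x : ℕ) : av q (fun t => f (x + t)) = av q f := by
  have hg : Function.Periodic (fun t => f (x + t)) q := fun t => by
    simp only [← add_assoc]
    exact hf _
  unfold av
  rw [perl_zero hg, perl_zero hf, perl_range hf]

theorem av_affine (hf : Function.Periodic f q) {A : ℕ} (hA : Nat.Coprime A q) (x : ℕ) :
    av q (fun t => f (x + A * t)) = av q f := by
  have hs : Function.Periodic (fun t => f (x + t)) q := fun t => by
    simp only [← add_assoc]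
    exact hf _
  have hg : Function.Periodic (fun t => f (x + A * t)) q := fun t => by
    have := (hf.nat_mul A) (x + A * t)
    simp only [mul_add, ← add_assoc]
    simpa using this
  unfold av
  rw [perl_zero hg, perl_zero hf, ← perl_range hf x,
    ← perl_bij (range q) (range q) (fun t => A * t % q) (fun t => f (x + t)) ?_ ?_ le_rfl]
  · congr 1
    exact sum_congr rfl fun t _ => (hs.map_mod_nat (A * t)).symm
  · intro a ha
    exact mem_range.2 (Nat.mod_lt _ (lt_of_le_of_lt (Nat.zero_le a) (mem_range.1 ha)))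
  · intro a ha b hb hab
    have h1 : a ≡ b [MOD q] := Nat.ModEq.cancel_left_of_coprime hA.symm hab
    exact Nat.ModEq.eq_of_lt_of_lt h1 (by simpa using ha) (by simpa using hb)

theorem av_mul_period (hf : Function.Periodic f q) {k : ℕ} (hk : 0 < k) :
    av (q * k) f = av q f := by
  have h := perl_many hf 0 k
  rw [zero_add] at h
  unfold av
  rw [h, perl_zero hf]
  push_cast
  rw [mul_comm (q : ℝ), mul_div_mul_left _ _ (by positivity)]

/-- Chinese remainder theorem for a function of two variables. -/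
theorem sum_crt (Φ : ℕ → ℕ → ℝ) (h1 : ∀ a b, Φ (a + q) b = Φ a b)
    (h2 : ∀ a b, Φ a (b + q') = Φ a b) (hc : Nat.Coprime q q') :
    ∑ a ∈ Ioc 0 (q * q'), Φ a a = ∑ a ∈ Ioc 0 q, ∑ b ∈ Ioc 0 q', Φ a b := by
  have p1 : ∀ b, Function.Periodic (fun a => Φ a b) q := fun b a => h1 a b
  have p2 : ∀ a, Function.Periodic (fun b => Φ a b) q' := fun a b => h2 a b
  have key : ∀ a, Φ (a % q) (a % q') = Φ a a := fun a =>
    ((p1 _).map_mod_nat a).trans ((p2 _).map_mod_nat a)
  have p3 : Function.Periodic (fun a => Φ a a) (q * q') := fun a => by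
    simp only
    rw [← key, ← key a, Nat.add_mul_mod_self_left, Nat.add_mul_mod_self_right]
  have p4 : Function.Periodic (fun a => ∑ b ∈ Ioc 0 q', Φ a b) q := fun a =>
    sum_congr rfl fun b _ => h1 a b
  rw [perl_zero p3, perl_zero p4, sum_congr rfl fun a _ => perl_zero (p2 a), ← sum_product',
    ← perl_bij (range (q * q')) (range q ×ˢ range q') (fun a => (a % q, a % q'))
      (fun z => Φ z.1 z.2) ?_ ?_ (by simp)]
  · exact sum_congr rfl fun a _ => (key a).symm
  · intro a ha
    have h0 : 0 < q * q' := lt_of_le_of_lt (Nat.zero_le a) (mem_range.1 ha)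
    exact mem_product.2 ⟨mem_range.2 (Nat.mod_lt _ (Nat.pos_of_mul_pos_right h0)),
      mem_range.2 (Nat.mod_lt _ (Nat.pos_of_mul_pos_left h0))⟩
  · intro a ha b hb hab
    have h3 : a ≡ b [MOD q * q'] := (Nat.modEq_and_modEq_iff_modEq_mul hc).1
      ⟨congrArg Prod.fst hab, congrArg Prod.snd hab⟩
    exact Nat.ModEq.eq_of_lt_of_lt h3 (by simpa using ha) (by simpa using hb)

theorem av_mul (hf : Function.Periodic f q) (hf' : Function.Periodic f' q')
    (hc : Nat.Coprime q q') : av (q * q') (fun x => f x * f' x) = av q f * av q' f' := by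
  unfold av
  rw [sum_crt (fun a b => f a * f' b) (fun a b => by rw [hf a]) (fun a b => by rw [hf' b]) hc,
    ← sum_mul_sum, div_mul_div_comm, Nat.cast_mul]

theorem periodic_prod {ι : Type} (T : Finset ι) (q : ι → ℕ) (f : ι → ℕ → ℝ)
    (hf : ∀ i ∈ T, Function.Periodic (f i) (q i)) :
    Function.Periodic (fun x => ∏ i ∈ T, f i x) (∏ i ∈ T, q i) := by
  intro x
  refine prod_congr rfl fun i hi => ?_
  obtain ⟨k, hk⟩ := dvd_prod_of_mem q hi
  rw [hk, mul_comm]
  simpa using (hf i hi).nat_mul k x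

theorem av_prod {ι : Type} (T : Finset ι) (q : ι → ℕ) (f : ι → ℕ → ℝ)
    (hf : ∀ i ∈ T, Function.Periodic (f i) (q i))
    (hc : ∀ i ∈ T, ∀ j ∈ T, i ≠ j → Nat.Coprime (q i) (q j)) :
    av (∏ i ∈ T, q i) (fun x => ∏ i ∈ T, f i x) = ∏ i ∈ T, av (q i) (f i) := by
  classical
  induction T using Finset.induction_on with
  | empty => simp [av]
  | insert i T hi ih =>
    have hf' : ∀ j ∈ T, Function.Periodic (f j) (q j) := fun j hj => hf j (mem_insert_of_mem hj)
    simp only [prod_insert hi]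
    rw [av_mul (hf i (mem_insert_self i T)) (periodic_prod T q f hf')
      (Nat.Coprime.prod_right fun j hj => hc i (mem_insert_self i T) j (mem_insert_of_mem hj)
        (fun h => hi (h ▸ hj))),
      ih hf' fun a ha b hb => hc a (mem_insert_of_mem ha) b (mem_insert_of_mem hb)]

theorem av_dvd {r : ℕ} (hr : 0 < r) (c : ℝ) :
    av r (fun x => if r ∣ x then c else 0) = c / r := by
  unfold av
  congr 1
  rw [sum_eq_single r]
  · simp
  · intro b hb hbr
    rw [if_neg]
    intro h
    exact hbr (le_antisymm (mem_Ioc.1 hb).2 (Nat.le_of_dvd (mem_Ioc.1 hb).1 h))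
  · intro h
    exact absurd (mem_Ioc.2 ⟨hr, le_rfl⟩) h

theorem perl_av (hf : Function.Periodic f q) (hq : 0 < q) :
    ∑ t ∈ range q, f t = q * av q f := by
  unfold av
  rw [perl_zero hf, mul_div_cancel₀ _ (by positivity)]

theorem seg_le (hf : Function.Periodic f q) (hq : 0 < q) (h0 : ∀ x, 0 ≤ f x) (a n : ℕ) :
    ∑ x ∈ Ioc a (a + n), f x ≤ ((n : ℝ) + q) * av q f := by
  have h1 : n ≤ q * (n / q + 1) := (Nat.lt_mul_div_succ n hq).le
  have h2 : ((n / q + 1 : ℕ) : ℝ) * q ≤ n + q := by
    have : (n / q + 1) * q ≤ n + q := by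
      rw [add_mul, one_mul]
      exact Nat.add_le_add_right (Nat.div_mul_le_self n q) q
    exact_mod_cast this
  refine (sum_le_sum_of_subset_of_nonneg (Ioc_subset_Ioc_right (Nat.add_le_add_left h1 a))
    fun x _ _ => h0 x).trans ?_
  rw [perl_many hf, perl_av hf hq, ← mul_assoc]
  exact mul_le_mul_of_nonneg_right h2 (av_nonneg h0 q)

theorem seg_ge (hf : Function.Periodic f q) (hq : 0 < q) (h0 : ∀ x, 0 ≤ f x) (a n : ℕ) :
    ((n : ℝ) - q) * av q f ≤ ∑ x ∈ Ioc a (a + n), f x := by
  have h1 : q * (n / q) ≤ n := Nat.mul_div_le n q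
  have h2 : (n : ℝ) - q ≤ ((n / q : ℕ) : ℝ) * q := by
    have h3 : n ≤ n / q * q + q := by
      have := (Nat.lt_mul_div_succ n hq).le
      rwa [mul_add, mul_one, mul_comm] at this
    have h4 : (n : ℝ) ≤ ((n / q : ℕ) : ℝ) * q + q := by exact_mod_cast h3
    linarith
  refine le_trans ?_ (sum_le_sum_of_subset_of_nonneg
    (Ioc_subset_Ioc_right (Nat.add_le_add_left h1 a)) fun x _ _ => h0 x)
  rw [perl_many hf, perl_av hf hq, ← mul_assoc]
  exact mul_le_mul_of_nonneg_right h2 (av_nonneg h0 q)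

end Pool.Agent.Lib.MP_0a3467_an.Cv
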