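import Pool.Agent.Lib.MP_0a3467_an.Cv.TK
import Pool.Agent.Lib.MP_a3366f_nt.An5

open Finset

namespace Pool.Agent.Lib.MP_0a3467_an.Cv

theorem prime_short (P : Finset ℕ) {u v : ℝ} (hu : 0 < u) (hv : 1 < v)
    (hP : ∀ p ∈ P, p.Prime ∧ u < p ∧ (p : ℝ) ≤ 4 * u ∧ v ≤ p) : rs P ≤ 6 / Real.log v := by
  have hl : 0 < Real.log v := Real.log_pos hv
  have h1 : rs P ≤ (∑ p ∈ P, Real.log p) / (u * Real.log v) := by
    rw [rs, sum_div]
    refine sum_le_sum fun p hp => ?_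
    obtain ⟨-, h2, -, h3⟩ := hP p hp
    have h4 : Real.log v ≤ Real.log p := Real.log_le_log (by linarith) h3
    rw [div_le_div_iff₀ (by linarith) (by positivity), one_mul, mul_comm]
    exact mul_le_mul h4 h2.le hu.le (by linarith)
  have h2 : ∑ p ∈ P, Real.log p ≤ Chebyshev.theta (4 * u) := by
    refine sum_le_sum_of_subset_of_nonneg (fun p hp => ?_) fun p _ _ => Real.log_natCast_nonneg p
    obtain ⟨h2, -, h3, -⟩ := hP p hp
    exact mem_filter.2 ⟨mem_Ioc.2 ⟨h2.pos, Nat.le_floor h3⟩, h2⟩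
  have h3 := Chebyshev.theta_le_log4_mul_x (x := 4 * u) (by positivity)
  have h4 : Real.log 4 ≤ 3 / 2 := by
    rw [show (4 : ℝ) = 2 ^ 2 by norm_num, Real.log_pow]
    have := Real.log_two_lt_d9
    push_cast
    linarith
  refine h1.trans ?_
  rw [div_le_div_iff₀ (by positivity) hl]
  have h5 : ∑ p ∈ P, Real.log p ≤ 6 * u := by nlinarith
  nlinarith

theorem prime_long : ∃ u0 : ℕ, ∀ u ≥ u0, 1 / 4 ≤ rs ((Ioc u (u ^ 2)).filter Nat.Prime) := by
  obtain ⟨C, hC⟩ := Pool.Agent.Lib.MP_a3366f_nt.mertens_primes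
  refine ⟨⌈Real.exp (4 * C)⌉₊ + 2, fun u hu => ?_⟩
  have hu2 : 2 ≤ u := by omega
  have hu1 : (1 : ℝ) < u := by exact_mod_cast hu2
  have hl : 0 < Real.log u := Real.log_pos hu1
  have h0 : 4 * C ≤ Real.log u := by
    rw [Real.le_log_iff_exp_le (by linarith)]
    exact (Nat.le_ceil _).trans (by exact_mod_cast (by omega : ⌈Real.exp (4 * C)⌉₊ ≤ u))
  have hle : u ≤ u ^ 2 := Nat.le_self_pow two_ne_zero u
  have h1 := (abs_le.1 (hC u (by omega))).2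
  have h2 := (abs_le.1 (hC (u ^ 2) (by omega))).1
  rw [← Ioc_union_Ioc_eq_Ioc (Nat.zero_le u) hle, filter_union,
    sum_union (disjoint_filter_filter (Ioc_disjoint_Ioc_of_le le_rfl)), Nat.cast_pow,
    Real.log_pow] at h2
  have h3 : ∑ p ∈ (Ioc u (u ^ 2)).filter Nat.Prime, Real.log p / p ≤
      2 * Real.log u * rs ((Ioc u (u ^ 2)).filter Nat.Prime) := by
    rw [rs, mul_sum]
    refine sum_le_sum fun p hp => ?_
    obtain ⟨h3, h4⟩ := mem_filter.1 hp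
    have h5 : (0 : ℝ) < p := by exact_mod_cast h4.pos
    have h6 : Real.log p ≤ Real.log ((u : ℝ) ^ 2) :=
      Real.log_le_log h5 (by exact_mod_cast (mem_Ioc.1 h3).2)
    rw [Real.log_pow] at h6
    rw [mul_one_div]
    exact div_le_div_of_nonneg_right (by exact_mod_cast h6) h5.le
  push_cast at h2
  by_contra h
  have h4 := mul_lt_mul_of_pos_left (not_le.1 h) hl
  linarith

lemma primes_block {u0 : ℕ} (h0 : ∀ u ≥ u0, 1 / 4 ≤ rs ((Ioc u (u ^ 2)).filter Nat.Prime))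
    {u : ℕ} (hu : u0 ≤ u) (m : ℕ) :
    (m : ℝ) / 4 ≤ rs ((Ioc u (u ^ 2 ^ m)).filter Nat.Prime) := by
  induction m with
  | zero => simp [rs]
  | succ m ih =>
    have h1 : u ≤ u ^ 2 ^ m := Nat.le_self_pow (by positivity) u
    have h2 := h0 (u ^ 2 ^ m) (hu.trans h1)
    rw [pow_succ, pow_mul, ← Ioc_union_Ioc_eq_Ioc h1 (Nat.le_self_pow two_ne_zero _),
      filter_union, rs, sum_union (disjoint_filter_filter (Ioc_disjoint_Ioc_of_le le_rfl))]
    rw [rs] at ih h2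
    push_cast
    linarith

/-- PRIMES. Prime systems exist in power ranges. -/
theorem exists_PS (l : ℕ) (K : ℝ) (a : ℕ) :
    ∃ a0 N1 : ℕ, ∀ N ≥ N1, ∃ (Q : Fin (l + 1) → Finset ℕ) (P : Finset ℕ) (Z : ℕ),
      PS l K a Q P Z N ∧ (∀ j, ∀ q ∈ Q j, N ≤ q ^ a0) ∧ ∀ p ∈ P, N ≤ p ^ a0 := by
  obtain ⟨u0, h0⟩ := prime_long
  set D := 2 ^ ⌈4 * K⌉₊ with hD
  have hD0 : 0 < D := by positivity
  set n := D ^ (l + 2) * (a + 1) with hn
  have hn0 : n ≠ 0 := by positivity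
  refine ⟨n, (u0 + l + ⌈K⌉₊ + 1) ^ n, fun N hN => ?_⟩
  set u := Nat.nthRoot n N with hu
  have h1 : u0 + l + ⌈K⌉₊ + 1 ≤ u := (Nat.le_nthRoot_iff hn0).2 hN
  have h2 : u ^ n ≤ N := Nat.pow_nthRoot_le (.inl hn0)
  have h3 : N < (u + 1) ^ n := Nat.lt_pow_nthRoot_add_one hn0 N
  have mono : ∀ i j, i ≤ j → u ^ D ^ i ≤ u ^ D ^ j := fun i j h =>
    Nat.pow_le_pow_right (by omega) (Nat.pow_le_pow_right hD0 h)
  have low : ∀ i, u ≤ u ^ D ^ i := fun i => Nat.le_self_pow (by positivity) u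
  let S : ℕ → Finset ℕ := fun i => (Ioc (u ^ D ^ i) (u ^ D ^ (i + 1))).filter Nat.Prime
  have s1 : ∀ i ≤ l + 1, ∀ q ∈ S i, q.Prime ∧ l < q ∧ q ≤ u ^ D ^ (l + 2) := by
    intro i hi q hq
    obtain ⟨a1, a2⟩ := mem_filter.1 hq
    obtain ⟨a3, a4⟩ := mem_Ioc.1 a1
    have := low i
    exact ⟨a2, by omega, a4.trans (mono _ _ (by omega))⟩
  have s2 : ∀ i j, i < j → Disjoint (S i) (S j) := fun i j h =>
    disjoint_filter_filter (Ioc_disjoint_Ioc_of_le (mono _ _ h))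
  have s3 : ∀ i, K ≤ rs (S i) := by
    intro i
    have a1 := primes_block h0 (u := u ^ D ^ i) (by have := low i; omega) ⌈4 * K⌉₊
    rw [← hD, ← pow_mul u, ← pow_succ] at a1
    have a2 := Nat.le_ceil (4 * K)
    exact le_trans (by linarith) a1
  have s4 : ∀ i, ∀ q ∈ S i, N ≤ q ^ n := by
    intro i q hq
    have a3 := (mem_Ioc.1 (mem_filter.1 hq).1).1
    have := low i
    exact h3.le.trans (Nat.pow_le_pow_left (by omega) n)
  refine ⟨fun j => S j, S (l + 1), u ^ D ^ (l + 2),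
    ⟨fun j => s1 j j.2.le, s1 _ le_rfl, fun i j h => ?_, fun j => s2 _ _ j.2, fun j => s3 j,
      s3 _, ?_⟩, fun j => s4 j, s4 _⟩
  · rcases lt_or_gt_of_ne h with h | h
    · exact s2 _ _ h
    · exact (s2 _ _ h).symm
  · have a1 : K ≤ (u ^ D ^ (l + 2) : ℕ) := (Nat.le_ceil K).trans
      (by exact_mod_cast (by have := low (l + 2); omega : ⌈K⌉₊ ≤ u ^ D ^ (l + 2)))
    have a2 : ((u ^ D ^ (l + 2) : ℕ) : ℝ) ^ (a + 1) ≤ N := by
      rw [hn, pow_mul] at h2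
      exact_mod_cast h2
    exact ((mul_le_mul_of_nonneg_right a1 (pow_nonneg (Nat.cast_nonneg _) _)).trans_eq
      (pow_succ' _ a).symm).trans a2

end Pool.Agent.Lib.MP_0a3467_an.Cv
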