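import Pool.Agent.Lib.MP_0a3467_an.Cv.Exp2

open Finset

namespace Pool.Agent.Lib.MP_0a3467_an.Cv

open MeasureTheory

/-- The case of measurable real functions bounded by one. -/
theorem real_case {X : Type*} [MeasurableSpace X] (μ : Measure X) [IsProbabilityMeasure μ]
    (T : ℕ → X → X) (hT : ∀ n, 1 ≤ n → MeasurePreserving (T n) μ μ)
    (hmul : ∀ m n, 1 ≤ m → 1 ≤ n → T (m * n) =ᵐ[μ] T m ∘ T n) (l : ℕ) (F : Fin (l + 1) → X → ℝ)
    (hF : ∀ j, Measurable (F j)) (hb : ∀ j x, |F j x| ≤ 1) :
    ∃ c : ℝ, Filter.Tendsto (fun N : ℕ => (∑ m ∈ Icc 1 N, ∑ n ∈ Icc 1 N,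
      ∫ x, ∏ j : Fin (l + 1), F j (T (m + j * n) x) ∂μ) / (N : ℝ) ^ 2) Filter.atTop (nhds c) := by
  set Ψ : X → Om l := fun x j n => if n = 0 then 0 else F j (T n x) with hΨ
  have hΨn : ∀ j n, Measurable fun x => Ψ x j n := by
    intro j n
    by_cases hn : n = 0
    · simp [hΨ, hn]
    · simp only [hΨ, hn, if_false]
      exact (hF j).comp (hT n (Nat.pos_of_ne_zero hn)).measurable
  have hΨm : Measurable Ψ := measurable_pi_lambda _ fun j => measurable_pi_lambda _ (hΨn j)
  have hΨb : ∀ x j n, |Ψ x j n| ≤ 1 := by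
    intro x j n
    by_cases hn : n = 0
    · simp [hΨ, hn]
    · simp only [hΨ, hn, if_false]; exact hb _ _
  have hdl : ∀ R, Measurable (dl (l := l) R) := fun R =>
    measurable_pi_lambda _ fun j => measurable_pi_lambda _ fun n =>
      (measurable_pi_apply (R * n)).comp (measurable_pi_apply j)
  have hS : Stat (μ.map Ψ) := by
    refine ⟨Measure.isProbabilityMeasure_map hΨm.aemeasurable, ?_, fun R hR => ⟨hdl R, ?_⟩⟩
    · refine (ae_map_iff hΨm.aemeasurable ?_).2 (Filter.Eventually.of_forall hΨb)
      simp only [Set.ofPred_forall]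
      refine MeasurableSet.iInter fun j => MeasurableSet.iInter fun n => ?_
      exact measurableSet_le (((measurable_pi_apply n).comp (measurable_pi_apply j)).abs)
        measurable_const
    · rw [Measure.map_map (hdl R) hΨm]
      have h1 : dl R ∘ Ψ =ᵐ[μ] Ψ ∘ T R := by
        have h2 : ∀ᵐ x ∂μ, ∀ n : ℕ, 1 ≤ n → T (n * R) x = T n (T R x) := by
          rw [ae_all_iff]
          intro n
          by_cases hn : 1 ≤ n
          · filter_upwards [hmul n R hn hR] with x hx _ using hx
          · exact Filter.Eventually.of_forall fun x h => absurd h hn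
        filter_upwards [h2] with x hx
        funext j n
        by_cases hn : n = 0
        · simp [hΨ, hn, dl, dil]
        · have : R * n ≠ 0 := Nat.mul_ne_zero hR.ne' hn
          simp only [hΨ, Function.comp, dl, dil, hn, this, if_false]
          rw [mul_comm, hx n (Nat.pos_of_ne_zero hn)]
      rw [Measure.map_congr h1, ← Measure.map_map hΨm (hT R hR).measurable, (hT R hR).map_eq]
  obtain ⟨c, hc⟩ := core hS
  refine ⟨c, hc.congr fun N => ?_⟩
  have hI : Icc 1 N = Ioc 0 N := by ext x; simp [Nat.succ_le_iff]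
  have hPm : ∀ z, Measurable fun x => Pr l (Ψ x) z := fun z =>
    Finset.measurable_prod _ fun j _ => hΨn j _
  rw [AA, integral_map hΨm.aemeasurable (measurable_Lam l N).aestronglyMeasurable]
  simp only [Lam, LS]
  rw [integral_div, integral_finsetSum _ fun z _ => Integrable.of_bound
    (hPm z).aestronglyMeasurable 1 (Filter.Eventually.of_forall fun x => Pr_le (hΨb x) z),
    box, sum_product, hI]
  congr 1
  refine sum_congr rfl fun m hm => sum_congr rfl fun n _ => ?_
  congr 1
  funext x
  refine prod_congr rfl fun j _ => ?_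
  have : m + j * n ≠ 0 := by have := (mem_Ioc.1 hm).1; omega
  simp only [hΨ, this, if_false]

end Pool.Agent.Lib.MP_0a3467_an.Cv
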