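import Pool.Agent.Lib.MP_0a3467_an.Cv.Red1

open Finset

namespace Pool.Agent.Lib.MP_0a3467_an.Cv

open MeasureTheory

theorem red2_clamp (t : ℝ) : |max (-1) (min 1 t)| ≤ 1 :=
  abs_le.2 ⟨le_max_left _ _, max_le (by norm_num) (min_le_left _ _)⟩

theorem red2_clamp_eq {t : ℝ} (h : |t| ≤ 1) : max (-1) (min 1 t) = t := by
  obtain ⟨h1, h2⟩ := abs_le.1 h
  rw [min_eq_right h2, max_eq_right h1]

theorem red2_split {X : Type*} [MeasurableSpace X] (μ : Measure X) (F : X → ℂ)
    (hF : MemLp F ⊤ μ) : ∃ (w : Bool → ℂ) (u : Bool → X → ℝ), (∀ s, Measurable (u s)) ∧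
      (∀ s x, |u s x| ≤ 1) ∧ ∀ᵐ x ∂μ, F x = ∑ s, w s * (u s x : ℂ) := by
  have hG := hF.1.ae_eq_mk
  have hGm : Measurable (hF.1.mk F) := hF.1.stronglyMeasurable_mk.measurable
  have hfin : eLpNormEssSup F μ ≠ ⊤ := by
    have := hF.2.ne
    rwa [eLpNorm_exponent_top] at this
  obtain ⟨C, hC, hb⟩ : ∃ C : ℝ, 0 < C ∧ ∀ᵐ x ∂μ, ‖F x‖ ≤ C := by
    refine ⟨(eLpNormEssSup F μ).toReal + 1, by positivity, ?_⟩
    filter_upwards [ae_le_eLpNormEssSup (f := F) (μ := μ)] with x hx
    have := ENNReal.toReal_mono hfin hx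
    rw [toReal_enorm] at this
    linarith
  refine ⟨fun s => cond s (C : ℂ) (C * Complex.I), fun s x => cond s
    (max (-1) (min 1 ((hF.1.mk F x).re / C))) (max (-1) (min 1 ((hF.1.mk F x).im / C))),
    ?_, ?_, ?_⟩
  · rintro (_ | _)
    · exact measurable_const.max (measurable_const.min
        ((Complex.measurable_im.comp hGm).div_const C))
    · exact measurable_const.max (measurable_const.min
        ((Complex.measurable_re.comp hGm).div_const C))
  · rintro (_ | _) x <;> exact red2_clamp _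
  · filter_upwards [hG, hb] with x hx hx'
    have h1 : |(F x).re / C| ≤ 1 := by
      rw [abs_div, abs_of_pos hC, div_le_one hC]
      exact (Complex.abs_re_le_norm _).trans hx'
    have h2 : |(F x).im / C| ≤ 1 := by
      rw [abs_div, abs_of_pos hC, div_le_one hC]
      exact (Complex.abs_im_le_norm _).trans hx'
    rw [Fintype.sum_bool]
    simp only [cond_true, cond_false]
    rw [← hx, red2_clamp_eq h1, red2_clamp_eq h2]
    have hC' : (C : ℂ) ≠ 0 := by exact_mod_cast hC.ne'
    conv_lhs => rw [← Complex.re_add_im (F x)]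
    push_cast
    field_simp

/-- The general case. -/
theorem main {X : Type*} [MeasurableSpace X] (μ : Measure X) [IsProbabilityMeasure μ]
    (T : ℕ → X → X) (hT : ∀ n, 1 ≤ n → MeasurePreserving (T n) μ μ)
    (hmul : ∀ m n, 1 ≤ m → 1 ≤ n → T (m * n) =ᵐ[μ] T m ∘ T n) (l : ℕ) (F : Fin (l + 1) → X → ℂ)
    (hF : ∀ j, MemLp (F j) ⊤ μ) :
    ∃ c : ℂ, Filter.Tendsto (fun N : ℕ => (∑ m ∈ Icc 1 N, ∑ n ∈ Icc 1 N,
      ∫ x, ∏ j : Fin (l + 1), F j (T (m + j * n) x) ∂μ) / (N : ℂ) ^ 2) Filter.atTop (nhds c) := by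
  choose w u hu hb hFu using fun j => red2_split μ (F j) (hF j)
  choose c hc using fun σ : Fin (l + 1) → Bool =>
    real_case μ T hT hmul l (fun j => u j (σ j)) (fun j => hu j _) fun j => hb j _
  have key : ∀ m n : ℕ, 1 ≤ m → ∫ x, ∏ j : Fin (l + 1), F j (T (m + j * n) x) ∂μ =
      ∑ σ : Fin (l + 1) → Bool, (∏ j, w j (σ j)) *
        ((∫ x, ∏ j : Fin (l + 1), u j (σ j) (T (m + j * n) x) ∂μ : ℝ) : ℂ) := by
    intro m n hm
    have hTj : ∀ j : Fin (l + 1), MeasurePreserving (T (m + j * n)) μ μ := fun j =>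
      hT _ (hm.trans (Nat.le_add_right _ _))
    have h1 : ∀ᵐ x ∂μ, ∀ j : Fin (l + 1), F j (T (m + j * n) x) =
        ∑ s, w j s * (u j s (T (m + j * n) x) : ℂ) :=
      ae_all_iff.2 fun j => (hTj j).quasiMeasurePreserving.ae (hFu j)
    have h2 : ∀ σ : Fin (l + 1) → Bool,
        Integrable (fun x => ∏ j : Fin (l + 1), u j (σ j) (T (m + j * n) x)) μ := by
      intro σ
      refine Integrable.of_bound (C := 1) (Measurable.aestronglyMeasurable
        (Finset.measurable_prod _ fun j _ => (hu j _).comp (hTj j).measurable))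
        (Filter.Eventually.of_forall fun x => ?_)
      rw [Real.norm_eq_abs, abs_prod]
      exact prod_le_one (fun _ _ => abs_nonneg _) fun j _ => hb j _ _
    calc ∫ x, ∏ j : Fin (l + 1), F j (T (m + j * n) x) ∂μ
        = ∫ x, ∑ σ : Fin (l + 1) → Bool, (∏ j, w j (σ j)) *
            ((∏ j : Fin (l + 1), u j (σ j) (T (m + j * n) x) : ℝ) : ℂ) ∂μ := by
          refine integral_congr_ae ?_
          filter_upwards [h1] with x hx
          simp only [hx]
          rw [Fintype.prod_sum]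
          refine sum_congr rfl fun σ _ => ?_
          rw [prod_mul_distrib]
          push_cast
          rfl
      _ = _ := by
          rw [integral_finsetSum _ fun σ _ => ((h2 σ).ofReal).const_mul _]
          refine sum_congr rfl fun σ _ => ?_
          rw [integral_const_mul, integral_complex_ofReal]
  refine ⟨∑ σ : Fin (l + 1) → Bool, (∏ j, w j (σ j)) * (c σ : ℂ), ?_⟩
  refine Filter.Tendsto.congr (fun N => ?_) (tendsto_finsetSum _ fun σ _ =>
    ((Complex.continuous_ofReal.tendsto _).comp (hc σ)).const_mul (∏ j, w j (σ j)))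
  rw [sum_congr rfl fun m hm => sum_congr rfl fun n _ => key m n (mem_Icc.1 hm).1]
  simp only [Function.comp_apply]
  push_cast
  rw [sum_congr rfl fun m _ => sum_comm, sum_comm (s := Icc 1 N), sum_div]
  refine sum_congr rfl fun σ _ => ?_
  simp only [← mul_sum]
  ring

end Pool.Agent.Lib.MP_0a3467_an.Cv
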