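import Pool.Agent.Lib.MP_0a3467_an.Cv.CS
import Pool.Agent.Lib.MP_0a3467_an.Cv.PerM

open Finset

namespace Pool.Agent.Lib.MP_0a3467_an.Cv

lemma sv_av_mono {n : ℕ} {f g : ℕ → ℝ} (h : ∀ x, f x ≤ g x) : av n f ≤ av n g :=
  div_le_div_of_nonneg_right (sum_le_sum fun x _ => h x) (Nat.cast_nonneg n)

lemma sv_av_lin {n : ℕ} (hn : 0 < n) (f g k : ℕ → ℝ) (α β γ c : ℝ) :
    av n (fun x => α * f x + β * g x + γ * k x + c) =
      α * av n f + β * av n g + γ * av n k + c := by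
  have : (n : ℝ) ≠ 0 := by positivity
  unfold av
  simp only [sum_add_distrib, ← mul_sum, sum_const, Nat.card_Ioc, Nat.sub_zero, nsmul_eq_mul]
  field_simp

lemma sv_card_box (n : ℕ) : ((box n).card : ℝ) = (n : ℝ) ^ 2 := by
  simp [box, pow_two]

lemma sv_mean_mono {n : ℕ} {f g : ℕ × ℕ → ℝ} (h : ∀ x, f x ≤ g x) : mean n f ≤ mean n g :=
  div_le_div_of_nonneg_right (sum_le_sum fun x _ => h x) (by positivity)

lemma sv_mean_lin {n : ℕ} (hn : 0 < n) (f g : ℕ × ℕ → ℝ) (α β c : ℝ) :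
    mean n (fun x => α * f x + β * g x + c) = α * mean n f + β * mean n g + c := by
  have : (n : ℝ) ≠ 0 := by positivity
  unfold mean
  simp only [sum_add_distrib, ← mul_sum, sum_const, nsmul_eq_mul, sv_card_box]
  field_simp

/-- The class of local factors. -/
def svCl (C τ : ℝ) (p : ℕ) (u : ℕ → ℝ) : Prop :=
  Function.Periodic u p ∧ (∀ x, 0 ≤ u x ∧ u x ≤ C) ∧ av p u = 1 ∧
    av p (fun x => (u x - 1) ^ 2) ≤ τ / p

/-- The local correlation. -/
noncomputable def svM (p : ℕ) (u : ℕ → ℝ) (z : ℕ × ℕ) : ℝ :=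
  av p fun x => u (z.1 + x) * u (z.2 + x)

lemma svCl.shift {C τ : ℝ} {p : ℕ} {u : ℕ → ℝ} (h : svCl C τ p u) (a : ℕ) :
    svCl C τ p fun x => u (a + x) := by
  obtain ⟨h1, h2, h3, h4⟩ := h
  refine ⟨fun x => ?_, fun x => h2 _, ?_, ?_⟩
  · simp only [← add_assoc]; exact h1 _
  · rw [av_shift h1, h3]
  · have h5 : Function.Periodic (fun x => (u x - 1) ^ 2) p := fun x => by simp only [h1 x]
    exact (av_shift h5 a).le.trans h4

lemma svCl.mono {C τ C' τ' : ℝ} {p : ℕ} {u : ℕ → ℝ} (h : svCl C τ p u) (hC : C ≤ C')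
    (hτ : τ ≤ τ') : svCl C' τ' p u :=
  ⟨h.1, fun x => ⟨(h.2.1 x).1, (h.2.1 x).2.trans hC⟩, h.2.2.1,
    h.2.2.2.trans (div_le_div_of_nonneg_right hτ (Nat.cast_nonneg p))⟩

lemma sv_corr {C τ : ℝ} {p : ℕ} (hp : 0 < p) {u v : ℕ → ℝ} (hu : svCl C τ p u)
    (hv : svCl C τ p v) : |av p (fun x => u x * v x) - 1| ≤ τ / p := by
  have e : av p (fun x => u x * v x) = av p (fun x => (u x - 1) * (v x - 1)) + 1 := by
    have := sv_av_lin hp (fun x => (u x - 1) * (v x - 1)) u v 1 1 1 (-1)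
    rw [hu.2.2.1, hv.2.2.1] at this
    rw [show (fun x => u x * v x) =
      fun x => 1 * ((u x - 1) * (v x - 1)) + 1 * u x + 1 * v x + -1 from funext fun x => by ring,
      this]
    ring
  have h1 := sv_av_lin hp (fun x => (u x - 1) ^ 2) (fun x => (v x - 1) ^ 2) u (1 / 2) (1 / 2) 0 0
  have h2 := sv_av_lin hp (fun x => (u x - 1) ^ 2) (fun x => (v x - 1) ^ 2) u (-1 / 2) (-1 / 2)
    0 0
  have h3 : av p (fun x => (u x - 1) * (v x - 1)) ≤ av p (fun x => 1 / 2 * (u x - 1) ^ 2 +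
      1 / 2 * (v x - 1) ^ 2 + 0 * u x + 0) :=
    sv_av_mono fun x => by nlinarith [sq_nonneg (u x - v x)]
  have h4 : av p (fun x => -1 / 2 * (u x - 1) ^ 2 + -1 / 2 * (v x - 1) ^ 2 + 0 * u x + 0) ≤
      av p (fun x => (u x - 1) * (v x - 1)) :=
    sv_av_mono fun x => by nlinarith [sq_nonneg (u x + v x - 2)]
  have h5 := hu.2.2.2
  have h6 := hv.2.2.2
  rw [e, abs_le]
  constructor <;> linarith

lemma sv_norm {C τ : ℝ} {p : ℕ} (hp : 0 < p) (hτp : τ / p ≤ 1 / 2) {u v : ℕ → ℝ}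
    (hu : svCl C τ p u) (hv : svCl C τ p v) :
    svCl (2 * C ^ 2) (8 * (C ^ 2 + 1) * τ) p fun x => u x * v x / av p fun x => u x * v x := by
  have hm := abs_le.1 (sv_corr hp hu hv)
  set m := av p fun x => u x * v x with hmdef
  have hm2 : 1 / 2 ≤ m := by linarith [hm.1]
  have hm0 : 0 < m := by linarith
  have hC : 0 ≤ C := (hu.2.1 0).1.trans (hu.2.1 0).2
  refine ⟨fun x => by simp only [hu.1 x, hv.1 x], fun x => ⟨?_, ?_⟩, ?_, ?_⟩
  · exact div_nonneg (mul_nonneg (hu.2.1 x).1 (hv.2.1 x).1) hm0.le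
  · rw [div_le_iff₀ hm0]
    have : u x * v x ≤ C * C := mul_le_mul (hu.2.1 x).2 (hv.2.1 x).2 (hv.2.1 x).1 hC
    nlinarith [sq_nonneg C]
  · have := sv_av_lin hp (fun x => u x * v x) u u m⁻¹ 0 0 0
    rw [show (fun x => u x * v x / m) =
      fun x => m⁻¹ * (u x * v x) + 0 * u x + 0 * u x + 0 from funext fun x => by ring, this,
      ← hmdef]
    field_simp
    ring
  · have h1 := sv_av_lin hp (fun x => (u x - 1) ^ 2) (fun x => (v x - 1) ^ 2) (fun x => u x * v x)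
      8 (8 * C ^ 2) (8 * (1 - m)) (4 * (m ^ 2 - 1))
    have h2 : av p (fun x => (u x * v x / m - 1) ^ 2) ≤ av p (fun x => 8 * (u x - 1) ^ 2 +
        8 * C ^ 2 * (v x - 1) ^ 2 + 8 * (1 - m) * (u x * v x) + 4 * (m ^ 2 - 1)) := by
      refine sv_av_mono fun x => ?_
      have a1 : (u x * v x / m - 1) ^ 2 ≤ 4 * (u x * v x - m) ^ 2 := by
        have e : (u x * v x / m - 1) ^ 2 = (u x * v x - m) ^ 2 / m ^ 2 := by field_simp
        rw [e, div_le_iff₀ (by positivity)]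
        have : 1 ≤ 4 * m ^ 2 := by nlinarith
        nlinarith [sq_nonneg (u x * v x - m)]
      have a2 : u x ^ 2 ≤ C ^ 2 := pow_le_pow_left₀ (hu.2.1 x).1 (hu.2.1 x).2 2
      have a3 : u x ^ 2 * (v x - 1) ^ 2 ≤ C ^ 2 * (v x - 1) ^ 2 := by gcongr
      nlinarith [sq_nonneg (u x * (v x - 1) - (u x - 1))]
    rw [h1, ← hmdef] at h2
    have h5 := hu.2.2.2
    have h6 : 8 * C ^ 2 * av p (fun x => (v x - 1) ^ 2) ≤ 8 * C ^ 2 * (τ / p) := by
      gcongr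
      exact hv.2.2.2
    have e : 8 * (C ^ 2 + 1) * τ / p = 8 * (τ / p) + 8 * C ^ 2 * (τ / p) := by ring
    rw [e]
    nlinarith [sq_nonneg (m - 1)]

lemma svM_per {p : ℕ} {u : ℕ → ℝ} (h : Function.Periodic u p) : Per p (svM p u) := by
  intro a b
  unfold svM
  constructor
  · congr 1
    funext x
    rw [show (a + p, b).1 + x = a + x + p by simp only; ring, h]
  · congr 1
    funext x
    rw [show (a, b + p).2 + x = b + x + p by simp only; ring, h]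

lemma svM_mean {C τ : ℝ} {p : ℕ} (hp : 0 < p) {u : ℕ → ℝ} (h : svCl C τ p u) :
    mean p (svM p u) = 1 := by
  have hp' : (p : ℝ) ≠ 0 := by positivity
  have h1 : ∀ x, ∑ a ∈ Ioc 0 p, u (a + x) = p := by
    intro x
    have := av_shift h.1 x
    rw [h.2.2.1] at this
    unfold av at this
    rw [div_eq_one_iff_eq hp'] at this
    simpa only [add_comm] using this
  unfold mean svM av box
  rw [← sum_div, sum_comm]
  have h2 : ∀ x, ∑ z ∈ Ioc 0 p ×ˢ Ioc 0 p, u (z.1 + x) * u (z.2 + x) = (p : ℝ) ^ 2 := by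
    intro x
    rw [sum_product]
    simp only
    rw [← sum_mul_sum, h1, pow_two]
  simp only [h2, sum_const, Nat.card_Ioc, Nat.sub_zero, nsmul_eq_mul]
  field_simp

lemma svM_sq {C τ : ℝ} {p : ℕ} (hp : 0 < p) {u : ℕ → ℝ} (h : svCl C τ p u) :
    mean p (fun z => svM p u z ^ 2) ≤ 1 + τ ^ 2 * ((p : ℝ) ^ 2)⁻¹ := by
  have h1 := sv_mean_lin hp (svM p u) (svM p u) 2 0 ((τ / p) ^ 2 - 1)
  rw [svM_mean hp h] at h1
  have h2 : mean p (fun z => svM p u z ^ 2) ≤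
      mean p (fun z => 2 * svM p u z + 0 * svM p u z + ((τ / p) ^ 2 - 1)) := by
    refine sv_mean_mono fun z => ?_
    have a1 : |svM p u z - 1| ≤ τ / p := sv_corr hp (h.shift z.1) (h.shift z.2)
    have a2 := sq_le_sq' (abs_le.1 a1).1 (abs_le.1 a1).2
    nlinarith
  rw [h1] at h2
  calc _ ≤ _ := h2
    _ = _ := by ring

lemma sv_inv_sq {W : ℕ} (hW : 0 < W) (P : Finset ℕ) (hP : ∀ p ∈ P, W < p) :
    ∑ p ∈ P, ((p : ℝ) ^ 2)⁻¹ ≤ (W : ℝ)⁻¹ := by
  have hsub : P ⊆ Ioc W (max W (P.sup id)) := fun p hp =>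
    mem_Ioc.2 ⟨hP p hp, le_max_of_le_right (le_sup (f := id) hp)⟩
  refine (sum_le_sum_of_subset_of_nonneg hsub fun _ _ _ => by positivity).trans ?_
  refine (sum_Ioc_inv_sq_le_sub hW.ne' (le_max_left _ _)).trans ?_
  have : (0 : ℝ) ≤ ((max W (P.sup id) : ℕ) : ℝ)⁻¹ := by positivity
  linarith

/-- The product of the local correlations is close to one on average. -/
lemma sv_global {C τ e : ℝ} {W : ℕ} (hW : 0 < W) (he : 0 < e) (h1 : τ ^ 2 ≤ W)
    (h2 : 2 * τ ^ 2 ≤ e ^ 2 * W) (P : Finset ℕ) (u : ℕ → ℕ → ℝ) (hP : ∀ p ∈ P, W < p)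
    (hc : ∀ p ∈ P, ∀ p' ∈ P, p ≠ p' → Nat.Coprime p p') (hu : ∀ p ∈ P, svCl C τ p (u p)) :
    mean (∏ p ∈ P, p) (fun z => ∏ p ∈ P, svM p (u p) z) = 1 ∧
      mean (∏ p ∈ P, p) (fun z => |∏ p ∈ P, svM p (u p) z - 1|) ≤ e := by
  have hp0 : ∀ p ∈ P, 0 < p := fun p hp => hW.trans (hP p hp)
  have hN : 0 < ∏ p ∈ P, p := prod_pos hp0
  have hW' : (0 : ℝ) < W := by exact_mod_cast hW
  have a1 : mean (∏ p ∈ P, p) (fun z => ∏ p ∈ P, svM p (u p) z) = 1 := by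
    rw [mean_prod P (fun p => p) (fun p => svM p (u p)) (fun p hp => svM_per (hu p hp).1) hc]
    exact prod_eq_one fun p hp => svM_mean (hp0 p hp) (hu p hp)
  have a2 : mean (∏ p ∈ P, p) (fun z => (∏ p ∈ P, svM p (u p) z) ^ 2) ≤ 1 + e ^ 2 := by
    simp only [← prod_pow]
    rw [mean_prod P (fun p => p) (fun p z => svM p (u p) z ^ 2)
      (fun p hp => (svM_per (hu p hp).1).comp fun t => t ^ 2) hc]
    have b1 : τ ^ 2 * (W : ℝ)⁻¹ ≤ 1 := by rw [← div_eq_mul_inv, div_le_one hW']; exact h1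
    have b0 : 0 ≤ τ ^ 2 * (W : ℝ)⁻¹ := by positivity
    have b2 := Real.abs_exp_sub_one_le (x := τ ^ 2 * (W : ℝ)⁻¹) (by rwa [abs_of_nonneg b0])
    rw [abs_of_nonneg b0] at b2
    have b3 : 2 * (τ ^ 2 * (W : ℝ)⁻¹) ≤ e ^ 2 := by
      rw [← mul_assoc, ← div_eq_mul_inv, div_le_iff₀ hW']; exact h2
    calc ∏ p ∈ P, mean p (fun z => svM p (u p) z ^ 2)
        ≤ ∏ p ∈ P, Real.exp (τ ^ 2 * ((p : ℝ) ^ 2)⁻¹) := by
          refine prod_le_prod (fun p _ => mean_nonneg (fun z => sq_nonneg _) p) fun p hp => ?_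
          refine (svM_sq (hp0 p hp) (hu p hp)).trans ?_
          rw [add_comm]
          exact Real.add_one_le_exp _
      _ = Real.exp (τ ^ 2 * ∑ p ∈ P, ((p : ℝ) ^ 2)⁻¹) := by rw [← Real.exp_sum, mul_sum]
      _ ≤ Real.exp (τ ^ 2 * (W : ℝ)⁻¹) := by
          gcongr
          exact sv_inv_sq hW P hP
      _ ≤ 1 + e ^ 2 := by linarith [(abs_le.1 b2).2]
  refine ⟨a1, ?_⟩
  have a3 := sv_mean_lin hN (fun z => (∏ p ∈ P, svM p (u p) z) ^ 2)
    (fun z => ∏ p ∈ P, svM p (u p) z) (1 / (2 * e)) (-1 / e) (e / 2 + 1 / (2 * e))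
  rw [a1] at a3
  calc _ ≤ mean (∏ p ∈ P, p) (fun z => 1 / (2 * e) * (∏ p ∈ P, svM p (u p) z) ^ 2 +
        -1 / e * (∏ p ∈ P, svM p (u p) z) + (e / 2 + 1 / (2 * e))) := by
        refine sv_mean_mono fun z => ?_
        set m := ∏ p ∈ P, svM p (u p) z
        have c1 : 1 / (2 * e) * m ^ 2 + -1 / e * m + (e / 2 + 1 / (2 * e)) =
            ((m - 1) ^ 2 + e ^ 2) / (2 * e) := by field_simp; ring
        rw [c1, le_div_iff₀ (by positivity), ← sq_abs (m - 1)]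
        nlinarith [sq_nonneg (|m - 1| - e)]
    _ ≤ 1 / (2 * e) * (1 + e ^ 2) + -1 / e * 1 + (e / 2 + 1 / (2 * e)) := by
        rw [a3]
        gcongr
    _ = e := by field_simp; ring

lemma sv_const {s : ℕ} {H : Type} (S : Finset H) {G : Fin s → (Fin s → H) → ℝ} (hG : Adm G) :
    |∑ g ∈ Fintype.piFinset fun _ : Fin s => S, ∏ r, G r g| ≤ (S.card : ℝ) ^ s := by
  refine (abs_sum_le_sum_abs _ _).trans ?_
  calc _ ≤ ∑ _g ∈ Fintype.piFinset fun _ : Fin s => S, (1 : ℝ) := by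
        refine sum_le_sum fun g _ => ?_
        rw [abs_prod]
        exact prod_le_one (fun _ _ => abs_nonneg _) fun r _ => hG.1 r g
    _ = _ := by simp

/-- SV. Small cut norm for products of nearly constant local factors. -/
theorem sv (s : ℕ) (C τ δ : ℝ) (hC : 1 ≤ C) (hτ : 0 ≤ τ) (hδ : 0 < δ) :
    ∃ W0 : ℕ, ∀ (P : Finset ℕ) (u : ℕ → ℕ → ℝ), (∀ p ∈ P, W0 < p) →
      (∀ p ∈ P, ∀ p' ∈ P, p ≠ p' → Nat.Coprime p p') →
      (∀ p ∈ P, Function.Periodic (u p) p ∧ (∀ x, 0 ≤ u p x ∧ u p x ≤ C) ∧ av p (u p) = 1 ∧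
        av p (fun x => (u p x - 1) ^ 2) ≤ τ / p) →
      Cut (s := s + 1) (Ioc 0 (∏ p ∈ P, p)) (fun t => ∏ p ∈ P, u p (∑ r, t r) - 1) δ := by
  induction s generalizing C τ δ with
  | zero =>
    refine ⟨0, fun P u hP hc hu => ?_⟩
    have hN : 0 < ∏ p ∈ P, p := prod_pos hP
    have hN' : ((∏ p ∈ P, p : ℕ) : ℝ) ≠ 0 := by positivity
    have h1 := av_prod P (fun p => p) u (fun p hp => (hu p hp).1) hc
    rw [prod_eq_one fun p hp => (hu p hp).2.2.1] at h1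
    unfold av at h1
    rw [div_eq_one_iff_eq hN'] at h1
    have h2 := cut_one (Ioc 0 (∏ p ∈ P, p)) (fun a => ∏ p ∈ P, u p a - 1) (b := δ) (by
      rw [sum_sub_distrib, h1]
      simp only [sum_const, Nat.card_Ioc, Nat.sub_zero, nsmul_eq_mul, mul_one, sub_self, abs_zero]
      positivity)
    simpa using h2
  | succ s ih =>
    have hC2 : C ≤ 2 * C ^ 2 := by nlinarith
    have hτ2 : τ ≤ 8 * (C ^ 2 + 1) * τ := by nlinarith [sq_nonneg C]
    obtain ⟨W1, hW1⟩ := ih (2 * C ^ 2) (8 * (C ^ 2 + 1) * τ) (δ ^ 2 / 6) (hC.trans hC2)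
      (hτ.trans hτ2) (by positivity)
    obtain ⟨W2, hW2⟩ := exists_nat_ge (max (max (2 * τ) (τ ^ 2)) (2 * τ ^ 2 / (δ ^ 2 / 2) ^ 2))
    refine ⟨W1 + W2 + 1, fun P u hP hc hu F hF => ?_⟩
    have hp0 : ∀ p ∈ P, 0 < p := fun p hp => by have := hP p hp; omega
    have hP1 : ∀ p ∈ P, W1 < p := fun p hp => by have := hP p hp; omega
    have hW3 : (W2 : ℝ) ≤ ((W1 + W2 + 1 : ℕ) : ℝ) := by exact_mod_cast (by omega)
    have hτp : ∀ p ∈ P, τ / p ≤ 1 / 2 := by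
      intro p hp
      have h1 : (0 : ℝ) < p := by exact_mod_cast hp0 p hp
      have h2 : ((W1 + W2 + 1 : ℕ) : ℝ) ≤ p := by exact_mod_cast (hP p hp).le
      have h3 : 2 * τ ≤ W2 := ((le_max_left _ _).trans (le_max_left _ _)).trans hW2
      rw [div_le_iff₀ h1]
      linarith
    obtain ⟨g1, g2⟩ := sv_global (C := C) (τ := τ) (e := δ ^ 2 / 2) (W := W1 + W2 + 1) (by omega)
      (by positivity) ((((le_max_right _ _).trans (le_max_left _ _)).trans hW2).trans hW3)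
      (by
        have h1 := ((le_max_right _ _).trans hW2).trans hW3
        rw [div_le_iff₀ (by positivity)] at h1
        linarith) P u hP hc hu
    set N := ∏ p ∈ P, p with hNdef
    have hN : 0 < N := prod_pos hp0
    have hN' : (0 : ℝ) < N := by exact_mod_cast hN
    have hcard : ((Ioc 0 N).card : ℝ) = N := by simp
    set Y := Fintype.piFinset fun _ : Fin (s + 1) => Ioc 0 N with hY
    have key : ∀ z : ℕ × ℕ, ∑ g ∈ Y, ((∏ p ∈ P, u p (z.1 + ∑ r, g r) - 1) *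
          ∏ r : Fin (s + 1), F r.succ (Fin.cons z.1 g)) *
        ((∏ p ∈ P, u p (z.2 + ∑ r, g r) - 1) * ∏ r : Fin (s + 1), F r.succ (Fin.cons z.2 g)) ≤
        (δ ^ 2 / 6 * ∏ p ∈ P, svM p (u p) z + |∏ p ∈ P, svM p (u p) z - 1| + δ ^ 2 / 3) *
          (N : ℝ) ^ (s + 1) := by
      intro z
      have hG := adm_pair hF z.1 z.2
      set G := fun (r : Fin (s + 1)) (g : Fin (s + 1) → ℕ) =>
        F r.succ (Fin.cons z.1 g) * F r.succ (Fin.cons z.2 g) with hGdef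
      have hm : ∀ p ∈ P, 0 < svM p (u p) z := by
        intro p hp
        have := (abs_le.1 (sv_corr (hp0 p hp) (svCl.shift (hu p hp) z.1)
          (svCl.shift (hu p hp) z.2))).1
        have h2 := hτp p hp
        unfold svM
        linarith
      have hm0 : 0 < ∏ p ∈ P, svM p (u p) z := prod_pos hm
      have c1 := hW1 P (fun p x => u p (z.1 + x)) hP1 hc
        (fun p hp => (svCl.shift (hu p hp) z.1).mono hC2 hτ2) G hG
      have c2 := hW1 P (fun p x => u p (z.2 + x)) hP1 hc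
        (fun p hp => (svCl.shift (hu p hp) z.2).mono hC2 hτ2) G hG
      have c3 := hW1 P (fun p x => u p (z.1 + x) * u p (z.2 + x) / svM p (u p) z) hP1 hc
        (fun p hp => sv_norm (hp0 p hp) (hτp p hp) (svCl.shift (hu p hp) z.1)
          (svCl.shift (hu p hp) z.2)) G hG
      have c4 := sv_const (Ioc 0 N) hG
      rw [← hNdef, ← hY, hcard] at c1 c2 c3
      rw [← hY, hcard] at c4
      set m := ∏ p ∈ P, svM p (u p) z with hmdef
      have e : ∑ g ∈ Y, ((∏ p ∈ P, u p (z.1 + ∑ r, g r) - 1) *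
          ∏ r : Fin (s + 1), F r.succ (Fin.cons z.1 g)) *
          ((∏ p ∈ P, u p (z.2 + ∑ r, g r) - 1) * ∏ r : Fin (s + 1), F r.succ (Fin.cons z.2 g)) =
          m * ∑ g ∈ Y, (∏ p ∈ P, u p (z.1 + ∑ r, g r) * u p (z.2 + ∑ r, g r) / svM p (u p) z -
              1) * ∏ r, G r g -
            ∑ g ∈ Y, (∏ p ∈ P, u p (z.1 + ∑ r, g r) - 1) * ∏ r, G r g -
            ∑ g ∈ Y, (∏ p ∈ P, u p (z.2 + ∑ r, g r) - 1) * ∏ r, G r g +
            (m - 1) * ∑ g ∈ Y, ∏ r, G r g := by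
        rw [mul_sum, mul_sum, ← sum_sub_distrib, ← sum_sub_distrib, ← sum_add_distrib]
        refine sum_congr rfl fun g _ => ?_
        simp only [hGdef, prod_div_distrib, prod_mul_distrib, ← hmdef]
        field_simp
        ring
      rw [e]
      have d3 := mul_le_mul_of_nonneg_left (abs_le.1 c3).2 hm0.le
      have d4 : (m - 1) * ∑ g ∈ Y, ∏ r, G r g ≤ |m - 1| * (N : ℝ) ^ (s + 1) := by
        refine (le_abs_self _).trans ?_
        rw [abs_mul]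
        gcongr
      linarith [(abs_le.1 c1).1, (abs_le.1 c2).1]
    have h1 := cs_step (Ioc 0 N) (fun t => ∏ p ∈ P, u p (∑ r, t r) - 1) hF
    simp only [Fin.sum_univ_succ (n := s + 1), Fin.cons_zero, Fin.cons_succ] at h1
    rw [← hY, hcard] at h1
    have h2 : ∑ g ∈ Y, (∑ a ∈ Ioc 0 N, (∏ p ∈ P, u p (a + ∑ r, g r) - 1) *
          ∏ r : Fin (s + 1), F r.succ (Fin.cons a g)) ^ 2 ≤
        δ ^ 2 * (N : ℝ) ^ 2 * (N : ℝ) ^ (s + 1) := by
      simp only [pow_two (∑ a ∈ Ioc 0 N, _), sum_mul_sum, ← sum_product']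
      rw [sum_product_right]
      dsimp only
      refine (sum_le_sum fun z _ => key z).trans ?_
      rw [← sum_mul]
      gcongr
      have h3 := sv_mean_lin hN (fun z => ∏ p ∈ P, svM p (u p) z)
        (fun z => |∏ p ∈ P, svM p (u p) z - 1|) (δ ^ 2 / 6) 1 (δ ^ 2 / 3)
      rw [g1] at h3
      have h4 : mean N (fun z => δ ^ 2 / 6 * ∏ p ∈ P, svM p (u p) z +
          1 * |∏ p ∈ P, svM p (u p) z - 1| + δ ^ 2 / 3) ≤ δ ^ 2 := by
        rw [h3]; linarith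
      unfold mean box at h4
      rw [div_le_iff₀ (by positivity)] at h4
      simpa only [one_mul] using h4
    rw [hcard]
    refine abs_le_of_sq_le_sq ?_ (by positivity)
    simp only [Fin.sum_univ_succ (n := s + 1)]
    refine h1.trans ?_
    calc _ ≤ (N : ℝ) ^ (s + 1) * (δ ^ 2 * (N : ℝ) ^ 2 * (N : ℝ) ^ (s + 1)) := by gcongr
      _ = _ := by ring

end Pool.Agent.Lib.MP_0a3467_an.Cv
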