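import Pool.Agent.Lib.MP_0a3467_an.Cv.PerM

open Finset

namespace Pool.Agent.Lib.MP_0a3467_an.Cv

theorem rs_nonneg (P : Finset ℕ) : 0 ≤ rs P :=
  Finset.sum_nonneg fun p _ => by positivity

theorem pw_nonneg (P : Finset ℕ) (p : ℕ) : 0 ≤ pw P p := by
  have := rs_nonneg P
  unfold pw
  positivity

theorem sum_pw {P : Finset ℕ} (h : 0 < rs P) : ∑ p ∈ P, pw P p = 1 := by
  have e : ∀ p : ℕ, pw P p = (rs P)⁻¹ * (1 / (p : ℝ)) := fun p => by
    unfold pw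
    rw [one_div, one_div, mul_inv]
  simp only [e, ← Finset.mul_sum]
  exact inv_mul_cancel₀ h.ne'

/-- Sums over a box of a product of mixtures of periodic functions. -/
theorem TK_mix {l : ℕ} {ι : Type} (T : Fin (l + 1) → Finset ι) (m : ι → ℕ)
    (f : Fin (l + 1) → ι → ℕ → ℝ) (M N : ℕ) (h0 : ∀ j i x, 0 ≤ f j i x)
    (hp : ∀ j, ∀ i ∈ T j, Function.Periodic (f j i) (m i))
    (hm : ∀ j, ∀ i ∈ T j, 0 < m i ∧ m i ≤ M)
    (hc : ∀ j j', j ≠ j' → ∀ i ∈ T j, ∀ i' ∈ T j', Nat.Coprime (m i) (m i'))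
    (hN : M ^ (l + 1) ≤ N) :
    ∑ z ∈ box N, ∏ j, ∑ i ∈ T j, f j i (z.1 + j * z.2) ≤
        ((N : ℝ) + (M : ℝ) ^ (l + 1)) ^ 2 * ∏ j, ∑ i ∈ T j, av (m i) (f j i) ∧
      ((N : ℝ) - (M : ℝ) ^ (l + 1)) ^ 2 * ∏ j, ∑ i ∈ T j, av (m i) (f j i) ≤
        ∑ z ∈ box N, ∏ j, ∑ i ∈ T j, f j i (z.1 + j * z.2) := by
  classical
  simp only [Finset.prod_univ_sum]
  rw [Finset.sum_comm, Finset.mul_sum, Finset.mul_sum]
  have key : ∀ t ∈ Fintype.piFinset T,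
      ∑ z ∈ box N, ∏ j, f j (t j) (z.1 + j * z.2) ≤
        ((N : ℝ) + (M : ℝ) ^ (l + 1)) ^ 2 * ∏ j, av (m (t j)) (f j (t j)) ∧
      ((N : ℝ) - (M : ℝ) ^ (l + 1)) ^ 2 * ∏ j, av (m (t j)) (f j (t j)) ≤
        ∑ z ∈ box N, ∏ j, f j (t j) (z.1 + j * z.2) := by
    intro t ht
    have ht' : ∀ j, t j ∈ T j := Fintype.mem_piFinset.mp ht
    have hW : ∀ j ∈ (univ : Finset (Fin (l + 1))),
        Per (m (t j)) fun z => f j (t j) (z.1 + j * z.2) :=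
      fun j _ => per_form (hp j _ (ht' j)) j
    have hP := per_prod univ (fun j => m (t j)) _ hW
    have hM := mean_prod univ (fun j => m (t j)) _ hW
      fun j _ j' _ h => hc j j' h _ (ht' j) _ (ht' j')
    simp only [fun j => mean_form (hp j _ (ht' j)) j] at hM
    have hq : 0 < ∏ j, m (t j) := Finset.prod_pos fun j _ => (hm j _ (ht' j)).1
    have hq' : ∏ j, m (t j) ≤ M ^ (l + 1) := by
      have := Finset.prod_le_pow_card univ (fun j => m (t j)) M fun j _ => (hm j _ (ht' j)).2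
      simpa using this
    have hn : ∀ z : ℕ × ℕ, 0 ≤ ∏ j, f j (t j) (z.1 + j * z.2) :=
      fun z => Finset.prod_nonneg fun j _ => h0 _ _ _
    have h1 := rect_le hP hq hn 0 N 0 N
    have h2 := rect_ge hP hq hn 0 N 0 N (hq'.trans hN) (hq'.trans hN)
    rw [hM, zero_add] at h1 h2
    have hA : 0 ≤ ∏ j, av (m (t j)) (f j (t j)) :=
      Finset.prod_nonneg fun j _ => av_nonneg (h0 _ _) _
    have c1 : ((∏ j, m (t j) : ℕ) : ℝ) ≤ (M : ℝ) ^ (l + 1) := by exact_mod_cast hq'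
    have c2 : (M : ℝ) ^ (l + 1) ≤ N := by exact_mod_cast hN
    have c0 : (0 : ℝ) ≤ ((∏ j, m (t j) : ℕ) : ℝ) := Nat.cast_nonneg _
    constructor
    · refine h1.trans (mul_le_mul_of_nonneg_right ?_ hA)
      nlinarith
    · refine le_trans (mul_le_mul_of_nonneg_right ?_ hA) h2
      nlinarith
  exact ⟨Finset.sum_le_sum fun t ht => (key t ht).1, Finset.sum_le_sum fun t ht => (key t ht).2⟩

theorem TK_per (q : ℕ) (c : ℝ) : Function.Periodic (fun x => if q ∣ x then c else 0) q := by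
  intro x
  simp only [Nat.dvd_add_self_right]

theorem TK_om (P : Finset ℕ) (x : ℕ) :
    om P x = ∑ q ∈ P, if q ∣ x then (rs P)⁻¹ else 0 := by
  unfold om
  rw [← Finset.sum_filter, Finset.sum_const, nsmul_eq_mul, div_eq_mul_inv]

theorem TK_pair {q q' : ℕ} (hq : q.Prime) (hq' : q'.Prime) {c : ℝ} (hc : 0 ≤ c) :
    av (q * q') (fun x => (if q ∣ x then c else 0) * (if q' ∣ x then c else 0)) ≤
      c / q * (c / q') + if q = q' then c * (c / q) else 0 := by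
  by_cases h : q = q'
  · subst h
    have e : (fun x => (if q ∣ x then c else 0) * (if q ∣ x then c else 0)) =
        fun x => if q ∣ x then c * c else 0 := by
      funext x
      split_ifs <;> simp
    rw [e, av_mul_period (TK_per q _) hq.pos, av_dvd hq.pos, if_pos rfl, mul_div_assoc]
    have : 0 ≤ c / q * (c / q) := by positivity
    linarith
  · rw [av_mul (TK_per q c) (TK_per q' c) ((Nat.coprime_primes hq hq').mpr h), av_dvd hq.pos,
      av_dvd hq'.pos, if_neg h, add_zero]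

theorem TK_first {P : Finset ℕ} (hP : ∀ q ∈ P, q.Prime) (h : 0 < rs P) :
    ∑ q ∈ P, av q (fun x => if q ∣ x then (rs P)⁻¹ else 0) = 1 := by
  rw [← sum_pw h]
  refine Finset.sum_congr rfl fun q hq => ?_
  rw [av_dvd (hP q hq).pos, pw, one_div, mul_inv, div_eq_mul_inv]

theorem TK_second {P : Finset ℕ} (hP : ∀ q ∈ P, q.Prime) (h : 0 < rs P) :
    ∑ i ∈ P ×ˢ P, av (i.1 * i.2) (fun x => (if i.1 ∣ x then (rs P)⁻¹ else 0) *
      (if i.2 ∣ x then (rs P)⁻¹ else 0)) ≤ 1 + (rs P)⁻¹ := by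
  have h1 : ∑ q ∈ P, (rs P)⁻¹ / (q : ℝ) = 1 := by
    rw [← sum_pw h]
    refine Finset.sum_congr rfl fun q _ => ?_
    rw [pw, one_div, mul_inv, div_eq_mul_inv]
  refine (Finset.sum_le_sum fun i hi => TK_pair (hP _ (Finset.mem_product.mp hi).1)
    (hP _ (Finset.mem_product.mp hi).2) (inv_nonneg.mpr h.le)).trans_eq ?_
  rw [Finset.sum_add_distrib, Finset.sum_product, Finset.sum_product]
  dsimp only
  rw [← Finset.sum_mul_sum P P (fun q => (rs P)⁻¹ / (q : ℝ)) (fun q => (rs P)⁻¹ / (q : ℝ)), h1,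
    one_mul]
  congr 1
  rw [Finset.sum_congr rfl fun q hq => by rw [Finset.sum_ite_eq, if_pos hq], ← Finset.mul_sum, h1,
    mul_one]

theorem TK_small (l : ℕ) {e : ℝ} (he : 0 < e) :
    ∃ K : ℝ, 1 ≤ K ∧ (1 + K⁻¹) ^ 2 * (1 + K⁻¹) ^ (l + 1) - 2 * (1 - K⁻¹) ^ 2 + 1 ≤ e ^ 2 := by
  have h1 : Filter.Tendsto (fun K : ℝ => (1 + K⁻¹) ^ 2 * (1 + K⁻¹) ^ (l + 1) -
      2 * (1 - K⁻¹) ^ 2 + 1) Filter.atTop
      (nhds ((1 + 0) ^ 2 * (1 + 0) ^ (l + 1) - 2 * (1 - 0) ^ 2 + 1)) := by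
    have h := tendsto_inv_atTop_zero (𝕜 := ℝ)
    exact ((((h.const_add 1).pow 2).mul ((h.const_add 1).pow _)).sub
      (((h.const_sub 1).pow 2).const_mul 2)).add_const 1
  have h2 : ((1 + 0) ^ 2 * (1 + 0) ^ (l + 1) - 2 * (1 - 0) ^ 2 + 1 : ℝ) < e ^ 2 := by
    have : 0 < e ^ 2 := by positivity
    norm_num
    linarith
  obtain ⟨K, h3, h4⟩ := ((Filter.eventually_ge_atTop 1).and (h1.eventually_le_const h2)).exists
  exact ⟨K, h3, h4⟩

/-- TK2. Joint Turan-Kubilius inequality. -/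
theorem tk2 (l : ℕ) {e : ℝ} (he : 0 < e) :
    ∃ K0 : ℝ, 1 ≤ K0 ∧ ∀ (Q : Fin (l + 1) → Finset ℕ) (Z N : ℕ),
      (∀ j, ∀ q ∈ Q j, q.Prime ∧ q ≤ Z) → (Pairwise fun i j => Disjoint (Q i) (Q j)) →
      (∀ j, K0 ≤ rs (Q j)) → K0 * (Z : ℝ) ^ (2 * l + 2) ≤ N →
      ∑ z ∈ box N, |Pr l (fun j => om (Q j)) z - 1| ≤ e * (N : ℝ) ^ 2 := by
  obtain ⟨K, hK, hs⟩ := TK_small l he
  refine ⟨K, hK, fun Q Z N hQ hd hb hN => ?_⟩
  have hK0 : 0 < K := by linarith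
  have hr : ∀ j, 0 < rs (Q j) := fun j => hK0.trans_le (hb j)
  have hpow : (Z : ℝ) ^ (2 * l + 2) = ((Z * Z : ℕ) : ℝ) ^ (l + 1) := by
    push_cast
    rw [← pow_two, ← pow_mul]
    congr 1
  rw [hpow] at hN
  have hM0 : (0 : ℝ) ≤ ((Z * Z : ℕ) : ℝ) ^ (l + 1) := by positivity
  have hMN : (Z * Z) ^ (l + 1) ≤ N := by
    have : ((Z * Z : ℕ) : ℝ) ^ (l + 1) ≤ N := by nlinarith
    exact_mod_cast this
  have hcop : ∀ j j', j ≠ j' → ∀ q ∈ Q j, ∀ q' ∈ Q j', Nat.Coprime q q' := by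
    intro j j' h q hq q' hq'
    refine (Nat.coprime_primes (hQ j q hq).1 (hQ j' q' hq').1).mpr fun h' => ?_
    exact Finset.disjoint_left.mp (hd h) hq (h' ▸ hq')
  have hnn : ∀ (j : Fin (l + 1)) (q x : ℕ), 0 ≤ if q ∣ x then (rs (Q j))⁻¹ else 0 := by
    intro j q x
    have := hr j
    positivity
  have h1 := (TK_mix Q id (fun j q x => if q ∣ x then (rs (Q j))⁻¹ else 0) (Z * Z) N hnn
    (fun j q _ => TK_per q _)
    (fun j q hq => ⟨(hQ j q hq).1.pos, (hQ j q hq).2.trans (Nat.le_mul_self Z)⟩) hcop hMN).2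
  have h2 := (TK_mix (fun j => Q j ×ˢ Q j) (fun i => i.1 * i.2)
    (fun j i x => (if i.1 ∣ x then (rs (Q j))⁻¹ else 0) * (if i.2 ∣ x then (rs (Q j))⁻¹ else 0))
    (Z * Z) N (fun j i x => mul_nonneg (hnn _ _ _) (hnn _ _ _))
    (fun j i _ x => by
      simp only [(Nat.dvd_add_iff_left (Dvd.intro _ rfl : i.1 ∣ i.1 * i.2)).symm,
        (Nat.dvd_add_iff_left (Dvd.intro_left _ rfl : i.2 ∣ i.1 * i.2)).symm])
    (fun j i hi => by
      obtain ⟨ha, hb⟩ := Finset.mem_product.mp hi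
      exact ⟨Nat.mul_pos (hQ j _ ha).1.pos (hQ j _ hb).1.pos,
        Nat.mul_le_mul (hQ j _ ha).2 (hQ j _ hb).2⟩)
    (fun j j' h i hi i' hi' => by
      obtain ⟨ha, hb⟩ := Finset.mem_product.mp hi
      obtain ⟨ha', hb'⟩ := Finset.mem_product.mp hi'
      exact Nat.Coprime.mul_left
        (Nat.Coprime.mul_right (hcop j j' h _ ha _ ha') (hcop j j' h _ ha _ hb'))
        (Nat.Coprime.mul_right (hcop j j' h _ hb _ ha') (hcop j j' h _ hb _ hb'))) hMN).1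
  simp only [id, fun j => TK_first (fun q hq => (hQ j q hq).1) (hr j), Finset.prod_const_one,
    mul_one, ← TK_om] at h1
  have e2 : ∀ (j : Fin (l + 1)) (x : ℕ), ∑ a ∈ Q j, ∑ b ∈ Q j,
      (if a ∣ x then (rs (Q j))⁻¹ else 0) * (if b ∣ x then (rs (Q j))⁻¹ else 0) =
      om (Q j) x * om (Q j) x := fun j x => by rw [TK_om, Finset.sum_mul_sum]
  simp only [Finset.sum_product, e2, Finset.prod_mul_distrib] at h2
  have h3 : ∏ j : Fin (l + 1), ∑ a ∈ Q j, ∑ b ∈ Q j, av (a * b) (fun x =>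
      (if a ∣ x then (rs (Q j))⁻¹ else 0) * (if b ∣ x then (rs (Q j))⁻¹ else 0)) ≤
      (1 + K⁻¹) ^ (l + 1) := by
    have : (1 + K⁻¹) ^ (l + 1) = ∏ _j : Fin (l + 1), (1 + K⁻¹) := by simp
    rw [this]
    refine Finset.prod_le_prod (fun j _ => Finset.sum_nonneg fun a _ => Finset.sum_nonneg
      fun b _ => av_nonneg (fun x => mul_nonneg (hnn _ _ _) (hnn _ _ _)) _) fun j _ => ?_
    have := TK_second (fun q hq => (hQ j q hq).1) (hr j)
    rw [Finset.sum_product] at this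
    exact this.trans (by gcongr; exact hb j)
  set M := ((Z * Z : ℕ) : ℝ) ^ (l + 1)
  set t := K⁻¹ with ht
  have ht0 : 0 ≤ t := by positivity
  have ht1 : t ≤ 1 := inv_le_one_of_one_le₀ hK
  have hMt : M ≤ t * N := by
    rw [ht, le_inv_mul_iff₀ hK0]
    exact hN
  have hN0 : (0 : ℝ) ≤ N := Nat.cast_nonneg _
  have h4 : ((N : ℝ) * (1 - t)) ^ 2 ≤ (N - M) ^ 2 :=
    pow_le_pow_left₀ (mul_nonneg hN0 (by linarith)) (by linarith) 2
  have h5 : ((N : ℝ) + M) ^ 2 ≤ (N * (1 + t)) ^ 2 :=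
    pow_le_pow_left₀ (by linarith) (by linarith) 2
  have h6 := h2.trans ((mul_le_mul_of_nonneg_left h3 (sq_nonneg _)).trans
    (mul_le_mul_of_nonneg_right h5 (by positivity)))
  have h7 := h4.trans h1
  have hcard : ((box N).card : ℝ) = (N : ℝ) ^ 2 := by
    simp [box, sq]
  have h8 : ∀ z ∈ box N, |Pr l (fun j => om (Q j)) z - 1| ≤ e / 2 + (2 * e)⁻¹ *
      (Pr l (fun j => om (Q j)) z * Pr l (fun j => om (Q j)) z -
        2 * Pr l (fun j => om (Q j)) z + 1) := by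
    intro z _
    set x := Pr l (fun j => om (Q j)) z
    have e1 : x * x - 2 * x + 1 = |x - 1| ^ 2 := by
      rw [sq_abs]
      ring
    have e2 : e / 2 + (2 * e)⁻¹ * |x - 1| ^ 2 - |x - 1| = (2 * e)⁻¹ * (|x - 1| - e) ^ 2 := by
      field_simp
      ring
    have e3 : 0 ≤ (2 * e)⁻¹ * (|x - 1| - e) ^ 2 := by positivity
    rw [e1]
    linarith
  refine (Finset.sum_le_sum h8).trans ?_
  rw [Finset.sum_add_distrib, ← Finset.mul_sum, Finset.sum_add_distrib, Finset.sum_sub_distrib,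
    ← Finset.mul_sum, Finset.sum_const, Finset.sum_const, nsmul_eq_mul, nsmul_eq_mul, hcard]
  unfold Pr
  have h9 := mul_le_mul_of_nonneg_left hs (sq_nonneg (N : ℝ))
  have h10 : (2 * e)⁻¹ * ((N : ℝ) ^ 2 * e ^ 2) = (N : ℝ) ^ 2 * (e / 2) := by
    field_simp
  have h11 : ∀ a : ℝ, a ≤ (N : ℝ) ^ 2 * e ^ 2 →
      (N : ℝ) ^ 2 * (e / 2) + (2 * e)⁻¹ * a ≤ e * (N : ℝ) ^ 2 := by
    intro a ha
    have := mul_le_mul_of_nonneg_left ha (by positivity : 0 ≤ (2 * e)⁻¹)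
    linarith
  refine h11 _ ?_
  beta_reduce
  nlinarith

end Pool.Agent.Lib.MP_0a3467_an.Cv
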