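import Pool.Agent.Lib.MP_0a3467_an.Cv.Sieve

open Finset

namespace Pool.Agent.Lib.MP_0a3467_an.Cv

/-- The power function restricted to smooth numbers. -/
noncomputable def thinA (σ : ℝ) (y : ℕ) : ArithmeticFunction ℝ :=
  ⟨fun m => if m ≠ 0 ∧ ∀ p ∈ m.primeFactors, p ≤ y then aS σ m else 0, by simp⟩

/-- The sieve weight as an arithmetic function. -/
noncomputable def thinW (σ : ℝ) (y : ℕ) : ArithmeticFunction ℝ :=
  ⟨fun m => if m = 0 then 0 else wt σ y m, by simp⟩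

lemma thin_aS_mul (σ : ℝ) (m n : ℕ) : aS σ (m * n) = aS σ m * aS σ n := by
  unfold aS
  rw [Nat.cast_mul, Real.mul_rpow (Nat.cast_nonneg _) (Nat.cast_nonneg _)]

lemma thin_aS_one (σ : ℝ) : aS σ 1 = 1 := by simp [aS]

lemma thin_aS_nonneg (σ : ℝ) (m : ℕ) : 0 ≤ aS σ m := Real.rpow_nonneg (Nat.cast_nonneg _) _

lemma thin_aS_anti {σ : ℝ} (hσ : 0 < σ) {m n : ℕ} (hm : 0 < m) (h : m ≤ n) : aS σ n ≤ aS σ m :=
  Real.rpow_le_rpow_of_nonpos (by exact_mod_cast hm) (by exact_mod_cast h) (by linarith)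

lemma thinA_apply (σ : ℝ) (y m : ℕ) :
    thinA σ y m = if m ≠ 0 ∧ ∀ p ∈ m.primeFactors, p ≤ y then aS σ m else 0 := rfl

lemma thinW_apply (σ : ℝ) (y m : ℕ) : thinW σ y m = if m = 0 then 0 else wt σ y m := rfl

lemma thinA_one (σ : ℝ) (y : ℕ) : thinA σ y 1 = 1 := by
  simp [thinA_apply, thin_aS_one]

lemma thinA_mul (σ : ℝ) (y : ℕ) {m n : ℕ} (hm : m ≠ 0) (hn : n ≠ 0) :
    thinA σ y (m * n) = thinA σ y m * thinA σ y n := by
  rw [thinA_apply, thinA_apply, thinA_apply, Nat.primeFactors_mul hm hn]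
  by_cases h1 : ∀ p ∈ m.primeFactors, p ≤ y
  · by_cases h2 : ∀ p ∈ n.primeFactors, p ≤ y
    · rw [if_pos ⟨mul_ne_zero hm hn, fun p hp => (mem_union.1 hp).elim (h1 p) (h2 p)⟩,
        if_pos ⟨hm, h1⟩, if_pos ⟨hn, h2⟩, thin_aS_mul]
    · rw [if_neg fun h => h2 fun p hp => h.2 p (mem_union_right _ hp), if_pos ⟨hm, h1⟩,
        if_neg fun h => h2 h.2, mul_zero]
  · rw [if_neg fun h => h1 fun p hp => h.2 p (mem_union_left _ hp), if_neg fun h => h1 h.2,
      zero_mul]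

lemma thinA_pow (σ : ℝ) (y : ℕ) {p : ℕ} (hp : p ≠ 0) (k : ℕ) :
    thinA σ y (p ^ k) = thinA σ y p ^ k := by
  induction k with
  | zero => rw [pow_zero, pow_zero, thinA_one]
  | succ k ih => rw [pow_succ, pow_succ, thinA_mul σ y (pow_ne_zero _ hp) hp, ih]

lemma thinA_nonneg (σ : ℝ) (y m : ℕ) : 0 ≤ thinA σ y m := by
  rw [thinA_apply]
  split_ifs
  · exact thin_aS_nonneg σ m
  · exact le_rfl

lemma thinA_eq (σ : ℝ) {y m : ℕ} (hm : m ≠ 0) (h : m ≤ y) : thinA σ y m = aS σ m := by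
  rw [thinA_apply, if_pos ⟨hm, fun p hp => (Nat.le_of_mem_primeFactors hp).trans h⟩]

lemma thin_wt_one (σ : ℝ) (y : ℕ) : wt σ y 1 = 1 := by
  unfold wt
  refine prod_eq_one fun p hp => ?_
  rw [if_neg (Nat.mem_primesLE.1 hp).2.not_dvd_one, sub_zero]

lemma thin_wt_mul (σ : ℝ) (y : ℕ) {m n : ℕ} (h : m.Coprime n) :
    wt σ y (m * n) = wt σ y m * wt σ y n := by
  unfold wt
  rw [← prod_mul_distrib]
  refine prod_congr rfl fun p hp => ?_
  have hp' := (Nat.mem_primesLE.1 hp).2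
  by_cases h1 : p ∣ m
  · have h2 : ¬p ∣ n := fun h2 => hp'.not_dvd_one (h ▸ Nat.dvd_gcd h1 h2)
    rw [if_pos (h1.mul_right n), if_pos h1, if_neg h2, sub_zero, mul_one]
  · by_cases h2 : p ∣ n
    · rw [if_pos (h2.mul_left m), if_neg h1, if_pos h2, sub_zero, one_mul]
    · rw [if_neg fun h3 => (hp'.dvd_mul.1 h3).elim h1 h2, if_neg h1, if_neg h2, sub_zero, mul_one]

lemma thin_wt_pow (σ : ℝ) (y : ℕ) {p : ℕ} (hp : p.Prime) (k : ℕ) :
    wt σ y (p ^ (k + 1)) = 1 - thinA σ y p := by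
  unfold wt
  have key : ∀ q ∈ y.primesLE, q ≠ p → (1 - if q ∣ p ^ (k + 1) then aS σ q else 0) = 1 := by
    intro q hq hne
    have hq' := (Nat.mem_primesLE.1 hq).2
    rw [if_neg fun h => hne ((Nat.prime_dvd_prime_iff_eq hq' hp).1 (hq'.dvd_of_dvd_pow h)),
      sub_zero]
  by_cases h : p ≤ y
  · rw [prod_eq_single_of_mem p (Nat.mem_primesLE.2 ⟨h, hp⟩) key,
      if_pos (dvd_pow_self p k.succ_ne_zero), thinA_eq σ hp.ne_zero h]
  · rw [thinA_apply, if_neg fun h' => h (h'.2 p (by simp [hp.primeFactors])), sub_zero]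
    exact prod_eq_one fun q hq => key q hq fun e => h (e ▸ (Nat.mem_primesLE.1 hq).1)

lemma thin_geom (α : ℝ) (w : ℕ → ℝ) (h0 : w 0 = 1) (h1 : ∀ i, w (i + 1) = 1 - α) (k : ℕ) :
    ∑ i ∈ range (k + 1), w i * α ^ (k - i) = 1 := by
  induction k with
  | zero => simp [h0]
  | succ k ih =>
    rw [sum_range_succ, h1, Nat.sub_self, pow_zero, mul_one]
    have : ∑ i ∈ range (k + 1), w i * α ^ (k + 1 - i) =
        (∑ i ∈ range (k + 1), w i * α ^ (k - i)) * α := by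
      rw [sum_mul]
      refine sum_congr rfl fun i hi => ?_
      rw [show k + 1 - i = k - i + 1 by have := mem_range.1 hi; omega, pow_succ, mul_assoc]
    rw [this, ih]
    ring

lemma thin_id (σ : ℝ) (y : ℕ) {n : ℕ} (hn : 0 < n) :
    ∑ d ∈ n.divisors, wt σ y d * thinA σ y (n / d) = 1 := by
  have mA : (thinA σ y).IsMultiplicative :=
    ArithmeticFunction.IsMultiplicative.iff_ne_zero.2
      ⟨thinA_one σ y, fun hm hn _ => thinA_mul σ y hm hn⟩
  have mW : (thinW σ y).IsMultiplicative :=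
    ArithmeticFunction.IsMultiplicative.iff_ne_zero.2
      ⟨by rw [thinW_apply, if_neg one_ne_zero, thin_wt_one], fun hm hn h => by
        rw [thinW_apply, thinW_apply, thinW_apply, if_neg (mul_ne_zero hm hn), if_neg hm,
          if_neg hn, thin_wt_mul σ y h]⟩
  have ev : ∀ m : ℕ, (thinW σ y * thinA σ y) m =
      ∑ d ∈ m.divisors, wt σ y d * thinA σ y (m / d) := by
    intro m
    rw [ArithmeticFunction.mul_apply,
      Nat.sum_divisorsAntidiagonal fun a b => thinW σ y a * thinA σ y b]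
    refine sum_congr rfl fun d hd => ?_
    rw [thinW_apply, if_neg (Nat.pos_of_mem_divisors hd).ne']
  have mZ : ((ArithmeticFunction.zeta : ArithmeticFunction ℕ) :
      ArithmeticFunction ℝ).IsMultiplicative := ArithmeticFunction.isMultiplicative_zeta.natCast
  have e := (ArithmeticFunction.IsMultiplicative.eq_iff_eq_on_prime_powers _ (mW.mul mA) _
    mZ).2 fun p k hp => by
      rw [ev, Nat.sum_divisors_prime_pow hp, ArithmeticFunction.natCoe_apply,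
        ArithmeticFunction.zeta_apply, if_neg (pow_ne_zero _ hp.ne_zero), Nat.cast_one,
        ← thin_geom (thinA σ y p) (fun i => wt σ y (p ^ i)) (by rw [pow_zero, thin_wt_one])
          (thin_wt_pow σ y hp) k]
      refine sum_congr rfl fun i hi => ?_
      rw [Nat.pow_div (by have := mem_range.1 hi; omega) hp.pos, thinA_pow σ y hp.ne_zero]
  rw [← ev, e, ArithmeticFunction.natCoe_apply, ArithmeticFunction.zeta_apply, if_neg hn.ne',
    Nat.cast_one]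

/-- The thinning identity, as an inequality. -/
theorem thin_div {σ : ℝ} (hσ : 0 < σ) (y : ℕ) {n : ℕ} (hn : 0 < n) :
    ∑ d ∈ n.divisors.filter (fun d => n / d ≤ y), wt σ y d * aS σ (n / d) ≤ 1 := by
  rw [← thin_id σ y hn]
  have e : ∑ d ∈ n.divisors.filter (fun d => n / d ≤ y), wt σ y d * aS σ (n / d) =
      ∑ d ∈ n.divisors.filter (fun d => n / d ≤ y), wt σ y d * thinA σ y (n / d) := by
    refine sum_congr rfl fun d hd => ?_
    obtain ⟨h1, h2⟩ := mem_filter.1 hd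
    rw [thinA_eq σ (Nat.div_pos (Nat.divisor_le h1) (Nat.pos_of_mem_divisors h1)).ne' h2]
  rw [e]
  exact sum_le_sum_of_subset_of_nonneg (filter_subset _ _) fun d _ _ =>
    mul_nonneg (wt_nonneg hσ y d) (thinA_nonneg σ y _)

lemma thin_win (N : ℕ) (Ys : ℕ → ℕ) (hY : StrictMono Ys) (h0 : 0 < Ys 0) (G : ℕ → ℝ) (t : ℕ) :
    ∑ i ∈ range t, ∑ R ∈ win N Ys i, G R = ∑ R ∈ Ioc (N / Ys t) (N / Ys 0), G R := by
  induction t with
  | zero => simp
  | succ t ih =>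
    rw [sum_range_succ, ih, add_comm, win]
    have hp : 0 < Ys t := h0.trans_le (hY.monotone (Nat.zero_le t))
    exact sum_Ioc_consecutive G (Nat.div_le_div_left (hY.monotone t.le_succ) hp)
      (Nat.div_le_div_left (hY.monotone (Nat.zero_le t)) h0)

theorem thin_le {σ : ℝ} (hσ : 0 < σ) (y B B' N t : ℕ) (Ys : ℕ → ℕ) (hY : StrictMono Ys)
    (h0 : 0 < Ys 0) (hB : B' ≤ B) (hy : B * Ys t ≤ y) (φ : ℕ → ℝ) (hφ : ∀ x, 0 ≤ φ x) :
    ∑ i ∈ range t, ∑ R ∈ win N Ys i,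
        wt σ y R * aS σ (B * Ys i) * ∑ x ∈ Ioc 0 (B' * Ys i), φ (R * x) ≤
      ∑ n ∈ Ioc 0 (B' * N), φ n := by
  set F : ℕ × ℕ → ℝ := fun p => wt σ y p.1 * aS σ p.2 * φ (p.1 * p.2) with hF
  have F0 : ∀ p, 0 ≤ F p := fun p =>
    mul_nonneg (mul_nonneg (wt_nonneg hσ y _) (thin_aS_nonneg σ _)) (hφ _)
  set G : ℕ → ℝ := fun R => ∑ x ∈ Ioc 0 y, if R * x ≤ B' * N then F (R, x) else 0 with hG
  have G0 : ∀ R, 0 ≤ G R := fun R => sum_nonneg fun x _ => by
    split_ifs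
    · exact F0 _
    · exact le_rfl
  have s1 : ∀ i ∈ range t, ∀ R ∈ win N Ys i,
      wt σ y R * aS σ (B * Ys i) * ∑ x ∈ Ioc 0 (B' * Ys i), φ (R * x) ≤ G R := by
    intro i hi R hR
    have h1 : B' * Ys i ≤ B * Ys i := Nat.mul_le_mul_right _ hB
    have h2 : B * Ys i ≤ y :=
      (Nat.mul_le_mul_left _ (hY.monotone (mem_range.1 hi).le)).trans hy
    have h3 : R * Ys i ≤ N :=
      (Nat.mul_le_mul_right _ (mem_Ioc.1 hR).2).trans (Nat.div_mul_le_self _ _)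
    rw [mul_sum]
    refine le_trans (sum_le_sum fun x hx => ?_)
      (sum_le_sum_of_subset_of_nonneg (Ioc_subset_Ioc_right (h1.trans h2)) fun x _ _ => ?_)
    · obtain ⟨h4, h5⟩ := mem_Ioc.1 hx
      have h6 : R * x ≤ B' * N :=
        calc R * x ≤ R * (B' * Ys i) := Nat.mul_le_mul_left _ h5
          _ = B' * (R * Ys i) := by ring
          _ ≤ B' * N := Nat.mul_le_mul_left _ h3
      rw [if_pos h6]
      exact mul_le_mul_of_nonneg_right (mul_le_mul_of_nonneg_left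
        (thin_aS_anti hσ h4 (h5.trans h1)) (wt_nonneg hσ y R)) (hφ _)
    · split_ifs
      · exact F0 _
      · exact le_rfl
  refine (sum_le_sum fun i hi => sum_le_sum (s1 i hi)).trans ?_
  rw [thin_win N Ys hY h0 G t]
  refine (sum_le_sum_of_subset_of_nonneg (t := Ioc 0 N)
    (Ioc_subset_Ioc (Nat.zero_le _) (Nat.div_le_self _ _)) fun R _ _ => G0 R).trans ?_
  set A : Finset (ℕ × ℕ) := (Ioc 0 N ×ˢ Ioc 0 y).filter fun p => p.1 * p.2 ≤ B' * N with hA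
  have e1 : ∑ R ∈ Ioc 0 N, G R = ∑ p ∈ A, F p := by
    rw [hA, sum_filter, sum_product]
  have hmap : ∀ p ∈ A, p.1 * p.2 ∈ Ioc 0 (B' * N) := by
    intro p hp
    obtain ⟨h1, h2⟩ := mem_filter.1 hp
    obtain ⟨h3, h4⟩ := mem_product.1 h1
    exact mem_Ioc.2 ⟨Nat.mul_pos (mem_Ioc.1 h3).1 (mem_Ioc.1 h4).1, h2⟩
  rw [e1, ← sum_fiberwise_of_maps_to hmap]
  refine sum_le_sum fun n hn => ?_
  have hn0 : 0 < n := (mem_Ioc.1 hn).1
  have key : ∀ p ∈ A.filter (fun p => p.1 * p.2 = n), 0 < p.1 ∧ p.1 ∣ n ∧ p.2 = n / p.1 ∧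
      p.2 ≤ y := by
    intro p hp
    obtain ⟨h1, h2⟩ := mem_filter.1 hp
    obtain ⟨h3, h4⟩ := mem_product.1 (mem_filter.1 h1).1
    have h5 := (mem_Ioc.1 h3).1
    exact ⟨h5, ⟨_, h2.symm⟩, by rw [← h2, Nat.mul_div_cancel_left _ h5], (mem_Ioc.1 h4).2⟩
  have e2 : ∑ p ∈ A.filter (fun p => p.1 * p.2 = n), F p =
      ∑ d ∈ (A.filter fun p => p.1 * p.2 = n).image Prod.fst,
        wt σ y d * aS σ (n / d) * φ n := by
    rw [sum_image]
    · refine sum_congr rfl fun p hp => ?_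
      rw [← (key p hp).2.2.1, ← (mem_filter.1 hp).2]
    · intro p hp p' hp' e
      refine Prod.ext e ?_
      rw [(key p hp).2.2.1, (key p' hp').2.2.1, e]
  rw [e2]
  refine (sum_le_sum_of_subset_of_nonneg (t := n.divisors.filter fun d => n / d ≤ y) ?_
    fun d _ _ => mul_nonneg (mul_nonneg (wt_nonneg hσ y _) (thin_aS_nonneg σ _)) (hφ _)).trans ?_
  · intro d hd
    obtain ⟨p, hp, rfl⟩ := mem_image.1 hd
    obtain ⟨_, h2, h3, h4⟩ := key p hp
    exact mem_filter.2 ⟨Nat.mem_divisors.2 ⟨h2, hn0.ne'⟩, h3 ▸ h4⟩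
  · rw [← sum_mul]
    exact mul_le_of_le_one_left (hφ n) (thin_div hσ y hn0)

end Pool.Agent.Lib.MP_0a3467_an.Cv
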